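import Pool.Agent.H315R2.Sq.Defs

/-! # A1: basic facts on reduced pairs -/

open Polynomial Finset
open scoped Classical Pointwise

namespace H315

variable {G G' Q : Type} [AddCommGroup G] [AddCommGroup G'] [AddCommGroup Q]

/-- every pair of nonempty sets contains a reduced pair with at most the same ratio -/
theorem exists_red (α : ℝ) (A B : Finset G) (hA : A.Nonempty) (hB : B.Nonempty) :
    ∃ A' ⊆ A, ∃ B' ⊆ B, Red α A' B' ∧ ratio α A' B' ≤ ratio α A B := by
  have hfin : ({x : Finset G × Finset G | (x.1 ⊆ A ∧ x.2 ⊆ B) ∧ x.1.Nonempty ∧ x.2.Nonempty}).Finite := by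
    refine Set.Finite.subset ((A.powerset ×ˢ B.powerset).finite_toSet) ?_
    rintro ⟨x, y⟩ ⟨⟨h1, h2⟩, _⟩
    simp only [Finset.mem_coe, Finset.mem_product, Finset.mem_powerset]
    exact ⟨h1, h2⟩
  obtain ⟨x, hx, hmin⟩ := Set.exists_min_image _ (fun x : Finset G × Finset G => ratio α x.1 x.2)
    hfin ⟨(A, B), ⟨⟨Finset.Subset.refl A, Finset.Subset.refl B⟩, hA, hB⟩⟩
  obtain ⟨A', B'⟩ := x
  obtain ⟨⟨h1, h2⟩, h3, h4⟩ := hx
  have hAB := hmin (A, B) ⟨⟨Finset.Subset.refl A, Finset.Subset.refl B⟩, hA, hB⟩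
  refine ⟨A', h1, B', h2, ⟨h3, h4, ?_⟩, hAB⟩
  intro A'' hA'' B'' hB'' hAn hBn
  exact hmin (A'', B'') ⟨⟨hA''.trans h1, hB''.trans h2⟩, hAn, hBn⟩

theorem ratio_image (α : ℝ) (f : G →+ G') (hf : Function.Injective f) (c : G')
    (A B : Finset G) :
    ratio α (A.image f) (B.image (fun b => f b + c)) = ratio α A B := by
  have hfc : Function.Injective (fun b => f b + c) := fun x y h => hf (add_right_cancel h)
  have h : A.image f + B.image (fun b => f b + c) = (A + B).image (fun b => f b + c) := by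
    ext x
    simp only [Finset.mem_add, Finset.mem_image]
    constructor
    · rintro ⟨_, ⟨a, ha, rfl⟩, _, ⟨b, hb, rfl⟩, rfl⟩
      exact ⟨a + b, ⟨a, ha, b, hb, rfl⟩, by rw [map_add, add_assoc]⟩
    · rintro ⟨_, ⟨a, ha, b, hb, rfl⟩, rfl⟩
      exact ⟨f a, ⟨a, ha, rfl⟩, f b + c, ⟨b, hb, rfl⟩, by rw [map_add, add_assoc]⟩
  unfold ratio
  rw [h, Finset.card_image_of_injective _ hfc, Finset.card_image_of_injective _ hf,
    Finset.card_image_of_injective _ hfc]

theorem red_image_iff (α : ℝ) (f : G →+ G') (hf : Function.Injective f) (c : G')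
    (A B : Finset G) :
    Red α (A.image f) (B.image (fun b => f b + c)) ↔ Red α A B := by
  constructor
  · rintro ⟨h1, h2, h3⟩
    refine ⟨Finset.image_nonempty.mp h1, Finset.image_nonempty.mp h2,
      fun A' hA' B' hB' hA'n hB'n => ?_⟩
    have := h3 (A'.image f) (Finset.image_subset_image hA') (B'.image (fun b => f b + c))
      (Finset.image_subset_image hB') (hA'n.image _) (hB'n.image _)
    rwa [ratio_image α f hf c, ratio_image α f hf c] at this
  · rintro ⟨h1, h2, h3⟩
    refine ⟨h1.image _, h2.image _, fun A' hA' B' hB' hA'n hB'n => ?_⟩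
    obtain ⟨A'', hA'', rfl⟩ := Finset.subset_image_iff.mp hA'
    obtain ⟨B'', hB'', rfl⟩ := Finset.subset_image_iff.mp hB'
    rw [ratio_image α f hf c, ratio_image α f hf c]
    exact h3 A'' (by exact_mod_cast hA'') B'' (by exact_mod_cast hB'')
      (Finset.image_nonempty.mp hA'n) (Finset.image_nonempty.mp hB'n)

private lemma a1_pos (A : Finset G) (hA : A.Nonempty) : (1 : ℝ) ≤ A.card := by
  exact_mod_cast hA.card_pos

private lemma a1_ratio_pos (α : ℝ) (A B : Finset G) (hA : A.Nonempty) (hB : B.Nonempty) :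
    0 < ratio α A B := by
  unfold ratio
  have h1 := a1_pos A hA
  have h2 := a1_pos B hB
  have h3 := a1_pos (A + B) (hA.add hB)
  positivity

theorem card_rpow_neg_le_ratio (α : ℝ) (hα : 0 < α) (hα' : α < 1) (A B : Finset G)
    (hA : A.Nonempty) (hB : B.Nonempty) : (A.card : ℝ) ^ (-α) ≤ ratio α A B := by
  have h1 := a1_pos A hA
  have h2 := a1_pos B hB
  have h3 : (B.card : ℝ) ≤ ((A + B).card : ℝ) := by
    exact_mod_cast Finset.card_le_card_add_left hA
  unfold ratio
  rw [Real.mul_rpow (by linarith) (by linarith), Real.rpow_neg (by linarith),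
    le_div_iff₀ (by positivity)]
  have h4 : ((A.card : ℝ) ^ α)⁻¹ * ((A.card : ℝ) ^ α * (B.card : ℝ) ^ α) = (B.card : ℝ) ^ α := by
    field_simp
  rw [h4]
  calc (B.card : ℝ) ^ α ≤ (B.card : ℝ) ^ (1 : ℝ) :=
        Real.rpow_le_rpow_of_exponent_le h2 hα'.le
    _ = B.card := Real.rpow_one _
    _ ≤ _ := h3

/-- the local inequality -/
theorem local_ineq (α : ℝ) (hα : 0 < α) (φ : G →+ Q) (A B : Finset G) (h : Red α A B)
    (I : Finset (Q × Q)) (hI : Set.InjOn (fun x : Q × Q => x.1 + x.2) (I : Set (Q × Q))) :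
    ∑ x ∈ I, (frac φ A x.1 * frac φ B x.2) ^ α ≤ 1 := by
  obtain ⟨hA, hB, hmin⟩ := h
  have hA1 := a1_pos A hA
  have hB1 := a1_pos B hB
  set r := ratio α A B with hr
  have hr0 : 0 < r := a1_ratio_pos α A B hA hB
  have hAB : ((A + B).card : ℝ) = r * ((A.card : ℝ) * B.card) ^ α := by
    rw [hr, ratio, div_mul_cancel₀]
    positivity
  have hterm : ∀ x ∈ I, r * (((A.filter (fun g => φ g = x.1)).card : ℝ) *
      ((B.filter (fun g => φ g = x.2)).card : ℝ)) ^ α ≤
      (((A + B).filter (fun g => φ g = x.1 + x.2)).card : ℝ) := by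
    intro x _
    by_cases h1 : (A.filter (fun g => φ g = x.1)).Nonempty
    · by_cases h2 : (B.filter (fun g => φ g = x.2)).Nonempty
      · have h3 := hmin _ (Finset.filter_subset (fun g => φ g = x.1) A) _
          (Finset.filter_subset (fun g => φ g = x.2) B) h1 h2
        have h4 := a1_pos _ h1
        have h5 := a1_pos _ h2
        rw [ratio, le_div_iff₀ (by positivity)] at h3
        refine h3.trans ?_
        have : A.filter (fun g => φ g = x.1) + B.filter (fun g => φ g = x.2) ⊆
            (A + B).filter (fun g => φ g = x.1 + x.2) := by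
          intro g hg
          obtain ⟨a, ha, b, hb, rfl⟩ := Finset.mem_add.mp hg
          rw [Finset.mem_filter] at ha hb ⊢
          exact ⟨Finset.add_mem_add ha.1 hb.1, by rw [map_add, ha.2, hb.2]⟩
        exact_mod_cast Finset.card_le_card this
      · rw [Finset.not_nonempty_iff_eq_empty.mp h2]
        simp [Real.zero_rpow hα.ne']
    · rw [Finset.not_nonempty_iff_eq_empty.mp h1]
      simp [Real.zero_rpow hα.ne']
  have hsum : ∑ x ∈ I, (((A + B).filter (fun g => φ g = x.1 + x.2)).card : ℝ) ≤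
      ((A + B).card : ℝ) := by
    have hdisj : (I : Set (Q × Q)).PairwiseDisjoint
        (fun x => (A + B).filter (fun g => φ g = x.1 + x.2)) := by
      intro x hx y hy hxy
      rw [Function.onFun, Finset.disjoint_left]
      intro g hg hg'
      exact hxy (hI hx hy ((Finset.mem_filter.mp hg).2.symm.trans (Finset.mem_filter.mp hg').2))
    have := Finset.card_biUnion hdisj
    rw [← Nat.cast_sum, ← this]
    exact_mod_cast Finset.card_le_card (Finset.biUnion_subset.mpr fun x _ =>
      Finset.filter_subset _ _)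
  have h6 : ∀ x ∈ I, (frac φ A x.1 * frac φ B x.2) ^ α =
      (((A.filter (fun g => φ g = x.1)).card : ℝ) *
      ((B.filter (fun g => φ g = x.2)).card : ℝ)) ^ α / ((A.card : ℝ) * B.card) ^ α := by
    intro x _
    unfold frac
    rw [div_mul_div_comm, Real.div_rpow (by positivity) (by positivity)]
  rw [Finset.sum_congr rfl h6, ← Finset.sum_div, div_le_one (by positivity)]
  have h7 : r * ∑ x ∈ I, (((A.filter (fun g => φ g = x.1)).card : ℝ) *
      ((B.filter (fun g => φ g = x.2)).card : ℝ)) ^ α ≤ r * ((A.card : ℝ) * B.card) ^ α := by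
    rw [Finset.mul_sum, ← hAB]
    exact (Finset.sum_le_sum hterm).trans hsum
  exact le_of_mul_le_mul_left h7 hr0

/-- the local inequality is symmetric in `A` and `B` -/
theorem red_symm (α : ℝ) (A B : Finset G) (h : Red α A B) : Red α B A := by
  have hs : ∀ X Y : Finset G, ratio α X Y = ratio α Y X := by
    intro X Y
    unfold ratio
    rw [add_comm X Y, mul_comm (X.card : ℝ)]
  obtain ⟨h1, h2, h3⟩ := h
  refine ⟨h2, h1, fun B' hB' A' hA' hBn hAn => ?_⟩
  rw [hs B A, hs B' A']
  exact h3 A' hA' B' hB' hAn hBn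

theorem const_of_const (α : ℝ) (hα : 0 < α) (hα' : α < 1) (φ : G →+ Q) (A B : Finset G)
    (h : Red α A B) (κ : Q) (hc : ∀ s ∈ A, φ s = κ) : ∀ b ∈ B, ∀ b' ∈ B, φ b = φ b' := by
  have hA := h.1
  have hB := h.2.1
  have hA1 := a1_pos A hA
  have hB1 := a1_pos B hB
  have hinj : Set.InjOn (fun x : Q × Q => x.1 + x.2)
      (((B.image φ).image (fun l => (κ, l)) : Finset (Q × Q)) : Set (Q × Q)) := by
    intro x hx y hy hxy
    rw [Finset.mem_coe, Finset.mem_image] at hx hy
    obtain ⟨l, _, rfl⟩ := hx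
    obtain ⟨l', _, rfl⟩ := hy
    simp only [add_right_inj] at hxy
    rw [hxy]
  have h1 := local_ineq α hα φ A B h _ hinj
  rw [Finset.sum_image (by
    intro l _ l' _ hll
    exact (Prod.mk.inj hll).2)] at h1
  have hfA : frac φ A κ = 1 := by
    unfold frac
    rw [Finset.filter_true_of_mem hc]
    field_simp
  simp only [hfA, one_mul] at h1
  have hsum : ∑ l ∈ B.image φ, frac φ B l = 1 := by
    unfold frac
    rw [← Finset.sum_div, ← Nat.cast_sum,
      ← Finset.card_eq_sum_card_image φ B]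
    field_simp
  have hle : ∀ l, frac φ B l ≤ 1 := by
    intro l
    unfold frac
    rw [div_le_one (by positivity)]
    exact_mod_cast Finset.card_le_card (Finset.filter_subset _ _)
  have hpos : ∀ l ∈ B.image φ, 0 < frac φ B l := by
    intro l hl
    obtain ⟨b, hb, rfl⟩ := Finset.mem_image.mp hl
    unfold frac
    have : 0 < (B.filter (fun g => φ g = φ b)).card :=
      Finset.card_pos.mpr ⟨b, Finset.mem_filter.mpr ⟨hb, rfl⟩⟩
    positivity
  intro b hb b' hb'
  by_contra hne
  have hm : φ b ∈ B.image φ := Finset.mem_image_of_mem _ hb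
  have hm' : φ b' ∈ B.image φ := Finset.mem_image_of_mem _ hb'
  have hlt : frac φ B (φ b) < 1 := by
    have h2 : frac φ B (φ b) + frac φ B (φ b') ≤ ∑ l ∈ B.image φ, frac φ B l := by
      rw [← Finset.sum_pair hne]
      exact Finset.sum_le_sum_of_subset_of_nonneg (by
        intro x hx
        rw [Finset.mem_insert, Finset.mem_singleton] at hx
        rcases hx with rfl | rfl
        · exact hm
        · exact hm') (fun l hl _ => (hpos l hl).le)
    rw [hsum] at h2
    linarith [hpos _ hm']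
  have hstrict : ∑ l ∈ B.image φ, frac φ B l < ∑ l ∈ B.image φ, frac φ B l ^ α := by
    refine Finset.sum_lt_sum (fun l hl => ?_) ⟨φ b, hm, ?_⟩
    · have := Real.rpow_le_rpow_of_exponent_ge (hpos l hl) (hle l) hα'.le
      rwa [Real.rpow_one] at this
    · have := Real.rpow_lt_rpow_of_exponent_gt (hpos _ hm) hlt hα'
      rwa [Real.rpow_one] at this
  linarith

end H315
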