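import Pool.Agent.H315R2.Sq.Defs
import Pool.Agent.H315R2.Sq.A1

/-! # A2: the local lemma -/

open Polynomial Finset
open scoped Classical Pointwise

namespace H315

section A2
variable {Q : Type} [AddCommGroup Q]

/-- the real-variable setting of the local lemma -/
structure A2H (α : ℝ) (S T : Finset Q) (a b : Q → ℝ) : Prop where
  a0 : ∀ k, 0 ≤ a k
  b0 : ∀ l, 0 ≤ b l
  aS : ∑ k ∈ S, a k = 1
  bT : ∑ l ∈ T, b l = 1
  ine : ∀ I : Finset (Q × Q), Set.InjOn (fun x : Q × Q => x.1 + x.2) (I : Set (Q × Q)) →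
    ∑ x ∈ I, (a x.1 * b x.2) ^ α ≤ 1

theorem a2_row {α : ℝ} {S T : Finset Q} {a b : Q → ℝ} (h : A2H α S T a b) (l : Q) :
    ∑ k ∈ S, (a k * b l) ^ α ≤ 1 := by
  have h1 := h.ine (S ×ˢ {l}) (by
    rintro ⟨x1, x2⟩ hx ⟨y1, y2⟩ hy hxy
    simp only [Finset.coe_product, Finset.coe_singleton, Set.mem_prod, Set.mem_singleton_iff]
      at hx hy
    dsimp only at hxy
    rw [hx.2, hy.2] at hxy ⊢
    rw [add_right_cancel hxy])
  rw [Finset.sum_product] at h1
  simpa using h1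

theorem a2_rpow_ge {α x M : ℝ} (hα : α < 1) (hα0 : 0 < α) (hx : 0 ≤ x) (hxM : x ≤ M) :
    x * M ^ (α - 1) ≤ x ^ α := by
  rcases hx.eq_or_lt with rfl | hx0
  · rw [zero_mul]
    exact Real.rpow_nonneg le_rfl _
  · have h1 : M ^ (α - 1) ≤ x ^ (α - 1) :=
      Real.rpow_le_rpow_of_nonpos hx0 hxM (by linarith)
    calc x * M ^ (α - 1) ≤ x * x ^ (α - 1) := by gcongr
      _ = x ^ α := by
        rw [← Real.rpow_one_add' hx0.le (by linarith)]
        congr 1
        ring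

theorem a2_one {α : ℝ} (hα : α < 1) (hα0 : 0 < α) {S T : Finset Q} {a b : Q → ℝ}
    (h : A2H α S T a b) {μ : ℝ} (hμ : 0 < μ) (hmax : ∀ k ∈ S, a k ≤ μ) (l : Q) :
    b l ^ α ≤ μ ^ (1 - α) := by
  have h1 := a2_row h l
  have h2 : b l ^ α * μ ^ (α - 1) ≤ ∑ k ∈ S, (a k * b l) ^ α := by
    calc b l ^ α * μ ^ (α - 1) = ∑ k ∈ S, (a k * μ ^ (α - 1)) * b l ^ α := by
          rw [← Finset.sum_mul, ← Finset.sum_mul, h.aS]
          ring
      _ ≤ ∑ k ∈ S, (a k * b l) ^ α := by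
          apply Finset.sum_le_sum
          intro k hk
          rw [Real.mul_rpow (h.a0 k) (h.b0 l)]
          apply mul_le_mul_of_nonneg_right _ (Real.rpow_nonneg (h.b0 l) _)
          exact a2_rpow_ge hα hα0 (h.a0 k) (hmax k hk)
  have h3 : μ ^ (α - 1) * μ ^ (1 - α) = 1 := by
    rw [← Real.rpow_add hμ]
    simp
  have h4 : 0 < μ ^ (1 - α) := Real.rpow_pos_of_pos hμ _
  calc b l ^ α = b l ^ α * μ ^ (α - 1) * μ ^ (1 - α) := by rw [mul_assoc, h3, mul_one]
    _ ≤ 1 * μ ^ (1 - α) := by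
      apply mul_le_mul_of_nonneg_right (h2.trans h1) h4.le
    _ = _ := one_mul _

/-- the numerical consequence of the two extreme inequalities -/
theorem a2_log {α ε η μ ν d : ℝ} (hα : 1 / 2 < α) (hα' : α ≤ 1 / 2 + ε) (hε : ε ≤ 1 / 10)
    (hη : 0 < η) (hμ : η ≤ μ) (hμ1 : μ ≤ 1) (hν : 0 < ν) (hν1 : ν ≤ 1)
    (h1 : ν ^ α ≤ μ ^ (1 - α)) (h2 : μ ^ α ≤ ν ^ (1 - α))
    (hd : Real.exp (10 * ε * -Real.log η) ≤ 1 + d) :
    μ ≤ (1 + d) * (μ * ν) ^ α ∧ ν ≤ (1 + d) * (μ * ν) ^ α := by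
  have hμ0 : 0 < μ := hη.trans_le hμ
  obtain ⟨m, hm⟩ : ∃ m, m = -Real.log μ := ⟨_, rfl⟩
  obtain ⟨n, hn⟩ : ∃ n, n = -Real.log ν := ⟨_, rfl⟩
  obtain ⟨E, hE⟩ : ∃ E, E = -Real.log η := ⟨_, rfl⟩
  have hm0 : 0 ≤ m := by rw [hm]; have := Real.log_nonpos hμ0.le hμ1; linarith
  have hn0 : 0 ≤ n := by rw [hn]; have := Real.log_nonpos hν.le hν1; linarith
  have hmE : m ≤ E := by
    rw [hm, hE]
    have := Real.log_le_log hη hμ
    linarith
  have eμ : μ = Real.exp (-m) := by rw [hm, neg_neg, Real.exp_log hμ0]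
  have eν : ν = Real.exp (-n) := by rw [hn, neg_neg, Real.exp_log hν]
  have epow : ∀ x y : ℝ, Real.exp x ^ y = Real.exp (x * y) := fun x y => (Real.exp_mul x y).symm
  rw [eμ, eν, epow, epow, Real.exp_le_exp] at h1 h2
  have e3 : (μ * ν) ^ α = Real.exp (-(α * (m + n))) := by
    rw [eμ, eν, ← Real.exp_add, epow]
    congr 1
    ring
  have hε0 : 0 < ε := by linarith
  have hb : 0 < 1 - α := by linarith
  -- `α n ≤ α² m / (1-α)`
  have k1 : (1 - α) * n ≤ α * m := by linarith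
  have k2 : (1 - α) * m ≤ α * n := by linarith
  have k3 : (1 - α) * (α * n - (1 - α) * m) ≤ (2 * α - 1) * m := by nlinarith
  have k4 : (1 - α) * (α * m - (1 - α) * n) ≤ (2 * α - 1) * n := by nlinarith
  have k5 : α * n - (1 - α) * m ≤ 5 * ε * m := by
    have h3 : (2 * α - 1) * m ≤ 2 * ε * m := by nlinarith
    have h4 : 0 ≤ α * n - (1 - α) * m := by linarith
    have h5 : (2 / 5 : ℝ) * (α * n - (1 - α) * m) ≤ (1 - α) * (α * n - (1 - α) * m) := by
      apply mul_le_mul_of_nonneg_right _ h4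
      linarith
    nlinarith
  have k6 : α * m - (1 - α) * n ≤ 5 * ε * n := by
    have h3 : (2 * α - 1) * n ≤ 2 * ε * n := by nlinarith
    have h4 : 0 ≤ α * m - (1 - α) * n := by linarith
    have h5 : (2 / 5 : ℝ) * (α * m - (1 - α) * n) ≤ (1 - α) * (α * m - (1 - α) * n) := by
      apply mul_le_mul_of_nonneg_right _ h4
      linarith
    nlinarith
  have k7 : n ≤ 2 * m := by nlinarith
  have k8 : 5 * ε * m ≤ 10 * ε * E := by nlinarith
  have k9 : 5 * ε * n ≤ 10 * ε * E := by nlinarith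
  rw [← hE] at hd
  have hd' : ∀ x : ℝ, x ≤ 10 * ε * E → Real.exp x ≤ 1 + d := fun x hx =>
    (Real.exp_le_exp.2 hx).trans hd
  constructor
  · rw [e3]
    calc μ = Real.exp (α * n - (1 - α) * m) * Real.exp (-(α * (m + n))) := by
          rw [eμ, ← Real.exp_add]
          congr 1
          ring
      _ ≤ (1 + d) * Real.exp (-(α * (m + n))) := by
          apply mul_le_mul_of_nonneg_right _ (Real.exp_pos _).le
          exact hd' _ (k5.trans k8)
  · rw [e3]
    calc ν = Real.exp (α * m - (1 - α) * n) * Real.exp (-(α * (m + n))) := by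
          rw [eν, ← Real.exp_add]
          congr 1
          ring
      _ ≤ (1 + d) * Real.exp (-(α * (m + n))) := by
          apply mul_le_mul_of_nonneg_right _ (Real.exp_pos _).le
          exact hd' _ (k6.trans k9)

theorem a2_bern {α x : ℝ} (hα : α ≤ 3 / 5) (hα0 : 0 < α) (hx : 0 ≤ x) (hx1 : x ≤ 1) :
    x + 2 / 5 * (x * (1 - x)) ≤ x ^ α := by
  rcases hx.eq_or_lt with rfl | hx0
  · rw [Real.zero_rpow hα0.ne']
    simp
  · have h1 : x ^ α = x * x ^ (α - 1) := by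
      rw [← Real.rpow_one_add' hx0.le (by linarith)]
      congr 1
      ring
    have h2 : 1 + 2 / 5 * (1 - x) ≤ x ^ (α - 1) := by
      rw [Real.rpow_def_of_pos hx0]
      have h3 := Real.log_le_sub_one_of_pos hx0
      have h4 := Real.add_one_le_exp (Real.log x * (α - 1))
      have h5 : 2 / 5 * (1 - x) ≤ Real.log x * (α - 1) := by nlinarith
      linarith
    rw [h1]
    calc x + 2 / 5 * (x * (1 - x)) = x * (1 + 2 / 5 * (1 - x)) := by ring
      _ ≤ _ := by gcongr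

/-- the mass of the small classes -/
theorem a2_small {α : ℝ} (hα0 : 0 < α) (hα : α ≤ 3 / 5) {S T : Finset Q} {a b : Q → ℝ}
    (h : A2H α S T a b) {μ ν d : ℝ} (hμ : 0 < μ) (hmax : ∀ k ∈ S, a k ≤ μ) (l : Q)
    (hl : b l = ν) (hν : 0 < ν) (hd : 0 < d)
    (hk : μ ≤ (1 + 2 / 5 * d ^ 2) * (μ * ν) ^ α) :
    ∑ k ∈ S.filter (fun k => a k ≤ (1 - d) * μ), a k ≤ d := by
  have h1 := a2_row h l
  rw [hl] at h1
  set W := (μ * ν) ^ α with hW
  have hW0 : 0 < W := Real.rpow_pos_of_pos (mul_pos hμ hν) _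
  have h2 : ∑ k ∈ S, (a k * ν) ^ α = W * ∑ k ∈ S, (a k / μ) ^ α := by
    rw [Finset.mul_sum]
    apply Finset.sum_congr rfl
    intro k _
    rw [hW, ← Real.mul_rpow (by positivity) (div_nonneg (h.a0 k) hμ.le)]
    congr 1
    field_simp
  have h3 : ∑ k ∈ S, (a k / μ + 2 / 5 * (a k / μ * (1 - a k / μ))) ≤ ∑ k ∈ S, (a k / μ) ^ α := by
    apply Finset.sum_le_sum
    intro k hk
    exact a2_bern hα hα0 (div_nonneg (h.a0 k) hμ.le) ((div_le_one hμ).2 (hmax k hk))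
  rw [Finset.sum_add_distrib, ← Finset.sum_div, h.aS, ← Finset.mul_sum] at h3
  have h4 : ∑ k ∈ S.filter (fun k => a k ≤ (1 - d) * μ), a k / μ * d ≤
      ∑ k ∈ S, (a k / μ * (1 - a k / μ)) := by
    calc ∑ k ∈ S.filter (fun k => a k ≤ (1 - d) * μ), a k / μ * d
        ≤ ∑ k ∈ S.filter (fun k => a k ≤ (1 - d) * μ), (a k / μ * (1 - a k / μ)) := by
          apply Finset.sum_le_sum
          intro k hk
          rw [Finset.mem_filter] at hk
          apply mul_le_mul_of_nonneg_left _ (div_nonneg (h.a0 k) hμ.le)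
          have : a k / μ ≤ 1 - d := by
            rw [div_le_iff₀ hμ]
            exact hk.2
          linarith
      _ ≤ _ := by
          apply Finset.sum_le_sum_of_subset_of_nonneg (Finset.filter_subset _ _)
          intro k hk _
          apply mul_nonneg (div_nonneg (h.a0 k) hμ.le)
          have : a k / μ ≤ 1 := (div_le_one hμ).2 (hmax k hk)
          linarith
  rw [← Finset.sum_mul, ← Finset.sum_div] at h4
  set M := ∑ k ∈ S.filter (fun k => a k ≤ (1 - d) * μ), a k with hM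
  -- W (1/μ + 2/5 M/μ d) ≤ 1, μ ≤ (1+2/5 d²) W
  have h5 : W * (1 / μ + 2 / 5 * (M / μ * d)) ≤ 1 := by
    calc W * (1 / μ + 2 / 5 * (M / μ * d)) ≤ W * ∑ k ∈ S, (a k / μ) ^ α := by
          apply mul_le_mul_of_nonneg_left _ hW0.le
          linarith
      _ = ∑ k ∈ S, (a k * ν) ^ α := h2.symm
      _ ≤ 1 := h1
  have h6 : W * (1 + 2 / 5 * (M * d)) ≤ μ := by
    have : W * (1 + 2 / 5 * (M * d)) = μ * (W * (1 / μ + 2 / 5 * (M / μ * d))) := by
      field_simp
    rw [this]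
    calc μ * (W * (1 / μ + 2 / 5 * (M / μ * d))) ≤ μ * 1 := by gcongr
      _ = μ := mul_one _
  have h7 : W * (1 + 2 / 5 * (M * d)) ≤ W * (1 + 2 / 5 * d ^ 2) := by
    calc W * (1 + 2 / 5 * (M * d)) ≤ μ := h6
      _ ≤ (1 + 2 / 5 * d ^ 2) * W := hk
      _ = _ := mul_comm _ _
  have h8 : 1 + 2 / 5 * (M * d) ≤ 1 + 2 / 5 * d ^ 2 := le_of_mul_le_mul_left h7 hW0
  have h9 : M * d ≤ d * d := by nlinarith
  exact le_of_mul_le_mul_right h9 hd

/-- the sumset of the large classes -/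
theorem a2_sum {α : ℝ} (hα0 : 0 < α) (hα : α ≤ 1) {S T : Finset Q} {a b : Q → ℝ}
    (h : A2H α S T a b) {μ ν d : ℝ} (hμ : 0 < μ) (hν : 0 < ν) (hd : 0 ≤ d) (hd1 : d ≤ 1)
    (A' B' : Finset Q) (hA : ∀ k ∈ A', (1 - d) * μ ≤ a k) (hB : ∀ l ∈ B', (1 - d) * ν ≤ b l) :
    ((A' + B').card : ℝ) * ((1 - d) ^ 2 * (μ * ν) ^ α) ≤ 1 := by
  have hch : ∀ σ : Q, ∃ x : Q × Q, σ ∈ A' + B' → x.1 ∈ A' ∧ x.2 ∈ B' ∧ x.1 + x.2 = σ := by
    intro σ
    by_cases hσ : σ ∈ A' + B'
    · obtain ⟨x, hx, y, hy, hxy⟩ := Finset.mem_add.1 hσ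
      exact ⟨(x, y), fun _ => ⟨hx, hy, hxy⟩⟩
    · exact ⟨(0, 0), fun h => absurd h hσ⟩
  choose g hg using hch
  have hinj : Set.InjOn g ((A' + B' : Finset Q) : Set Q) := by
    intro x hx y hy hxy
    rw [← (hg x hx).2.2, ← (hg y hy).2.2, hxy]
  have h1 := h.ine ((A' + B').image g) (by
    intro x hx y hy hxy
    rw [Finset.mem_coe, Finset.mem_image] at hx hy
    obtain ⟨u, hu, rfl⟩ := hx
    obtain ⟨v, hv, rfl⟩ := hy
    dsimp only at hxy
    rw [(hg u hu).2.2, (hg v hv).2.2] at hxy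
    rw [hxy])
  rw [Finset.sum_image hinj] at h1
  refine le_trans ?_ h1
  rw [← nsmul_eq_mul, ← Finset.sum_const]
  apply Finset.sum_le_sum
  intro σ hσ
  obtain ⟨g1, g2, _⟩ := hg σ hσ
  have h2 : (1 - d) ^ 2 * (μ * ν) ≤ a (g σ).1 * b (g σ).2 := by
    calc (1 - d) ^ 2 * (μ * ν) = ((1 - d) * μ) * ((1 - d) * ν) := by ring
      _ ≤ _ := by
        have hd2 : 0 ≤ 1 - d := by linarith
        exact mul_le_mul (hA _ g1) (hB _ g2) (by positivity) (h.a0 _)
  have hd2 : 0 ≤ (1 - d) ^ 2 := sq_nonneg _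
  have hd3 : (1 - d) ^ 2 ≤ 1 := by nlinarith
  calc (1 - d) ^ 2 * (μ * ν) ^ α ≤ ((1 - d) ^ 2) ^ α * (μ * ν) ^ α := by
        apply mul_le_mul_of_nonneg_right _ (by positivity)
        exact Real.self_le_rpow_of_le_one hd2 hd3 hα
    _ = ((1 - d) ^ 2 * (μ * ν)) ^ α := (Real.mul_rpow hd2 (by positivity)).symm
    _ ≤ _ := Real.rpow_le_rpow (by positivity) h2 hα0.le

/-- a lower bound for the row sum if one class is large -/
theorem a2_row_one {α : ℝ} (hα0 : 0 < α) (hα : α < 1) {S T : Finset Q} {a b : Q → ℝ}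
    (h : A2H α S T a b) {k₀ l : Q} (hk : k₀ ∈ S) :
    b l ^ α * (a k₀ ^ α + (1 - a k₀) ^ α) ≤ 1 := by
  have h1 := a2_row h l
  rw [← Finset.add_sum_erase _ _ hk] at h1
  have hsum : ∑ k ∈ S.erase k₀, a k = 1 - a k₀ := by
    have := Finset.add_sum_erase S a hk
    rw [h.aS] at this
    linarith
  have h2 : (1 - a k₀) ^ α ≤ ∑ k ∈ S.erase k₀, a k ^ α := by
    rcases (show 0 ≤ 1 - a k₀ by
      rw [← hsum]; exact Finset.sum_nonneg fun k _ => h.a0 k).eq_or_lt with h0 | h0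
    · rw [← h0, Real.zero_rpow hα0.ne']
      exact Finset.sum_nonneg fun k _ => Real.rpow_nonneg (h.a0 k) _
    · calc (1 - a k₀) ^ α = ∑ k ∈ S.erase k₀, a k * (1 - a k₀) ^ (α - 1) := by
            rw [← Finset.sum_mul, hsum, ← Real.rpow_one_add' h0.le (by linarith)]
            congr 1
            ring
        _ ≤ _ := by
            apply Finset.sum_le_sum
            intro k hk'
            apply a2_rpow_ge hα hα0 (h.a0 k)
            rw [← hsum]
            exact Finset.single_le_sum (fun k _ => h.a0 k) hk'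
  have h3 : ∑ k ∈ S.erase k₀, (a k * b l) ^ α = b l ^ α * ∑ k ∈ S.erase k₀, a k ^ α := by
    rw [Finset.mul_sum]
    apply Finset.sum_congr rfl
    intro k _
    rw [Real.mul_rpow (h.a0 k) (h.b0 l)]
    ring
  rw [h3, Real.mul_rpow (h.a0 _) (h.b0 l)] at h1
  have h4 : 0 ≤ b l ^ α := Real.rpow_nonneg (h.b0 l) _
  calc b l ^ α * (a k₀ ^ α + (1 - a k₀) ^ α)
      ≤ b l ^ α * (a k₀ ^ α + ∑ k ∈ S.erase k₀, a k ^ α) := by gcongr
    _ = a k₀ ^ α * b l ^ α + b l ^ α * ∑ k ∈ S.erase k₀, a k ^ α := by ring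
    _ ≤ 1 := h1

theorem a2_eq_one {α μ ν : ℝ} (hα : 1 / 2 < α) (hα' : α ≤ 3 / 5) (hμ : 19 / 20 ≤ μ)
    (hμ1 : μ ≤ 1) (hμν : μ ≤ ν) (h : ν ^ α * (μ ^ α + (1 - μ) ^ α) ≤ 1) : μ = 1 := by
  by_contra hne
  have hlt : μ < 1 := lt_of_le_of_ne hμ1 hne
  obtain ⟨x, hx⟩ : ∃ x, x = 1 - μ := ⟨_, rfl⟩
  have hx0 : 0 < x := by rw [hx]; linarith
  have hx1 : x ≤ 1 / 20 := by rw [hx]; linarith
  have hμx : μ = 1 - x := by rw [hx]; ring
  have hμ0 : 0 < μ := by linarith
  have h1 : μ ^ α * (μ ^ α + (1 - μ) ^ α) ≤ 1 := by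
    refine le_trans ?_ h
    apply mul_le_mul_of_nonneg_right _ (by
      have : 0 ≤ 1 - μ := by linarith
      positivity)
    exact Real.rpow_le_rpow hμ0.le hμν (by linarith)
  have h2 : μ ^ α * μ ^ α = μ ^ (2 * α) := by
    rw [← Real.rpow_add hμ0]
    congr 1
    ring
  have h3 : 1 + (2 * α) * (-x) ≤ (1 + -x) ^ (2 * α) :=
    one_add_mul_self_le_rpow_one_add (by linarith) (by linarith)
  have h4 : (1 + -x) ^ (2 * α) = μ ^ (2 * α) := by rw [hμx]; rfl
  obtain ⟨z, hz⟩ : ∃ z, z = μ * (1 - μ) := ⟨_, rfl⟩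
  have hz0 : 0 < z := by rw [hz, ← hx]; positivity
  have hz1 : z ≤ 1 / 20 := by rw [hz, ← hx]; nlinarith
  have hzx : 19 / 20 * x ≤ z := by rw [hz, ← hx]; nlinarith
  have h5 : μ ^ α * (1 - μ) ^ α = z ^ α := by
    rw [hz, Real.mul_rpow hμ0.le (by linarith)]
  have h6 : 2 * z ≤ z ^ α := by
    have e1 : z ^ α = z * z ^ (α - 1) := by
      rw [← Real.rpow_one_add' hz0.le (by linarith)]
      congr 1
      ring
    have e2 : (1 / 20 : ℝ) ^ (-(2 / 5) : ℝ) ≤ z ^ (α - 1) := by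
      calc (1 / 20 : ℝ) ^ (-(2 / 5) : ℝ) ≤ z ^ (-(2 / 5) : ℝ) :=
            Real.rpow_le_rpow_of_nonpos hz0 hz1 (by norm_num)
        _ ≤ z ^ (α - 1) :=
            Real.rpow_le_rpow_of_exponent_ge hz0 (by linarith) (by linarith)
    have e3 : (2 : ℝ) ≤ (1 / 20 : ℝ) ^ (-(2 / 5) : ℝ) := by
      rw [Real.rpow_neg (by norm_num), ← Real.inv_rpow (by norm_num)]
      norm_num
      calc (2 : ℝ) = ((2 : ℝ) ^ (5 / 2 : ℝ)) ^ (2 / 5 : ℝ) := by
            rw [← Real.rpow_mul (by norm_num)]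
            norm_num
        _ ≤ 20 ^ (2 / 5 : ℝ) := by
            apply Real.rpow_le_rpow (by positivity) _ (by norm_num)
            calc (2 : ℝ) ^ (5 / 2 : ℝ) ≤ (2 : ℝ) ^ (3 : ℝ) :=
                  Real.rpow_le_rpow_of_exponent_le (by norm_num) (by norm_num)
              _ = 8 := by norm_num
              _ ≤ 20 := by norm_num
    rw [e1]
    nlinarith
  rw [mul_add, h2, h5, ← h4] at h1
  nlinarith

end A2

theorem a2_frac_nonneg {G Q : Type} [AddCommGroup G] [AddCommGroup Q] (φ : G →+ Q)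
    (A : Finset G) (κ : Q) : 0 ≤ frac φ A κ := by
  unfold frac
  positivity

theorem a2_frac_sum {G Q : Type} [AddCommGroup G] [AddCommGroup Q] (φ : G →+ Q)
    (A : Finset G) (hA : A.Nonempty) : ∑ κ ∈ A.image φ, frac φ A κ = 1 := by
  unfold frac
  rw [← Finset.sum_div]
  have h1 : A.card = ∑ κ ∈ A.image φ, (A.filter (fun g => φ g = κ)).card :=
    Finset.card_eq_sum_card_image φ A
  have h2 : (0 : ℝ) < A.card := by exact_mod_cast hA.card_pos
  rw [← Nat.cast_sum, ← h1]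
  exact div_self h2.ne'

theorem a2_H {G Q : Type} [AddCommGroup G] [AddCommGroup Q] {α : ℝ} (hα : 0 < α) (φ : G →+ Q)
    {A B : Finset G} (h : Red α A B) :
    A2H α (A.image φ) (B.image φ) (frac φ A) (frac φ B) where
  a0 := a2_frac_nonneg φ A
  b0 := a2_frac_nonneg φ B
  aS := a2_frac_sum φ A h.1
  bT := a2_frac_sum φ B h.2.1
  ine := fun I hI => local_ineq α hα φ A B h I hI

theorem a2_frac_pos {G Q : Type} [AddCommGroup G] [AddCommGroup Q] (φ : G →+ Q)
    (A : Finset G) (κ : Q) (h : κ ∈ A.image φ) : 0 < frac φ A κ := by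
  rw [Finset.mem_image] at h
  obtain ⟨g, hg, rfl⟩ := h
  unfold frac
  have h1 : 0 < (A.filter (fun g' => φ g' = φ g)).card :=
    Finset.card_pos.2 ⟨g, Finset.mem_filter.2 ⟨hg, rfl⟩⟩
  have h2 : 0 < A.card := Finset.card_pos.2 ⟨g, hg⟩
  positivity

theorem a2_frac_zero {G Q : Type} [AddCommGroup G] [AddCommGroup Q] (φ : G →+ Q)
    (A : Finset G) (κ : Q) (h : κ ∉ A.image φ) : frac φ A κ = 0 := by
  unfold frac
  have : A.filter (fun g => φ g = κ) = ∅ := by
    rw [Finset.filter_eq_empty_iff]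
    intro g hg h'
    exact h (Finset.mem_image.2 ⟨g, hg, h'⟩)
  rw [this]
  simp

/-- a finite set with `A + l₀ = A + B = k₀ + B` is a coset -/
theorem a2_coset {Q : Type} [AddCommGroup Q] (A' B' : Finset Q) (k₀ l₀ : Q) (hk : k₀ ∈ A')
    (hl : l₀ ∈ B') (h1 : (A' + B').card ≤ A'.card) (h2 : (A' + B').card ≤ B'.card) :
    ∃ H : AddSubgroup Q, (H : Set Q).Finite ∧ Nat.card H = A'.card ∧
      ∀ h ∈ H, k₀ + h ∈ A' := by
  have e1 : A'.image (fun k => k + l₀) = A' + B' := by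
    apply Finset.eq_of_subset_of_card_le
    · intro x hx
      obtain ⟨k, hk, rfl⟩ := Finset.mem_image.1 hx
      exact Finset.add_mem_add hk hl
    · rwa [Finset.card_image_of_injective _ (add_left_injective l₀)]
  have e2 : B'.image (fun l => k₀ + l) = A' + B' := by
    apply Finset.eq_of_subset_of_card_le
    · intro x hx
      obtain ⟨l, hl, rfl⟩ := Finset.mem_image.1 hx
      exact Finset.add_mem_add hk hl
    · rwa [Finset.card_image_of_injective _ (add_right_injective k₀)]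
  set H0 : Finset Q := A'.image (fun k => k - k₀) with hH0
  have hadd : ∀ x ∈ H0, ∀ y ∈ H0, x + y ∈ H0 := by
    intro x hx y hy
    obtain ⟨k, hk1, rfl⟩ := Finset.mem_image.1 hx
    obtain ⟨k', hk', rfl⟩ := Finset.mem_image.1 hy
    have h3 : k' + l₀ ∈ B'.image (fun l => k₀ + l) := by
      rw [e2]
      exact Finset.add_mem_add hk' hl
    obtain ⟨l', hl', h4⟩ := Finset.mem_image.1 h3
    have h5 : k + l' ∈ A'.image (fun k => k + l₀) := by
      rw [e1]
      exact Finset.add_mem_add hk1 hl'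
    obtain ⟨k'', hk'', h6⟩ := Finset.mem_image.1 h5
    refine Finset.mem_image.2 ⟨k'', hk'', ?_⟩
    have h7 : l' = k' + l₀ - k₀ := by rw [← h4]; abel
    have h8 : k'' = k + l' - l₀ := by rw [← h6]; abel
    rw [h8, h7]
    abel
  have h0 : (0 : Q) ∈ H0 := Finset.mem_image.2 ⟨k₀, hk, sub_self _⟩
  have hneg : ∀ x ∈ H0, -x ∈ H0 := by
    intro x hx
    have h3 : H0.image (fun y => y + x) = H0 := by
      apply Finset.eq_of_subset_of_card_le
      · intro z hz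
        obtain ⟨y, hy, rfl⟩ := Finset.mem_image.1 hz
        exact hadd y hy x hx
      · rw [Finset.card_image_of_injective _ (add_left_injective x)]
    rw [← h3] at h0
    obtain ⟨y, hy, hyx⟩ := Finset.mem_image.1 h0
    have : -x = y := by
      exact (eq_neg_of_add_eq_zero_left hyx).symm
    rw [this]
    exact hy
  refine ⟨{ carrier := (H0 : Set Q)
            add_mem' := fun {x y} hx hy => hadd x hx y hy
            zero_mem' := h0
            neg_mem' := fun {x} hx => hneg x hx }, Finset.finite_toSet H0, ?_, ?_⟩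
  · have h3 : H0.card = A'.card :=
      Finset.card_image_of_injective _ sub_left_injective
    rw [← h3]
    exact Nat.card_eq_card_toFinset (H0 : Set Q) |>.trans (by simp)
  · intro h hh
    have h3 : h ∈ H0 := hh
    obtain ⟨k, hk1, rfl⟩ := Finset.mem_image.1 h3
    have : k₀ + (k - k₀) = k := by abel
    rwa [this]

theorem a2_key {N C : ℕ} {M W d : ℝ} (hd0 : 0 < d) (hd20 : d ≤ 1 / 20) (hW0 : 0 < W)
    (hsum : (C : ℝ) * ((1 - d) ^ 2 * W) ≤ 1) (hMW : M ≤ (1 + 2 / 5 * d ^ 2) * W)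
    (hN1 : 1 - d ≤ N * M) (hM2 : 20 * d ≤ M) : C ≤ N := by
  have hM : 0 < M := by linarith
  have hd2 : 2 / 5 * d ^ 2 ≤ d := by nlinarith
  have h1d : 0 < 1 - d := by linarith
  have hcube : 1 + d ≤ (1 + 5 * d) * ((1 - d) ^ 3) := by
    have h1 : (1 + 5 * d) * ((1 - d) ^ 3) - (1 + d) =
        d * (1 - 12 * d + d ^ 2 * (14 - 5 * d)) + 0 := by
      ring
    have h2 : 0 ≤ 1 - 12 * d + d ^ 2 * (14 - 5 * d) := by
      have h3 : 0 ≤ d ^ 2 * (14 - 5 * d) := by
        apply mul_nonneg (sq_nonneg d)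
        linarith
      linarith
    have h3 : 0 ≤ d * (1 - 12 * d + d ^ 2 * (14 - 5 * d)) := mul_nonneg hd0.le h2
    linarith
  by_contra hcon
  push Not at hcon
  have hcon' : (N : ℝ) + 1 ≤ (C : ℝ) := by exact_mod_cast hcon
  have e1 : ((N : ℝ) + 1) * ((1 - d) ^ 2 * W) ≤ 1 := by
    refine le_trans ?_ hsum
    apply mul_le_mul_of_nonneg_right hcon'
    positivity
  have e2 : M ≤ (1 + d) * W := by
    refine hMW.trans ?_
    apply mul_le_mul_of_nonneg_right _ hW0.le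
    linarith
  have e3 : ((N : ℝ) + 1) * ((1 - d) ^ 2 * M) ≤ 1 + d := by
    calc ((N : ℝ) + 1) * ((1 - d) ^ 2 * M) ≤ ((N : ℝ) + 1) * ((1 - d) ^ 2 * ((1 + d) * W)) := by
          gcongr
      _ = (1 + d) * (((N : ℝ) + 1) * ((1 - d) ^ 2 * W)) := by ring
      _ ≤ (1 + d) * 1 := by gcongr
      _ = 1 + d := mul_one _
  have e4 : ((N : ℝ) + 1) * ((1 - d) ^ 3 * M) ≤ (1 + d) * (1 - d) := by
    calc ((N : ℝ) + 1) * ((1 - d) ^ 3 * M) = (((N : ℝ) + 1) * ((1 - d) ^ 2 * M)) * (1 - d) := by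
          ring
      _ ≤ _ := by gcongr
  have e5 : (1 + d) * (((N : ℝ) + 1) * M) ≤ (1 + 5 * d) * ((1 + d) * (1 - d)) := by
    calc (1 + d) * (((N : ℝ) + 1) * M) ≤ ((1 + 5 * d) * ((1 - d) ^ 3)) * (((N : ℝ) + 1) * M) := by
          gcongr
      _ = (1 + 5 * d) * (((N : ℝ) + 1) * ((1 - d) ^ 3 * M)) := by ring
      _ ≤ _ := by gcongr
  have e6 : ((N : ℝ) + 1) * M ≤ (1 + 5 * d) * (1 - d) := by
    have h3 : (1 + d) * (((N : ℝ) + 1) * M) ≤ (1 + d) * ((1 + 5 * d) * (1 - d)) := by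
      linarith
    exact le_of_mul_le_mul_left h3 (by linarith)
  have e7 : M ≤ 5 * d * (1 - d) := by linarith
  have e8 : 5 * d * (1 - d) ≤ 5 * d * 1 := by
    apply mul_le_mul_of_nonneg_left _ (by linarith)
    linarith
  linarith

theorem local_lemma (η δ : ℝ) (hη : 0 < η) (hδ : 0 < δ) :
    ∃ ε₀ : ℝ, 0 < ε₀ ∧ ε₀ ≤ 1 / 10 ∧ ∀ α : ℝ, 1 / 2 < α → α ≤ 1 / 2 + ε₀ →
    ∀ (G Q : Type) [AddCommGroup G] [AddCommGroup Q] (φ : G →+ Q) (A B : Finset G),
    Red α A B → ∀ κ : Q, η ≤ frac φ A κ →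
    ∃ H : AddSubgroup Q, (H : Set Q).Finite ∧
      (∀ h ∈ H, (1 - δ) / (Nat.card H : ℝ) ≤ frac φ A (κ + h)) ∧
      (∀ κ' : Q, frac φ A κ' ≤ (1 + δ) / (Nat.card H : ℝ)) ∧
      (Nat.card H = 1 → ∀ s ∈ A, φ s = κ) := by
  obtain ⟨η', hη'⟩ : ∃ η', η' = min η 1 := ⟨_, rfl⟩
  obtain ⟨δ', hδ'⟩ : ∃ δ', δ' = min δ 1 := ⟨_, rfl⟩
  have hη0 : 0 < η' := by rw [hη']; exact lt_min hη one_pos
  have hη1 : η' ≤ 1 := by rw [hη']; exact min_le_right _ _
  have hηη : η' ≤ η := by rw [hη']; exact min_le_left _ _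
  have hδ0 : 0 < δ' := by rw [hδ']; exact lt_min hδ one_pos
  have hδ1 : δ' ≤ 1 := by rw [hδ']; exact min_le_right _ _
  have hδδ : δ' ≤ δ := by rw [hδ']; exact min_le_left _ _
  obtain ⟨d, hd⟩ : ∃ d, d = η' ^ 2 * δ' / 20 := ⟨_, rfl⟩
  have hd0 : 0 < d := by rw [hd]; positivity
  have hη2 : η' ^ 2 ≤ η' := by
    rw [sq]
    exact mul_le_of_le_one_right hη0.le hη1
  have hηsq : η' ^ 2 ≤ 1 := hη2.trans hη1
  have hdη : d ≤ η' ^ 2 / 20 := by
    rw [hd]
    have := mul_le_of_le_one_right (sq_nonneg η') hδ1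
    linarith
  have hdδ : d ≤ δ' / 20 := by
    rw [hd]
    have := mul_le_of_le_one_left hδ0.le hηsq
    linarith
  have hd20 : d ≤ 1 / 20 := by linarith
  -- choice of `ε₀`
  obtain ⟨ε, hε0, hε1, hεd⟩ : ∃ ε : ℝ, 0 < ε ∧ ε ≤ 1 / 10 ∧
      Real.exp (10 * ε * -Real.log η') ≤ 1 + 2 / 5 * d ^ 2 := by
    have hcont : Filter.Tendsto (fun ε : ℝ => Real.exp (10 * ε * -Real.log η')) (nhds 0)
        (nhds 1) := by
      have h1 : Continuous (fun ε : ℝ => Real.exp (10 * ε * -Real.log η')) := by fun_prop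
      have h2 := h1.tendsto 0
      simpa using h2
    have h3 : ∀ᶠ ε in nhds (0 : ℝ), Real.exp (10 * ε * -Real.log η') < 1 + 2 / 5 * d ^ 2 :=
      hcont.eventually (gt_mem_nhds (by
        have : 0 < 2 / 5 * d ^ 2 := by positivity
        linarith))
    obtain ⟨r, hr, hr'⟩ := Metric.eventually_nhds_iff.1 h3
    refine ⟨min (r / 2) (1 / 10), lt_min (by linarith) (by norm_num), min_le_right _ _, ?_⟩
    apply le_of_lt
    apply hr'
    rw [Real.dist_eq, sub_zero, abs_of_pos (lt_min (by linarith) (by norm_num))]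
    exact lt_of_le_of_lt (min_le_left _ _) (by linarith)
  refine ⟨ε, hε0, hε1, ?_⟩
  intro α hα hα' G Q _ _ φ A B hred κ hκ
  have hα0 : 0 < α := by linarith
  have hα35 : α ≤ 3 / 5 := by linarith
  have hα1 : α < 1 := by linarith
  have HA := a2_H hα0 φ hred
  have HB := a2_H hα0 φ (red_symm α A B hred)
  -- maxima
  obtain ⟨k₁, hk₁, hmaxA⟩ := Finset.exists_max_image (A.image φ) (frac φ A) (hred.1.image φ)
  obtain ⟨l₁, hl₁, hmaxB⟩ := Finset.exists_max_image (B.image φ) (frac φ B) (hred.2.1.image φ)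
  obtain ⟨μ, hμ⟩ : ∃ μ, μ = frac φ A k₁ := ⟨_, rfl⟩
  obtain ⟨ν, hν⟩ : ∃ ν, ν = frac φ B l₁ := ⟨_, rfl⟩
  rw [← hμ] at hmaxA
  rw [← hν] at hmaxB
  have hμ0 : 0 < μ := by rw [hμ]; exact a2_frac_pos φ A k₁ hk₁
  have hν0 : 0 < ν := by rw [hν]; exact a2_frac_pos φ B l₁ hl₁
  have hμ1 : μ ≤ 1 := by
    rw [hμ, ← HA.aS]
    exact Finset.single_le_sum (fun k _ => HA.a0 k) hk₁
  have hν1 : ν ≤ 1 := by
    rw [hν, ← HB.aS]
    exact Finset.single_le_sum (fun k _ => HB.a0 k) hl₁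
  have hall : ∀ k, frac φ A k ≤ μ := by
    intro k
    by_cases hk : k ∈ A.image φ
    · exact hmaxA k hk
    · rw [a2_frac_zero φ A k hk]
      exact hμ0.le
  have hμη : η' ≤ μ := hηη.trans (hκ.trans (hall κ))
  have i1 : ν ^ α ≤ μ ^ (1 - α) := by
    have := a2_one hα1 hα0 HA hμ0 hmaxA l₁
    rwa [← hν] at this
  have i2 : μ ^ α ≤ ν ^ (1 - α) := by
    have := a2_one hα1 hα0 HB hν0 hmaxB k₁
    rwa [← hμ] at this
  obtain ⟨K1, K2⟩ := a2_log hα hα' hε1 hη0 hμη hμ1 hν0 hν1 i1 i2 hεd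
  -- `ν` is not small
  have hνη : η' ^ 2 ≤ ν := by
    have h1 : μ ^ (3 / 5 : ℝ) ≤ ν ^ (2 / 5 : ℝ) :=
      calc μ ^ (3 / 5 : ℝ) ≤ μ ^ α := Real.rpow_le_rpow_of_exponent_ge hμ0 hμ1 hα35
        _ ≤ ν ^ (1 - α) := i2
        _ ≤ ν ^ (2 / 5 : ℝ) := Real.rpow_le_rpow_of_exponent_ge hν0 hν1 (by linarith)
    have h2 : μ ^ (3 / 2 : ℝ) ≤ ν := by
      have := Real.rpow_le_rpow (by positivity) h1 (show (0 : ℝ) ≤ 5 / 2 by norm_num)
      rw [← Real.rpow_mul hμ0.le, ← Real.rpow_mul hν0.le] at this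
      norm_num at this
      exact this
    calc η' ^ 2 ≤ μ ^ 2 := by gcongr
      _ = μ ^ (2 : ℝ) := by norm_cast
      _ ≤ μ ^ (3 / 2 : ℝ) := Real.rpow_le_rpow_of_exponent_ge hμ0 hμ1 (by norm_num)
      _ ≤ ν := h2
  -- small classes
  have sA := a2_small hα0 hα35 HA hμ0 hmaxA l₁ hν.symm hν0 hd0 K1
  have K2' : ν ≤ (1 + 2 / 5 * d ^ 2) * (ν * μ) ^ α := by rw [mul_comm ν μ]; exact K2
  have sB := a2_small hα0 hα35 HB hν0 hmaxB k₁ hμ.symm hμ0 hd0 K2'
  set A' := (A.image φ).filter (fun k => ¬ frac φ A k ≤ (1 - d) * μ) with hA'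
  set B' := (B.image φ).filter (fun l => ¬ frac φ B l ≤ (1 - d) * ν) with hB'
  have mA : 1 - d ≤ ∑ k ∈ A', frac φ A k := by
    have := Finset.sum_filter_add_sum_filter_not (A.image φ)
      (fun k => frac φ A k ≤ (1 - d) * μ) (frac φ A)
    rw [HA.aS] at this
    rw [hA']
    linarith
  have mB : 1 - d ≤ ∑ l ∈ B', frac φ B l := by
    have := Finset.sum_filter_add_sum_filter_not (B.image φ)
      (fun k => frac φ B k ≤ (1 - d) * ν) (frac φ B)
    rw [HB.aS] at this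
    rw [hB']
    linarith
  have cA : 1 - d ≤ A'.card * μ := by
    refine mA.trans ?_
    rw [← nsmul_eq_mul, ← Finset.sum_const]
    exact Finset.sum_le_sum fun k hk => hall k
  have cB : 1 - d ≤ B'.card * ν := by
    refine mB.trans ?_
    rw [← nsmul_eq_mul, ← Finset.sum_const]
    exact Finset.sum_le_sum fun k hk => hmaxB k (Finset.mem_of_mem_filter k hk)
  have gA : ∀ k ∈ A', (1 - d) * μ ≤ frac φ A k := by
    intro k hk
    rw [hA', Finset.mem_filter] at hk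
    exact (not_le.1 hk.2).le
  have gB : ∀ k ∈ B', (1 - d) * ν ≤ frac φ B k := by
    intro k hk
    rw [hB', Finset.mem_filter] at hk
    exact (not_le.1 hk.2).le
  have uA : A'.card * ((1 - d) * μ) ≤ 1 := by
    calc (A'.card : ℝ) * ((1 - d) * μ) ≤ ∑ k ∈ A', frac φ A k := by
          rw [← nsmul_eq_mul, ← Finset.sum_const]
          exact Finset.sum_le_sum gA
      _ ≤ ∑ k ∈ A.image φ, frac φ A k :=
          Finset.sum_le_sum_of_subset_of_nonneg (Finset.filter_subset _ _)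
            fun k _ _ => HA.a0 k
      _ = 1 := HA.aS
  have uB : B'.card * ((1 - d) * ν) ≤ 1 := by
    calc (B'.card : ℝ) * ((1 - d) * ν) ≤ ∑ k ∈ B', frac φ B k := by
          rw [← nsmul_eq_mul, ← Finset.sum_const]
          exact Finset.sum_le_sum gB
      _ ≤ ∑ k ∈ B.image φ, frac φ B k :=
          Finset.sum_le_sum_of_subset_of_nonneg (Finset.filter_subset _ _)
            fun k _ _ => HB.a0 k
      _ = 1 := HB.aS
  -- `κ` is a large class
  have hκA : κ ∈ A' := by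
    have hκ0 : 0 < frac φ A κ := hη.trans_le hκ
    have hκS : κ ∈ A.image φ := by
      by_contra h
      rw [a2_frac_zero φ A κ h] at hκ0
      exact lt_irrefl _ hκ0
    rw [hA', Finset.mem_filter]
    refine ⟨hκS, fun h => ?_⟩
    have h1 : frac φ A κ ≤ d := by
      refine le_trans ?_ sA
      exact Finset.single_le_sum (f := frac φ A) (fun k _ => HA.a0 k)
        (Finset.mem_filter.2 ⟨hκS, h⟩)
    have h2 : η' ≤ d := hηη.trans (hκ.trans h1)
    linarith
  obtain ⟨l₀, hl₀⟩ : B'.Nonempty := by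
    rw [Finset.nonempty_iff_ne_empty]
    intro h
    rw [h] at cB
    simp at cB
    linarith
  -- the sumset
  have hsum := a2_sum hα0 hα1.le HA hμ0 hν0 hd0.le (by linarith) A' B' gA gB
  set W := (μ * ν) ^ α with hW
  have hW0 : 0 < W := Real.rpow_pos_of_pos (mul_pos hμ0 hν0) _
  have h1d : 0 < 1 - d := by linarith
  have c1 : (A' + B').card ≤ A'.card :=
    a2_key hd0 hd20 hW0 hsum K1 cA (by linarith)
  have c2 : (A' + B').card ≤ B'.card :=
    a2_key hd0 hd20 hW0 hsum K2 cB (by linarith)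
  obtain ⟨H, hHfin, hHcard, hH⟩ := a2_coset A' B' κ l₀ hκA hl₀ c1 c2
  have hN0 : 0 < A'.card := Finset.card_pos.2 ⟨κ, hκA⟩
  have hN0' : (0 : ℝ) < A'.card := by exact_mod_cast hN0
  refine ⟨H, hHfin, ?_, ?_, ?_⟩
  · intro h hh
    rw [hHcard, div_le_iff₀ hN0']
    have h1 := gA _ (hH h hh)
    have h2 : (1 - d) * (1 - d) ≤ frac φ A (κ + h) * A'.card := by
      calc (1 - d) * (1 - d) ≤ (1 - d) * (A'.card * μ) := by gcongr
        _ = ((1 - d) * μ) * A'.card := by ring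
        _ ≤ _ := by gcongr
    have h3 : 0 ≤ d * d := mul_self_nonneg d
    have h4 : (1 - d) * (1 - d) = 1 - 2 * d + d * d := by ring
    linarith
  · intro κ'
    rw [hHcard, le_div_iff₀ hN0']
    have h1 := hall κ'
    have h2 : (1 - d) * (frac φ A κ' * A'.card) ≤ 1 := by
      calc (1 - d) * (frac φ A κ' * A'.card) ≤ (1 - d) * (μ * A'.card) := by gcongr
        _ = A'.card * ((1 - d) * μ) := by ring
        _ ≤ 1 := uA
    by_contra hcon
    push Not at hcon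
    have h3 : (1 - d) * (1 + δ) < 1 := by
      refine lt_of_lt_of_le ?_ h2
      exact mul_lt_mul_of_pos_left hcon h1d
    have h4 : (1 - d) * (1 + δ') ≤ (1 - d) * (1 + δ) := by
      apply mul_le_mul_of_nonneg_left _ h1d.le
      linarith
    have h5 : d * δ' ≤ d * 1 := mul_le_mul_of_nonneg_left hδ1 hd0.le
    have h6 : (1 - d) * (1 + δ') = 1 + δ' - d - d * δ' := by ring
    linarith
  · intro hcard
    rw [hHcard] at hcard
    have hcB : B'.card = 1 := by
      have h1 : 0 < B'.card := Finset.card_pos.2 ⟨l₀, hl₀⟩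
      have h2 : B'.card ≤ (A' + B').card := by
        calc B'.card = (B'.image (fun l => κ + l)).card :=
              (Finset.card_image_of_injective _ (add_right_injective κ)).symm
          _ ≤ _ := by
            apply Finset.card_le_card
            intro x hx
            obtain ⟨l, hl, rfl⟩ := Finset.mem_image.1 hx
            exact Finset.add_mem_add hκA hl
      omega
    rw [hcard] at cA uA
    rw [hcB] at cB
    simp only [Nat.cast_one, one_mul] at cA cB uA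
    -- `k₁ = κ`
    have hk₁A : k₁ ∈ A' := by
      rw [hA', Finset.mem_filter]
      refine ⟨hk₁, ?_⟩
      rw [← hμ, not_le]
      have h3 : 0 < d * μ := mul_pos hd0 hμ0
      have h4 : (1 - d) * μ = μ - d * μ := by ring
      linarith
    have hkk : k₁ = κ := Finset.card_le_one.1 (by omega) k₁ hk₁A κ hκA
    have r1 := a2_row_one hα0 hα1 HA (l := l₁) hk₁
    have r2 := a2_row_one hα0 hα1 HB (l := k₁) hl₁
    rw [← hμ, ← hν] at r1 r2
    have hμ19 : 19 / 20 ≤ μ := by linarith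
    have hν19 : 19 / 20 ≤ ν := by linarith
    have hμeq : μ = 1 := by
      rcases le_total μ ν with h | h
      · exact a2_eq_one hα hα35 hμ19 hμ1 h r1
      · have := a2_eq_one hα hα35 hν19 hν1 h r2
        linarith
    rw [hμ, hkk] at hμeq
    unfold frac at hμeq
    have hAc : (0 : ℝ) < A.card := by exact_mod_cast hred.1.card_pos
    rw [div_eq_one_iff_eq hAc.ne'] at hμeq
    have h1 : (A.filter (fun g => φ g = κ)).card = A.card := by exact_mod_cast hμeq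
    have h2 := Finset.eq_of_subset_of_card_le (Finset.filter_subset (fun g => φ g = κ) A) h1.ge
    intro s hs
    rw [← h2, Finset.mem_filter] at hs
    exact hs.2

end H315
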