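import Pool.Agent.H315R2.Sq.Defs
import Pool.Agent.H315R2.Sq.A2

/-! # A3: the local lemma for groups of exponent `p ≥ 5` -/

open Polynomial Finset
open scoped Classical Pointwise

namespace H315

theorem local_p (η : ℝ) (hη : 0 < η) :
    ∃ ε₀ : ℝ, 0 < ε₀ ∧ ε₀ ≤ 1 / 10 ∧ ∀ α : ℝ, 1 / 2 < α → α ≤ 1 / 2 + ε₀ →
    ∀ (p : ℕ) [Fact p.Prime], 5 ≤ p →
    ∀ (G Q : Type) [AddCommGroup G] [AddCommGroup Q], (∀ q : Q, p • q = 0) →
    ∀ (φ : G →+ Q) (A B : Finset G), Red α A B → ∀ κ : Q, η ≤ frac φ A κ →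
    (∀ s ∈ A, φ s = κ) ∨
    ∃ H : AddSubgroup Q, (H : Set Q).Finite ∧ 5 ≤ Nat.card H ∧
      (∀ h ∈ H, (99 / 100 : ℝ) / (Nat.card H : ℝ) ≤ frac φ A (κ + h)) ∧
      (∀ κ' : Q, frac φ A κ' ≤ (101 / 100 : ℝ) / (Nat.card H : ℝ)) := by
  obtain ⟨ε₀, h1, h2, h3⟩ := local_lemma η (1 / 100) hη (by norm_num)
  refine ⟨ε₀, h1, h2, fun α hα hα' p hp hp5 G Q _ _ hexp φ A B hred κ hκ => ?_⟩
  obtain ⟨H, hfin, hlow, hup, hone⟩ := h3 α hα hα' G Q φ A B hred κ hκ
  by_cases hc : Nat.card H = 1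
  · exact Or.inl (hone hc)
  · refine Or.inr ⟨H, hfin, ?_, fun h hh => ?_, fun κ' => ?_⟩
    · have hF : Finite H := hfin
      have hpos : 0 < Nat.card H := Nat.card_pos
      have hlt : 1 < Nat.card H := by omega
      have hnt : Nontrivial H := Finite.one_lt_card_iff_nontrivial.mp hlt
      obtain ⟨h, hh⟩ := exists_ne (0 : H)
      have hord : addOrderOf h = p := by
        refine addOrderOf_eq_prime ?_ hh
        ext
        simpa using hexp h
      have hdvd : p ∣ Nat.card H := hord ▸ addOrderOf_dvd_natCard h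
      exact hp5.trans (Nat.le_of_dvd hpos hdvd)
    · have := hlow h hh
      norm_num at this ⊢
      exact this
    · have := hup κ'
      norm_num at this ⊢
      exact this

end H315
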