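import Pool.Agent.H315R2.Sq.St.A3
import Pool.Agent.H315R2.Sq.St.B
import Pool.Agent.H315R2.Sq.St.C3
import Pool.Agent.H315R2.Sq.St.D2
import Pool.Agent.H315R2.Sq.St.E2
import Pool.Agent.H315R2.Sq.St.F
import Pool.Agent.H315R2.Sq.St.X
import Pool.Agent.H315R2.Sq.St.G
import Pool.Agent.H315R2.Sq.St.H2
import Pool.Agent.H315R2.Sq.St.H3
import Pool.Agent.H315R2.Sq.St.I6
import Pool.Agent.H315R2.Sq.St.J6
import Pool.Agent.H315R2.Sq.St.K3
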