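import Pool.Agent.H315R2.Sq.Defs
import Pool.Agent.H315R2.Sq.A1

/-! # B: pigeonhole -/

open Polynomial Finset
open scoped Classical Pointwise

namespace H315

/-- the numerical inequality -/
private lemma b_num (N : ℕ) (hN : 2 ≤ N) (α : ℝ) (hα : 1 / 2 < α)
    (hα' : α ≤ 1 / 2 + 1 / (10 * N)) (a b c : ℝ) (ha : 1 ≤ a) (hb : 1 ≤ b) (hbc : b ≤ c)
    (hc : c ≤ (a * b) ^ α) : a ^ ((1 : ℝ) / 2) * c ^ N ≤ a ^ N * b := by
  have ha0 : 0 < a := by linarith
  have hb0 : 0 < b := by linarith
  have hc0 : 0 < c := by linarith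
  have hN' : (2 : ℝ) ≤ N := by exact_mod_cast hN
  have hx : 0 ≤ Real.log a := Real.log_nonneg ha
  have hy : 0 ≤ Real.log b := Real.log_nonneg hb
  have h1 : Real.log b ≤ Real.log c := Real.log_le_log hb0 hbc
  have h2 : Real.log c ≤ α * (Real.log a + Real.log b) := by
    have := Real.log_le_log hc0 hc
    rwa [Real.log_rpow (by positivity), Real.log_mul ha0.ne' hb0.ne'] at this
  rw [← Real.log_le_log_iff (by positivity) (by positivity), Real.log_mul (by positivity)
    (by positivity), Real.log_mul (by positivity) hb0.ne', Real.log_rpow ha0, Real.log_pow,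
    Real.log_pow]
  set x := Real.log a
  set y := Real.log b
  set s := Real.log c
  have h3 : (1 - α) * y ≤ α * x := by nlinarith
  have h10 : (1 : ℝ) / (10 * N) ≤ 1 / 20 := by
    rw [div_le_div_iff₀ (by positivity) (by norm_num)]
    linarith
  have hα1 : α ≤ 11 / 20 := by linarith
  have h4 : (2 * α - 1) * N ≤ 1 / 5 := by
    have h5 : (α - 1 / 2) * N ≤ 1 / (10 * N) * N :=
      mul_le_mul_of_nonneg_right (by linarith) (by linarith)
    have h6 : 1 / (10 * (N : ℝ)) * N = 1 / 10 := by field_simp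
    linarith
  have h5 : 0 ≤ N * α - 1 := by nlinarith
  -- multiply by `1 - α`
  have h6 : 0 < 1 - α := by linarith
  have h7 : (N : ℝ) * s ≤ N * (α * (x + y)) := mul_le_mul_of_nonneg_left h2 (by linarith)
  have h8 : (N * α - 1) * ((1 - α) * y) ≤ (N * α - 1) * (α * x) :=
    mul_le_mul_of_nonneg_left h3 h5
  have h9 : 0 ≤ ((N : ℝ) * (1 - α) * (1 - α) - (N * α - 1) * α - (1 - α) / 2) * x := by
    refine mul_nonneg ?_ hx
    nlinarith
  have h11 : 0 ≤ (1 - α) * (N * x + y - N * (α * (x + y)) - 1 / 2 * x) := by nlinarith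
  have h12 : 0 ≤ N * x + y - N * (α * (x + y)) - 1 / 2 * x := by
    by_contra hcon
    push Not at hcon
    nlinarith [mul_neg_of_pos_of_neg h6 hcon]
  linarith

/-- If the pair `(A,B)` has ratio `≤ 1` and `α` is close to `1/2`, then a positive proportion `q`
of all `N`-tuples of elements of `A` has many members of the form `T - b`. -/
theorem pigeonhole {G : Type} [AddCommGroup G] (N : ℕ) (hN : 2 ≤ N) (α : ℝ) (hα : 1 / 2 < α)
    (hα' : α ≤ 1 / 2 + 1 / (10 * N)) (A B : Finset G) (hA : A.Nonempty) (hB : B.Nonempty)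
    (hr : ratio α A B ≤ 1) (S : Finset (Fin N → G)) (hS : ∀ s ∈ S, ∀ j, s j ∈ A)
    (q : ℝ) (hq : 0 ≤ q) (hqS : q * (A.card : ℝ) ^ N ≤ (S.card : ℝ)) :
    ∃ T : Fin N → G,
      q * (A.card : ℝ) ^ ((1 : ℝ) / 2) ≤ ((B.filter (fun b => (fun j => T j - b) ∈ S)).card : ℝ) := by
  have hA1 : (1 : ℝ) ≤ A.card := by exact_mod_cast hA.card_pos
  have hB1 : (1 : ℝ) ≤ B.card := by exact_mod_cast hB.card_pos
  have hBC : (B.card : ℝ) ≤ ((A + B).card : ℝ) := by
    exact_mod_cast Finset.card_le_card_add_left hA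
  have hC1 : (1 : ℝ) ≤ (A + B).card := hB1.trans hBC
  have hC : ((A + B).card : ℝ) ≤ ((A.card : ℝ) * B.card) ^ α := by
    rw [ratio, div_le_one (by positivity)] at hr
    exact hr
  have hnum := b_num N hN α hα hα' A.card B.card (A + B).card hA1 hB1 hBC hC
  set P : Finset (Fin N → G) := Fintype.piFinset (fun _ : Fin N => A + B) with hP
  have hPc : (P.card : ℝ) = ((A + B).card : ℝ) ^ N := by
    rw [hP, Fintype.card_piFinset]
    simp
  -- double counting
  have hcount : ((S.card : ℝ)) * B.card =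
      ∑ T ∈ P, ((B.filter (fun b => (fun j => T j - b) ∈ S)).card : ℝ) := by
    have h1 : (S ×ˢ B).card = ∑ T ∈ P,
        ((S ×ˢ B).filter (fun x => (fun j => x.1 j + x.2) = T)).card := by
      refine Finset.card_eq_sum_card_fiberwise ?_
      intro x hx
      have hx' := Finset.mem_product.mp (Finset.mem_coe.mp hx)
      rw [Finset.mem_coe, hP, Fintype.mem_piFinset]
      intro j
      exact Finset.add_mem_add (hS _ hx'.1 j) hx'.2
    have h2 : ∀ T ∈ P, ((S ×ˢ B).filter (fun x => (fun j => x.1 j + x.2) = T)).card =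
        (B.filter (fun b => (fun j => T j - b) ∈ S)).card := by
      intro T _
      refine Finset.card_bij' (fun x _ => x.2) (fun b _ => ((fun j => T j - b), b)) ?_ ?_ ?_ ?_
      · intro x hx
        obtain ⟨h3, h4⟩ := Finset.mem_filter.mp hx
        obtain ⟨h5, h6⟩ := Finset.mem_product.mp h3
        refine Finset.mem_filter.mpr ⟨h6, ?_⟩
        rw [← h4]
        simpa using h5
      · intro b hb
        obtain ⟨h3, h4⟩ := Finset.mem_filter.mp hb
        refine Finset.mem_filter.mpr ⟨Finset.mem_product.mpr ⟨h4, h3⟩, ?_⟩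
        funext j
        simp
      · intro x hx
        obtain ⟨h3, h4⟩ := Finset.mem_filter.mp hx
        refine Prod.ext ?_ rfl
        funext j
        rw [← h4]
        simp
      · intro b _
        rfl
    rw [Finset.card_product, Finset.sum_congr rfl h2] at h1
    exact_mod_cast h1
  by_contra hcon
  push Not at hcon
  have hP1 : P.Nonempty := by
    obtain ⟨a, ha⟩ := hA.add hB
    exact ⟨fun _ => a, by rw [hP, Fintype.mem_piFinset]; exact fun _ => ha⟩
  have h3 : ∑ T ∈ P, ((B.filter (fun b => (fun j => T j - b) ∈ S)).card : ℝ) <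
      ∑ _T ∈ P, q * (A.card : ℝ) ^ ((1 : ℝ) / 2) :=
    Finset.sum_lt_sum_of_nonempty hP1 (fun T _ => hcon T)
  rw [← hcount, Finset.sum_const, nsmul_eq_mul, hPc] at h3
  have h4 : q * (A.card : ℝ) ^ N * B.card ≤ S.card * B.card :=
    mul_le_mul_of_nonneg_right hqS (by linarith)
  have h5 : q * ((A.card : ℝ) ^ ((1 : ℝ) / 2) * ((A + B).card : ℝ) ^ N) ≤
      q * ((A.card : ℝ) ^ N * B.card) := mul_le_mul_of_nonneg_left hnum hq
  nlinarith

/-- `|A|` is large when the ratio is small. -/
theorem card_large {G : Type} [AddCommGroup G] (n : ℕ) : ∃ r₀ : ℝ, 0 < r₀ ∧ r₀ ≤ 1 ∧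
    ∀ α : ℝ, 1 / 2 < α → α ≤ 3 / 5 → ∀ A B : Finset G, A.Nonempty → B.Nonempty →
    ratio α A B ≤ r₀ → n ≤ A.card := by
  refine ⟨1 / (n + 1), by positivity, ?_, ?_⟩
  · rw [div_le_one (by positivity)]
    have := Nat.cast_nonneg (α := ℝ) n
    linarith
  · intro α hα hα' A B hA hB h
    have hA1 : (1 : ℝ) ≤ A.card := by exact_mod_cast hA.card_pos
    have h1 := (card_rpow_neg_le_ratio α (by linarith) (by linarith) A B hA hB).trans h
    rw [Real.rpow_neg (by linarith), inv_eq_one_div,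
      div_le_div_iff₀ (by positivity) (by positivity), one_mul, one_mul] at h1
    have h2 : (A.card : ℝ) ^ α ≤ A.card := by
      have := Real.rpow_le_rpow_of_exponent_le hA1 (show α ≤ 1 by linarith)
      rwa [Real.rpow_one] at this
    have h3 : (n : ℝ) ≤ A.card := by linarith
    exact_mod_cast h3

end H315
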