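import Pool.Agent.H315R2.Sq.Defs

/-! # C1: the map `psi` -/

open Polynomial Finset
open scoped Classical Pointwise

namespace H315

variable {k : Type} [Field k]

/-- `psi` as an additive map -/
theorem psi_add (D : ℕ) (a : k) (f g : k[X]) : psi D a (f + g) = psi D a f + psi D a g := by
  simp only [psi, add_comp, reflect_add]

theorem psi_sub (D : ℕ) (a : k) (f g : k[X]) : psi D a (f - g) = psi D a f - psi D a g := by
  simp only [psi, sub_comp, reflect_sub]

theorem psi_zero (D : ℕ) (a : k) : psi D a (0 : k[X]) = 0 := by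
  simp only [psi, zero_comp, reflect_zero]

theorem psi_C_mul (D : ℕ) (a c : k) (f : k[X]) : psi D a (C c * f) = C c * psi D a f := by
  simp only [psi, mul_comp, C_comp, reflect_C_mul]

theorem psi_injective (D : ℕ) (a : k) : Function.Injective (psi D a) := by
  intro f g h
  simp only [psi] at h
  have h1 : f.comp (X + C a) = g.comp (X + C a) := by
    have := congrArg (reflect D) h
    ext n
    have h2 := congrArg (fun q => q.coeff n) this
    simpa [coeff_reflect, revAt_invol] using h2
  have h2 := congrArg (fun q => q.comp (X - C a)) h1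
  simpa [comp_assoc] using h2

theorem natDegree_psi_le (D : ℕ) (a : k) (f : k[X]) (hf : f.natDegree ≤ D) :
    (psi D a f).natDegree ≤ D := by
  rw [psi, natDegree_le_iff_coeff_eq_zero]
  intro N hN
  rw [coeff_reflect, revAt_eq_self_of_lt hN]
  apply coeff_eq_zero_of_natDegree_lt
  rw [natDegree_comp, natDegree_X_add_C, mul_one]
  omega

theorem natDegree_psi (D : ℕ) (a : k) (f : k[X]) (hf : f.natDegree ≤ D) (h : f.eval a ≠ 0) :
    (psi D a f).natDegree = D := by
  apply le_antisymm (natDegree_psi_le D a f hf)
  apply le_natDegree_of_ne_zero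
  rw [psi, coeff_reflect, revAt_le le_rfl, Nat.sub_self, coeff_zero_eq_eval_zero, eval_comp]
  simpa using h

theorem isSquare_psi (D : ℕ) (hD : Even D) (a : k) (f : k[X]) (hf : f.natDegree ≤ D)
    (h : IsSquare f) : IsSquare (psi D a f) := by
  obtain ⟨y, rfl⟩ := h
  obtain ⟨e, rfl⟩ := hD
  have hy : y.natDegree ≤ e := by
    by_cases hy0 : y = 0
    · simp [hy0]
    · rw [natDegree_mul hy0 hy0] at hf
      omega
  refine ⟨reflect e (y.comp (X + C a)), ?_⟩
  rw [psi, mul_comp, reflect_mul]
  · rw [natDegree_comp, natDegree_X_add_C, mul_one]; exact hy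
  · rw [natDegree_comp, natDegree_X_add_C, mul_one]; exact hy

theorem c1_wronskian_comp (a : k) (f g : k[X]) :
    wronskian (f.comp (X + C a)) (g.comp (X + C a)) = (wronskian f g).comp (X + C a) := by
  simp only [wronskian, derivative_comp, sub_comp, mul_comp, derivative_add, derivative_X,
    derivative_C, add_zero, one_mul]

theorem c1_reflect_X_pow (D i : ℕ) (hi : i ≤ D) : reflect D (X ^ i : k[X]) = X ^ (D - i) := by
  have := reflect_monomial D i (R := k)
  rw [revAt_le hi] at this
  exact this

theorem c1_wronskian_monomial (D : ℕ) (hD : 1 ≤ D) (i j : ℕ) (hi : i ≤ D) (hj : j ≤ D) :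
    wronskian (reflect D (X ^ i : k[X])) (reflect D (X ^ j : k[X])) =
      - reflect (2 * D - 2) (wronskian (X ^ i : k[X]) (X ^ j)) := by
  rw [c1_reflect_X_pow D i hi, c1_reflect_X_pow D j hj]
  simp only [wronskian, derivative_X_pow]
  have key : ∀ m n : ℕ, (X ^ m * (C ((n : ℕ) : k) * X ^ (n - 1)) -
      C ((m : ℕ) : k) * X ^ (m - 1) * X ^ n : k[X]) = C ((n : k) - (m : k)) * X ^ (m + n - 1) := by
    intro m n
    rcases Nat.eq_zero_or_pos m with hm | hm
    · subst hm; simp
    rcases Nat.eq_zero_or_pos n with hn | hn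
    · subst hn; simp
    have e1 : (X : k[X]) ^ m * X ^ (n - 1) = X ^ (m + n - 1) := by
      rw [← pow_add]; congr 1; omega
    have e2 : (X : k[X]) ^ (m - 1) * X ^ n = X ^ (m + n - 1) := by
      rw [← pow_add]; congr 1; omega
    rw [C_sub]
    linear_combination C ((n : ℕ) : k) * e1 - C ((m : ℕ) : k) * e2
  rw [key, key, reflect_C_mul]
  rcases Nat.eq_zero_or_pos (i + j) with h0 | h0
  · have hi0 : i = 0 := by omega
    have hj0 : j = 0 := by omega
    subst hi0; subst hj0; simp
  · by_cases h2 : i + j = 2 * D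
    · have hi0 : i = D := by omega
      have hj0 : j = D := by omega
      subst hi0; subst hj0; simp
    · rw [c1_reflect_X_pow _ _ (by omega : i + j - 1 ≤ 2 * D - 2)]
      have e : D - i + (D - j) - 1 = 2 * D - 2 - (i + j - 1) := by omega
      rw [e, Nat.cast_sub hi, Nat.cast_sub hj]
      have : ((D : k) - (j : k)) - ((D : k) - (i : k)) = - ((j : k) - (i : k)) := by ring
      rw [this, C_neg, neg_mul]

theorem c1_wronskian_reflect (D : ℕ) (hD : 1 ≤ D) (f g : k[X]) (hf : f.natDegree ≤ D)
    (hg : g.natDegree ≤ D) :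
    wronskian (reflect D f) (reflect D g) = - reflect (2 * D - 2) (wronskian f g) := by
  have hsum : ∀ (N : ℕ) (s : Finset ℕ) (F : ℕ → k[X]),
      reflect N (∑ i ∈ s, F i) = ∑ i ∈ s, reflect N (F i) := by
    intro N s F
    induction s using Finset.induction_on with
    | empty => simp [reflect_zero]
    | insert a s ha ih => rw [Finset.sum_insert ha, Finset.sum_insert ha, reflect_add, ih]
  have hwl : ∀ (s : Finset ℕ) (F : ℕ → k[X]) (q : k[X]),
      wronskian (∑ i ∈ s, F i) q = ∑ i ∈ s, wronskian (F i) q := by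
    intro s F q
    induction s using Finset.induction_on with
    | empty => simp
    | insert a s ha ih => rw [Finset.sum_insert ha, Finset.sum_insert ha, wronskian_add_left, ih]
  have hwr : ∀ (s : Finset ℕ) (F : ℕ → k[X]) (q : k[X]),
      wronskian q (∑ i ∈ s, F i) = ∑ i ∈ s, wronskian q (F i) := by
    intro s F q
    induction s using Finset.induction_on with
    | empty => simp
    | insert a s ha ih => rw [Finset.sum_insert ha, Finset.sum_insert ha, wronskian_add_right, ih]
  have hwC : ∀ (a b : k) (u v : k[X]), wronskian (C a * u) (C b * v) = C a * (C b * wronskian u v) := by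
    intro a b u v
    simp only [wronskian, derivative_C_mul]
    ring
  have hf' := as_sum_range_C_mul_X_pow' (n := D + 1) f (by omega)
  have hg' := as_sum_range_C_mul_X_pow' (n := D + 1) g (by omega)
  rw [hf', hg', hsum, hsum, hwl, hwl, hsum, ← Finset.sum_neg_distrib]
  apply Finset.sum_congr rfl
  intro i hi
  rw [hwr, hwr, hsum, ← Finset.sum_neg_distrib]
  apply Finset.sum_congr rfl
  intro j hj
  rw [Finset.mem_range] at hi hj
  rw [reflect_C_mul, reflect_C_mul, hwC, hwC, reflect_C_mul, reflect_C_mul,
    c1_wronskian_monomial D hD i j (by omega) (by omega)]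
  ring

theorem wronskian_psi (D : ℕ) (hD : 1 ≤ D) (a : k) (f g : k[X]) (hf : f.natDegree ≤ D)
    (hg : g.natDegree ≤ D) : wronskian (psi D a f) (psi D a g) = 0 ↔ wronskian f g = 0 := by
  have hf' : (f.comp (X + C a)).natDegree ≤ D := by
    rw [natDegree_comp, natDegree_X_add_C, mul_one]; exact hf
  have hg' : (g.comp (X + C a)).natDegree ≤ D := by
    rw [natDegree_comp, natDegree_X_add_C, mul_one]; exact hg
  rw [psi, psi, c1_wronskian_reflect D hD _ _ hf' hg', neg_eq_zero, c1_wronskian_comp]
  have h := psi_injective (2 * D - 2) a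
  constructor
  · intro h0
    apply h
    rw [psi_zero]
    exact h0
  · intro h0
    rw [h0, zero_comp, reflect_zero]

end H315
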