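import Pool.Agent.H315R2.Sq.Defs
import Pool.Agent.H315R2.Sq.C1

/-! # C2: the two stable properties -/

open Polynomial Finset
open scoped Classical Pointwise

namespace H315

variable {k : Type} [Field k]

/-- `LP` passes to an image under a map which reflects proportionality. -/
theorem c2_LP_image {p : ℕ} {A : Finset k[X]} {g : k[X] → k[X]} (h : LP p A)
    (hg : ∀ s ∈ A, ∀ t ∈ A, (∃ c : k, g t = C c * g s) → ∃ c : k, t = C c * s) :
    LP p (A.image g) := by
  intro s' hs'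
  obtain ⟨s, hs, rfl⟩ := Finset.mem_image.1 hs'
  refine le_trans ?_ (h s hs)
  have hsub : (A.image g).filter (fun t => ∃ c : k, t = C c * g s) ⊆
      (A.filter (fun t => ∃ c : k, t = C c * s)).image g := by
    intro t' ht'
    rw [Finset.mem_filter] at ht'
    obtain ⟨ht', hc⟩ := ht'
    obtain ⟨t, ht, rfl⟩ := Finset.mem_image.1 ht'
    exact Finset.mem_image.2 ⟨t, Finset.mem_filter.2 ⟨ht, hg s hs t ht hc⟩, rfl⟩
  exact le_trans (Finset.card_le_card hsub) Finset.card_image_le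

/-- `LP` passes back from an image under an injective map which preserves proportionality. -/
theorem c2_LP_of_image {p : ℕ} {A : Finset k[X]} {g : k[X] → k[X]} (h : LP p (A.image g))
    (hinj : Function.Injective g)
    (hg : ∀ s ∈ A, ∀ t ∈ A, (∃ c : k, t = C c * s) → ∃ c : k, g t = C c * g s) :
    LP p A := by
  intro s hs
  refine le_trans ?_ (h (g s) (Finset.mem_image_of_mem g hs))
  rw [← Finset.card_image_of_injective _ hinj]
  apply Finset.card_le_card
  intro t' ht'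
  obtain ⟨t, ht, rfl⟩ := Finset.mem_image.1 ht'
  rw [Finset.mem_filter] at ht
  exact Finset.mem_filter.2 ⟨Finset.mem_image_of_mem g ht.1, hg s hs t ht.1 ht.2⟩

theorem c2_isSquare_of_mul {a : k} {s : k[X]} (h : IsSquare ((X - C a) ^ 2 * s)) :
    IsSquare s := by
  obtain ⟨y, hy⟩ := h
  have hX : (X - C a : k[X]) ≠ 0 := X_sub_C_ne_zero a
  have hdvd : (X - C a) ∣ y := by
    have h1 : (X - C a) ∣ y * y := by
      rw [← hy]
      exact Dvd.dvd.mul_right (dvd_pow_self _ two_ne_zero) _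
    rcases (prime_X_sub_C a).dvd_or_dvd h1 with h | h <;> exact h
  obtain ⟨z, rfl⟩ := hdvd
  refine ⟨z, ?_⟩
  have h2 : (X - C a) ^ 2 * s = (X - C a) ^ 2 * (z * z) := by rw [hy]; ring
  exact mul_left_cancel₀ (pow_ne_zero 2 hX) h2

theorem c2_isSquare_of_pow {m : ℕ} {s : k[X]} (hs : s ≠ 0) (h : IsSquare (s ^ (2 * m + 1))) :
    IsSquare s := by
  obtain ⟨y, hy⟩ := h
  have hdvd : (s ^ m) ^ 2 ∣ y ^ 2 := by
    refine ⟨s, ?_⟩
    rw [sq y, ← hy, ← pow_mul, pow_succ, mul_comm m 2]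
  have hdvd' : s ^ m ∣ y := (IsIntegrallyClosed.pow_dvd_pow_iff two_ne_zero).1 hdvd
  obtain ⟨z, rfl⟩ := hdvd'
  refine ⟨z, ?_⟩
  have h2 : s ^ (2 * m) * s = s ^ (2 * m) * (z * z) := by
    rw [← pow_succ, hy, two_mul, pow_add]
    ring
  exact mul_left_cancel₀ (pow_ne_zero _ hs) h2

theorem c2_pow_inj (p : ℕ) [Fact p.Prime] [CharP k p] :
    Function.Injective (fun s : k[X] => s ^ p) := by
  intro s t h
  exact frobenius_inj k[X] p h

theorem c2_sq (p : ℕ) [Fact p.Prime] (hp : 3 ≤ p) [CharP k p] :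
    Stable p (fun A : Finset k[X] => SqSet p A) where
  sq := fun A h => h
  op1 := by
    intro A D a hDe hD1 hdeg hA
    refine ⟨?_, ?_⟩
    · intro s' hs'
      obtain ⟨s, hs, rfl⟩ := Finset.mem_image.1 hs'
      refine ⟨?_, isSquare_psi D hDe a s (hdeg s hs) (hA.1 s hs).2⟩
      intro h0
      apply (hA.1 s hs).1
      apply psi_injective D a
      rw [h0, psi_zero]
    · apply c2_LP_image hA.2
      rintro s hs t ht ⟨c, hc⟩
      refine ⟨c, psi_injective D a ?_⟩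
      rw [hc, psi_C_mul]
  op2 := by
    intro A a h
    have hX : ((X - C a) ^ 2 : k[X]) ≠ 0 := pow_ne_zero 2 (X_sub_C_ne_zero a)
    refine ⟨?_, ?_⟩
    · intro s hs
      obtain ⟨h1, h2⟩ := h.1 _ (Finset.mem_image_of_mem _ hs)
      exact ⟨right_ne_zero_of_mul h1, c2_isSquare_of_mul h2⟩
    · apply c2_LP_of_image h.2
      · intro s t hst
        exact mul_left_cancel₀ hX hst
      · rintro s hs t ht ⟨c, hc⟩
        refine ⟨c, ?_⟩
        show (X - C a) ^ 2 * t = C c * ((X - C a) ^ 2 * s)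
        rw [hc]; ring
  op3 := by
    intro A h
    have hpp : p.Prime := Fact.out
    obtain ⟨m, hm⟩ : ∃ m, p = 2 * m + 1 := by
      rcases hpp.eq_two_or_odd with h2 | h2
      · omega
      · exact ⟨p / 2, by omega⟩
    refine ⟨?_, ?_⟩
    · intro s hs
      obtain ⟨h1, h2⟩ := h.1 _ (Finset.mem_image_of_mem _ hs)
      have hs0 : s ≠ 0 := by
        intro h0
        apply h1
        show s ^ p = 0
        rw [h0, zero_pow hpp.ne_zero]
      refine ⟨hs0, ?_⟩
      have h3 : IsSquare (s ^ (2 * m + 1)) := by rw [← hm]; exact h2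
      exact c2_isSquare_of_pow hs0 h3
    · apply c2_LP_of_image h.2 (c2_pow_inj p)
      rintro s hs t ht ⟨c, hc⟩
      refine ⟨c ^ p, ?_⟩
      show t ^ p = C (c ^ p) * s ^ p
      rw [hc, mul_pow, C_pow]

theorem stable_sq (p : ℕ) [Fact p.Prime] (hp : 3 ≤ p) [CharP k p] [IsAlgClosed k] :
    Stable p (fun A : Finset k[X] => SqSet p A) := c2_sq p hp

theorem c2_wronskian_mul (h f g : k[X]) : wronskian (h * f) (h * g) = h ^ 2 * wronskian f g := by
  unfold wronskian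
  rw [derivative_mul, derivative_mul]
  ring

theorem stable_pencil (p : ℕ) [Fact p.Prime] (hp : 3 ≤ p) [CharP k p] [IsAlgClosed k] :
    Stable p (fun A : Finset k[X] => SqSet p A ∧ Pencil A) where
  sq := fun A h => h.1
  op1 := by
    rintro A D a hDe hD1 hdeg ⟨hA, hP1, s₁, hs₁, s₂, hs₂, hW⟩
    refine ⟨(c2_sq p hp).op1 A D a hDe hD1 hdeg hA, ?_, ?_⟩
    · intro t₁ ht₁ t₂ ht₂ t₃ ht₃
      obtain ⟨r₁, hr₁, rfl⟩ := Finset.mem_image.1 ht₁
      obtain ⟨r₂, hr₂, rfl⟩ := Finset.mem_image.1 ht₂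
      obtain ⟨r₃, hr₃, rfl⟩ := Finset.mem_image.1 ht₃
      rw [← psi_sub, ← psi_sub, wronskian_psi D hD1]
      · exact hP1 r₁ hr₁ r₂ hr₂ r₃ hr₃
      · exact (natDegree_sub_le _ _).trans (max_le (hdeg _ hr₁) (hdeg _ hr₂))
      · exact (natDegree_sub_le _ _).trans (max_le (hdeg _ hr₁) (hdeg _ hr₃))
    · refine ⟨_, Finset.mem_image_of_mem _ hs₁, _, Finset.mem_image_of_mem _ hs₂, ?_⟩
      intro h0
      exact hW ((wronskian_psi D hD1 a s₁ s₂ (hdeg _ hs₁) (hdeg _ hs₂)).1 h0)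
  op2 := by
    rintro A a ⟨hA, hP1, t₁, ht₁, t₂, ht₂, hW⟩
    have hX : ((X - C a) ^ 2 : k[X]) ≠ 0 := pow_ne_zero 2 (X_sub_C_ne_zero a)
    refine ⟨(c2_sq p hp).op2 A a hA, ?_, ?_⟩
    · intro s₁ hs₁ s₂ hs₂ s₃ hs₃
      have h := hP1 _ (Finset.mem_image_of_mem _ hs₁) _ (Finset.mem_image_of_mem _ hs₂) _
        (Finset.mem_image_of_mem _ hs₃)
      rw [← mul_sub, ← mul_sub, c2_wronskian_mul] at h
      exact (mul_eq_zero.1 h).resolve_left (pow_ne_zero 2 hX)
    · obtain ⟨r₁, hr₁, rfl⟩ := Finset.mem_image.1 ht₁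
      obtain ⟨r₂, hr₂, rfl⟩ := Finset.mem_image.1 ht₂
      refine ⟨r₁, hr₁, r₂, hr₂, ?_⟩
      intro h0
      apply hW
      rw [c2_wronskian_mul, h0, mul_zero]
  op3 := by
    rintro A ⟨hA, hP1, t₁, ht₁, t₂, ht₂, hW⟩
    exfalso
    obtain ⟨r₁, hr₁, rfl⟩ := Finset.mem_image.1 ht₁
    obtain ⟨r₂, hr₂, rfl⟩ := Finset.mem_image.1 ht₂
    apply hW
    have hd : ∀ s : k[X], derivative (s ^ p) = 0 := by
      intro s
      rw [derivative_pow, CharP.cast_eq_zero k p, C_0, zero_mul, zero_mul]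
    unfold wronskian
    rw [hd, hd, mul_zero, zero_mul, sub_zero]

theorem SqSet.subset {p : ℕ} {A A' : Finset k[X]} (h : SqSet p A) (hA : A' ⊆ A) : SqSet p A' := by
  refine ⟨fun s hs => h.1 s (hA hs), fun s hs => le_trans ?_ (h.2 s (hA hs))⟩
  exact Finset.card_le_card (Finset.filter_subset_filter _ hA)

end H315
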