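import Pool.Agent.H315R2.Sq.Defs
import Pool.Agent.H315R2.Sq.A1
import Pool.Agent.H315R2.Sq.C1
import Pool.Agent.H315R2.Sq.C2

/-! # C3: the normal form -/

open Polynomial Finset
open scoped Classical Pointwise

namespace H315

variable {k : Type} [Field k]

theorem c3_root (p : ℕ) [Fact p.Prime] [CharP k p] [IsAlgClosed k]
    (f : k[X]) (hf : derivative f = 0) : ∃ g : k[X], g ^ p = f := by
  have hp : p ≠ 0 := (Fact.out : p.Prime).ne_zero
  obtain ⟨g, hg⟩ := Polynomial.map_surjective (frobenius k p) (surjective_frobenius k p)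
    (contract p f)
  refine ⟨g, ?_⟩
  rw [← map_frobenius_expand (p := p), map_expand, hg]
  exact expand_contract p hf hp

theorem c3_red (α : ℝ) (f : k[X] →+ k[X]) (hf : Function.Injective f) (c : k[X])
    (A B : Finset k[X]) :
    Red α (A.image f) (B.image (fun b => f b + c)) ↔ Red α A B := by
  have key : ∀ (i : DecidableEq k[X]), (Red α (@Finset.image _ _ i f A)
      (@Finset.image _ _ i (fun b => f b + c) B) ↔ Red α A B) := by
    intro i
    have hi : i = fun a b => Classical.propDecidable (a = b) := Subsingleton.elim _ _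
    subst hi
    exact red_image_iff α f hf c A B
  exact key _

theorem c3_ratio (α : ℝ) (f : k[X] →+ k[X]) (hf : Function.Injective f) (c : k[X])
    (A B : Finset k[X]) :
    ratio α (A.image f) (B.image (fun b => f b + c)) = ratio α A B := by
  have key : ∀ (i : DecidableEq k[X]), (ratio α (@Finset.image _ _ i f A)
      (@Finset.image _ _ i (fun b => f b + c) B) = ratio α A B) := by
    intro i
    have hi : i = fun a b => Classical.propDecidable (a = b) := Subsingleton.elim _ _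
    subst hi
    exact ratio_image α f hf c A B
  exact key _

/-- a point which is a root of no element of a finite set of nonzero polynomials -/
theorem c3_point [Infinite k] (A : Finset k[X]) (hA : ∀ s ∈ A, s ≠ 0) :
    ∃ a : k, ∀ s ∈ A, s.eval a ≠ 0 := by
  have hprod : (∏ s ∈ A, s) ≠ 0 := Finset.prod_ne_zero_iff.2 hA
  by_contra hcon
  push Not at hcon
  apply hprod
  apply Polynomial.funext
  intro a
  obtain ⟨s, hs, hs0⟩ := hcon a
  rw [eval_prod, eval_zero]
  exact Finset.prod_eq_zero hs hs0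

/-- the set of admissible degrees -/
def C3Q (P : Finset k[X] → Prop) (α r₀ : ℝ) (D : ℕ) : Prop :=
  Even D ∧ ∃ A B : Finset k[X], Red α A B ∧ ratio α A B ≤ r₀ ∧ P A ∧
    (∀ s ∈ A, s.natDegree = D) ∧ (∀ b ∈ B, b.natDegree ≤ D)

theorem c3_exists (p : ℕ) [IsAlgClosed k]
    (P : Finset k[X] → Prop) (hP : Stable p P) (α r₀ : ℝ)
    (A B : Finset k[X]) (h : Red α A B) (hr : ratio α A B ≤ r₀)
    (hA : P A) : ∃ D, C3Q P α r₀ D := by
  obtain ⟨a, ha⟩ := c3_point A (fun s hs => ((hP.sq A hA).1 s hs).1)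
  set D : ℕ := 2 * (1 + ∑ s ∈ A ∪ B, s.natDegree) with hD
  have hDeg : ∀ s ∈ A ∪ B, s.natDegree ≤ D := by
    intro s hs
    have : s.natDegree ≤ ∑ s ∈ A ∪ B, s.natDegree :=
      Finset.single_le_sum (f := fun s : k[X] => s.natDegree) (fun _ _ => Nat.zero_le _) hs
    omega
  have hEven : Even D := even_two_mul _
  have hD1 : 1 ≤ D := by omega
  let f : k[X] →+ k[X] := AddMonoidHom.mk' (psi D a) (psi_add D a)
  have hf : Function.Injective f := psi_injective D a
  refine ⟨D, hEven, A.image (psi D a), B.image (psi D a), ?_, ?_, ?_, ?_, ?_⟩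
  · have h1 := (c3_red α f hf 0 A B).2 h
    simpa [f] using h1
  · have h1 := c3_ratio α f hf 0 A B
    have h2 : ratio α (A.image (psi D a)) (B.image (psi D a)) = ratio α A B := by
      simpa [f] using h1
    rw [h2]
    exact hr
  · exact hP.op1 A D a hEven hD1 (fun s hs => hDeg s (Finset.mem_union_left _ hs)) hA
  · intro s hs
    obtain ⟨t, ht, rfl⟩ := Finset.mem_image.1 hs
    exact natDegree_psi D a t (hDeg t (Finset.mem_union_left _ ht)) (ha t ht)
  · intro s hs
    obtain ⟨t, ht, rfl⟩ := Finset.mem_image.1 hs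
    exact natDegree_psi_le D a t (hDeg t (Finset.mem_union_right _ ht))

theorem c3_pos (p : ℕ) [Fact p.Prime] (α r₀ : ℝ) (hα : 1 / 2 < α) (hα' : α ≤ 3 / 5)
    (hr₀ : r₀ < 1 / (p : ℝ)) (A B : Finset k[X]) (h : Red α A B) (hr : ratio α A B ≤ r₀)
    (hA : SqSet p A) (hdeg : ∀ s ∈ A, s.natDegree = 0) : False := by
  obtain ⟨s₀, hs₀⟩ := h.1
  have hs₀0 := (hA.1 s₀ hs₀).1
  have hp : (0 : ℝ) < p := by
    have := (Fact.out : p.Prime).pos
    exact_mod_cast this
  have hall : A.filter (fun t => ∃ c : k, t = C c * s₀) = A := by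
    apply Finset.filter_true_of_mem
    intro t ht
    have h1 := Polynomial.eq_C_of_natDegree_eq_zero (hdeg s₀ hs₀)
    have h2 := Polynomial.eq_C_of_natDegree_eq_zero (hdeg t ht)
    have h3 : s₀.coeff 0 ≠ 0 := by
      intro h0
      apply hs₀0
      rw [h1, h0, C_0]
    refine ⟨t.coeff 0 / s₀.coeff 0, ?_⟩
    rw [h1, coeff_C_zero, ← C_mul, div_mul_cancel₀ _ h3]
    exact h2
  have hcard := hA.2 s₀ hs₀
  rw [hall] at hcard
  have h4 := card_rpow_neg_le_ratio α (by linarith) (by linarith) A B h.1 h.2.1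
  have hc1 : (1 : ℝ) ≤ A.card := by
    have := h.1.card_pos
    exact_mod_cast this
  have h5 : (A.card : ℝ) ≤ p := by exact_mod_cast hcard
  have h6 : (A.card : ℝ) ^ (-(1 : ℝ)) ≤ (A.card : ℝ) ^ (-α) :=
    Real.rpow_le_rpow_of_exponent_le hc1 (by linarith)
  rw [Real.rpow_neg_one] at h6
  have h7 : 1 / (p : ℝ) ≤ (A.card : ℝ)⁻¹ := by
    rw [one_div]
    exact inv_anti₀ (by linarith) h5
  linarith

theorem c3_n1 (p : ℕ)
    (P : Finset k[X] → Prop) (hP : Stable p P) (α r₀ : ℝ) (hα : 1 / 2 < α) (hα' : α ≤ 3 / 5)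
    (D : ℕ) (hE : Even D) (A B : Finset k[X]) (h : Red α A B) (hr : ratio α A B ≤ r₀)
    (hA : P A) (hdA : ∀ s ∈ A, s.natDegree = D) (hdB : ∀ b ∈ B, b.natDegree ≤ D) (a : k)
    (ha : ∀ s ∈ A, s.eval a = 0) : ∃ D' < D, C3Q P α r₀ D' := by
  set q : k[X] := (X - C a) ^ 2 with hq
  have hqm : q.Monic := (monic_X_sub_C a).pow 2
  have hqd : q.natDegree = 2 := by rw [hq, natDegree_pow, natDegree_X_sub_C]
  have hdvd : ∀ s ∈ A, q ∣ s := by
    intro s hs
    obtain ⟨g, hg⟩ := ((hP.sq A hA).1 s hs).2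
    have h1 := ha s hs
    rw [hg, eval_mul, mul_self_eq_zero] at h1
    have h2 : (X - C a) ∣ g := dvd_iff_isRoot.2 h1
    rw [hg, hq, pow_two]
    exact mul_dvd_mul h2 h2
  let φ : k[X] →+ k[X] := (modByMonicHom q).toAddMonoidHom
  have hφ : ∀ f, φ f = f %ₘ q := fun f => rfl
  have hA0 : ∀ s ∈ A, φ s = 0 := by
    intro s hs
    rw [hφ]
    exact (modByMonic_eq_zero_iff_dvd hqm).2 (hdvd s hs)
  have hB0 := const_of_const α (by linarith) (by linarith) φ A B h 0 hA0
  obtain ⟨b₀, hb₀⟩ := h.2.1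
  set c₀ : k[X] := b₀ %ₘ q with hc₀
  have hBc : ∀ b ∈ B, b = q * (b /ₘ q) + c₀ := by
    intro b hb
    have h1 : b %ₘ q = c₀ := hB0 b hb b₀ hb₀
    have h2 := modByMonic_add_div b q
    rw [h1] at h2
    rw [add_comm]
    exact h2.symm
  have hAc : ∀ s ∈ A, s = q * (s /ₘ q) := by
    intro s hs
    have h2 := modByMonic_add_div s q
    have h1 : s %ₘ q = 0 := hA0 s hs
    rw [h1, zero_add] at h2
    exact h2.symm
  set A₂ : Finset k[X] := A.image (fun s => s /ₘ q) with hA₂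
  set B₂ : Finset k[X] := B.image (fun s => s /ₘ q) with hB₂
  let f : k[X] →+ k[X] := AddMonoidHom.mulLeft q
  have hf : Function.Injective f := by
    intro x y hxy
    exact mul_left_cancel₀ hqm.ne_zero hxy
  have hAim : A₂.image (fun s => q * s) = A := by
    rw [hA₂, Finset.image_image]
    ext s
    simp only [Finset.mem_image, Function.comp_apply]
    constructor
    · rintro ⟨t, ht, rfl⟩
      rw [← hAc t ht]; exact ht
    · intro hs
      exact ⟨s, hs, (hAc s hs).symm⟩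
  have hAim' : A₂.image f = A := hAim
  have hBim : B₂.image (fun b => f b + c₀) = B := by
    rw [hB₂, Finset.image_image]
    ext s
    simp only [Finset.mem_image, Function.comp_apply]
    constructor
    · rintro ⟨t, ht, rfl⟩
      have : f (t /ₘ q) + c₀ = t := (hBc t ht).symm
      rw [this]; exact ht
    · intro hs
      exact ⟨s, hs, (hBc s hs).symm⟩
  obtain ⟨s₀, hs₀⟩ := h.1
  have hD2 : 2 ≤ D := by
    have h1 := natDegree_le_of_dvd (hdvd s₀ hs₀) ((hP.sq A hA).1 s₀ hs₀).1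
    rw [hqd, hdA s₀ hs₀] at h1
    exact h1
  refine ⟨D - 2, by omega, ?_, A₂, B₂, ?_, ?_, ?_, ?_, ?_⟩
  · obtain ⟨e, he⟩ := hE
    exact ⟨e - 1, by omega⟩
  · have h1 := c3_red α f hf c₀ A₂ B₂
    rw [hAim', hBim] at h1
    exact h1.1 h
  · have h1 := c3_ratio α f hf c₀ A₂ B₂
    rw [hAim', hBim] at h1
    rw [← h1]
    exact hr
  · apply hP.op2 A₂ a
    rw [← hq, hAim]
    exact hA
  · intro s hs
    obtain ⟨t, ht, rfl⟩ := Finset.mem_image.1 hs
    rw [natDegree_divByMonic _ hqm, hdA t ht, hqd]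
  · intro s hs
    obtain ⟨t, ht, rfl⟩ := Finset.mem_image.1 hs
    rw [natDegree_divByMonic _ hqm, hqd]
    have := hdB t ht
    omega

theorem c3_n2 (p : ℕ) [Fact p.Prime] (hp : 3 ≤ p) [CharP k p] [IsAlgClosed k]
    (P : Finset k[X] → Prop) (hP : Stable p P) (α r₀ : ℝ) (hα : 1 / 2 < α) (hα' : α ≤ 3 / 5)
    (D : ℕ) (hDpos : 0 < D) (hE : Even D) (A B : Finset k[X]) (h : Red α A B)
    (hr : ratio α A B ≤ r₀)
    (hA : P A) (hdA : ∀ s ∈ A, s.natDegree = D) (hdB : ∀ b ∈ B, b.natDegree ≤ D)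
    (ha : ∀ s ∈ A, derivative s = 0) : ∃ D' < D, C3Q P α r₀ D' := by
  have hpp : p.Prime := Fact.out
  let φ : k[X] →+ k[X] := (derivative : k[X] →ₗ[k] k[X]).toAddMonoidHom
  have hφ : ∀ f, φ f = derivative f := fun f => rfl
  have hB0 := const_of_const α (by linarith) (by linarith) φ A B h 0 ha
  obtain ⟨b₀, hb₀⟩ := h.2.1
  have hroot : ∀ f : k[X], ∃ g : k[X], derivative f = 0 → g ^ p = f := by
    intro f
    by_cases hf : derivative f = 0
    · obtain ⟨g, hg⟩ := c3_root p f hf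
      exact ⟨g, fun _ => hg⟩
    · exact ⟨0, fun h => absurd h hf⟩
  choose rt hrt using hroot
  have hdeg : ∀ f : k[X], derivative f = 0 → f.natDegree = p * (rt f).natDegree := by
    intro f hf
    conv_lhs => rw [← hrt f hf, natDegree_pow]
  have hBd : ∀ b ∈ B, derivative (b - b₀) = 0 := by
    intro b hb
    have h1 : derivative b = derivative b₀ := hB0 b hb b₀ hb₀
    rw [derivative_sub, h1, sub_self]
  let f : k[X] →+ k[X] := (frobenius k[X] p).toAddMonoidHom
  have hfdef : ∀ x, f x = x ^ p := fun x => rfl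
  have hf : Function.Injective f := by
    intro x y hxy
    exact frobenius_inj k[X] p hxy
  set A₂ : Finset k[X] := A.image rt with hA₂
  set B₂ : Finset k[X] := B.image (fun b => rt (b - b₀)) with hB₂
  have hAim : A₂.image (fun s => s ^ p) = A := by
    rw [hA₂, Finset.image_image]
    ext s
    simp only [Finset.mem_image, Function.comp_apply]
    constructor
    · rintro ⟨t, ht, rfl⟩
      rw [hrt t (ha t ht)]; exact ht
    · intro hs
      exact ⟨s, hs, hrt s (ha s hs)⟩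
  have hAim' : A₂.image f = A := hAim
  have hBim : B₂.image (fun b => f b + b₀) = B := by
    rw [hB₂, Finset.image_image]
    ext s
    simp only [Finset.mem_image, Function.comp_apply, hfdef]
    constructor
    · rintro ⟨t, ht, rfl⟩
      rw [hrt (t - b₀) (hBd t ht), sub_add_cancel]; exact ht
    · intro hs
      exact ⟨s, hs, by rw [hrt (s - b₀) (hBd s hs), sub_add_cancel]⟩
  obtain ⟨s₀, hs₀⟩ := h.1
  have hDp : D = p * (rt s₀).natDegree := by
    rw [← hdeg s₀ (ha s₀ hs₀), hdA s₀ hs₀]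
  set D₂ := (rt s₀).natDegree with hD₂
  have hodd : ¬ Even p := by
    intro he
    have := (hpp.even_iff).1 he
    omega
  refine ⟨D₂, ?_, ?_, A₂, B₂, ?_, ?_, ?_, ?_, ?_⟩
  · rw [hDp] at hDpos ⊢
    have : 0 < D₂ := Nat.pos_of_mul_pos_left hDpos
    nlinarith
  · rw [hDp, Nat.even_mul] at hE
    exact hE.resolve_left hodd
  · have h1 := c3_red α f hf b₀ A₂ B₂
    rw [hAim', hBim] at h1
    exact h1.1 h
  · have h1 := c3_ratio α f hf b₀ A₂ B₂
    rw [hAim', hBim] at h1
    rw [← h1]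
    exact hr
  · apply hP.op3 A₂
    rw [hAim]
    exact hA
  · intro s hs
    obtain ⟨t, ht, rfl⟩ := Finset.mem_image.1 hs
    have h1 := hdeg t (ha t ht)
    rw [hdA t ht, hDp] at h1
    exact (Nat.eq_of_mul_eq_mul_left hpp.pos h1).symm
  · intro s hs
    obtain ⟨t, ht, rfl⟩ := Finset.mem_image.1 hs
    have h1 := hdeg (t - b₀) (hBd t ht)
    have h2 : (t - b₀).natDegree ≤ D := (natDegree_sub_le _ _).trans (max_le (hdB t ht) (hdB b₀ hb₀))
    rw [h1, hDp] at h2
    exact Nat.le_of_mul_le_mul_left h2 hpp.pos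

theorem normal_form (p : ℕ) [Fact p.Prime] (hp : 3 ≤ p) [CharP k p] [IsAlgClosed k]
    (P : Finset k[X] → Prop) (hP : Stable p P) (α r₀ : ℝ) (hα : 1 / 2 < α) (hα' : α ≤ 3 / 5)
    (hr₀ : r₀ < 1 / (p : ℝ)) (A B : Finset k[X]) (h : Red α A B) (hr : ratio α A B ≤ r₀)
    (hA : P A) :
    ∃ (D : ℕ) (A' B' : Finset k[X]), NF p α D A' B' ∧ ratio α A' B' ≤ r₀ ∧ P A' := by
  have hex := c3_exists p P hP α r₀ A B h hr hA
  obtain ⟨hE, A', B', hR, hrr, hPA, hdA, hdB⟩ := Nat.find_spec hex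
  set D := Nat.find hex with hD
  have hmin : ¬ ∃ D' < D, C3Q P α r₀ D' := by
    rintro ⟨D', hD', hQ⟩
    exact Nat.find_min hex hD' hQ
  have hDpos : 0 < D := by
    rcases Nat.eq_zero_or_pos D with h0 | h0
    · exfalso
      exact c3_pos p α r₀ hα hα' hr₀ A' B' hR hrr (hP.sq A' hPA)
        (fun s hs => by rw [hdA s hs, h0])
    · exact h0
  refine ⟨D, A', B', ⟨hR, hP.sq A' hPA, hDpos, hdA, hdB, ?_, ?_⟩, hrr, hPA⟩
  · intro a
    by_contra hcon
    push Not at hcon
    exact hmin (c3_n1 p P hP α r₀ hα hα' D hE A' B' hR hrr hPA hdA hdB a hcon)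
  · by_contra hcon
    push Not at hcon
    exact hmin (c3_n2 p hp P hP α r₀ hα hα' D hDpos hE A' B' hR hrr hPA hdA hdB hcon)

end H315
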