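import Pool.Agent.H315R2.Sq.Defs

/-! # D1: root multiplicities and Wronskians -/

open Polynomial Finset
open scoped Classical Pointwise

namespace H315

variable {k : Type} [Field k]

/-- `∑ₐ vₐ(f) = deg f`, summed over any finite set containing the roots -/
theorem sum_rootMultiplicity [IsAlgClosed k] (f : k[X]) (hf : f ≠ 0) (Z : Finset k)
    (hZ : ∀ a, f.IsRoot a → a ∈ Z) : ∑ a ∈ Z, f.rootMultiplicity a = f.natDegree := by
  have h1 : Multiset.card f.roots = f.natDegree :=
    (IsAlgClosed.splits f).natDegree_eq_card_roots.symm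
  rw [← h1, ← Multiset.toFinset_sum_count_eq]
  have h2 : ∑ a ∈ Z, f.rootMultiplicity a = ∑ a ∈ Z, Multiset.count a f.roots := by
    apply Finset.sum_congr rfl
    intro a _
    exact (count_roots f).symm
  rw [h2]
  symm
  apply Finset.sum_subset
  · intro a ha
    rw [Multiset.mem_toFinset, mem_roots hf] at ha
    exact hZ a ha
  · intro a _ ha
    rw [Multiset.mem_toFinset] at ha
    exact Multiset.count_eq_zero_of_notMem ha

theorem sum_rootMultiplicity_le (f : k[X]) (hf : f ≠ 0) (Z : Finset k) :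
    ∑ a ∈ Z, f.rootMultiplicity a ≤ f.natDegree := by
  have h1 : Multiset.card f.roots ≤ f.natDegree := card_roots' f
  refine le_trans ?_ h1
  rw [← Multiset.toFinset_sum_count_eq]
  have h2 : ∑ a ∈ Z, f.rootMultiplicity a = ∑ a ∈ Z, Multiset.count a f.roots := by
    apply Finset.sum_congr rfl
    intro a _
    exact (count_roots f).symm
  rw [h2]
  have h3 : ∑ a ∈ Z, Multiset.count a f.roots
      = ∑ a ∈ Z.filter (fun a => a ∈ f.roots.toFinset), Multiset.count a f.roots := by
    symm
    apply Finset.sum_subset (Finset.filter_subset _ _)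
    intro a ha ha'
    have : a ∉ f.roots.toFinset := fun h => ha' (Finset.mem_filter.2 ⟨ha, h⟩)
    rw [Multiset.mem_toFinset] at this
    exact Multiset.count_eq_zero_of_notMem this
  rw [h3]
  apply Finset.sum_le_sum_of_subset
  intro a ha
  exact (Finset.mem_filter.1 ha).2

private theorem d1_deriv (a : k) (n : ℕ) (g : k[X]) :
    (X - C a) * derivative ((X - C a) ^ n * g)
      = (X - C a) ^ n * ((n : k[X]) * g + (X - C a) * derivative g) := by
  rw [derivative_mul]
  cases n with
  | zero => simp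
  | succ n =>
    rw [derivative_X_sub_C_pow]
    simp only [Nat.add_sub_cancel, map_natCast]
    ring

private theorem d1_key (a : k) (m n : ℕ) (f g : k[X]) :
    (X - C a) * wronskian ((X - C a) ^ m * f) ((X - C a) ^ n * g)
      = (X - C a) ^ (m + n) * ((X - C a) * wronskian f g
          + ((n : k[X]) - (m : k[X])) * (f * g)) := by
  have h1 := d1_deriv a m f
  have h2 := d1_deriv a n g
  have h3 : (X - C a) * wronskian ((X - C a) ^ m * f) ((X - C a) ^ n * g)
      = ((X - C a) ^ m * f) * ((X - C a) * derivative ((X - C a) ^ n * g))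
        - ((X - C a) * derivative ((X - C a) ^ m * f)) * ((X - C a) ^ n * g) := by
    unfold wronskian
    ring
  rw [h3, h1, h2, pow_add]
  unfold wronskian
  ring

private theorem d1_fac (f : k[X]) (hf : f ≠ 0) (a : k) :
    ∃ f1 : k[X], f = (X - C a) ^ (f.rootMultiplicity a) * f1 ∧ f1.eval a ≠ 0 := by
  obtain ⟨q, hq, hq'⟩ := exists_eq_pow_rootMultiplicity_mul_and_not_dvd f hf a
  refine ⟨q, hq, ?_⟩
  intro h
  exact hq' (dvd_iff_isRoot.2 h)

/-- `vₐ(W(f,g)) ≥ vₐ f + vₐ g - 1` -/
theorem le_rootMultiplicity_wronskian (f g : k[X]) (hW : wronskian f g ≠ 0) (a : k) :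
    f.rootMultiplicity a + g.rootMultiplicity a ≤ (wronskian f g).rootMultiplicity a + 1 := by
  have hf : f ≠ 0 := by
    rintro rfl
    exact hW (by simp [wronskian])
  have hg : g ≠ 0 := by
    rintro rfl
    exact hW (by simp [wronskian])
  obtain ⟨f1, hf1, -⟩ := d1_fac f hf a
  obtain ⟨g1, hg1, -⟩ := d1_fac g hg a
  have hX : (X - C a : k[X]) ≠ 0 := X_sub_C_ne_zero a
  have h1 : (X - C a) ^ (f.rootMultiplicity a + g.rootMultiplicity a)
      ∣ (X - C a) * wronskian f g := by
    have := d1_key a (f.rootMultiplicity a) (g.rootMultiplicity a) f1 g1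
    rw [← hf1, ← hg1] at this
    rw [this]
    exact Dvd.intro _ rfl
  have h2 := (le_rootMultiplicity_iff (mul_ne_zero hX hW)).2 h1
  rw [rootMultiplicity_mul (mul_ne_zero hX hW), rootMultiplicity_X_sub_C_self] at h2
  omega

/-- if `vₐ f = vₐ g` in `k` one gains one -/
theorem le_rootMultiplicity_wronskian' (f g : k[X]) (hW : wronskian f g ≠ 0) (a : k)
    (h : (f.rootMultiplicity a : k) = (g.rootMultiplicity a : k)) :
    f.rootMultiplicity a + g.rootMultiplicity a ≤ (wronskian f g).rootMultiplicity a := by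
  have hf : f ≠ 0 := by
    rintro rfl
    exact hW (by simp [wronskian])
  have hg : g ≠ 0 := by
    rintro rfl
    exact hW (by simp [wronskian])
  obtain ⟨f1, hf1, -⟩ := d1_fac f hf a
  obtain ⟨g1, hg1, -⟩ := d1_fac g hg a
  have hX : (X - C a : k[X]) ≠ 0 := X_sub_C_ne_zero a
  have h0 : ((g.rootMultiplicity a : ℕ) : k[X]) - ((f.rootMultiplicity a : ℕ) : k[X]) = 0 := by
    rw [← map_natCast (C : k →+* k[X]), ← map_natCast (C : k →+* k[X]), h, sub_self]
  have h1 : (X - C a) ^ (f.rootMultiplicity a + g.rootMultiplicity a + 1)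
      ∣ (X - C a) * wronskian f g := by
    have := d1_key a (f.rootMultiplicity a) (g.rootMultiplicity a) f1 g1
    rw [← hf1, ← hg1] at this
    rw [this, h0, zero_mul, add_zero, pow_succ]
    exact mul_dvd_mul_left _ (Dvd.intro _ rfl)
  have h2 := (le_rootMultiplicity_iff (mul_ne_zero hX hW)).2 h1
  rw [rootMultiplicity_mul (mul_ne_zero hX hW), rootMultiplicity_X_sub_C_self] at h2
  omega

theorem rootMultiplicity_eq_of_wronskian (f g : k[X]) (hf : f ≠ 0) (hg : g ≠ 0)
    (hW : wronskian f g = 0) (a : k) :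
    (f.rootMultiplicity a : k) = (g.rootMultiplicity a : k) := by
  obtain ⟨f1, hf1, hf1'⟩ := d1_fac f hf a
  obtain ⟨g1, hg1, hg1'⟩ := d1_fac g hg a
  have hX : (X - C a : k[X]) ≠ 0 := X_sub_C_ne_zero a
  have h1 := d1_key a (f.rootMultiplicity a) (g.rootMultiplicity a) f1 g1
  rw [← hf1, ← hg1, hW, mul_zero] at h1
  have h2 := (mul_eq_zero.1 h1.symm).resolve_left (pow_ne_zero _ hX)
  have h3 := congrArg (eval a) h2
  simp only [eval_add, eval_mul, eval_sub, eval_X, eval_C, sub_self, zero_mul, zero_add,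
    eval_natCast, eval_zero] at h3
  have h4 := (mul_eq_zero.1 h3).resolve_right (mul_ne_zero hf1' hg1')
  exact (sub_eq_zero.1 h4).symm

theorem derivative_eq_zero_of_dvd (p : ℕ) [Fact p.Prime] [CharP k p] [IsAlgClosed k] (f : k[X])
    (h : ∀ a, p ∣ f.rootMultiplicity a) : derivative f = 0 := by
  by_cases hf : f = 0
  · rw [hf, derivative_zero]
  have h1 : f = C f.leadingCoeff * (f.roots.map (fun a => X - C a)).prod :=
    (IsAlgClosed.splits f).eq_prod_roots
  have h2 : (f.roots.map (fun a => X - C a)).prod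
      = ∏ a ∈ f.roots.toFinset, (X - C a) ^ (f.rootMultiplicity a) := by
    rw [Finset.prod_multiset_map_count]
    apply Finset.prod_congr rfl
    intro a _
    rw [count_roots]
  have h3 : ∃ q : k[X], ∏ a ∈ f.roots.toFinset, (X - C a) ^ (f.rootMultiplicity a) = q ^ p := by
    refine ⟨∏ a ∈ f.roots.toFinset, (X - C a) ^ (f.rootMultiplicity a / p), ?_⟩
    rw [← Finset.prod_pow]
    apply Finset.prod_congr rfl
    intro a _
    rw [← pow_mul, Nat.div_mul_cancel (h a)]
  obtain ⟨q, hq⟩ := h3
  rw [h1, h2, hq, derivative_C_mul, derivative_pow]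
  have h4 : ((p : ℕ) : k[X]) = 0 := by
    exact CharP.cast_eq_zero k[X] p
  have h5 : C ((p : ℕ) : k) = 0 := by
    rw [map_natCast, h4]
  rw [h5]
  simp

theorem even_rootMultiplicity (f : k[X]) (hf : IsSquare f) (a : k) :
    Even (f.rootMultiplicity a) := by
  obtain ⟨y, rfl⟩ := hf
  by_cases hy : y = 0
  · subst hy
    simp
  rw [rootMultiplicity_mul (mul_ne_zero hy hy)]
  exact ⟨_, rfl⟩

/-- Jacobi/Plücker identity -/
theorem wronskian_jacobi (f g h : k[X]) :
    wronskian f g * h + wronskian g h * f + wronskian h f * g = 0 := by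
  unfold wronskian
  ring

end H315
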