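import Pool.Agent.H315R2.Sq.Defs
import Pool.Agent.H315R2.Sq.D1

/-! # D2: the cross lemma -/

open Polynomial Finset
open scoped Classical Pointwise

namespace H315

variable {k : Type} [Field k]

private theorem d2_unit_dvd {t s : k[X]} {c : k} (hc : c ≠ 0) (h : t ∣ C c * s) : t ∣ s := by
  have hu : IsUnit (C c : k[X]) := isUnit_C.2 (isUnit_iff_ne_zero.2 hc)
  exact (hu.dvd_mul_left).1 h

private theorem d2_cross_eq (p : ℕ) [CharP k p] (s₁ s₂ : k[X]) (h10 : s₁ ≠ 0) (h20 : s₂ ≠ 0)
    (a : k) (q : ℕ) (h : Cross p (a, q) s₁ s₂) :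
    s₂.rootMultiplicity a < 2 * q ∧ s₁.rootMultiplicity a = s₂.rootMultiplicity a := by
  obtain ⟨h1, j, hj0, hjp, hj⟩ := h
  simp only at h1 hj
  have hlt : s₂.rootMultiplicity a < 2 * q := by
    by_contra hcon
    exact h1 ((le_rootMultiplicity_iff h20).1 (not_lt.1 hcon))
  have hjk : (j : k) ≠ 0 := by
    intro h0
    rw [CharP.cast_eq_zero_iff k p] at h0
    exact absurd (Nat.le_of_dvd hj0 h0) (not_le.2 hjp)
  have hjC : (j : k[X]) = C (j : k) := (C_eq_natCast j).symm
  refine ⟨hlt, le_antisymm ?_ ?_⟩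
  · by_contra hcon
    rw [not_le] at hcon
    have e1 : (X - C a) ^ (s₂.rootMultiplicity a + 1) ∣ s₁ :=
      (le_rootMultiplicity_iff h10).1 hcon
    have e2 : (X - C a) ^ (s₂.rootMultiplicity a + 1) ∣ s₁ - (j : k[X]) * s₂ :=
      (pow_dvd_pow _ hlt).trans hj
    have e3 : (X - C a) ^ (s₂.rootMultiplicity a + 1) ∣ (j : k[X]) * s₂ := by
      have := dvd_sub e1 e2
      simpa using this
    rw [hjC] at e3
    have e4 := d2_unit_dvd hjk e3
    have e5 := (le_rootMultiplicity_iff h20).2 e4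
    omega
  · have e2 : (X - C a) ^ (s₂.rootMultiplicity a) ∣ s₁ - (j : k[X]) * s₂ :=
      (pow_dvd_pow _ hlt.le).trans hj
    have e3 : (X - C a) ^ (s₂.rootMultiplicity a) ∣ s₂ := pow_rootMultiplicity_dvd _ _
    have e4 := dvd_add e2 (e3.mul_left (j : k[X]))
    rw [sub_add_cancel] at e4
    exact (le_rootMultiplicity_iff h10).2 e4

/-- the local inequality -/
private theorem d2_local (p : ℕ) [CharP k p] (s₁ s₂ : k[X]) (h₂ : IsSquare s₂)
    (h10 : s₁ ≠ 0) (h20 : s₂ ≠ 0) (hW : wronskian s₁ s₂ ≠ 0) (Λ : Finset (k × ℕ)) (a : k) :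
    s₁.rootMultiplicity a + s₂.rootMultiplicity a
      + ((Λ.filter (fun l => Cross p l s₁ s₂)).filter (fun l => l.1 = a)).card
      ≤ (wronskian s₁ s₂).rootMultiplicity a
        + (if (s₁.rootMultiplicity a : k) ≠ (s₂.rootMultiplicity a : k) then 1 else 0) := by
  set S := (Λ.filter (fun l => Cross p l s₁ s₂)).filter (fun l => l.1 = a) with hS
  by_cases hemp : S = ∅
  · rw [hemp, Finset.card_empty, add_zero]
    split_ifs with hk
    · exact le_rootMultiplicity_wronskian s₁ s₂ hW a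
    · rw [not_not] at hk
      exact le_rootMultiplicity_wronskian' s₁ s₂ hW a hk
  · obtain ⟨l₀, hl₀⟩ := Finset.nonempty_iff_ne_empty.2 hemp
    have hmem : ∀ l ∈ S, Cross p (a, l.2) s₁ s₂ ∧ l.1 = a := by
      intro l hl
      rw [hS, Finset.mem_filter, Finset.mem_filter] at hl
      refine ⟨?_, hl.2⟩
      have : ((a, l.2) : k × ℕ) = l := by rw [← hl.2]
      rw [this]
      exact hl.1.2
    obtain ⟨hlt₀, hmn⟩ := d2_cross_eq p s₁ s₂ h10 h20 a l₀.2 (hmem l₀ hl₀).1
    obtain ⟨_, j₀, hj0, hjp, hj⟩ := (hmem l₀ hl₀).1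
    simp only at hj
    set f : k[X] := s₁ - (j₀ : k[X]) * s₂ with hf
    have hWf : wronskian f s₂ = wronskian s₁ s₂ := by
      rw [hf]
      unfold wronskian
      rw [derivative_sub, derivative_mul, derivative_natCast]
      ring
    have hf0 : f ≠ 0 := by
      intro h0
      apply hW
      rw [← hWf, h0]
      simp [wronskian]
    have hle : ∀ l ∈ S, 2 * l.2 ≤ f.rootMultiplicity a := by
      intro l hl
      obtain ⟨h1, j, hj0', hjp', hj'⟩ := (hmem l hl).1
      simp only at h1 hj'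
      obtain ⟨hlt, _⟩ := d2_cross_eq p s₁ s₂ h10 h20 a l.2 (hmem l hl).1
      have e1 : (X - C a) ^ (s₂.rootMultiplicity a + 1) ∣ s₁ - (j : k[X]) * s₂ :=
        (pow_dvd_pow _ hlt).trans hj'
      have e2 : (X - C a) ^ (s₂.rootMultiplicity a + 1) ∣ f := (pow_dvd_pow _ hlt₀).trans hj
      have e3 := dvd_sub e1 e2
      have e4 : s₁ - (j : k[X]) * s₂ - f = C ((j₀ : k) - (j : k)) * s₂ := by
        rw [hf, C_sub, C_eq_natCast, C_eq_natCast]; ring
      rw [e4] at e3
      have e5 : (j₀ : k) - (j : k) = 0 := by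
        by_contra hne
        have := (le_rootMultiplicity_iff h20).2 (d2_unit_dvd hne e3)
        omega
      have e6 : s₁ - (j : k[X]) * s₂ = f := by
        have := e4
        rw [e5, C_0, zero_mul, sub_eq_zero] at this
        exact this
      rw [e6] at hj'
      exact (le_rootMultiplicity_iff hf0).2 hj'
    have hcard : S.card ≤ f.rootMultiplicity a / 2 - s₂.rootMultiplicity a / 2 := by
      have h1 : S.card ≤ (Finset.Ioc (s₂.rootMultiplicity a / 2)
          (f.rootMultiplicity a / 2)).card := by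
        refine Finset.card_le_card_of_injOn (fun l => l.2) ?_ ?_
        · intro l hl
          have hl' : l ∈ S := by exact_mod_cast hl
          have a1 := hle l hl'
          obtain ⟨a2, _⟩ := d2_cross_eq p s₁ s₂ h10 h20 a l.2 (hmem l hl').1
          rw [Finset.coe_Ioc, Set.mem_Ioc]
          simp only
          omega
        · intro l hl l' hl' hll
          have hl1 : l ∈ S := by exact_mod_cast hl
          have hl1' : l' ∈ S := by exact_mod_cast hl'
          exact Prod.ext ((hmem l hl1).2.trans (hmem l' hl1').2.symm) hll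
      rwa [Nat.card_Ioc] at h1
    have hpos : 0 < S.card := Finset.card_pos.2 ⟨l₀, hl₀⟩
    have heven := even_rootMultiplicity s₂ h₂ a
    have hw := le_rootMultiplicity_wronskian f s₂ (by rw [hWf]; exact hW) a
    rw [hWf] at hw
    obtain ⟨r, hr⟩ := heven
    rw [hmn, if_neg (by simp)]
    omega

theorem cross_lemma (p : ℕ) [Fact p.Prime] (hp : 3 ≤ p) [CharP k p] [IsAlgClosed k]
    (s₁ s₂ : k[X]) (h₁ : IsSquare s₁) (h₂ : IsSquare s₂) (h10 : s₁ ≠ 0) (h20 : s₂ ≠ 0)
    (hW : wronskian s₁ s₂ ≠ 0) (Λ : Finset (k × ℕ)) :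
    (Λ.filter (fun l => Cross p l s₁ s₂)).card ≤ (Rt p s₁).card + (Rt p s₂).card := by
  set Z : Finset k := s₁.roots.toFinset ∪ s₂.roots.toFinset ∪ (wronskian s₁ s₂).roots.toFinset
    ∪ Λ.image Prod.fst with hZ
  have hsum := Finset.sum_le_sum fun a (_ : a ∈ Z) => d2_local p s₁ s₂ h₂ h10 h20 hW Λ a
  rw [Finset.sum_add_distrib, Finset.sum_add_distrib, Finset.sum_add_distrib] at hsum
  have e1 : ∑ a ∈ Z, s₁.rootMultiplicity a = s₁.natDegree := by
    refine sum_rootMultiplicity s₁ h10 Z fun a ha => ?_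
    rw [hZ]
    simp only [Finset.mem_union]
    exact Or.inl (Or.inl (Or.inl (by rw [Multiset.mem_toFinset, mem_roots h10]; exact ha)))
  have e2 : ∑ a ∈ Z, s₂.rootMultiplicity a = s₂.natDegree := by
    refine sum_rootMultiplicity s₂ h20 Z fun a ha => ?_
    rw [hZ]
    simp only [Finset.mem_union]
    exact Or.inl (Or.inl (Or.inr (by rw [Multiset.mem_toFinset, mem_roots h20]; exact ha)))
  have e3 := sum_rootMultiplicity_le (wronskian s₁ s₂) hW Z
  have e4 : ∑ a ∈ Z, ((Λ.filter (fun l => Cross p l s₁ s₂)).filter (fun l => l.1 = a)).card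
      = (Λ.filter (fun l => Cross p l s₁ s₂)).card := by
    symm
    refine Finset.card_eq_sum_card_fiberwise fun l hl => ?_
    have hl' : l ∈ Λ.filter (fun l => Cross p l s₁ s₂) := by exact_mod_cast hl
    rw [hZ]
    simp only [Finset.coe_union, Set.mem_union, Finset.mem_coe]
    exact Or.inr (Finset.mem_image_of_mem _ (Finset.mem_filter.1 hl').1)
  have e5 : ∑ a ∈ Z, (if (s₁.rootMultiplicity a : k) ≠ (s₂.rootMultiplicity a : k) then 1 else 0)
      ≤ (Rt p s₁).card + (Rt p s₂).card := by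
    rw [← Finset.card_filter]
    refine le_trans (Finset.card_le_card (t := Rt p s₁ ∪ Rt p s₂) ?_) (Finset.card_union_le _ _)
    intro a ha
    rw [Finset.mem_filter] at ha
    by_contra hnot
    rw [Finset.mem_union, not_or] at hnot
    apply ha.2
    have hz : ∀ s : k[X], s ≠ 0 → a ∉ Rt p s → (s.rootMultiplicity a : k) = 0 := by
      intro s hs hns
      unfold Rt at hns
      rw [Finset.mem_filter, Multiset.mem_toFinset, mem_roots hs] at hns
      rw [CharP.cast_eq_zero_iff k p]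
      by_contra hnd
      apply hns
      refine ⟨?_, hnd⟩
      by_contra hroot
      apply hnd
      rw [rootMultiplicity_eq_zero hroot]
      exact dvd_zero _
    rw [hz s₁ h10 hnot.1, hz s₂ h20 hnot.2]
  have e6 := natDegree_wronskian_lt_add hW
  rw [e1, e2, e4] at hsum
  omega

end H315
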