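import Mathlib

/-!
# Sumsets of squares in `F_p[x]`: definitions

Everything happens over a field `k` (algebraically closed, characteristic `p ≥ 5`).
All decidability is classical (`open Classical`).
-/

open Polynomial Finset
open scoped Classical Pointwise

namespace H315

/-! ### Reduced pairs in an abelian group -/

/-- `|A + B| / (|A| |B|) ^ α`. -/
noncomputable def ratio {G : Type} [AddCommGroup G] (α : ℝ) (A B : Finset G) : ℝ :=
  ((A + B).card : ℝ) / ((A.card : ℝ) * (B.card : ℝ)) ^ α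

/-- `(A, B)` minimises the ratio among all pairs of nonempty subsets. -/
def Red {G : Type} [AddCommGroup G] (α : ℝ) (A B : Finset G) : Prop :=
  A.Nonempty ∧ B.Nonempty ∧
    ∀ A' ⊆ A, ∀ B' ⊆ B, A'.Nonempty → B'.Nonempty → ratio α A B ≤ ratio α A' B'

/-- proportion of `A` in the class `κ` of the homomorphism `φ`. -/
noncomputable def frac {G Q : Type} [AddCommGroup G] [AddCommGroup Q] (φ : G →+ Q)
    (A : Finset G) (κ : Q) : ℝ :=
  ((A.filter (fun g => φ g = κ)).card : ℝ) / (A.card : ℝ)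

/-! ### Sets of squares -/

variable {k : Type} [Field k]

/-- at most `p` elements of `A` are constant multiples of a given element of `A`. -/
def LP (p : ℕ) (A : Finset k[X]) : Prop :=
  ∀ s ∈ A, (A.filter (fun t => ∃ c : k, t = C c * s)).card ≤ p

/-- nonzero squares with `LP`. -/
def SqSet (p : ℕ) (A : Finset k[X]) : Prop :=
  (∀ s ∈ A, s ≠ 0 ∧ IsSquare s) ∧ LP p A

/-- all elements on one affine `K^p`-line not through the origin. -/
def Pencil (A : Finset k[X]) : Prop :=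
  (∀ s₁ ∈ A, ∀ s₂ ∈ A, ∀ s₃ ∈ A, wronskian (s₁ - s₂) (s₁ - s₃) = 0) ∧
    ∃ s₁ ∈ A, ∃ s₂ ∈ A, wronskian s₁ s₂ ≠ 0

/-- the map `f ↦ x^D f(a + 1/x)`. -/
noncomputable def psi (D : ℕ) (a : k) (f : k[X]) : k[X] :=
  reflect D (f.comp (X + C a))

/-- properties of sets of squares which can be transported to a normal form. -/
structure Stable (p : ℕ) (P : Finset k[X] → Prop) : Prop where
  sq : ∀ A, P A → SqSet p A
  op1 : ∀ (A : Finset k[X]) (D : ℕ) (a : k), Even D → 1 ≤ D → (∀ s ∈ A, s.natDegree ≤ D) →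
    P A → P (A.image (psi D a))
  op2 : ∀ (A : Finset k[X]) (a : k), P (A.image (fun s => (X - C a) ^ 2 * s)) → P A
  op3 : ∀ A : Finset k[X], P (A.image (fun s => s ^ p)) → P A

/-- `(A,B)` is a pair in normal form. -/
structure NF (p : ℕ) (α : ℝ) (D : ℕ) (A B : Finset k[X]) : Prop where
  red : Red α A B
  sq : SqSet p A
  Dpos : 0 < D
  degA : ∀ s ∈ A, s.natDegree = D
  degB : ∀ b ∈ B, b.natDegree ≤ D
  /-- (N1) no common zero -/
  n1 : ∀ a : k, ∃ s ∈ A, s.eval a ≠ 0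
  /-- (N2) not all derivatives vanish -/
  n2 : ∃ s ∈ A, derivative s ≠ 0

/-! ### Valuations -/

/-- the set of roots of `s` with multiplicity prime to `p`. -/
noncomputable def Rt (p : ℕ) (s : k[X]) : Finset k :=
  s.roots.toFinset.filter (fun a => ¬ p ∣ s.rootMultiplicity a)

/-- `∑ₐ min (vₐ s) (vₐ s')`. -/
noncomputable def ov (s s' : k[X]) : ℕ := Multiset.card (s.roots ∩ s'.roots)

/-- proportion of `s ∈ A` divisible by `(x-a)^(2m)`; `l = (a,m)`. -/
noncomputable def rho (A : Finset k[X]) (l : k × ℕ) : ℝ :=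
  ((A.filter (fun s => (X - C l.1) ^ (2 * l.2) ∣ s)).card : ℝ) / (A.card : ℝ)

/-- the pair `(s₁,s₂)` crosses at the level `l = (a,m)`. -/
def Cross (p : ℕ) (l : k × ℕ) (s₁ s₂ : k[X]) : Prop :=
  ¬ (X - C l.1) ^ (2 * l.2) ∣ s₂ ∧
    ∃ j : ℕ, 0 < j ∧ j < p ∧ (X - C l.1) ^ (2 * l.2) ∣ s₁ - (j : k[X]) * s₂

/-- average of `|Rt p s|` over `A`. -/
noncomputable def Rbar (p : ℕ) (A : Finset k[X]) : ℝ :=
  (∑ s ∈ A, ((Rt p s).card : ℝ)) / (A.card : ℝ)

/-- the tiny part of `Rt p s`: roots `a` with `rho A (a,1) < η`. -/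
noncomputable def RtT (p : ℕ) (A : Finset k[X]) (η : ℝ) (s : k[X]) : Finset k :=
  (Rt p s).filter (fun a => rho A (a, 1) < η)

/-- average of `|RtT p A η s|` over `A`. -/
noncomputable def RbarT (p : ℕ) (A : Finset k[X]) (η : ℝ) : ℝ :=
  (∑ s ∈ A, ((RtT p A η s).card : ℝ)) / (A.card : ℝ)

/-- number of pairs `(s₁,s₂) ∈ A²` with `W(s₁,s₂) = 0`. -/
noncomputable def nW0 (A : Finset k[X]) : ℕ :=
  ((A ×ˢ A).filter (fun x => wronskian x.1 x.2 = 0)).card

/-! ### Conics -/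

/-- the vector `(1,x,y,x²,xy,y²)`. -/
def cvec {R : Type} [CommRing R] (x y : R) : Fin 6 → R :=
  ![1, x, y, x ^ 2, x * y, y ^ 2]

/-- the value at `(x,y)` of the quadratic polynomial with coefficients `c`. -/
def cval {R : Type} [CommRing R] (c : Fin 6 → R) (x y : R) : R :=
  c 0 + c 1 * x + c 2 * y + c 3 * x ^ 2 + c 4 * (x * y) + c 5 * y ^ 2

/-- the `6 × 6` matrix of six points, given as `3 + 3` points. -/
def cmat {R : Type} [CommRing R] (P Q : Fin 3 → R × R) : Matrix (Fin 6) (Fin 6) R :=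
  ![cvec (P 0).1 (P 0).2, cvec (P 1).1 (P 1).2, cvec (P 2).1 (P 2).2,
    cvec (Q 0).1 (Q 0).2, cvec (Q 1).1 (Q 1).2, cvec (Q 2).1 (Q 2).2]

/-- the point `(s,s')` of the plane over `k[x]`. -/
noncomputable def pt (s : k[X]) : k[X] × k[X] := (s, derivative s)

/-! ### Bivariate polynomials over `k[x]` by coefficient functions -/

/-- the triangle `i + j ≤ d`. -/
def Tri (d : ℕ) : Finset (ℕ × ℕ) :=
  (range (d + 1) ×ˢ range (d + 1)).filter (fun x => x.1 + x.2 ≤ d)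

/-- evaluation of the polynomial `∑_{i+j≤d} c_{ij} X^i Y^j`. -/
def ev {R : Type} [CommRing R] (d : ℕ) (c : ℕ × ℕ → R) (f g : R) : R :=
  ∑ x ∈ Tri d, c x * f ^ x.1 * g ^ x.2

/-- coefficients of the `X`-derivative. -/
def cX {R : Type} [CommRing R] (c : ℕ × ℕ → R) : ℕ × ℕ → R :=
  fun x => ((x.1 + 1 : ℕ) : R) * c (x.1 + 1, x.2)

/-- coefficients of the `Y`-derivative. -/
def cY {R : Type} [CommRing R] (c : ℕ × ℕ → R) : ℕ × ℕ → R :=
  fun x => ((x.2 + 1 : ℕ) : R) * c (x.1, x.2 + 1)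

/-- some nonzero polynomial of degree `≤ d` vanishes at all points `(f i, (f i)')`. -/
def Van (d : ℕ) {ι : Type} (f : ι → k[X]) : Prop :=
  ∃ c : ℕ × ℕ → k[X], (∃ x ∈ Tri d, c x ≠ 0) ∧ ∀ i, ev d c (f i) (derivative (f i)) = 0

end H315
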