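import Pool.Agent.H315R2.Sq.Defs
import Pool.Agent.H315R2.Sq.A3
import Pool.Agent.H315R2.Sq.D1

/-! # E1: the densities `rho` -/

open Polynomial Finset
open scoped Classical Pointwise

namespace H315

variable {k : Type} [Field k]

theorem e1_card_filter_le (s : k[X]) (hs : s ≠ 0) (Λ : Finset (k × ℕ))
    (hΛ : ∀ l ∈ Λ, 1 ≤ l.2) :
    2 * (Λ.filter (fun l => (X - C l.1) ^ (2 * l.2) ∣ s)).card ≤ s.natDegree := by
  set Z : Finset k := Λ.image Prod.fst with hZ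
  have hsub : Λ.filter (fun l => (X - C l.1) ^ (2 * l.2) ∣ s) ⊆
      Z.biUnion (fun a => (Finset.Icc 1 (s.rootMultiplicity a / 2)).image (fun m => (a, m))) := by
    intro l hl
    rw [Finset.mem_filter] at hl
    rw [Finset.mem_biUnion]
    refine ⟨l.1, Finset.mem_image_of_mem _ hl.1, ?_⟩
    rw [Finset.mem_image]
    refine ⟨l.2, ?_, rfl⟩
    rw [Finset.mem_Icc]
    refine ⟨hΛ l hl.1, ?_⟩
    have h1 : 2 * l.2 ≤ s.rootMultiplicity l.1 :=
      (Polynomial.le_rootMultiplicity_iff hs).2 hl.2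
    omega
  have h1 : (Λ.filter (fun l => (X - C l.1) ^ (2 * l.2) ∣ s)).card ≤
      ∑ a ∈ Z, s.rootMultiplicity a / 2 := by
    refine (Finset.card_le_card hsub).trans (Finset.card_biUnion_le.trans ?_)
    refine Finset.sum_le_sum fun a _ => ?_
    refine Finset.card_image_le.trans ?_
    simp
  have h2 : 2 * ∑ a ∈ Z, s.rootMultiplicity a / 2 ≤ ∑ a ∈ Z, s.rootMultiplicity a := by
    rw [Finset.mul_sum]
    refine Finset.sum_le_sum fun a _ => ?_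
    omega
  have h3 := sum_rootMultiplicity_le s hs Z
  omega

theorem sum_rho_le (p : ℕ) (α : ℝ) (D : ℕ) (A B : Finset k[X]) (h : NF p α D A B)
    (Λ : Finset (k × ℕ)) (hΛ : ∀ l ∈ Λ, 1 ≤ l.2) : ∑ l ∈ Λ, rho A l ≤ (D : ℝ) / 2 := by
  have hA : A.Nonempty := h.red.1
  have hApos : (0 : ℝ) < (A.card : ℝ) := by exact_mod_cast hA.card_pos
  unfold rho
  rw [← Finset.sum_div, div_le_iff₀ hApos]
  have hswap : ∑ l ∈ Λ, (A.filter (fun s => (X - C l.1) ^ (2 * l.2) ∣ s)).card =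
      ∑ s ∈ A, (Λ.filter (fun l => (X - C l.1) ^ (2 * l.2) ∣ s)).card := by
    simp only [Finset.card_filter]
    exact Finset.sum_comm
  have hle : ∑ s ∈ A, 2 * (Λ.filter (fun l => (X - C l.1) ^ (2 * l.2) ∣ s)).card ≤
      ∑ _s ∈ A, D := by
    refine Finset.sum_le_sum fun s hs => ?_
    have := e1_card_filter_le s (h.sq.1 s hs).1 Λ hΛ
    rwa [h.degA s hs] at this
  rw [Finset.sum_const, smul_eq_mul, ← Finset.mul_sum, ← hswap] at hle
  have hle' : (2 : ℝ) * ∑ l ∈ Λ, ((A.filter (fun s => (X - C l.1) ^ (2 * l.2) ∣ s)).card : ℝ) ≤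
      (A.card : ℝ) * (D : ℝ) := by exact_mod_cast hle
  linarith

/-- reduction modulo `(x-a)^(2m)` -/
noncomputable def e1_phi (l : k × ℕ) : k[X] →+ k[X] :=
  (Polynomial.modByMonicHom ((X - C l.1) ^ (2 * l.2))).toAddMonoidHom

theorem e1_phi_apply (l : k × ℕ) (f : k[X]) :
    e1_phi l f = f %ₘ ((X - C l.1) ^ (2 * l.2)) := rfl

theorem e1_phi_eq_zero (l : k × ℕ) (f : k[X]) :
    e1_phi l f = 0 ↔ (X - C l.1) ^ (2 * l.2) ∣ f := by
  rw [e1_phi_apply]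
  exact Polynomial.modByMonic_eq_zero_iff_dvd ((monic_X_sub_C l.1).pow _)

theorem e1_frac (A : Finset k[X]) (l : k × ℕ) : frac (e1_phi l) A 0 = rho A l := by
  unfold frac rho
  simp only [e1_phi_eq_zero]

theorem e1_exponent (p : ℕ) [CharP k p] (q : k[X]) : p • q = 0 := by
  rw [nsmul_eq_mul]
  have : ((p : ℕ) : k[X]) = 0 := CharP.cast_eq_zero k[X] p
  rw [this, zero_mul]

theorem e1_not_all (p : ℕ) (α : ℝ) (D : ℕ) (A B : Finset k[X]) (h : NF p α D A B)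
    (l : k × ℕ) (hl : 1 ≤ l.2) : ¬ ∀ s ∈ A, e1_phi l s = 0 := by
  intro hall
  obtain ⟨s, hs, hne⟩ := h.n1 l.1
  have h1 : (X - C l.1) ^ (2 * l.2) ∣ s := (e1_phi_eq_zero l s).1 (hall s hs)
  have h2 : (X - C l.1) ∣ s := (dvd_pow_self _ (by omega)).trans h1
  exact hne (Polynomial.dvd_iff_isRoot.1 h2)

theorem rho_le (p : ℕ) [Fact p.Prime] (hp : 5 ≤ p) [CharP k p] [IsAlgClosed k] :
    ∃ ε₀ : ℝ, 0 < ε₀ ∧ ε₀ ≤ 1 / 10 ∧ ∀ α : ℝ, 1 / 2 < α → α ≤ 1 / 2 + ε₀ →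
    ∀ (D : ℕ) (A B : Finset k[X]), NF p α D A B → ∀ l : k × ℕ, 1 ≤ l.2 → rho A l ≤ 21 / 100 := by
  obtain ⟨ε₀, h0, h1, H⟩ := local_p (1 / 5) (by norm_num)
  refine ⟨ε₀, h0, h1, ?_⟩
  intro α hα hα' D A B h l hl
  by_cases hr : rho A l < 1 / 5
  · linarith
  · push Not at hr
    rcases H α hα hα' p hp k[X] k[X] (e1_exponent p) (e1_phi l) A B h.red 0
      (by rw [e1_frac]; exact hr) with hcase | ⟨K, hK, hK5, hK1, hK2⟩
    · exact absurd hcase (e1_not_all p α D A B h l hl)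
    · have h3 := hK2 0
      rw [e1_frac] at h3
      have h5 : (5 : ℝ) ≤ (Nat.card K : ℝ) := by exact_mod_cast hK5
      have h4 : (101 / 100 : ℝ) / (Nat.card K : ℝ) ≤ (101 / 100 : ℝ) / 5 :=
        div_le_div_of_nonneg_left (by norm_num) (by norm_num) h5
      linarith

theorem e1_count (n p : ℕ) (hn : 5 ≤ n) (hp : 5 ≤ p) (a r : ℝ)
    (hr : r ≤ (101 / 100 : ℝ) / (n : ℝ)) :
    31 / 10 * r * a ^ 2 ≤
      (((n - 1 : ℕ) : ℝ) * ((p - 1 : ℕ) : ℝ)) * (((99 / 100 : ℝ) / (n : ℝ)) * a) ^ 2 := by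
  have hn' : (5 : ℝ) ≤ (n : ℝ) := by exact_mod_cast hn
  have hp' : (5 : ℝ) ≤ (p : ℝ) := by exact_mod_cast hp
  have hn0 : (0 : ℝ) < (n : ℝ) := by linarith
  rw [Nat.cast_sub (by omega), Nat.cast_sub (by omega), Nat.cast_one]
  have h1 : 31 / 10 * r ≤ (((n : ℝ) - 1) * ((p : ℝ) - 1)) * ((99 / 100 : ℝ) / (n : ℝ)) ^ 2 := by
    have h2 : 31 / 10 * r ≤ 31 / 10 * ((101 / 100 : ℝ) / (n : ℝ)) := by linarith
    have h3 : ((n : ℝ) - 1) * 4 ≤ ((n : ℝ) - 1) * ((p : ℝ) - 1) :=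
      mul_le_mul_of_nonneg_left (by linarith) (by linarith)
    have h4 : (4 / 5 * (n : ℝ)) * 4 ≤ ((n : ℝ) - 1) * 4 := by linarith
    have h5 : ((4 / 5 * (n : ℝ)) * 4) * ((99 / 100 : ℝ) / (n : ℝ)) ^ 2 ≤
        (((n : ℝ) - 1) * ((p : ℝ) - 1)) * ((99 / 100 : ℝ) / (n : ℝ)) ^ 2 :=
      mul_le_mul_of_nonneg_right (h4.trans h3) (sq_nonneg _)
    refine h2.trans (le_trans ?_ h5)
    have h6 : ((4 / 5 * (n : ℝ)) * 4) * ((99 / 100 : ℝ) / (n : ℝ)) ^ 2 =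
        (16 / 5 * (9801 / 10000)) / (n : ℝ) := by
      field_simp
      norm_num
    rw [h6, mul_div_assoc']
    exact div_le_div_of_nonneg_right (by norm_num) hn0.le
  calc 31 / 10 * r * a ^ 2 ≤
      ((((n : ℝ) - 1) * ((p : ℝ) - 1)) * ((99 / 100 : ℝ) / (n : ℝ)) ^ 2) * a ^ 2 :=
        mul_le_mul_of_nonneg_right h1 (sq_nonneg _)
    _ = _ := by ring

theorem cross_prob (p : ℕ) [Fact p.Prime] (hp : 5 ≤ p) [CharP k p] [IsAlgClosed k]
    (η : ℝ) (hη : 0 < η) :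
    ∃ ε₀ : ℝ, 0 < ε₀ ∧ ε₀ ≤ 1 / 10 ∧ ∀ α : ℝ, 1 / 2 < α → α ≤ 1 / 2 + ε₀ →
    ∀ (D : ℕ) (A B : Finset k[X]), NF p α D A B → ∀ l : k × ℕ, 1 ≤ l.2 → η ≤ rho A l →
    31 / 10 * rho A l * (A.card : ℝ) ^ 2 ≤
      (((A ×ˢ A).filter (fun x => Cross p l x.1 x.2)).card : ℝ) := by
  obtain ⟨ε₀, h0, h1, H⟩ := local_p η hη
  refine ⟨ε₀, h0, h1, ?_⟩
  intro α hα hα' D A B h l hl hηl
  have hA : A.Nonempty := h.red.1
  have hApos : (0 : ℝ) < (A.card : ℝ) := by exact_mod_cast hA.card_pos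
  rcases H α hα hα' p hp k[X] k[X] (e1_exponent p) (e1_phi l) A B h.red 0
    (by rw [e1_frac]; exact hηl) with hcase | ⟨K, hK, hK5, hK1, hK2⟩
  · exact absurd hcase (e1_not_all p α D A B h l hl)
  -- the classes
  set φ := e1_phi l with hφ
  set Kf : Finset k[X] := hK.toFinset with hKf
  have hKcard : Kf.card = Nat.card K := by
    rw [hKf, ← Set.ncard_eq_toFinset_card _ hK]
    rfl
  have h0mem : (0 : k[X]) ∈ Kf := by
    rw [hKf, Set.Finite.mem_toFinset]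
    exact K.zero_mem
  set cls : k[X] → Finset k[X] := fun q => A.filter (fun g => φ g = q) with hcls
  have hclscard : ∀ q ∈ K, ((99 / 100 : ℝ) / (Nat.card K : ℝ)) * (A.card : ℝ) ≤
      ((cls q).card : ℝ) := by
    intro q hq
    have h2 := hK1 q hq
    rw [zero_add] at h2
    unfold frac at h2
    rw [le_div_iff₀ hApos] at h2
    refine h2.trans (le_of_eq ?_)
    simp only [hcls]
    congr 2
    ext g
    simp only [Finset.mem_filter]
  have hnn : (0 : ℝ) ≤ ((99 / 100 : ℝ) / (Nat.card K : ℝ)) * (A.card : ℝ) := by positivity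
  -- index set
  set I : Finset (k[X] × ℕ) := (Kf.erase 0) ×ˢ (Finset.Ioo 0 p) with hI
  set S : k[X] × ℕ → Finset (k[X] × k[X]) :=
    fun x => (cls (x.2 • x.1)) ×ˢ (cls x.1) with hS
  have hIcard : I.card = (Nat.card K - 1) * (p - 1) := by
    rw [hI, Finset.card_product, Finset.card_erase_of_mem h0mem, hKcard, Nat.card_Ioo]
    congr 1
  have hdisj : ∀ x ∈ I, ∀ y ∈ I, x ≠ y → Disjoint (S x) (S y) := by
    intro x hx y hy hxy
    rw [Finset.disjoint_left]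
    intro z hz1 hz2
    apply hxy
    rw [hS] at hz1 hz2
    simp only [hcls, Finset.mem_product, Finset.mem_filter] at hz1 hz2
    have hxy1 : x.1 = y.1 := hz1.2.2.symm.trans hz2.2.2
    have hx0 : x.1 ≠ 0 := by
      rw [hI, Finset.mem_product] at hx
      exact Finset.ne_of_mem_erase hx.1
    have hxy2 : x.2 • x.1 = y.2 • y.1 := hz1.1.2.symm.trans hz2.1.2
    rw [← hxy1, nsmul_eq_mul, nsmul_eq_mul] at hxy2
    have hc : ((x.2 : ℕ) : k[X]) = ((y.2 : ℕ) : k[X]) := mul_right_cancel₀ hx0 hxy2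
    rw [CharP.natCast_eq_natCast k[X] p] at hc
    rw [hI, Finset.mem_product, Finset.mem_Ioo] at hx hy
    have hc' : x.2 = y.2 := Nat.ModEq.eq_of_lt_of_lt hc hx.2.2 hy.2.2
    exact Prod.ext hxy1 hc'
  have hsub : I.biUnion S ⊆ (A ×ˢ A).filter (fun x => Cross p l x.1 x.2) := by
    intro z hz
    rw [Finset.mem_biUnion] at hz
    obtain ⟨x, hx, hz⟩ := hz
    rw [hS] at hz
    simp only [hcls, Finset.mem_product, Finset.mem_filter] at hz
    rw [hI, Finset.mem_product, Finset.mem_Ioo] at hx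
    rw [Finset.mem_filter, Finset.mem_product]
    refine ⟨⟨hz.1.1, hz.2.1⟩, ?_, x.2, hx.2.1, hx.2.2, ?_⟩
    · rw [← e1_phi_eq_zero, ← hφ, hz.2.2]
      exact Finset.ne_of_mem_erase hx.1
    · rw [← e1_phi_eq_zero, ← hφ, map_sub, hz.1.2, ← nsmul_eq_mul, map_nsmul, hz.2.2, sub_self]
  have hcount : (I.card : ℝ) * (((99 / 100 : ℝ) / (Nat.card K : ℝ)) * (A.card : ℝ)) ^ 2 ≤
      ((I.biUnion S).card : ℝ) := by
    rw [Finset.card_biUnion hdisj]
    push_cast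
    rw [← nsmul_eq_mul, ← Finset.sum_const]
    refine Finset.sum_le_sum fun x hx => ?_
    rw [hI, Finset.mem_product] at hx
    have hx1 : x.1 ∈ K := by
      have := Finset.mem_of_mem_erase hx.1
      rwa [hKf, Set.Finite.mem_toFinset] at this
    have hx2 : x.2 • x.1 ∈ K := K.nsmul_mem hx1 x.2
    simp only [hS, Finset.card_product]
    push_cast
    rw [sq]
    exact mul_le_mul (hclscard _ hx2) (hclscard _ hx1) hnn (by positivity)
  have hrho : rho A l ≤ (101 / 100 : ℝ) / (Nat.card K : ℝ) := by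
    have := hK2 0
    rwa [e1_frac] at this
  have hfin := e1_count (Nat.card K) p hK5 hp (A.card : ℝ) (rho A l) hrho
  have hIc : (I.card : ℝ) = (((Nat.card K - 1 : ℕ) : ℝ) * ((p - 1 : ℕ) : ℝ)) := by
    rw [hIcard]; push_cast; ring
  rw [← hIc] at hfin
  refine hfin.trans (hcount.trans ?_)
  exact_mod_cast Finset.card_le_card hsub

end H315
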