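import Pool.Agent.H315R2.Sq.Defs
import Pool.Agent.H315R2.Sq.D2
import Pool.Agent.H315R2.Sq.E1

/-! # E2: summing the cross lemma -/

open Polynomial Finset
open scoped Classical Pointwise

namespace H315

variable {k : Type} [Field k]

theorem cross_sum (p : ℕ) [Fact p.Prime] (hp : 5 ≤ p) [CharP k p] [IsAlgClosed k]
    (η : ℝ) (hη : 0 < η) :
    ∃ ε₀ : ℝ, 0 < ε₀ ∧ ε₀ ≤ 1 / 10 ∧ ∀ α : ℝ, 1 / 2 < α → α ≤ 1 / 2 + ε₀ →
    ∀ (D : ℕ) (A B : Finset k[X]), NF p α D A B → ∀ Λ : Finset (k × ℕ),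
    (∀ l ∈ Λ, 1 ≤ l.2 ∧ η ≤ rho A l) →
    31 / 10 * ∑ l ∈ Λ, rho A l ≤
      2 * Rbar p A + (nW0 A : ℝ) / (A.card : ℝ) ^ 2 * ((D : ℝ) / (2 * η)) := by
  obtain ⟨ε₀, hε₀, hε₁, hcp⟩ := cross_prob (k := k) p hp η hη
  refine ⟨ε₀, hε₀, hε₁, fun α hα hα' D A B hNF Λ hΛ => ?_⟩
  have hApos : (0 : ℝ) < A.card := by exact_mod_cast hNF.red.1.card_pos
  -- lower bound
  have h1 : 31 / 10 * (∑ l ∈ Λ, rho A l) * (A.card : ℝ) ^ 2 ≤
      ∑ l ∈ Λ, (((A ×ˢ A).filter (fun x => Cross p l x.1 x.2)).card : ℝ) := by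
    rw [Finset.mul_sum, Finset.sum_mul]
    exact Finset.sum_le_sum fun l hl => hcp α hα hα' D A B hNF l (hΛ l hl).1 (hΛ l hl).2
  -- double counting
  have h2 : ∑ l ∈ Λ, ((A ×ˢ A).filter (fun x => Cross p l x.1 x.2)).card =
      ∑ x ∈ A ×ˢ A, (Λ.filter (fun l => Cross p l x.1 x.2)).card := by
    simp only [Finset.card_filter]
    rw [Finset.sum_comm]
  have h3 : ∀ x ∈ A ×ˢ A, ((Λ.filter (fun l => Cross p l x.1 x.2)).card : ℝ) ≤
      (((Rt p x.1).card : ℝ) + ((Rt p x.2).card : ℝ)) +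
        (if wronskian x.1 x.2 = 0 then (Λ.card : ℝ) else 0) := by
    intro x hx
    rw [Finset.mem_product] at hx
    by_cases hW : wronskian x.1 x.2 = 0
    · rw [if_pos hW]
      have : ((Λ.filter (fun l => Cross p l x.1 x.2)).card : ℝ) ≤ Λ.card := by
        exact_mod_cast Finset.card_filter_le _ _
      have h0 : (0 : ℝ) ≤ ((Rt p x.1).card : ℝ) + ((Rt p x.2).card : ℝ) := by positivity
      linarith
    · rw [if_neg hW, add_zero]
      have h5 := cross_lemma p (by omega) x.1 x.2 (hNF.sq.1 _ hx.1).2 (hNF.sq.1 _ hx.2).2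
        (hNF.sq.1 _ hx.1).1 (hNF.sq.1 _ hx.2).1 hW Λ
      exact_mod_cast h5
  have h4 : (∑ x ∈ A ×ˢ A, ((Λ.filter (fun l => Cross p l x.1 x.2)).card : ℝ)) ≤
      2 * (A.card : ℝ) * (∑ s ∈ A, ((Rt p s).card : ℝ)) + (nW0 A : ℝ) * (Λ.card : ℝ) := by
    refine (Finset.sum_le_sum h3).trans (le_of_eq ?_)
    rw [Finset.sum_add_distrib, Finset.sum_add_distrib]
    congr 1
    · rw [Finset.sum_product, Finset.sum_product]
      simp only [Finset.sum_const, nsmul_eq_mul]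
      rw [← Finset.mul_sum]
      ring
    · rw [← Finset.sum_filter, Finset.sum_const, nsmul_eq_mul]
      rfl
  have h5 : (31 / 10 * ∑ l ∈ Λ, rho A l) * (A.card : ℝ) ^ 2 ≤
      2 * (A.card : ℝ) * (∑ s ∈ A, ((Rt p s).card : ℝ)) + (nW0 A : ℝ) * (Λ.card : ℝ) := by
    refine h1.trans (le_trans (le_of_eq ?_) h4)
    exact_mod_cast h2
  -- the number of levels
  have h6 : (Λ.card : ℝ) ≤ (D : ℝ) / (2 * η) := by
    have h7 := sum_rho_le p α D A B hNF Λ (fun l hl => (hΛ l hl).1)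
    have h8 : (Λ.card : ℝ) * η ≤ ∑ l ∈ Λ, rho A l := by
      rw [← nsmul_eq_mul, ← Finset.sum_const]
      exact Finset.sum_le_sum fun l hl => (hΛ l hl).2
    rw [le_div_iff₀ (by positivity)]
    linarith
  have h9 : (nW0 A : ℝ) * (Λ.card : ℝ) ≤ (nW0 A : ℝ) * ((D : ℝ) / (2 * η)) :=
    mul_le_mul_of_nonneg_left h6 (Nat.cast_nonneg _)
  have h10 : 2 * Rbar p A + (nW0 A : ℝ) / (A.card : ℝ) ^ 2 * ((D : ℝ) / (2 * η)) =
      (2 * (A.card : ℝ) * (∑ s ∈ A, ((Rt p s).card : ℝ)) + (nW0 A : ℝ) * ((D : ℝ) / (2 * η))) /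
        (A.card : ℝ) ^ 2 := by
    rw [Rbar]
    field_simp
  rw [h10, le_div_iff₀ (by positivity)]
  linarith

end H315
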