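import Pool.Agent.H315R2.Sq.Defs
import Pool.Agent.H315R2.Sq.A1
import Pool.Agent.H315R2.Sq.B
import Pool.Agent.H315R2.Sq.C3
import Pool.Agent.H315R2.Sq.D1
import Pool.Agent.H315R2.Sq.E1

/-! # F: the pencil lemma -/

open Polynomial Finset
open scoped Classical Pointwise

namespace H315

variable {k : Type} [Field k]

/-- the levels of a polynomial -/
noncomputable def f_lev (Ω : k[X]) : Finset (k × ℕ) :=
  Ω.roots.toFinset.biUnion (fun a => (Icc 1 (Ω.rootMultiplicity a)).image (fun m => (a, m)))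

theorem f_lev_card (Ω : k[X]) (hΩ : Ω ≠ 0) : (f_lev Ω).card ≤ Ω.natDegree := by
  refine le_trans Finset.card_biUnion_le ?_
  refine le_trans (Finset.sum_le_sum (fun a _ => Finset.card_image_le)) ?_
  simp only [Nat.card_Icc, Nat.add_sub_cancel]
  exact sum_rootMultiplicity_le Ω hΩ _

theorem f_count [IsAlgClosed k] (Ω y : k[X]) (hΩ : Ω ≠ 0) (hy : y ∣ Ω) :
    y.natDegree ≤ ((f_lev Ω).filter (fun l => (X - C l.1) ^ (2 * l.2) ∣ y * y)).card := by
  have hy0 : y ≠ 0 := fun h => hΩ (by rw [h] at hy; exact zero_dvd_iff.1 hy)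
  have hZ : ∀ a, y.IsRoot a → a ∈ Ω.roots.toFinset := by
    intro a ha
    rw [Multiset.mem_toFinset, Polynomial.mem_roots hΩ]
    exact ha.dvd hy
  have h1 := sum_rootMultiplicity y hy0 Ω.roots.toFinset hZ
  rw [← h1]
  have h2 : (f_lev Ω).filter (fun l => (X - C l.1) ^ (2 * l.2) ∣ y * y) ⊇
      Ω.roots.toFinset.biUnion
        (fun a => (Icc 1 (y.rootMultiplicity a)).image (fun m => (a, m))) := by
    intro l hl
    simp only [Finset.mem_biUnion, Finset.mem_image, Finset.mem_Icc] at hl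
    obtain ⟨a, ha, m, ⟨hm1, hm2⟩, rfl⟩ := hl
    simp only [Finset.mem_filter, f_lev, Finset.mem_biUnion, Finset.mem_image, Finset.mem_Icc]
    refine ⟨⟨a, ha, m, ⟨hm1, le_trans hm2 ?_⟩, rfl⟩, ?_⟩
    · exact (Polynomial.le_rootMultiplicity_iff hΩ).2
        ((Polynomial.pow_rootMultiplicity_dvd y a).trans hy)
    · have h3 : (X - C a) ^ m ∣ y :=
        (pow_dvd_pow _ hm2).trans (Polynomial.pow_rootMultiplicity_dvd y a)
      have h4 := mul_dvd_mul h3 h3
      rwa [← pow_add, ← two_mul] at h4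
  refine le_trans (le_of_eq ?_) (Finset.card_le_card h2)
  rw [Finset.card_biUnion]
  · apply Finset.sum_congr rfl
    intro a _
    rw [Finset.card_image_of_injective _ (fun m m' h => (Prod.mk.inj h).2), Nat.card_Icc,
      Nat.add_sub_cancel]
  · intro a _ b _ hab
    rw [Function.onFun, Finset.disjoint_left]
    intro l hl hl'
    simp only [Finset.mem_image] at hl hl'
    obtain ⟨m, _, rfl⟩ := hl
    obtain ⟨m', _, h⟩ := hl'
    exact hab (Prod.mk.inj h).1.symm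

theorem pencil_lemma (p : ℕ) [Fact p.Prime] (hp : 5 ≤ p) [CharP k p] [IsAlgClosed k] :
    ∃ ε₀ r₀ : ℝ, 0 < ε₀ ∧ 0 < r₀ ∧ ∀ α : ℝ, 1 / 2 < α → α ≤ 1 / 2 + ε₀ →
    ∀ A B : Finset k[X], Red α A B → SqSet p A → Pencil A → ratio α A B ≤ r₀ → False := by
  obtain ⟨ε₁, hε₁, hε₁', hrho⟩ := rho_le (k := k) p hp
  have hp0 : (0 : ℝ) < p := by
    have : 0 < p := by omega
    exact_mod_cast this
  refine ⟨ε₁, 1 / (2 * p), hε₁, by positivity, ?_⟩
  intro α hα hα' A₀ B₀ hred hsq hpen hr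
  obtain ⟨D, A, B, hNF, -, hsqA, hpen1, s₁, hs₁, s₂, hs₂, hW⟩ := normal_form p (by omega)
    (fun A : Finset k[X] => SqSet p A ∧ Pencil A) (stable_pencil p (by omega)) α (1 / (2 * p))
    hα (by linarith) (by
      apply one_div_lt_one_div_of_lt hp0
      linarith) A₀ B₀ hred hr ⟨hsq, hpen⟩
  set u := s₁ - s₂ with hu
  set Ω := wronskian s₁ u with hΩd
  have hall : ∀ s ∈ A, wronskian s u = Ω := by
    intro s hs
    have h1 := hpen1 s₁ hs₁ s hs s₂ hs₂
    rw [hΩd]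
    rw [← hu] at h1
    simp only [wronskian, derivative_sub] at h1 ⊢
    linear_combination (-1 : k[X]) * h1
  have hΩ : Ω ≠ 0 := by
    have h1 : Ω = - wronskian s₁ s₂ := by
      rw [hΩd, hu]
      simp only [wronskian, derivative_sub]
      ring
    rw [h1, neg_ne_zero]
    exact hW
  have hdeg : Ω.natDegree < 2 * D := by
    have h1 : Ω.natDegree < s₁.natDegree + u.natDegree :=
      natDegree_wronskian_lt_add (a := s₁) (b := u) hΩ
    have h2 : u.natDegree ≤ D := by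
      rw [hu]
      refine le_trans (natDegree_sub_le _ _) ?_
      rw [hNF.degA s₁ hs₁, hNF.degA s₂ hs₂, max_self]
    rw [hNF.degA s₁ hs₁] at h1
    omega
  have hA : 0 < (A.card : ℝ) := by
    have : 0 < A.card := Finset.card_pos.2 ⟨s₁, hs₁⟩
    exact_mod_cast this
  have hcount : ∀ s ∈ A, (D : ℝ) / 2 ≤
      (((f_lev Ω).filter (fun l => (X - C l.1) ^ (2 * l.2) ∣ s)).card : ℝ) := by
    intro s hs
    obtain ⟨y, hy⟩ := (hNF.sq.1 s hs).2
    have hs0 := (hNF.sq.1 s hs).1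
    have hy0 : y ≠ 0 := by
      rintro rfl
      exact hs0 (by rw [hy, zero_mul])
    have hyd : y ∣ Ω := by
      rw [← hall s hs, hy]
      simp only [wronskian, derivative_mul]
      exact ⟨y * derivative u - (derivative y + derivative y) * u, by ring⟩
    have h1 := f_count Ω y hΩ hyd
    have h2 : D = y.natDegree + y.natDegree := by
      rw [← hNF.degA s hs, hy, natDegree_mul hy0 hy0]
    rw [← hy] at h1
    have h3 : (y.natDegree : ℝ) ≤
      (((f_lev Ω).filter (fun l => (X - C l.1) ^ (2 * l.2) ∣ s)).card : ℝ) := by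
      exact_mod_cast h1
    have h4 : (D : ℝ) = y.natDegree + y.natDegree := by exact_mod_cast h2
    linarith
  have hsum : ∑ l ∈ f_lev Ω, rho A l = (∑ s ∈ A,
      (((f_lev Ω).filter (fun l => (X - C l.1) ^ (2 * l.2) ∣ s)).card : ℝ)) / A.card := by
    simp only [rho]
    rw [← Finset.sum_div]
    congr 1
    simp only [Finset.card_filter, Nat.cast_sum]
    rw [Finset.sum_comm]
  have hge : (D : ℝ) / 2 ≤ ∑ l ∈ f_lev Ω, rho A l := by
    rw [hsum, le_div_iff₀ hA]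
    have h1 := Finset.sum_le_sum hcount
    rw [Finset.sum_const, nsmul_eq_mul] at h1
    linarith
  have hle : ∑ l ∈ f_lev Ω, rho A l ≤ (f_lev Ω).card * (21 / 100 : ℝ) := by
    rw [← nsmul_eq_mul]
    apply Finset.sum_le_card_nsmul
    intro l hl
    apply hrho α hα hα' D A B hNF l
    simp only [f_lev, Finset.mem_biUnion, Finset.mem_image, Finset.mem_Icc] at hl
    obtain ⟨a, _, m, hm, rfl⟩ := hl
    exact hm.1
  have hcard : ((f_lev Ω).card : ℝ) + 1 ≤ 2 * D := by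
    have h1 := f_lev_card Ω hΩ
    have h2 : (f_lev Ω).card + 1 ≤ 2 * D := by omega
    exact_mod_cast h2
  have hD : (0 : ℝ) ≤ D := Nat.cast_nonneg D
  nlinarith

/-- the same for a pair which is contained in a class `W(s,u) = κ ≠ 0` -/
theorem pencil_lemma' (p : ℕ) [Fact p.Prime] (hp : 5 ≤ p) [CharP k p] [IsAlgClosed k] :
    ∃ ε₀ r₀ : ℝ, 0 < ε₀ ∧ 0 < r₀ ∧ ∀ α : ℝ, 1 / 2 < α → α ≤ 1 / 2 + ε₀ →
    ∀ A B : Finset k[X], A.Nonempty → B.Nonempty → SqSet p A →
    ∀ (u κ : k[X]), κ ≠ 0 → (∀ s ∈ A, wronskian s u = κ) → ratio α A B ≤ r₀ → False := by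
  obtain ⟨ε₁, r₁, hε₁, hr₁, hpl⟩ := pencil_lemma (k := k) p hp
  obtain ⟨r₂, hr₂, hr₂', hcl⟩ := card_large (G := k[X]) 2
  refine ⟨min ε₁ (1 / 10), min r₁ r₂, lt_min hε₁ (by norm_num), lt_min hr₁ hr₂, ?_⟩
  intro α hα hα' A₀ B₀ hA₀ hB₀ hsq u κ hκ hu hr
  obtain ⟨A, hAA, B, hBB, hred, hrr⟩ := exists_red α A₀ B₀ hA₀ hB₀
  have hα1 : α ≤ 1 / 2 + ε₁ := by linarith [min_le_left ε₁ (1 / 10)]
  have hα2 : α ≤ 3 / 5 := by linarith [min_le_right ε₁ (1 / 10)]
  have hrA1 : ratio α A B ≤ r₁ := by linarith [min_le_left r₁ r₂]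
  have hrA2 : ratio α A B ≤ r₂ := by linarith [min_le_right r₁ r₂]
  have hcard := hcl α hα hα2 A B hred.1 hred.2.1 hrA2
  obtain ⟨s₁, hs₁, s₂, hs₂, hne⟩ := Finset.one_lt_card.1 (by omega : 1 < A.card)
  have hu' : ∀ s ∈ A, wronskian s u = κ := fun s hs => hu s (hAA hs)
  have hu0 : u ≠ 0 := by
    rintro rfl
    apply hκ
    rw [← hu' s₁ hs₁]
    simp [wronskian]
  have hsub : ∀ s ∈ A, ∀ s' ∈ A, wronskian (s - s') u = 0 := by
    intro s hs s' hs'
    have h1 := hu' s hs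
    have h2 := hu' s' hs'
    simp only [wronskian, derivative_sub] at h1 h2 ⊢
    linear_combination h1 - h2
  have hanti : ∀ f g : k[X], wronskian f g = - wronskian g f := by
    intro f g
    simp only [wronskian]
    ring
  apply hpl α hα hα1 A B hred (SqSet.subset hsq hAA) ?_ hrA1
  constructor
  · intro t₁ h₁ t₂ h₂ t₃ h₃
    have h4 := wronskian_jacobi (t₁ - t₂) (t₁ - t₃) u
    rw [hsub t₁ h₁ t₃ h₃, hanti u, hsub t₁ h₁ t₂ h₂] at h4
    simp only [zero_mul, add_zero, neg_zero] at h4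
    exact (mul_eq_zero.1 h4).resolve_right hu0
  · refine ⟨s₁, hs₁, s₂, hs₂, ?_⟩
    intro h0
    have h4 := wronskian_jacobi s₁ (s₁ - s₂) u
    rw [hsub s₁ hs₁ s₂ hs₂, hanti u, hu' s₁ hs₁] at h4
    have h5 : wronskian s₁ (s₁ - s₂) = 0 := by
      have : wronskian s₁ (s₁ - s₂) = - wronskian s₁ s₂ := by
        simp only [wronskian, derivative_sub]
        ring
      rw [this, h0, neg_zero]
    rw [h5] at h4
    simp only [zero_mul, add_zero, zero_add, neg_mul, neg_eq_zero] at h4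
    rcases mul_eq_zero.1 h4 with h6 | h6
    · exact hκ h6
    · exact hne (sub_eq_zero.1 h6)

end H315
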