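import Pool.Agent.H315R2.Sq.Defs
import Pool.Agent.H315R2.Sq.D1

/-! # G: the six point determinant -/

open Polynomial Finset
open scoped Classical Pointwise

namespace H315

variable {k : Type} [Field k]

/-- degree of a determinant from the degrees of the columns -/
theorem g_natDegree_det_le (M : Matrix (Fin 6) (Fin 6) k[X]) (d : Fin 6 → ℕ)
    (h : ∀ i j, (M i j).natDegree ≤ d j) : M.det.natDegree ≤ ∑ j, d j := by
  rw [Matrix.det_apply']
  apply natDegree_sum_le_of_forall_le
  intro σ _
  refine (natDegree_mul_le).trans ?_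
  rw [natDegree_intCast, zero_add]
  refine (natDegree_prod_le _ _).trans ?_
  exact Finset.sum_le_sum (fun i _ => h (σ i) i)

/-- the rows of the points `u i` may be replaced by differences and factors taken out -/
theorem g_factor (P Q : Fin 3 → k[X] × k[X]) (j : Fin 3 → Fin 3) (c : Fin 3 → k[X])
    (x y : Fin 3 → k[X])
    (hx : ∀ i, (P (j i)).1 - (Q i).1 = c i * x i)
    (hy : ∀ i, (P (j i)).2 - (Q i).2 = c i * y i) :
    c 0 * c 1 * c 2 ∣ (cmat P Q).det := by
  -- the common form
  have key : ∀ i : Fin 3, ∀ l : Fin 6, cvec (P (j i)).1 (P (j i)).2 l - cvec (Q i).1 (Q i).2 l =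
      c i * (![0, x i, y i, x i * ((P (j i)).1 + (Q i).1),
        x i * (P (j i)).2 + (Q i).1 * y i, y i * ((P (j i)).2 + (Q i).2)] : Fin 6 → k[X]) l := by
    intro i l
    have h1 : (P (j i)).1 = (Q i).1 + c i * x i := by rw [← hx i]; ring
    have h2 : (P (j i)).2 = (Q i).2 + c i * y i := by rw [← hy i]; ring
    fin_cases l
    · simp [cvec]
    · simpa [cvec] using hx i
    · simpa [cvec] using hy i
    · simp only [cvec, h1]
      simp
      ring
    · simp only [cvec, h1, h2]
      simp
      ring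
    · simp only [cvec, h2]
      simp
      ring
  set w : Fin 3 → Fin 6 → k[X] := fun i => ![0, x i, y i, x i * ((P (j i)).1 + (Q i).1),
        x i * (P (j i)).2 + (Q i).1 * y i, y i * ((P (j i)).2 + (Q i).2)] with hw
  set e : Fin 3 → Fin 6 := fun i => Fin.castLE (by norm_num) i with he
  set M := cmat P Q with hM
  have hrow : ∀ i : Fin 3, M (e i) = cvec (P i).1 (P i).2 := by
    intro i
    fin_cases i <;> rfl
  have hr3 : M 3 = cvec (Q 0).1 (Q 0).2 := rfl
  have hr4 : M 4 = cvec (Q 1).1 (Q 1).2 := rfl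
  have hr5 : M 5 = cvec (Q 2).1 (Q 2).2 := rfl
  have hne : ∀ i : Fin 3, ∀ m : Fin 6, 3 ≤ m.val → m ≠ e i := by
    intro i m hm h
    rw [h, he] at hm
    simp only [Fin.val_castLE] at hm
    omega
  set N1 := M.updateRow 3 (M 3 + (-1 : k[X]) • M (e (j 0))) with hN1
  have hd1 : N1.det = M.det := Matrix.det_updateRow_add_smul_self M (hne _ 3 (by decide)) (-1)
  set N2 := N1.updateRow 4 (N1 4 + (-1 : k[X]) • N1 (e (j 1))) with hN2
  have hd2 : N2.det = N1.det := Matrix.det_updateRow_add_smul_self N1 (hne _ 4 (by decide)) (-1)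
  set N3 := N2.updateRow 5 (N2 5 + (-1 : k[X]) • N2 (e (j 2))) with hN3
  have hd3 : N3.det = N2.det := Matrix.det_updateRow_add_smul_self N2 (hne _ 5 (by decide)) (-1)
  have hN1e : ∀ i, N1 (e i) = M (e i) := fun i => Matrix.updateRow_ne (hne i 3 (by decide)).symm
  have hN2e : ∀ i, N2 (e i) = M (e i) := fun i =>
    (Matrix.updateRow_ne (hne i 4 (by decide)).symm).trans (hN1e i)
  have hN3e : ∀ i, N3 (e i) = M (e i) := fun i =>
    (Matrix.updateRow_ne (hne i 5 (by decide)).symm).trans (hN2e i)
  have h14 : N1 4 = M 4 := Matrix.updateRow_ne (by decide)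
  have h15 : N1 5 = M 5 := Matrix.updateRow_ne (by decide)
  have h25 : N2 5 = M 5 := (Matrix.updateRow_ne (by decide)).trans h15
  have h33 : N3 3 = M 3 + (-1 : k[X]) • M (e (j 0)) := by
    rw [hN3, Matrix.updateRow_ne (by decide), hN2, Matrix.updateRow_ne (by decide), hN1,
      Matrix.updateRow_self]
  have h34 : N3 4 = M 4 + (-1 : k[X]) • M (e (j 1)) := by
    rw [hN3, Matrix.updateRow_ne (by decide), hN2, Matrix.updateRow_self, h14, hN1e]
  have h35 : N3 5 = M 5 + (-1 : k[X]) • M (e (j 2)) := by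
    rw [hN3, Matrix.updateRow_self, h25, hN2e]
  set A : Matrix (Fin 6) (Fin 6) k[X] := Matrix.of
    (![M.row 0, M.row 1, M.row 2, fun l => - w 0 l, fun l => - w 1 l, fun l => - w 2 l] :
        Fin 6 → Fin 6 → k[X]) with hA
  have hfac : N3 = Matrix.of (fun a b => (![1, 1, 1, c 0, c 1, c 2] : Fin 6 → k[X]) a *
      A a b) := by
    ext1 a b
    have hbase : ∀ i : Fin 3, N3 (e i) b = M (e i) b := fun i => congrFun (hN3e i) b
    fin_cases a
    · have := hbase 0
      change N3 0 b = 1 * M 0 b
      rw [one_mul]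
      exact this
    · have := hbase 1
      change N3 1 b = 1 * M 1 b
      rw [one_mul]
      exact this
    · have := hbase 2
      change N3 2 b = 1 * M 2 b
      rw [one_mul]
      exact this
    · have h1 := congrFun h33 b
      have h2 := key 0 b
      rw [hrow, hr3] at h1
      simp only [Pi.add_apply, Pi.smul_apply, smul_eq_mul] at h1
      change N3 3 b = c 0 * -(w 0 b)
      rw [h1]
      linear_combination -h2
    · have h1 := congrFun h34 b
      have h2 := key 1 b
      rw [hrow, hr4] at h1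
      simp only [Pi.add_apply, Pi.smul_apply, smul_eq_mul] at h1
      change N3 4 b = c 1 * -(w 1 b)
      rw [h1]
      linear_combination -h2
    · have h1 := congrFun h35 b
      have h2 := key 2 b
      rw [hrow, hr5] at h1
      simp only [Pi.add_apply, Pi.smul_apply, smul_eq_mul] at h1
      change N3 5 b = c 2 * -(w 2 b)
      rw [h1]
      linear_combination -h2
  have hdet : M.det = N3.det := by rw [hd3, hd2, hd1]
  rw [hdet, hfac, Matrix.det_mul_column]
  have hprod : (∏ i, (![1, 1, 1, c 0, c 1, c 2] : Fin 6 → k[X]) i) = c 0 * c 1 * c 2 := by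
    rw [Fin.prod_univ_six]
    simp
  rw [hprod]
  exact dvd_mul_right _ _

/-- the exponent by which both `s` and `s'` are divisible -/
noncomputable def g_exp (p : ℕ) (s : k[X]) (a : k) : ℕ :=
  s.rootMultiplicity a - (if p ∣ s.rootMultiplicity a then 0 else 1)

theorem g_exp_add (p : ℕ) (s : k[X]) (a : k) :
    g_exp p s a + (if p ∣ s.rootMultiplicity a then 0 else 1) = s.rootMultiplicity a := by
  unfold g_exp
  split_ifs with h
  · omega
  · have : s.rootMultiplicity a ≠ 0 := by
      intro h0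
      rw [h0] at h
      exact h (dvd_zero p)
    omega

theorem g_exp_le (p : ℕ) (s : k[X]) (a : k) : g_exp p s a ≤ s.rootMultiplicity a :=
  Nat.sub_le _ _

theorem g_exp_dvd (p : ℕ) (s : k[X]) (a : k) : (X - C a) ^ g_exp p s a ∣ s :=
  (pow_dvd_pow _ (g_exp_le p s a)).trans (pow_rootMultiplicity_dvd s a)

theorem g_exp_dvd_derivative (p : ℕ) [CharP k p] (s : k[X]) (a : k) :
    (X - C a) ^ g_exp p s a ∣ derivative s := by
  obtain ⟨q, hq⟩ := pow_rootMultiplicity_dvd s a
  set v := s.rootMultiplicity a with hv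
  have hder : derivative s = C (v : k) * (X - C a) ^ (v - 1) * q +
      (X - C a) ^ v * derivative q := by
    conv_lhs => rw [hq]
    rw [derivative_mul, derivative_X_sub_C_pow]
  have hge : g_exp p s a ≤ v := g_exp_le p s a
  rw [hder]
  apply dvd_add
  · by_cases hp : p ∣ v
    · have : (v : k) = 0 := (CharP.cast_eq_zero_iff k p v).mpr hp
      rw [this, C_0, zero_mul, zero_mul]
      exact dvd_zero _
    · have : g_exp p s a = v - 1 := by
        unfold g_exp
        rw [← hv, if_neg hp]
      rw [this]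
      exact ((dvd_mul_left _ _)).mul_right _
  · exact (pow_dvd_pow _ hge).mul_right _

theorem g_sum_exp (p : ℕ) [Fact p.Prime] [CharP k p] [IsAlgClosed k] (s : k[X]) (hs : s ≠ 0)
    (Z : Finset k) (hZ : ∀ a, s.IsRoot a → a ∈ Z) :
    ∑ a ∈ Z, g_exp p s a + (Rt p s).card = s.natDegree := by
  have h1 : (Rt p s).card = ∑ a ∈ Z, (if p ∣ s.rootMultiplicity a then 0 else 1) := by
    have h2 : Rt p s = Z.filter (fun a => ¬ p ∣ s.rootMultiplicity a) := by
      ext a
      unfold Rt
      rw [Finset.mem_filter, Finset.mem_filter, Multiset.mem_toFinset, mem_roots hs]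
      constructor
      · rintro ⟨h1, h2⟩
        exact ⟨hZ a h1, h2⟩
      · rintro ⟨_, h2⟩
        refine ⟨?_, h2⟩
        by_contra hcon
        apply h2
        rw [rootMultiplicity_eq_zero hcon]
        exact dvd_zero p
    rw [h2, Finset.card_filter]
    apply Finset.sum_congr rfl
    intro a _
    by_cases h : p ∣ s.rootMultiplicity a
    · rw [if_neg (not_not.mpr h), if_pos h]
    · rw [if_pos h, if_neg h]
  rw [h1, ← Finset.sum_add_distrib, ← sum_rootMultiplicity s hs Z hZ]
  apply Finset.sum_congr rfl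
  intro a _
  exact g_exp_add p s a

theorem g_sum_min (s s' : k[X]) (hs : s ≠ 0) (Z : Finset k) (hZ : ∀ a, s.IsRoot a → a ∈ Z) :
    ∑ a ∈ Z, min (s.rootMultiplicity a) (s'.rootMultiplicity a) = ov s s' := by
  unfold ov
  rw [← Multiset.sum_count_eq_card (s := Z)]
  · apply Finset.sum_congr rfl
    intro a _
    rw [Multiset.count_inter, count_roots, count_roots]
  · intro a ha
    rw [Multiset.mem_inter, mem_roots hs] at ha
    exact hZ a ha.1

theorem g_max (g v : Fin 3 → ℕ) (hg : ∀ j, g j ≤ v j) :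
    ∃ j : Fin 3, g 0 + g 1 + g 2 ≤ g j + (min (v 0) (v 1) + min (v 0) (v 2) + min (v 1) (v 2)) := by
  have h0 := hg 0
  have h1 := hg 1
  have h2 := hg 2
  rcases le_total (g 0) (g 1) with h01 | h01
  · rcases le_total (g 1) (g 2) with h12 | h12
    · exact ⟨2, by omega⟩
    · exact ⟨1, by omega⟩
  · rcases le_total (g 0) (g 2) with h02 | h02
    · exact ⟨2, by omega⟩
    · exact ⟨0, by omega⟩

theorem six_points (p : ℕ) [Fact p.Prime] [CharP k p] [IsAlgClosed k] (D : ℕ) (hD : 1 ≤ D)
    (t u : Fin 3 → k[X]) (ht : ∀ j, (t j).natDegree ≤ D) (hu : ∀ i, (u i).natDegree ≤ D)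
    (hs : ∀ i j, (t j - u i).natDegree = D)
    (h : ∀ i, 3 * ((Rt p (t 0 - u i)).card + (Rt p (t 1 - u i)).card + (Rt p (t 2 - u i)).card +
      ov (t 0 - u i) (t 1 - u i) + ov (t 0 - u i) (t 2 - u i) + ov (t 1 - u i) (t 2 - u i)) ≤ D) :
    (cmat (fun j => pt (t j)) (fun i => pt (u i))).det = 0 := by
  by_contra hΔ
  set Δ := (cmat (fun j => pt (t j)) (fun i => pt (u i))).det with hΔdef
  -- upper bound
  have hup : Δ.natDegree < 8 * D := by
    have hb : ∀ s : k[X], s.natDegree ≤ D → ∀ l : Fin 6,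
        (cvec (pt s).1 (pt s).2 l).natDegree ≤
          (![0, D, D - 1, 2 * D, D + (D - 1), 2 * (D - 1)] : Fin 6 → ℕ) l := by
      intro s hsD l
      have hd : (derivative s).natDegree ≤ D - 1 :=
        (natDegree_derivative_le s).trans (Nat.sub_le_sub_right hsD 1)
      fin_cases l
      · simp [cvec]
      · simpa [cvec, pt] using hsD
      · simpa [cvec, pt] using hd
      · have h1 : (s ^ 2).natDegree ≤ 2 * D :=
          (natDegree_pow_le).trans (Nat.mul_le_mul_left 2 hsD)
        simpa [cvec, pt] using h1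
      · have h1 : (s * derivative s).natDegree ≤ D + (D - 1) :=
          (natDegree_mul_le).trans (add_le_add hsD hd)
        simpa [cvec, pt] using h1
      · have h1 : ((derivative s) ^ 2).natDegree ≤ 2 * (D - 1) :=
          (natDegree_pow_le).trans (Nat.mul_le_mul_left 2 hd)
        simpa [cvec, pt] using h1
    have h1 := g_natDegree_det_le (cmat (fun j => pt (t j)) (fun i => pt (u i)))
      (![0, D, D - 1, 2 * D, D + (D - 1), 2 * (D - 1)] : Fin 6 → ℕ) (by
        intro i l
        fin_cases i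
        · exact hb (t 0) (ht 0) l
        · exact hb (t 1) (ht 1) l
        · exact hb (t 2) (ht 2) l
        · exact hb (u 0) (hu 0) l
        · exact hb (u 1) (hu 1) l
        · exact hb (u 2) (hu 2) l)
    rw [Fin.sum_univ_six] at h1
    simp only [Matrix.cons_val_zero, Matrix.cons_val_one, Matrix.cons_val] at h1
    rw [← hΔdef] at h1
    omega
  have hne : ∀ i j, t j - u i ≠ 0 := by
    intro i j h0
    have := hs i j
    rw [h0, natDegree_zero] at this
    omega
  set Z : Finset k := (univ : Finset (Fin 3 × Fin 3)).biUnion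
    (fun x => (t x.2 - u x.1).roots.toFinset) with hZ
  have hZr : ∀ i j, ∀ a, (t j - u i).IsRoot a → a ∈ Z := by
    intro i j a ha
    rw [hZ, Finset.mem_biUnion]
    exact ⟨(i, j), Finset.mem_univ _, by
      rw [Multiset.mem_toFinset, mem_roots (hne i j)]; exact ha⟩
  -- choose the best index
  have hch : ∀ a : k, ∀ i : Fin 3, ∃ j : Fin 3,
      g_exp p (t 0 - u i) a + g_exp p (t 1 - u i) a + g_exp p (t 2 - u i) a ≤
        g_exp p (t j - u i) a +
        (min ((t 0 - u i).rootMultiplicity a) ((t 1 - u i).rootMultiplicity a) +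
          min ((t 0 - u i).rootMultiplicity a) ((t 2 - u i).rootMultiplicity a) +
          min ((t 1 - u i).rootMultiplicity a) ((t 2 - u i).rootMultiplicity a)) := fun a i =>
    g_max (fun j => g_exp p (t j - u i) a) (fun j => (t j - u i).rootMultiplicity a)
      (fun j => g_exp_le p _ a)
  choose J hJ using hch
  have hlow : ∀ a : k, g_exp p (t (J a 0) - u 0) a + g_exp p (t (J a 1) - u 1) a +
      g_exp p (t (J a 2) - u 2) a ≤ Δ.rootMultiplicity a := by
    intro a
    rw [le_rootMultiplicity_iff hΔ, pow_add, pow_add]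
    have hx : ∀ i : Fin 3, ∃ x, t (J a i) - u i =
        (X - C a) ^ g_exp p (t (J a i) - u i) a * x := fun i => g_exp_dvd p _ a
    have hy : ∀ i : Fin 3, ∃ y, derivative (t (J a i)) - derivative (u i) =
        (X - C a) ^ g_exp p (t (J a i) - u i) a * y := by
      intro i
      obtain ⟨y, hy⟩ := g_exp_dvd_derivative p (t (J a i) - u i) a
      exact ⟨y, by rw [← hy, derivative_sub]⟩
    choose x hx' using hx
    choose y hy' using hy
    exact g_factor (fun j => pt (t j)) (fun i => pt (u i)) (J a)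
      (fun i => (X - C a) ^ g_exp p (t (J a i) - u i) a) x y hx' hy'
  have hsum := sum_rootMultiplicity_le Δ hΔ Z
  have hsum2 : ∑ a ∈ Z, (g_exp p (t (J a 0) - u 0) a + g_exp p (t (J a 1) - u 1) a +
      g_exp p (t (J a 2) - u 2) a) ≤ Δ.natDegree :=
    (Finset.sum_le_sum (fun a _ => hlow a)).trans hsum
  rw [Finset.sum_add_distrib, Finset.sum_add_distrib] at hsum2
  have hrow : ∀ i : Fin 3, 8 * D ≤ 3 * ∑ a ∈ Z, g_exp p (t (J a i) - u i) a := by
    intro i
    have h1 := Finset.sum_le_sum (fun a (_ : a ∈ Z) => hJ a i)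
    simp only [Finset.sum_add_distrib] at h1
    rw [g_sum_min _ _ (hne i 0) Z (hZr i 0), g_sum_min _ _ (hne i 0) Z (hZr i 0),
      g_sum_min _ _ (hne i 1) Z (hZr i 1)] at h1
    have e0 := g_sum_exp p (t 0 - u i) (hne i 0) Z (hZr i 0)
    have e1 := g_sum_exp p (t 1 - u i) (hne i 1) Z (hZr i 1)
    have e2 := g_sum_exp p (t 2 - u i) (hne i 2) Z (hZr i 2)
    rw [hs] at e0 e1 e2
    have hh := h i
    omega
  have r0 := hrow 0
  have r1 := hrow 1
  have r2 := hrow 2
  omega

end H315
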