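import Pool.Agent.H315R2.Sq.Defs

/-! # H1: geometry of conics in the plane over a field -/

open Polynomial Finset
open scoped Classical Pointwise

namespace H315

variable {K : Type} [Field K]

/-- value of an affine linear form -/
def lval (l : Fin 3 → K) (x y : K) : K := l 0 * x + l 1 * y + l 2

/-- coefficients of the product of two affine linear forms -/
def lmul (l m : Fin 3 → K) : Fin 6 → K :=
  ![l 2 * m 2, l 0 * m 2 + l 2 * m 0, l 1 * m 2 + l 2 * m 1, l 0 * m 0,
    l 0 * m 1 + l 1 * m 0, l 1 * m 1]

theorem cval_lmul (l m : Fin 3 → K) (x y : K) :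
    cval (lmul l m) x y = lval l x y * lval m x y := by
  simp only [cval, lmul, lval, Matrix.cons_val]
  ring

theorem h1_quad (e0 e1 e2 : K) (x : Fin 3 → K) (hx : Function.Injective x)
    (h : ∀ i, e0 + e1 * x i + e2 * x i ^ 2 = 0) : e0 = 0 ∧ e1 = 0 ∧ e2 = 0 := by
  have h01 : x 0 - x 1 ≠ 0 := sub_ne_zero.2 (fun h' => by simpa using hx h')
  have h02 : x 0 - x 2 ≠ 0 := sub_ne_zero.2 (fun h' => by simpa using hx h')
  have h12 : x 1 - x 2 ≠ 0 := sub_ne_zero.2 (fun h' => by simpa using hx h')
  have a : e1 + e2 * (x 0 + x 1) = 0 := by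
    apply mul_left_cancel₀ h01
    linear_combination h 0 - h 1
  have b : e1 + e2 * (x 0 + x 2) = 0 := by
    apply mul_left_cancel₀ h02
    linear_combination h 0 - h 2
  have c2 : e2 = 0 := by
    apply mul_left_cancel₀ h12
    linear_combination a - b
  have c1 : e1 = 0 := by rw [c2] at a; simpa using a
  have c0 : e0 = 0 := by have := h 0; rw [c1, c2] at this; simpa using this
  exact ⟨c0, c1, c2⟩

/-- a quadratic polynomial vanishing at three points of a line is divisible by the line -/
theorem line_factor (l : Fin 3 → K) (hl : l 0 ≠ 0 ∨ l 1 ≠ 0) (c : Fin 6 → K)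
    (P : Fin 3 → K × K) (hP : Function.Injective P) (hon : ∀ i, lval l (P i).1 (P i).2 = 0)
    (hc : ∀ i, cval c (P i).1 (P i).2 = 0) : ∃ m : Fin 3 → K, c = lmul l m := by
  rcases hl with h0 | h1
  · -- `l 0 ≠ 0` : eliminate `x`
    set m0 := c 3 / l 0 with hm0
    set m1 := (c 4 - l 1 * m0) / l 0 with hm1
    set m2 := (c 1 - l 2 * m0) / l 0 with hm2
    have e3 : c 3 = l 0 * m0 := by rw [hm0]; field_simp
    have e4 : c 4 = l 0 * m1 + l 1 * m0 := by rw [hm1]; field_simp; ring
    have e1 : c 1 = l 0 * m2 + l 2 * m0 := by rw [hm2]; field_simp; ring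
    have hinj : Function.Injective (fun i => (P i).2) := by
      intro i j hij
      apply hP
      simp only at hij
      refine Prod.ext ?_ hij
      have hi := hon i
      have hj := hon j
      simp only [lval] at hi hj
      apply mul_left_cancel₀ h0
      rw [hij] at hi
      linear_combination hi - hj
    have key : ∀ i, (c 0 - l 2 * m2) + (c 2 - (l 1 * m2 + l 2 * m1)) * (P i).2
        + (c 5 - l 1 * m1) * (P i).2 ^ 2 = 0 := by
      intro i
      have hi := hon i
      have hci := hc i
      simp only [lval] at hi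
      simp only [cval, e3, e4, e1] at hci
      linear_combination hci - (m0 * (P i).1 + m1 * (P i).2 + m2) * hi
    obtain ⟨f0, f2, f5⟩ := h1_quad _ _ _ (fun i => (P i).2) hinj key
    refine ⟨![m0, m1, m2], ?_⟩
    funext i
    fin_cases i
    · simpa [lmul] using sub_eq_zero.1 f0
    · simpa [lmul] using e1
    · simpa [lmul] using sub_eq_zero.1 f2
    · simpa [lmul] using e3
    · simpa [lmul] using e4
    · simpa [lmul] using sub_eq_zero.1 f5
  · -- `l 1 ≠ 0` : eliminate `y`
    set m1 := c 5 / l 1 with hm1
    set m0 := (c 4 - l 0 * m1) / l 1 with hm0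
    set m2 := (c 2 - l 2 * m1) / l 1 with hm2
    have e5 : c 5 = l 1 * m1 := by rw [hm1]; field_simp
    have e4 : c 4 = l 0 * m1 + l 1 * m0 := by rw [hm0]; field_simp; ring
    have e2 : c 2 = l 1 * m2 + l 2 * m1 := by rw [hm2]; field_simp; ring
    have hinj : Function.Injective (fun i => (P i).1) := by
      intro i j hij
      apply hP
      simp only at hij
      refine Prod.ext hij ?_
      have hi := hon i
      have hj := hon j
      simp only [lval] at hi hj
      apply mul_left_cancel₀ h1
      rw [hij] at hi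
      linear_combination hi - hj
    have key : ∀ i, (c 0 - l 2 * m2) + (c 1 - (l 0 * m2 + l 2 * m0)) * (P i).1
        + (c 3 - l 0 * m0) * (P i).1 ^ 2 = 0 := by
      intro i
      have hi := hon i
      have hci := hc i
      simp only [lval] at hi
      simp only [cval, e5, e4, e2] at hci
      linear_combination hci - (m0 * (P i).1 + m1 * (P i).2 + m2) * hi
    obtain ⟨f0, f1, f3⟩ := h1_quad _ _ _ (fun i => (P i).1) hinj key
    refine ⟨![m0, m1, m2], ?_⟩
    funext i
    fin_cases i
    · simpa [lmul] using sub_eq_zero.1 f0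
    · simpa [lmul] using sub_eq_zero.1 f1
    · simpa [lmul] using e2
    · simpa [lmul] using sub_eq_zero.1 f3
    · simpa [lmul] using e4
    · simpa [lmul] using e5

end H315
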