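import Pool.Agent.H315R2.Sq.Defs
import Pool.Agent.H315R2.Sq.H1

/-! # H2: conics through `3 + 3` points (helper273) -/

open Polynomial Finset
open scoped Classical Pointwise

namespace H315

variable {K : Type} [Field K]

private theorem h2_cval_sum (c : Fin 6 → K) (x y : K) : cval c x y = ∑ i, cvec x y i * c i := by
  rw [Fin.sum_univ_six]
  simp only [cval, cvec, Matrix.cons_val_zero, Matrix.cons_val_one, Matrix.cons_val]
  ring

private theorem h2_cval_smul (t : K) (c : Fin 6 → K) (x y : K) :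
    cval (t • c) x y = t * cval c x y := by
  simp only [cval, Pi.smul_apply, smul_eq_mul]
  ring

private theorem h2_cval_sub (c d : Fin 6 → K) (x y : K) :
    cval (c - d) x y = cval c x y - cval d x y := by
  simp only [cval, Pi.sub_apply]
  ring

private theorem h2_sep (A B : K × K) (h : A ≠ B) :
    ∃ l : Fin 3 → K, lval l A.1 A.2 ≠ 0 ∧ lval l B.1 B.2 = 0 := by
  by_cases hx : A.1 = B.1
  · have hy : A.2 ≠ B.2 := fun hy => h (Prod.ext hx hy)
    refine ⟨![0, 1, -B.2], ?_, ?_⟩
    · simp only [lval, Matrix.cons_val_zero, Matrix.cons_val_one, Matrix.cons_val]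
      intro h0
      apply hy
      linear_combination h0
    · simp only [lval, Matrix.cons_val_zero, Matrix.cons_val_one, Matrix.cons_val]
      ring
  · refine ⟨![1, 0, -B.1], ?_, ?_⟩
    · simp only [lval, Matrix.cons_val_zero, Matrix.cons_val_one, Matrix.cons_val]
      intro h0
      apply hx
      linear_combination h0
    · simp only [lval, Matrix.cons_val_zero, Matrix.cons_val_one, Matrix.cons_val]
      ring

private theorem h2_q (A B C : K × K) (h1 : A ≠ B) (h2 : A ≠ C) :
    ∃ q : Fin 6 → K, cval q A.1 A.2 ≠ 0 ∧ cval q B.1 B.2 = 0 ∧ cval q C.1 C.2 = 0 := by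
  obtain ⟨l, l1, l2⟩ := h2_sep A B h1
  obtain ⟨m, m1, m2⟩ := h2_sep A C h2
  refine ⟨lmul l m, ?_, ?_, ?_⟩
  · rw [cval_lmul]
    exact mul_ne_zero l1 m1
  · rw [cval_lmul, l2, zero_mul]
  · rw [cval_lmul, m2, mul_zero]

private theorem h2_indep (P : Fin 3 → K × K) (hP : Function.Injective P) :
    LinearIndependent K (fun j => cvec (P j).1 (P j).2) := by
  rw [Fintype.linearIndependent_iff]
  intro g hg i
  have key : ∀ q : Fin 6 → K, ∑ j, g j * cval q (P j).1 (P j).2 = 0 := by
    intro q
    have h1 : ∀ j, g j * cval q (P j).1 (P j).2 =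
        ∑ i, (g j • cvec (P j).1 (P j).2) i * q i := by
      intro j
      rw [h2_cval_sum, mul_sum]
      refine sum_congr rfl fun i _ => ?_
      simp only [Pi.smul_apply, smul_eq_mul]
      ring
    rw [sum_congr rfl fun j _ => h1 j, sum_comm]
    have h2 : ∀ i, ∑ j, (g j • cvec (P j).1 (P j).2) i * q i =
        (∑ j, g j • cvec (P j).1 (P j).2) i * q i := by
      intro i
      rw [Finset.sum_apply, sum_mul]
    rw [sum_congr rfl fun i _ => h2 i, hg]
    simp
  have h3 : ∀ q : Fin 6 → K, g 0 * cval q (P 0).1 (P 0).2 + g 1 * cval q (P 1).1 (P 1).2 +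
      g 2 * cval q (P 2).1 (P 2).2 = 0 := by
    intro q
    have := key q
    rwa [Fin.sum_univ_three] at this
  have n01 : P 0 ≠ P 1 := fun h => by simpa using hP h
  have n02 : P 0 ≠ P 2 := fun h => by simpa using hP h
  have n12 : P 1 ≠ P 2 := fun h => by simpa using hP h
  have g0 : g 0 = 0 := by
    obtain ⟨q, q1, q2, q3⟩ := h2_q (P 0) (P 1) (P 2) n01 n02
    have := h3 q
    rw [q2, q3, mul_zero, mul_zero, add_zero, add_zero] at this
    exact (mul_eq_zero.mp this).resolve_right q1
  have g1 : g 1 = 0 := by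
    obtain ⟨q, q1, q2, q3⟩ := h2_q (P 1) (P 0) (P 2) n01.symm n12
    have := h3 q
    rw [q2, q3, mul_zero, mul_zero, add_zero, zero_add] at this
    exact (mul_eq_zero.mp this).resolve_right q1
  have g2 : g 2 = 0 := by
    obtain ⟨q, q1, q2, q3⟩ := h2_q (P 2) (P 0) (P 1) n02.symm n12.symm
    have := h3 q
    rw [q2, q3, mul_zero, mul_zero, add_zero, zero_add] at this
    exact (mul_eq_zero.mp this).resolve_right q1
  fin_cases i
  · exact g0
  · exact g1
  · exact g2

private theorem h2_rows (P Q : Fin 3 → K × K) (i : Fin 6) :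
    cmat P Q i = Sum.elim (fun j => cvec (P j).1 (P j).2) (fun j => cvec (Q j).1 (Q j).2)
      (finSumFinEquiv.symm (i : Fin (3 + 3))) := by
  fin_cases i <;> rfl

private theorem h2_det (P Q : Fin 3 → K × K)
    (h : LinearIndependent K (Sum.elim (fun j => cvec (P j).1 (P j).2)
      (fun j => cvec (Q j).1 (Q j).2) : Fin 3 ⊕ Fin 3 → Fin 6 → K)) :
    (cmat P Q).det ≠ 0 := by
  have h1 : LinearIndependent K (fun i : Fin 6 => cmat P Q i) := by
    have h2 := h.comp (fun i : Fin 6 => finSumFinEquiv.symm (i : Fin (3 + 3)))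
      ((finSumFinEquiv (m := 3) (n := 3)).symm.injective)
    have h3 : (fun i : Fin 6 => cmat P Q i) = (Sum.elim (fun j => cvec (P j).1 (P j).2)
      (fun j => cvec (Q j).1 (Q j).2) : Fin 3 ⊕ Fin 3 → Fin 6 → K) ∘
      (fun i : Fin 6 => finSumFinEquiv.symm (i : Fin (3 + 3))) := by
      funext i
      exact h2_rows P Q i
    rw [h3]
    exact h2
  have h4 := Matrix.linearIndependent_rows_iff_isUnit.mp h1
  have h5 := (Matrix.isUnit_iff_isUnit_det _).mp h4
  exact h5.ne_zero

private theorem h2_G (P : Fin 3 → K × K) (Q : Fin 7 → K × K) (hP : Function.Injective P)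
    (hdet : ∀ I : Fin 3 → Fin 7, Function.Injective I → (cmat P (Q ∘ I)).det = 0) :
    ∃ G : Fin 6 → K, G ≠ 0 ∧ (∀ j, cval G (P j).1 (P j).2 = 0) ∧
      ∀ i, cval G (Q i).1 (Q i).2 = 0 := by
  set vP : Fin 3 → Fin 6 → K := fun j => cvec (P j).1 (P j).2 with hvP
  set vQ : Fin 7 → Fin 6 → K := fun i => cvec (Q i).1 (Q i).2 with hvQ
  have hind : LinearIndependent K vP := h2_indep P hP
  have hs : LinearIndepOn K id (Set.range vP) := hind.linearIndepOn_id
  obtain ⟨b, hbt, hsb, hspan, hb⟩ := exists_linearIndepOn_id_extension hs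
    (Set.subset_union_left : Set.range vP ⊆ Set.range vP ∪ Set.range vQ)
  have hne : Submodule.span K (Set.range vP ∪ Set.range vQ) ≠ ⊤ := by
    intro htop
    have hbtop : Submodule.span K b = ⊤ := by
      rw [eq_top_iff, ← htop]
      exact Submodule.span_le.mpr hspan
    have hbfin : b.Finite := ((Set.finite_range vP).union (Set.finite_range vQ)).subset hbt
    have : Fintype b := hbfin.fintype
    have hbi : LinearIndependent K (fun x : b => (x : Fin 6 → K)) := hb
    have hcard : Fintype.card b = 6 := by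
      have hbas : Module.finrank K (Fin 6 → K) = Fintype.card b := by
        refine Module.finrank_eq_card_basis (Module.Basis.mk hbi ?_)
        rw [Subtype.range_coe_subtype, Set.ofPred_mem_eq, hbtop]
      rw [Module.finrank_fin_fun] at hbas
      exact hbas.symm
    -- the complement
    have hscard : (Set.range vP).ncard = 3 := by
      rw [Set.ncard_range_of_injective hind.injective]
      simp
    have hb6 : b.ncard = 6 := by
      rw [← Nat.card_coe_set_eq, Nat.card_eq_fintype_card, hcard]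
    have hd : (b \ Set.range vP).ncard = 3 := by
      have := Set.ncard_sdiff_add_ncard_of_subset hsb hbfin
      omega
    have hdfin : (b \ Set.range vP).Finite := hbfin.subset Set.sdiff_subset
    have : Fintype (b \ Set.range vP : Set (Fin 6 → K)) := hdfin.fintype
    have hd' : Fintype.card (b \ Set.range vP : Set (Fin 6 → K)) = 3 := by
      rw [← Nat.card_eq_fintype_card, Nat.card_coe_set_eq, hd]
    let e : Fin 3 ≃ (b \ Set.range vP : Set (Fin 6 → K)) := (Fintype.equivFinOfCardEq hd').symm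
    have hpre : ∀ k : Fin 3, ∃ i : Fin 7, vQ i = (e k : Fin 6 → K) := by
      intro k
      rcases hbt (e k).2.1 with h | h
      · exact absurd h (e k).2.2
      · exact h
    choose I hI using hpre
    have hIinj : Function.Injective I := by
      intro a c hac
      apply e.injective
      apply Subtype.ext
      rw [← hI a, ← hI c, hac]
    apply h2_det P (Q ∘ I) _ (hdet I hIinj)
    -- independence
    let f : Fin 3 ⊕ Fin 3 → b := Sum.elim (fun j => ⟨vP j, hsb ⟨j, rfl⟩⟩)
      (fun k => ⟨(e k : Fin 6 → K), (e k).2.1⟩)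
    have hf : Function.Injective f := by
      rintro (a | a) (c | c) hac
      · have : vP a = vP c := congrArg Subtype.val hac
        rw [hind.injective this]
      · exfalso
        have : vP a = (e c : Fin 6 → K) := congrArg Subtype.val hac
        exact (e c).2.2 ⟨a, this⟩
      · exfalso
        have : (e a : Fin 6 → K) = vP c := congrArg Subtype.val hac
        exact (e a).2.2 ⟨c, this.symm⟩
      · have : (e a : Fin 6 → K) = (e c : Fin 6 → K) :=
          congrArg (fun x : b => (x : Fin 6 → K)) hac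
        rw [e.injective (Subtype.ext this)]
    have h9 := hbi.comp f hf
    have h10 : (Sum.elim (fun j => cvec (P j).1 (P j).2)
        (fun j => cvec ((Q ∘ I) j).1 ((Q ∘ I) j).2) : Fin 3 ⊕ Fin 3 → Fin 6 → K) =
        (fun x : b => (x : Fin 6 → K)) ∘ f := by
      funext x
      rcases x with a | a
      · rfl
      · exact hI a
    rw [h10]
    exact h9
  obtain ⟨φ, hφ0, hφ⟩ := Submodule.exists_le_ker_of_lt_top _ (lt_top_iff_ne_top.mpr hne)
  have hev : ∀ x y : K, cval (fun i => φ (fun j => if i = j then 1 else 0)) x y =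
      φ (cvec x y) := by
    intro x y
    rw [h2_cval_sum, LinearMap.pi_apply_eq_sum_univ φ (cvec x y)]
    rfl
  refine ⟨fun i => φ (fun j => if i = j then 1 else 0), ?_, ?_, ?_⟩
  · intro h0
    apply hφ0
    refine LinearMap.ext fun v => ?_
    rw [LinearMap.pi_apply_eq_sum_univ φ]
    have : ∀ i, φ (fun j => if i = j then 1 else 0) = 0 := fun i => congrFun h0 i
    simp [this]
  · intro j
    rw [hev]
    exact hφ (Submodule.subset_span (Or.inl ⟨j, rfl⟩))
  · intro i
    rw [hev]
    exact hφ (Submodule.subset_span (Or.inr ⟨i, rfl⟩))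

/-- three points on a line -/
private theorem h2_coll (l : Fin 3 → K) (hl : l 0 ≠ 0 ∨ l 1 ≠ 0) (A B C : K × K)
    (hA : lval l A.1 A.2 = 0) (hB : lval l B.1 B.2 = 0) (hC : lval l C.1 C.2 = 0) :
    (A.1 - C.1) * (B.2 - C.2) = (B.1 - C.1) * (A.2 - C.2) := by
  unfold lval at hA hB hC
  rcases hl with h | h
  · apply mul_left_cancel₀ h
    linear_combination (B.2 - C.2) * hA - (A.2 - C.2) * hB + (A.2 - B.2) * hC
  · apply mul_left_cancel₀ h
    linear_combination (B.1 - C.1) * (-hA) + (A.1 - C.1) * hB + (B.1 - A.1) * hC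

private theorem h2_lmul_ne (l m : Fin 3 → K) (hl : l 0 ≠ 0 ∨ l 1 ≠ 0) (hm : m ≠ 0) :
    lmul l m ≠ 0 := by
  intro h
  have e0 : l 2 * m 2 = 0 := congrFun h 0
  have e1 : l 0 * m 2 + l 2 * m 0 = 0 := congrFun h 1
  have e2 : l 1 * m 2 + l 2 * m 1 = 0 := congrFun h 2
  have e3 : l 0 * m 0 = 0 := congrFun h 3
  have e4 : l 0 * m 1 + l 1 * m 0 = 0 := congrFun h 4
  have e5 : l 1 * m 1 = 0 := congrFun h 5
  apply hm
  rcases hl with h0 | h0
  · have m0 : m 0 = 0 := (mul_eq_zero.mp e3).resolve_left h0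
    rw [m0, mul_zero, add_zero] at e4 e1
    have m1 : m 1 = 0 := (mul_eq_zero.mp e4).resolve_left h0
    have m2 : m 2 = 0 := (mul_eq_zero.mp e1).resolve_left h0
    funext i
    fin_cases i
    · exact m0
    · exact m1
    · exact m2
  · have m1 : m 1 = 0 := (mul_eq_zero.mp e5).resolve_left h0
    rw [m1, mul_zero, zero_add] at e4
    rw [m1, mul_zero, add_zero] at e2
    have m0 : m 0 = 0 := (mul_eq_zero.mp e4).resolve_left h0
    have m2 : m 2 = 0 := (mul_eq_zero.mp e2).resolve_left h0
    funext i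
    fin_cases i
    · exact m0
    · exact m1
    · exact m2

private theorem h2_lin (m : Fin 3 → K) (hm : m ≠ 0) (x y : K) (h : lval m x y = 0) :
    m 0 ≠ 0 ∨ m 1 ≠ 0 := by
  by_contra hc
  push Not at hc
  apply hm
  unfold lval at h
  rw [hc.1, hc.2] at h
  funext i
  fin_cases i
  · exact hc.1
  · exact hc.2
  · simpa using h

/-- the line through two points -/
private def h2_line (A B : K × K) : Fin 3 → K :=
  ![A.2 - B.2, B.1 - A.1, A.1 * B.2 - B.1 * A.2]

private theorem h2_line_lin (A B : K × K) (h : A ≠ B) :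
    h2_line A B 0 ≠ 0 ∨ h2_line A B 1 ≠ 0 := by
  by_contra hc
  push Not at hc
  have h1 : A.2 - B.2 = 0 := hc.1
  have h2 : B.1 - A.1 = 0 := hc.2
  exact h (Prod.ext (by linear_combination -h2) (by linear_combination h1))

private theorem h2_line_val (A B : K × K) (x y : K) :
    lval (h2_line A B) x y = (A.1 - x) * (B.2 - y) - (B.1 - x) * (A.2 - y) := by
  unfold lval h2_line
  simp only [Matrix.cons_val_zero, Matrix.cons_val_one, Matrix.cons_val]
  ring

private theorem h2_three (Q : Fin 7 → K × K) (h2 : (2 : K) ≠ 0) (hQ : Function.Injective Q)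
    (c₁ c₂ : Fin 6 → K) (h1 : c₁ ≠ 0) (hne : ∀ t : K, c₂ ≠ t • c₁)
    (z1 : ∀ i, cval c₁ (Q i).1 (Q i).2 = 0) (z2 : ∀ i, cval c₂ (Q i).1 (Q i).2 = 0) :
    ∃ (l : Fin 3 → K) (I : Fin 3 → Fin 7), (l 0 ≠ 0 ∨ l 1 ≠ 0) ∧ Function.Injective I ∧
      ∀ i, lval l (Q (I i)).1 (Q (I i)).2 = 0 := by
  have n01 : Q 0 ≠ Q 1 := fun h => by simpa using hQ h
  set R : K × K := (2 * (Q 0).1 - (Q 1).1, 2 * (Q 0).2 - (Q 1).2) with hR
  have nR0 : Q 0 ≠ R := by
    intro h
    apply n01
    have e1 : (Q 0).1 = 2 * (Q 0).1 - (Q 1).1 := congrArg Prod.fst h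
    have e2 : (Q 0).2 = 2 * (Q 0).2 - (Q 1).2 := congrArg Prod.snd h
    exact Prod.ext (by linear_combination -e1) (by linear_combination -e2)
  have nR1 : Q 1 ≠ R := by
    intro h
    apply n01
    have e1 : (Q 1).1 = 2 * (Q 0).1 - (Q 1).1 := congrArg Prod.fst h
    have e2 : (Q 1).2 = 2 * (Q 0).2 - (Q 1).2 := congrArg Prod.snd h
    refine Prod.ext ?_ ?_
    · apply mul_left_cancel₀ h2
      linear_combination -e1
    · apply mul_left_cancel₀ h2
      linear_combination -e2
  -- a conic through all the `Q i` and `R`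
  obtain ⟨G, hG0, hGQ, hGR⟩ : ∃ G : Fin 6 → K, G ≠ 0 ∧ (∀ i, cval G (Q i).1 (Q i).2 = 0) ∧
      cval G R.1 R.2 = 0 := by
    by_cases hc : cval c₁ R.1 R.2 = 0
    · exact ⟨c₁, h1, z1, hc⟩
    · refine ⟨cval c₁ R.1 R.2 • c₂ - cval c₂ R.1 R.2 • c₁, ?_, ?_, ?_⟩
      · intro h
        apply hne ((cval c₁ R.1 R.2)⁻¹ * cval c₂ R.1 R.2)
        rw [mul_smul, ← sub_eq_zero.mp h, smul_smul, inv_mul_cancel₀ hc, one_smul]
      · intro i
        rw [h2_cval_sub, h2_cval_smul, h2_cval_smul, z1, z2]
        ring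
      · rw [h2_cval_sub, h2_cval_smul, h2_cval_smul]
        ring
  -- the line
  set l := h2_line (Q 0) (Q 1) with hl
  have hlin := h2_line_lin (Q 0) (Q 1) n01
  have l0 : lval l (Q 0).1 (Q 0).2 = 0 := by rw [hl, h2_line_val]; ring
  have l1 : lval l (Q 1).1 (Q 1).2 = 0 := by rw [hl, h2_line_val]; ring
  have lR : lval l R.1 R.2 = 0 := by rw [hl, h2_line_val, hR]; ring
  obtain ⟨m, hm⟩ := line_factor l hlin G ![Q 0, Q 1, R]
    (by
      intro a c hac
      fin_cases a <;> fin_cases c
      · rfl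
      · exact absurd hac n01
      · exact absurd hac nR0
      · exact absurd hac.symm n01
      · rfl
      · exact absurd hac nR1
      · exact absurd hac.symm nR0
      · exact absurd hac.symm nR1
      · rfl)
    (by
      intro a
      fin_cases a
      · exact l0
      · exact l1
      · exact lR)
    (by
      intro a
      fin_cases a
      · exact hGQ 0
      · exact hGQ 1
      · exact hGR)
  have hm0 : m ≠ 0 := by
    intro h
    apply hG0
    rw [hm, h]
    funext i
    fin_cases i <;> simp [lmul]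
  have hcov : ∀ i, lval l (Q i).1 (Q i).2 = 0 ∨ lval m (Q i).1 (Q i).2 = 0 := by
    intro i
    have := hGQ i
    rw [hm, cval_lmul] at this
    exact mul_eq_zero.mp this
  by_cases hex : ∃ i : Fin 7, i ≠ 0 ∧ i ≠ 1 ∧ lval l (Q i).1 (Q i).2 = 0
  · obtain ⟨i, i0, i1, hi⟩ := hex
    refine ⟨l, ![0, 1, i], hlin, ?_, ?_⟩
    · intro a c hac
      fin_cases a <;> fin_cases c
      · rfl
      · exact absurd (show (0 : Fin 7) = 1 from hac) (by decide)
      · exact absurd hac.symm i0
      · exact absurd (show (1 : Fin 7) = 0 from hac) (by decide)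
      · rfl
      · exact absurd hac.symm i1
      · exact absurd hac i0
      · exact absurd hac i1
      · rfl
    · intro a
      fin_cases a
      · exact l0
      · exact l1
      · exact hi
  · push Not at hex
    have k2 : lval m (Q 2).1 (Q 2).2 = 0 :=
      (hcov 2).resolve_left (hex 2 (by decide) (by decide))
    have k3 : lval m (Q 3).1 (Q 3).2 = 0 :=
      (hcov 3).resolve_left (hex 3 (by decide) (by decide))
    have k4 : lval m (Q 4).1 (Q 4).2 = 0 :=
      (hcov 4).resolve_left (hex 4 (by decide) (by decide))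
    refine ⟨m, ![2, 3, 4], h2_lin m hm0 _ _ k2, ?_, ?_⟩
    · decide
    · intro a
      fin_cases a
      · exact k2
      · exact k3
      · exact k4

theorem conic_geometry (h2 : (2 : K) ≠ 0) (P : Fin 6 → K × K) (Q : Fin 7 → K × K)
    (hP : Function.Injective P) (hQ : Function.Injective Q)
    (hdet : ∀ (J : Fin 3 → Fin 6) (I : Fin 3 → Fin 7), Function.Injective J →
      Function.Injective I → (cmat (P ∘ J) (Q ∘ I)).det = 0)
    (hcol : ∀ j l i, j ≠ l →
      ((P j).1 - (Q i).1) * ((P l).2 - (Q i).2) ≠ ((P l).1 - (Q i).1) * ((P j).2 - (Q i).2)) :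
    ∃ c : Fin 6 → K, c ≠ 0 ∧ ∀ j, cval c (P j).1 (P j).2 = 0 := by
  have hG : ∀ J : Fin 3 → Fin 6, Function.Injective J → ∃ G : Fin 6 → K, G ≠ 0 ∧
      (∀ j, cval G (P (J j)).1 (P (J j)).2 = 0) ∧ ∀ i, cval G (Q i).1 (Q i).2 = 0 :=
    fun J hJ => h2_G (P ∘ J) Q (hP.comp hJ) (fun I hI => hdet J I hJ hI)
  by_cases hprop : ∀ c₁ c₂ : Fin 6 → K, c₁ ≠ 0 → (∀ i, cval c₁ (Q i).1 (Q i).2 = 0) →
      (∀ i, cval c₂ (Q i).1 (Q i).2 = 0) → ∃ t : K, c₂ = t • c₁
  · obtain ⟨G, G0, _, GQ⟩ := hG ![0, 1, 2] (by decide)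
    refine ⟨G, G0, ?_⟩
    intro j
    obtain ⟨G', G0', GP', GQ'⟩ := hG ![j, j + 1, j + 2] (by revert j; decide)
    obtain ⟨t, ht⟩ := hprop G' G G0' GQ' GQ
    have := GP' 0
    have e : (![j, j + 1, j + 2] : Fin 3 → Fin 6) 0 = j := rfl
    rw [e] at this
    rw [ht, h2_cval_smul, this, mul_zero]
  · push Not at hprop
    obtain ⟨c₁, c₂, h1, z1, z2, hne⟩ := hprop
    obtain ⟨l, I, hl, hI, hon⟩ := h2_three Q h2 hQ c₁ c₂ h1 hne z1 z2
    have hfac : ∀ J : Fin 3 → Fin 6, Function.Injective J → ∃ m : Fin 3 → K, m ≠ 0 ∧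
        ∀ j, lval l (P (J j)).1 (P (J j)).2 = 0 ∨ lval m (P (J j)).1 (P (J j)).2 = 0 := by
      intro J hJ
      obtain ⟨G, G0, GP, GQ⟩ := hG J hJ
      obtain ⟨m, hm⟩ := line_factor l hl G (Q ∘ I) (hQ.comp hI) hon (fun i => GQ (I i))
      refine ⟨m, ?_, ?_⟩
      · intro h
        apply G0
        rw [hm, h]
        funext i
        fin_cases i <;> simp [lmul]
      · intro j
        have := GP j
        rw [hm, cval_lmul] at this
        exact mul_eq_zero.mp this
    -- at most one `P j` on `l`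
    have hone : ∀ j j' : Fin 6, lval l (P j).1 (P j).2 = 0 → lval l (P j').1 (P j').2 = 0 →
        j = j' := by
      intro j j' hj hj'
      by_contra hc
      exact hcol j j' (I 0) hc (h2_coll l hl (P j) (P j') (Q (I 0)) hj hj' (hon 0))
    -- two points off `l`
    obtain ⟨a, b, hab, ha, hb⟩ : ∃ a b : Fin 6, a ≠ b ∧ lval l (P a).1 (P a).2 ≠ 0 ∧
        lval l (P b).1 (P b).2 ≠ 0 := by
      by_cases q0 : lval l (P 0).1 (P 0).2 = 0
      · refine ⟨1, 2, by decide, fun h => ?_, fun h => ?_⟩
        · exact absurd (hone 0 1 q0 h) (by decide)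
        · exact absurd (hone 0 2 q0 h) (by decide)
      · by_cases q1 : lval l (P 1).1 (P 1).2 = 0
        · refine ⟨0, 2, by decide, q0, fun h => ?_⟩
          exact absurd (hone 1 2 q1 h) (by decide)
        · exact ⟨0, 1, by decide, q0, q1⟩
    have hPab : P a ≠ P b := fun h => hab (hP h)
    refine ⟨lmul l (h2_line (P a) (P b)), h2_lmul_ne _ _ hl ?_, ?_⟩
    · intro h
      rcases h2_line_lin (P a) (P b) hPab with h' | h'
      · exact h' (congrFun h 0)
      · exact h' (congrFun h 1)
    · intro j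
      rw [cval_lmul]
      by_cases hj : lval l (P j).1 (P j).2 = 0
      · rw [hj, zero_mul]
      · have hz : lval (h2_line (P a) (P b)) (P j).1 (P j).2 = 0 := by
          by_cases hja : j = a
          · rw [hja, h2_line_val]; ring
          by_cases hjb : j = b
          · rw [hjb, h2_line_val]; ring
          obtain ⟨m, hm0, hm⟩ := hfac ![a, b, j] (by
            intro x y hxy
            fin_cases x <;> fin_cases y
            · rfl
            · exact absurd hxy hab
            · exact absurd hxy.symm hja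
            · exact absurd hxy.symm hab
            · rfl
            · exact absurd hxy.symm hjb
            · exact absurd hxy hja
            · exact absurd hxy hjb
            · rfl)
          have ma : lval m (P a).1 (P a).2 = 0 := (hm 0).resolve_left ha
          have mb : lval m (P b).1 (P b).2 = 0 := (hm 1).resolve_left hb
          have mj : lval m (P j).1 (P j).2 = 0 := (hm 2).resolve_left hj
          rw [h2_line_val]
          exact sub_eq_zero.mpr (h2_coll m (h2_lin m hm0 _ _ ma) (P a) (P b) (P j) ma mb mj)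
        rw [hz, mul_zero]

end H315
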