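import Pool.Agent.H315R2.Sq.Defs
import Pool.Agent.H315R2.Sq.H1

/-! # H3: a conic with many points shared with a translate; hyperplanes containing many points -/

open Polynomial Finset
open scoped Classical Pointwise

namespace H315

variable {K : Type} [Field K]

theorem h3_one_var (a b c : K) (h : a ≠ 0 ∨ b ≠ 0 ∨ c ≠ 0) :
    ∃ z₁ z₂ : K, ∀ z : K, a + b * z + c * z ^ 2 = 0 → z = z₁ ∨ z = z₂ := by
  by_cases hr : ∃ z : K, a + b * z + c * z ^ 2 = 0
  · obtain ⟨z₁, hz₁⟩ := hr
    by_cases hc : c = 0
    · subst hc
      have hb : b ≠ 0 := by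
        rintro rfl
        simp at hz₁ h
        exact h hz₁
      refine ⟨z₁, z₁, fun z hz => Or.inl ?_⟩
      have : b * (z - z₁) = 0 := by linear_combination hz - hz₁
      rcases mul_eq_zero.mp this with h' | h'
      · exact absurd h' hb
      · exact sub_eq_zero.mp h'
    · refine ⟨z₁, -b / c - z₁, fun z hz => ?_⟩
      have : (z - z₁) * (b + c * (z + z₁)) = 0 := by linear_combination hz - hz₁
      rcases mul_eq_zero.mp this with h' | h'
      · exact Or.inl (sub_eq_zero.mp h')
      · right
        field_simp
        linear_combination h'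
  · push Not at hr
    exact ⟨0, 0, fun z hz => absurd hz (hr z)⟩

theorem conic_two_lines (h2 : (2 : K) ≠ 0) (c : Fin 6 → K) (hc : c ≠ 0) (d : K × K) (hd : d ≠ 0)
    (P : Fin 3 → K × K) (hP : Function.Injective P)
    (h0 : ∀ i, cval c (P i).1 (P i).2 = 0)
    (h1 : ∀ i, cval c ((P i).1 + d.1) ((P i).2 + d.2) = 0) :
    ∃ l m : Fin 3 → K, (l 0 ≠ 0 ∨ l 1 ≠ 0) ∧ (m 0 ≠ 0 ∨ m 1 ≠ 0) ∧
      ∀ x y, cval c x y = 0 → lval l x y = 0 ∨ lval m x y = 0 := by
  obtain ⟨d1, d2⟩ := d
  simp only at h1
  set l : Fin 3 → K := ![2 * c 3 * d1 + c 4 * d2, c 4 * d1 + 2 * c 5 * d2,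
    c 1 * d1 + c 2 * d2 + c 3 * d1 ^ 2 + c 4 * d1 * d2 + c 5 * d2 ^ 2] with hl
  have hon : ∀ i, lval l (P i).1 (P i).2 = 0 := by
    intro i
    have e1 := h0 i
    have e2 := h1 i
    simp only [cval] at e1 e2
    simp only [lval, hl, Matrix.cons_val_zero, Matrix.cons_val_one, Matrix.cons_val]
    linear_combination e2 - e1
  by_cases hl0 : l 0 ≠ 0 ∨ l 1 ≠ 0
  · obtain ⟨m, hm⟩ := line_factor l hl0 c P hP hon h0
    by_cases hm0 : m 0 ≠ 0 ∨ m 1 ≠ 0
    · refine ⟨l, m, hl0, hm0, fun x y hxy => ?_⟩
      rw [hm, cval_lmul] at hxy
      exact mul_eq_zero.mp hxy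
    · push Not at hm0
      have hm2 : m 2 ≠ 0 := by
        intro hm2
        apply hc
        rw [hm]
        funext i
        fin_cases i <;> simp [lmul, hm0.1, hm0.2, hm2]
      refine ⟨l, l, hl0, hl0, fun x y hxy => ?_⟩
      rw [hm, cval_lmul] at hxy
      rcases mul_eq_zero.mp hxy with h | h
      · exact Or.inl h
      · exfalso
        simp only [lval, hm0.1, hm0.2] at h
        apply hm2
        linear_combination h
  · push Not at hl0
    have e0 : 2 * c 3 * d1 + c 4 * d2 = 0 := by simpa [hl] using hl0.1
    have e1 : c 4 * d1 + 2 * c 5 * d2 = 0 := by simpa [hl] using hl0.2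
    have e2 : c 1 * d1 + c 2 * d2 + c 3 * d1 ^ 2 + c 4 * d1 * d2 + c 5 * d2 ^ 2 = 0 := by
      have := hon 0
      simp only [lval, hl0.1, hl0.2] at this
      simpa [hl] using this
    have e3 : 2 * (c 1 * d1 + c 2 * d2) = 0 := by
      linear_combination 2 * e2 - d1 * e0 - d2 * e1
    have e4 : c 1 * d1 + c 2 * d2 = 0 := by
      rcases mul_eq_zero.mp e3 with h | h
      · exact absurd h h2
      · exact h
    by_cases hd1 : d1 = 0
    · subst hd1
      have hd2 : d2 ≠ 0 := by
        rintro rfl
        exact hd rfl
      have c4 : c 4 = 0 := by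
        have : c 4 * d2 = 0 := by linear_combination e0
        rcases mul_eq_zero.mp this with h | h
        · exact h
        · exact absurd h hd2
      have c5 : c 5 = 0 := by
        have : 2 * (c 5 * d2) = 0 := by linear_combination e1
        rcases mul_eq_zero.mp this with h | h
        · exact absurd h h2
        · rcases mul_eq_zero.mp h with h | h
          · exact h
          · exact absurd h hd2
      have c2 : c 2 = 0 := by
        have : c 2 * d2 = 0 := by linear_combination e4
        rcases mul_eq_zero.mp this with h | h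
        · exact h
        · exact absurd h hd2
      have hne : c 0 ≠ 0 ∨ c 1 ≠ 0 ∨ c 3 ≠ 0 := by
        by_contra hcon
        push Not at hcon
        apply hc
        funext i
        fin_cases i
        · exact hcon.1
        · exact hcon.2.1
        · exact c2
        · exact hcon.2.2
        · exact c4
        · exact c5
      obtain ⟨z₁, z₂, hz⟩ := h3_one_var (c 0) (c 1) (c 3) hne
      refine ⟨![1, 0, -z₁], ![1, 0, -z₂], Or.inl (by simp), Or.inl (by simp), fun x y hxy => ?_⟩
      simp only [cval, c2, c4, c5] at hxy
      rcases hz x (by linear_combination hxy) with h | h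
      · left
        simp [lval, h]
      · right
        simp [lval, h]
    · set t : K := d2 / d1 with ht
      have htd : d2 = t * d1 := by
        rw [ht]; field_simp
      rw [htd] at e0 e1 e2 e4
      have c4 : c 4 = -2 * c 5 * t := by
        have : (c 4 + 2 * c 5 * t) * d1 = 0 := by linear_combination e1
        rcases mul_eq_zero.mp this with h | h
        · linear_combination h
        · exact absurd h hd1
      have c3 : c 3 = c 5 * t ^ 2 := by
        have : 2 * (d1 * (c 3 - c 5 * t ^ 2)) = 0 := by
          rw [c4] at e0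
          linear_combination e0
        rcases mul_eq_zero.mp this with h | h
        · exact absurd h h2
        · rcases mul_eq_zero.mp h with h | h
          · exact absurd h hd1
          · linear_combination h
      have c1 : c 1 = - c 2 * t := by
        have : (c 1 + c 2 * t) * d1 = 0 := by linear_combination e4
        rcases mul_eq_zero.mp this with h | h
        · linear_combination h
        · exact absurd h hd1
      have hne : c 0 ≠ 0 ∨ c 2 ≠ 0 ∨ c 5 ≠ 0 := by
        by_contra hcon
        push Not at hcon
        apply hc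
        funext i
        fin_cases i
        · exact hcon.1
        · show c 1 = 0
          rw [c1, hcon.2.1]; simp
        · exact hcon.2.1
        · show c 3 = 0
          rw [c3, hcon.2.2]; simp
        · show c 4 = 0
          rw [c4, hcon.2.2]; simp
        · exact hcon.2.2
      obtain ⟨z₁, z₂, hz⟩ := h3_one_var (c 0) (c 2) (c 5) hne
      refine ⟨![-t, 1, -z₁], ![-t, 1, -z₂], Or.inr (by simp), Or.inr (by simp),
        fun x y hxy => ?_⟩
      simp only [cval] at hxy
      rw [c4, c3, c1] at hxy
      rcases hz (y - t * x) (by linear_combination hxy) with h | h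
      · left
        simp [lval]
        linear_combination h
      · right
        simp [lval]
        linear_combination h

/-- translation of a conic -/
theorem conic_translate (c : Fin 6 → K) (hc : c ≠ 0) (d : K × K) :
    ∃ c' : Fin 6 → K, c' ≠ 0 ∧ ∀ x y, cval c' x y = cval c (x + d.1) (y + d.2) := by
  obtain ⟨d1, d2⟩ := d
  refine ⟨![c 0 + c 1 * d1 + c 2 * d2 + c 3 * d1 ^ 2 + c 4 * (d1 * d2) + c 5 * d2 ^ 2,
    c 1 + 2 * c 3 * d1 + c 4 * d2, c 2 + c 4 * d1 + 2 * c 5 * d2, c 3, c 4, c 5], ?_, ?_⟩
  · intro h
    have g := fun i => congrFun h i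
    have g3 : c 3 = 0 := by simpa using g 3
    have g4 : c 4 = 0 := by simpa using g 4
    have g5 : c 5 = 0 := by simpa using g 5
    have g1 : c 1 = 0 := by simpa [g3, g4, g5] using g 1
    have g2 : c 2 = 0 := by simpa [g3, g4, g5] using g 2
    have g0 : c 0 = 0 := by simpa [g3, g4, g5, g1, g2] using g 0
    apply hc
    funext i
    fin_cases i
    · exact g0
    · exact g1
    · exact g2
    · exact g3
    · exact g4
    · exact g5
  · intro x y
    simp only [cval]
    simp
    ring

theorem h3_kill {n : ℕ} (hn : n < 6) (w : Fin n → (Fin 6 → K)) :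
    ∃ c : Fin 6 → K, c ≠ 0 ∧ ∀ x ∈ Submodule.span K (Set.range w), c ⬝ᵥ x = 0 := by
  have hlt : Submodule.span K (Set.range w) < ⊤ := by
    rw [lt_top_iff_ne_top]
    intro htop
    have h1 := finrank_range_le_card (R := K) w
    rw [Set.finrank, htop, finrank_top] at h1
    simp at h1
    omega
  obtain ⟨f, hf, hf'⟩ := Submodule.exists_le_ker_of_lt_top _ hlt
  refine ⟨fun i => f (Pi.single i 1), ?_, ?_⟩
  · intro h
    apply hf
    apply LinearMap.pi_ext'
    intro i
    ext
    have := congrFun h i
    simpa using this
  · intro x hx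
    have h1 : f x = 0 := hf' hx
    rw [← h1]
    conv_rhs => rw [← Finset.univ_sum_single x, map_sum]
    simp only [dotProduct]
    refine Finset.sum_congr rfl fun i _ => ?_
    have : (Pi.single i (x i) : Fin 6 → K) = x i • Pi.single i 1 := by
      rw [← Pi.single_smul]; simp
    rw [this, map_smul, smul_eq_mul, mul_comm]

theorem h3_step {ι : Type} (A : Finset ι) (v : ι → Fin 6 → K)
    (h : ∀ c : Fin 6 → K, c ≠ 0 → 2 * (A.filter (fun a => c ⬝ᵥ v a = 0)).card < A.card)
    (n : ℕ) (hn : n ≤ 6) :
    A.card ^ n ≤ 2 ^ n * ((Fintype.piFinset (fun _ : Fin n => A)).filter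
      (fun s => LinearIndependent K (fun j => v (s j)))).card := by
  induction n with
  | zero =>
    simp only [pow_zero, one_mul]
    rw [Nat.one_le_iff_ne_zero, Finset.card_ne_zero]
    refine ⟨fun i => i.elim0, ?_⟩
    simp only [Finset.mem_filter, Fintype.mem_piFinset]
    exact ⟨fun i => i.elim0, linearIndependent_empty_type⟩
  | succ n ih =>
    have ih := ih (by omega)
    set T : ℕ → ℕ := fun n => ((Fintype.piFinset (fun _ : Fin n => A)).filter
      (fun s => LinearIndependent K (fun j => v (s j)))).card with hT
    have key : A.card * T n ≤ 2 * T (n + 1) := by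
      -- count pairs
      have h1 : (((Fintype.piFinset (fun _ : Fin n => A)).filter
          (fun s => LinearIndependent K (fun j => v (s j)))).sigma
          (fun s => A.filter (fun a => v a ∉ Submodule.span K (Set.range fun j => v (s j))))).card
          ≤ T (n + 1) := by
        rw [hT]
        refine Finset.card_le_card_of_injOn (fun x => (Fin.snoc x.1 x.2 : Fin (n + 1) → ι)) ?_ ?_
        · rintro ⟨s, a⟩ hx
          simp only [Finset.coe_sigma, Set.mem_sigma_iff, Finset.mem_coe, Finset.mem_filter,
            Fintype.mem_piFinset] at hx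
          obtain ⟨⟨hs, hs'⟩, ha, ha'⟩ := hx
          simp only [Finset.coe_filter, Set.mem_setOf_eq, Fintype.mem_piFinset]
          refine ⟨fun i => ?_, ?_⟩
          · refine Fin.lastCases ?_ (fun j => ?_) i
            · simpa using ha
            · simpa using hs j
          · have : (fun j => v ((Fin.snoc s a : Fin (n + 1) → ι) j)) =
                Fin.snoc (fun j => v (s j)) (v a) := by
              funext j
              refine Fin.lastCases ?_ (fun j => ?_) j
              · simp
              · simp
            rw [this]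
            exact linearIndependent_finSnoc.mpr ⟨hs', ha'⟩
        · rintro ⟨s, a⟩ _ ⟨s', a'⟩ _ hxy
          simp only at hxy
          have e1 : s = s' := by
            have := congrArg Fin.init hxy
            simpa using this
          have e2 : a = a' := by
            have := congrFun hxy (Fin.last n)
            simpa using this
          subst e1; subst e2; rfl
      have h2 : A.card * T n ≤ 2 * (((Fintype.piFinset (fun _ : Fin n => A)).filter
          (fun s => LinearIndependent K (fun j => v (s j)))).sigma
          (fun s => A.filter (fun a => v a ∉ Submodule.span K (Set.range fun j => v (s j))))).card := by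
        rw [Finset.card_sigma, Finset.mul_sum]
        have h3 : A.card * T n = ∑ s ∈ (Fintype.piFinset (fun _ : Fin n => A)).filter
          (fun s => LinearIndependent K (fun j => v (s j))), A.card := by
          rw [Finset.sum_const, smul_eq_mul, mul_comm]
        rw [h3]
        refine Finset.sum_le_sum fun s _ => ?_
        obtain ⟨c, hc, hc'⟩ := h3_kill (by omega : n < 6) (fun j => v (s j))
        have h4 := h c hc
        have h5 : A.filter (fun a => ¬ (c ⬝ᵥ v a = 0)) ⊆
            A.filter (fun a => v a ∉ Submodule.span K (Set.range fun j => v (s j))) := by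
          intro a ha
          rw [Finset.mem_filter] at ha ⊢
          exact ⟨ha.1, fun hmem => ha.2 (hc' _ hmem)⟩
        have h6 := Finset.card_le_card h5
        have h7 := Finset.card_filter_add_card_filter_not (s := A) (fun a => c ⬝ᵥ v a = 0)
        omega
      omega
    calc A.card ^ (n + 1) = A.card * A.card ^ n := by ring
      _ ≤ A.card * (2 ^ n * T n) := Nat.mul_le_mul_left _ ih
      _ = 2 ^ n * (A.card * T n) := by ring
      _ ≤ 2 ^ n * (2 * T (n + 1)) := Nat.mul_le_mul_left _ key
      _ = 2 ^ (n + 1) * T (n + 1) := by ring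

/-- if less than `1/64` of all `6`-tuples are independent, some hyperplane contains half of `A` -/
theorem greedy {ι : Type} (A : Finset ι) (v : ι → Fin 6 → K)
    (h : 64 * ((Fintype.piFinset (fun _ : Fin 6 => A)).filter
      (fun s => LinearIndependent K (fun j => v (s j)))).card < A.card ^ 6) :
    ∃ c : Fin 6 → K, c ≠ 0 ∧ A.card ≤ 2 * (A.filter (fun a => c ⬝ᵥ v a = 0)).card := by
  by_contra hcon
  push Not at hcon
  have := h3_step A v (fun c hc => hcon c hc) 6 le_rfl
  norm_num at this
  omega

end H315
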