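import Pool.Agent.H315R2.Sq.Defs

/-! # I1: Taylor expansion, degrees -/

open Polynomial Finset
open scoped Classical Pointwise

namespace H315

variable {k : Type} [Field k]

private theorem i1_mem_Tri (d : ℕ) (x : ℕ × ℕ) : x ∈ Tri d ↔ x.1 + x.2 ≤ d := by
  simp only [Tri, mem_filter, mem_product, mem_range]
  omega

private theorem i1_shiftX {R : Type} [CommRing R] (e : ℕ) (c : ℕ × ℕ → R) (f g : R) :
    ev e (cX c) f g = ∑ x ∈ Tri (e + 1), c x * ((x.1 : R) * f ^ (x.1 - 1)) * g ^ x.2 := by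
  unfold ev
  refine Finset.sum_of_injOn (fun x => (x.1 + 1, x.2)) ?_ ?_ ?_ ?_
  · intro x _ y _ hxy
    simp only [Prod.mk.injEq, add_left_inj] at hxy
    exact Prod.ext hxy.1 hxy.2
  · intro x hx
    rw [mem_coe, i1_mem_Tri] at hx ⊢
    simp only
    omega
  · intro x hx hn
    have : x.1 = 0 := by
      by_contra h
      apply hn
      refine ⟨(x.1 - 1, x.2), ?_, ?_⟩
      · rw [mem_coe, i1_mem_Tri]
        rw [i1_mem_Tri] at hx
        simp only
        omega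
      · ext
        · simp only
          omega
        · rfl
    rw [this]
    simp
  · intro x _
    simp only [cX, Nat.add_sub_cancel]
    ring

private theorem i1_shiftY {R : Type} [CommRing R] (e : ℕ) (c : ℕ × ℕ → R) (f g : R) :
    ev e (cY c) f g = ∑ x ∈ Tri (e + 1), c x * f ^ x.1 * ((x.2 : R) * g ^ (x.2 - 1)) := by
  unfold ev
  refine Finset.sum_of_injOn (fun x => (x.1, x.2 + 1)) ?_ ?_ ?_ ?_
  · intro x _ y _ hxy
    simp only [Prod.mk.injEq, add_left_inj] at hxy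
    exact Prod.ext hxy.1 hxy.2
  · intro x hx
    rw [mem_coe, i1_mem_Tri] at hx ⊢
    simp only
    omega
  · intro x hx hn
    have : x.2 = 0 := by
      by_contra h
      apply hn
      refine ⟨(x.1, x.2 - 1), ?_, ?_⟩
      · rw [mem_coe, i1_mem_Tri]
        rw [i1_mem_Tri] at hx
        simp only
        omega
      · ext
        · rfl
        · simp only
          omega
    rw [this]
    simp
  · intro x _
    simp only [cY, Nat.add_sub_cancel]
    ring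

theorem ev_taylor {R : Type} [CommRing R] (π : R) (m : ℕ) (hm : 2 ≤ m) (d : ℕ) (hd : 1 ≤ d)
    (c : ℕ × ℕ → R) (f g δ ε : R) (hδ : π ^ m ∣ δ) (hε : π ^ (m - 1) ∣ ε) :
    π ^ m ∣ ev d c (f + δ) (g + ε) - ev d c f g - ev (d - 1) (cX c) f g * δ
      - ev (d - 1) (cY c) f g * ε := by
  obtain ⟨e, rfl⟩ : ∃ e, d = e + 1 := ⟨d - 1, by omega⟩
  rw [Nat.add_sub_cancel, i1_shiftX, i1_shiftY]
  unfold ev
  rw [Finset.sum_mul, Finset.sum_mul, ← Finset.sum_sub_distrib, ← Finset.sum_sub_distrib,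
    ← Finset.sum_sub_distrib]
  refine Finset.dvd_sum fun x _ => ?_
  obtain ⟨a, ha⟩ := Polynomial.powAddExpansion f δ x.1
  obtain ⟨b, hb⟩ := Polynomial.powAddExpansion g ε x.2
  rw [ha, hb]
  have hε2 : π ^ m ∣ ε ^ 2 := by
    refine dvd_trans (pow_dvd_pow π (show m ≤ (m - 1) * 2 by omega)) ?_
    rw [pow_mul]
    exact pow_dvd_pow_of_dvd hε 2
  obtain ⟨δ', hδ'⟩ := hδ
  obtain ⟨ε', hε'⟩ := hε2
  refine ⟨c x * (f ^ x.1 * b * ε' + x.1 * f ^ (x.1 - 1) * δ' * (x.2 * g ^ (x.2 - 1) * ε + b * ε ^ 2)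
    + a * δ * δ' * (g ^ x.2 + x.2 * g ^ (x.2 - 1) * ε + b * ε ^ 2)), ?_⟩
  linear_combination (c x * x.1 * f ^ (x.1 - 1) * (x.2 * g ^ (x.2 - 1) * ε + b * ε ^ 2) +
    c x * a * δ * (g ^ x.2 + x.2 * g ^ (x.2 - 1) * ε + b * ε ^ 2)) * hδ' +
    c x * f ^ x.1 * b * hε'

theorem ev_taylor2 {R : Type} [CommRing R] (p : ℕ) [Fact p.Prime] [CharP R p] (hp : 3 ≤ p)
    (π : R) (m : ℕ) (hm : 2 ≤ m) (d : ℕ) (hd : 1 ≤ d)
    (c : ℕ × ℕ → R) (hc : ∀ x ∈ Tri d, c x ≠ 0 → p ∣ x.2)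
    (f g δ ε : R) (hδ : π ^ m ∣ δ) (hε : π ^ (m - 1) ∣ ε) :
    π ^ (m + 1) ∣ ev d c (f + δ) (g + ε) - ev d c f g - ev (d - 1) (cX c) f g * δ := by
  obtain ⟨e, rfl⟩ : ∃ e, d = e + 1 := ⟨d - 1, by omega⟩
  rw [Nat.add_sub_cancel, i1_shiftX]
  unfold ev
  rw [Finset.sum_mul, ← Finset.sum_sub_distrib, ← Finset.sum_sub_distrib]
  refine Finset.dvd_sum fun x hx => ?_
  by_cases hcx : c x = 0
  · rw [hcx]; simp
  obtain ⟨j, hj⟩ := hc x hx hcx
  obtain ⟨a, ha⟩ := Polynomial.powAddExpansion f δ x.1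
  have hεp : π ^ (m + 1) ∣ ε ^ p := by
    have h1 : m + 1 ≤ (m - 1) * p := by
      have : (m - 1) * 3 ≤ (m - 1) * p := Nat.mul_le_mul_left _ hp
      omega
    refine dvd_trans (pow_dvd_pow π h1) ?_
    rw [pow_mul]
    exact pow_dvd_pow_of_dvd hε p
  have hg : ε ^ p ∣ (g + ε) ^ x.2 - g ^ x.2 := by
    rw [hj, pow_mul, pow_mul, add_pow_char]
    have := sub_dvd_pow_sub_pow (g ^ p + ε ^ p) (g ^ p) j
    rwa [add_sub_cancel_left] at this
  obtain ⟨t, ht⟩ := hεp.trans hg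
  have hδ2 : π ^ (m + 1) ∣ δ ^ 2 := by
    refine dvd_trans (pow_dvd_pow π (show m + 1 ≤ m * 2 by omega)) ?_
    rw [pow_mul]
    exact pow_dvd_pow_of_dvd hδ 2
  obtain ⟨δ', hδ'⟩ := hδ2
  rw [ha]
  refine ⟨c x * ((f ^ x.1 + x.1 * f ^ (x.1 - 1) * δ + a * δ ^ 2) * t + a * δ' * g ^ x.2), ?_⟩
  linear_combination c x * (f ^ x.1 + x.1 * f ^ (x.1 - 1) * δ + a * δ ^ 2) * ht +
    c x * a * g ^ x.2 * hδ'

theorem natDegree_ev_le (d D h : ℕ) (c : ℕ × ℕ → k[X]) (hc : ∀ x, (c x).natDegree ≤ h)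
    (f g : k[X]) (hf : f.natDegree ≤ D) (hg : g.natDegree ≤ D) :
    (ev d c f g).natDegree ≤ d * D + h := by
  unfold ev
  refine natDegree_sum_le_of_forall_le _ _ fun x hx => ?_
  rw [i1_mem_Tri] at hx
  have h1 : (f ^ x.1).natDegree ≤ x.1 * D :=
    natDegree_pow_le.trans (Nat.mul_le_mul_left _ hf)
  have h2 : (g ^ x.2).natDegree ≤ x.2 * D :=
    natDegree_pow_le.trans (Nat.mul_le_mul_left _ hg)
  have h3 : (c x * f ^ x.1 * g ^ x.2).natDegree ≤ h + x.1 * D + x.2 * D :=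
    natDegree_mul_le_of_le (natDegree_mul_le_of_le (hc x) h1) h2
  have h4 : (x.1 + x.2) * D ≤ d * D := Nat.mul_le_mul_right _ hx
  rw [add_mul] at h4
  omega

theorem natDegree_cX_le (h : ℕ) (c : ℕ × ℕ → k[X]) (hc : ∀ x, (c x).natDegree ≤ h) :
    ∀ x, (cX c x).natDegree ≤ h := by
  intro x
  unfold cX
  refine natDegree_mul_le.trans ?_
  rw [natDegree_natCast, zero_add]
  exact hc _

theorem natDegree_cY_le (h : ℕ) (c : ℕ × ℕ → k[X]) (hc : ∀ x, (c x).natDegree ≤ h) :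
    ∀ x, (cY c x).natDegree ≤ h := by
  intro x
  unfold cY
  refine natDegree_mul_le.trans ?_
  rw [natDegree_natCast, zero_add]
  exact hc _

theorem card_Tri (d : ℕ) : 2 * (Tri d).card = (d + 1) * (d + 2) := by
  induction d with
  | zero => decide
  | succ d ih =>
    have h : Tri (d + 1) = Tri d ∪ antidiagonal (d + 1) := by
      ext x
      rw [mem_union, i1_mem_Tri, i1_mem_Tri, HasAntidiagonal.mem_antidiagonal]
      omega
    have hd : Disjoint (Tri d) (antidiagonal (d + 1)) := by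
      rw [Finset.disjoint_left]
      intro x hx
      rw [i1_mem_Tri] at hx
      rw [HasAntidiagonal.mem_antidiagonal]
      omega
    rw [h, card_union_of_disjoint hd, Finset.Nat.card_antidiagonal, mul_add, ih]
    ring

end H315
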