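import Pool.Agent.H315R2.Sq.Defs

/-! # I2: Siegel's lemma over `k[x]` (helper259) -/

open Polynomial Finset
open scoped Classical Pointwise

namespace H315

variable {k : Type} [Field k]

theorem i2_finrank_degreeLT (n : ℕ) : Module.finrank k (degreeLT k n) = n := by
  rw [LinearEquiv.finrank_eq (degreeLTEquiv k n), Module.finrank_fin_fun]

instance i2_finite_degreeLT (n : ℕ) : Module.Finite k (degreeLT k n) :=
  Module.Finite.equiv (degreeLTEquiv k n).symm

theorem siegel {ι κ : Type} [Fintype ι] [Fintype κ] (E h : ℕ) (M : ι → κ → k[X])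
    (hM : ∀ i j, (M i j).natDegree ≤ E)
    (hh : Fintype.card ι * (h + E + 1) < Fintype.card κ * (h + 1)) :
    ∃ c : κ → k[X], c ≠ 0 ∧ (∀ j, (c j).natDegree ≤ h) ∧ ∀ i, ∑ j, M i j * c j = 0 := by
  let L0 : ι → ((κ → degreeLT k (h + 1)) →ₗ[k] k[X]) := fun i =>
    ∑ j, (LinearMap.mulLeft k (M i j)) ∘ₗ (degreeLT k (h + 1)).subtype ∘ₗ (LinearMap.proj j)
  have hL0 : ∀ i c, L0 i c = ∑ j, M i j * (c j : k[X]) := by
    intro i c
    simp [L0, LinearMap.sum_apply]
  have hmem : ∀ i c, L0 i c ∈ degreeLT k (h + E + 1) := by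
    intro i c
    rw [hL0]
    apply Submodule.sum_mem
    intro j _
    rw [mem_degreeLT]
    have h1 := (c j).2
    rw [mem_degreeLT] at h1
    have h2 : (M i j).degree ≤ (E : ℕ) := natDegree_le_iff_degree_le.1 (hM i j)
    have h3 : ((c j : k[X])).degree ≤ (h : ℕ) := by
      by_cases hz : (c j : k[X]) = 0
      · rw [hz]; simp
      · exact natDegree_le_iff_degree_le.1
          (Nat.lt_succ_iff.1 ((natDegree_lt_iff_degree_lt hz).2 h1))
    calc (M i j * (c j : k[X])).degree ≤ (M i j).degree + (c j : k[X]).degree := degree_mul_le _ _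
      _ ≤ (E : ℕ) + (h : ℕ) := add_le_add h2 h3
      _ = ((E + h : ℕ) : WithBot ℕ) := by push_cast; rfl
      _ < ((h + E + 1 : ℕ) : WithBot ℕ) := by
        rw [Nat.cast_lt]; omega
  let L : (κ → degreeLT k (h + 1)) →ₗ[k] (ι → degreeLT k (h + E + 1)) :=
    LinearMap.pi fun i => LinearMap.codRestrict _ (L0 i) (hmem i)
  have hfr : Module.finrank k (ι → degreeLT k (h + E + 1)) <
      Module.finrank k (κ → degreeLT k (h + 1)) := by
    rw [Module.finrank_pi_fintype, Module.finrank_pi_fintype]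
    simp only [i2_finrank_degreeLT, sum_const, card_univ, smul_eq_mul]
    exact hh
  obtain ⟨c, hc, hc0⟩ := Submodule.exists_mem_ne_zero_of_ne_bot
    (LinearMap.ker_ne_bot_of_finrank_lt (f := L) hfr)
  refine ⟨fun j => (c j : k[X]), ?_, ?_, ?_⟩
  · intro h0
    apply hc0
    funext j
    have := congrFun h0 j
    exact Subtype.ext this
  · intro j
    have h1 := (c j).2
    rw [mem_degreeLT] at h1
    show ((c j : k[X])).natDegree ≤ h
    by_cases hz : (c j : k[X]) = 0
    · rw [hz]; simp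
    · exact Nat.lt_succ_iff.1 ((natDegree_lt_iff_degree_lt hz).2 h1)
  · intro i
    rw [← hL0]
    have := congrFun (LinearMap.mem_ker.1 hc) i
    exact congrArg Subtype.val this

/-- small solution of a system of linear equations over `k[x]` which has a nonzero solution -/
theorem siegel_rank {ι κ : Type} [Fintype ι] [Fintype κ] (E : ℕ) (M : ι → κ → k[X])
    (hM : ∀ i j, (M i j).natDegree ≤ E)
    (hsol : ∃ c : κ → k[X], c ≠ 0 ∧ ∀ i, ∑ j, M i j * c j = 0) :
    ∃ c : κ → k[X], c ≠ 0 ∧ (∀ j, (c j).natDegree ≤ Fintype.card κ * E) ∧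
      ∀ i, ∑ j, M i j * c j = 0 := by
  let K := FractionRing k[X]
  let al : k[X] →+* K := algebraMap k[X] K
  have hal : Function.Injective al := IsFractionRing.injective k[X] K
  let v : ι → (κ → K) := fun i j => al (M i j)
  -- the functional attached to a vector
  let F : (κ → k[X]) → ((κ → K) →ₗ[K] K) := fun c => ∑ j, al (c j) • LinearMap.proj j
  have hF : ∀ c x, F c x = ∑ j, al (c j) * x j := by
    intro c x
    simp [F, LinearMap.sum_apply]
  have hFv : ∀ c i, F c (v i) = al (∑ j, M i j * c j) := by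
    intro c i
    rw [hF, map_sum]
    apply sum_congr rfl
    intro j _
    rw [map_mul, mul_comm]
  obtain ⟨κ', a, ha, hspan, hind⟩ := exists_linearIndependent' K v
  have : Finite κ' := Finite.of_injective a ha
  have := Fintype.ofFinite κ'
  obtain ⟨c0, hc0, hc0'⟩ := hsol
  have hker : LinearMap.ker (F c0) ≠ ⊤ := by
    intro htop
    apply hc0
    funext j
    have h1 : F c0 (Pi.single j 1) = 0 := by
      rw [← LinearMap.mem_ker, htop]; trivial
    rw [hF, Finset.sum_eq_single j] at h1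
    · rw [Pi.single_eq_same, mul_one] at h1
      exact hal (by rw [h1]; simp)
    · intro b _ hb
      rw [Pi.single_eq_of_ne hb, mul_zero]
    · intro h; exact absurd (mem_univ j) h
  have hcard : Fintype.card κ' < Fintype.card κ := by
    have h1 : Module.finrank K (Submodule.span K (Set.range (v ∘ a))) = Fintype.card κ' :=
      finrank_span_eq_card hind
    have h2 : Submodule.span K (Set.range (v ∘ a)) ≤ LinearMap.ker (F c0) := by
      rw [Submodule.span_le]
      rintro _ ⟨s, rfl⟩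
      rw [SetLike.mem_coe, LinearMap.mem_ker, Function.comp_apply, hFv, hc0', map_zero]
    have h3 := Submodule.finrank_mono h2
    have h4 := Submodule.finrank_lt hker
    rw [Module.finrank_fintype_fun_eq_card] at h4
    omega
  obtain ⟨c, hc, hcd, hcs⟩ := siegel E (Fintype.card κ * E) (fun s => M (a s))
    (fun s j => hM _ _) (by
      have e1 : Fintype.card κ' + 1 ≤ Fintype.card κ := hcard
      have e2 : Fintype.card κ' * E ≤ Fintype.card κ * E := Nat.mul_le_mul_right _ (by omega)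
      set n := Fintype.card κ
      set m := Fintype.card κ'
      set H := n * E
      calc m * (H + E + 1) = m * (H + 1) + m * E := by ring
        _ < m * (H + 1) + (H + 1) := by omega
        _ = (m + 1) * (H + 1) := by ring
        _ ≤ n * (H + 1) := Nat.mul_le_mul_right _ e1)
  refine ⟨c, hc, hcd, ?_⟩
  have h2 : Submodule.span K (Set.range v) ≤ LinearMap.ker (F c) := by
    rw [← hspan, Submodule.span_le]
    rintro _ ⟨s, rfl⟩
    rw [SetLike.mem_coe, LinearMap.mem_ker, Function.comp_apply, hFv, hcs, map_zero]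
  intro i
  have h3 : v i ∈ LinearMap.ker (F c) := h2 (Submodule.subset_span ⟨i, rfl⟩)
  rw [LinearMap.mem_ker, hFv] at h3
  exact hal (by rw [h3, map_zero])

theorem i2_deg (d D : ℕ) (f : k[X]) (hf : f.natDegree ≤ D) (x : ℕ × ℕ) (hx : x ∈ Tri d) :
    (f ^ x.1 * (derivative f) ^ x.2).natDegree ≤ d * D := by
  have h1 : (derivative f).natDegree ≤ D := (natDegree_derivative_le f).trans (by omega)
  have h2 : x.1 + x.2 ≤ d := by
    unfold Tri at hx
    exact (mem_filter.1 hx).2
  calc (f ^ x.1 * (derivative f) ^ x.2).natDegree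
      ≤ (f ^ x.1).natDegree + ((derivative f) ^ x.2).natDegree := natDegree_mul_le
    _ ≤ x.1 * D + x.2 * D := add_le_add (natDegree_pow_le_of_le _ hf)
        (natDegree_pow_le_of_le _ h1)
    _ = (x.1 + x.2) * D := by ring
    _ ≤ d * D := Nat.mul_le_mul_right _ h2

/-- extension by zero. -/
noncomputable def i2_ext (d : ℕ) (c : {x // x ∈ Tri d} → k[X]) (x : ℕ × ℕ) : k[X] :=
  if h : x ∈ Tri d then c ⟨x, h⟩ else 0

theorem i2_ev (d : ℕ) (c : {x // x ∈ Tri d} → k[X]) (f g : k[X]) :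
    ev d (i2_ext d c) f g = ∑ x : {x // x ∈ Tri d}, (f ^ x.1.1 * g ^ x.1.2) * c x := by
  unfold ev
  rw [← Finset.sum_coe_sort (Tri d)]
  apply sum_congr rfl
  intro x _
  unfold i2_ext
  rw [dif_pos x.2]
  ring

theorem i2_ev' (d : ℕ) (c : ℕ × ℕ → k[X]) (f g : k[X]) :
    ev d c f g = ∑ x : {x // x ∈ Tri d}, (f ^ x.1.1 * g ^ x.1.2) * c x.1 := by
  unfold ev
  rw [← Finset.sum_coe_sort (Tri d)]
  apply sum_congr rfl
  intro x _
  ring

theorem siegel_ev {ι : Type} [Fintype ι] (d D h : ℕ) (f : ι → k[X])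
    (hf : ∀ i, (f i).natDegree ≤ D)
    (hh : Fintype.card ι * (h + d * D + 1) < (Tri d).card * (h + 1)) :
    ∃ c : ℕ × ℕ → k[X], (∃ x ∈ Tri d, c x ≠ 0) ∧ (∀ x, (c x).natDegree ≤ h) ∧
      ∀ i, ev d c (f i) (derivative (f i)) = 0 := by
  obtain ⟨c, hc, hcd, hcs⟩ := siegel (ι := ι) (κ := {x // x ∈ Tri d}) (d * D) h
    (fun i x => f i ^ x.1.1 * (derivative (f i)) ^ x.1.2)
    (fun i x => i2_deg d D (f i) (hf i) x.1 x.2) (by rwa [Fintype.card_coe])
  refine ⟨i2_ext d c, ?_, ?_, ?_⟩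
  · obtain ⟨x, hx⟩ := Function.ne_iff.1 hc
    refine ⟨x.1, x.2, ?_⟩
    unfold i2_ext
    rw [dif_pos x.2]
    exact hx
  · intro x
    unfold i2_ext
    split_ifs with h1
    · exact hcd _
    · simp
  · intro i
    rw [i2_ev]
    exact hcs i

theorem van_height {ι : Type} [Fintype ι] (d D : ℕ) (f : ι → k[X])
    (hf : ∀ i, (f i).natDegree ≤ D) (hV : Van d f) :
    ∃ c : ℕ × ℕ → k[X], (∃ x ∈ Tri d, c x ≠ 0) ∧
      (∀ x, (c x).natDegree ≤ (Tri d).card * (d * D)) ∧
      ∀ i, ev d c (f i) (derivative (f i)) = 0 := by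
  obtain ⟨c0, ⟨x0, hx0, hx0'⟩, hc0⟩ := hV
  obtain ⟨c, hc, hcd, hcs⟩ := siegel_rank (ι := ι) (κ := {x // x ∈ Tri d}) (d * D)
    (fun i x => f i ^ x.1.1 * (derivative (f i)) ^ x.1.2)
    (fun i x => i2_deg d D (f i) (hf i) x.1 x.2)
    ⟨fun x => c0 x.1, fun h => hx0' (congrFun h ⟨x0, hx0⟩), fun i => by
      rw [← i2_ev']; exact hc0 i⟩
  rw [Fintype.card_coe] at hcd
  refine ⟨i2_ext d c, ?_, ?_, ?_⟩
  · obtain ⟨x, hx⟩ := Function.ne_iff.1 hc
    refine ⟨x.1, x.2, ?_⟩
    unfold i2_ext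
    rw [dif_pos x.2]
    exact hx
  · intro x
    unfold i2_ext
    split_ifs with h1
    · exact hcd _
    · simp
  · intro i
    rw [i2_ev]
    exact hcs i

end H315
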