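import Pool.Agent.H315R2.Sq.Defs

/-! # I3: taking `p`-th roots of a vanishing polynomial (helper862) -/

open Polynomial Finset
open scoped Classical Pointwise

namespace H315

variable {k : Type} [Field k]

theorem i3_coeff (p : ℕ) [Fact p.Prime] [CharP k p] (R : ℕ → k[X]) (n : ℕ) :
    (∑ l ∈ range p, X ^ l * (R l) ^ p).coeff n = ((R (n % p)).coeff (n / p)) ^ p := by
  have hp : 0 < p := (Fact.out : p.Prime).pos
  rw [finsetSum_coeff]
  have h1 : ∀ l, (X ^ l * (R l) ^ p).coeff n =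
      if l ≤ n then (if p ∣ n - l then ((R l).coeff ((n - l) / p)) ^ p else 0) else 0 := by
    intro l
    rw [coeff_X_pow_mul', ← map_frobenius_expand p (R l), coeff_map, coeff_expand hp]
    split_ifs
    · rw [frobenius_def]
    · rw [map_zero]
    · rfl
  simp only [h1]
  rw [Finset.sum_eq_single (n % p)]
  · have h2 : n % p ≤ n := Nat.mod_le _ _
    have h3 : n - n % p = p * (n / p) := by
      have := Nat.div_add_mod n p
      omega
    rw [if_pos h2, h3, if_pos (Nat.dvd_mul_right _ _), Nat.mul_div_cancel_left _ hp]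
  · intro l hl hne
    rw [Finset.mem_range] at hl
    split_ifs with h4 h5
    · exfalso
      apply hne
      obtain ⟨m, hm⟩ := h5
      have h6 : n = l + p * m := by omega
      rw [h6, Nat.add_mul_mod_self_left, Nat.mod_eq_of_lt hl]
    · rfl
    · rfl
  · intro h
    exact absurd (Finset.mem_range.2 (Nat.mod_lt _ hp)) h

theorem i3_decomp (p : ℕ) [Fact p.Prime] [CharP k p] [IsAlgClosed k] (q : k[X]) :
    ∃ R : ℕ → k[X], q = ∑ l ∈ range p, X ^ l * (R l) ^ p := by
  have hp : 0 < p := (Fact.out : p.Prime).pos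
  have hroot : ∀ a : k, ∃ b : k, b ^ p = a := fun a => IsAlgClosed.exists_pow_nat_eq a hp
  choose r hr using hroot
  refine ⟨fun l => ∑ i ∈ range (q.natDegree + 1), C (r (q.coeff (p * i + l))) * X ^ i, ?_⟩
  ext n
  rw [i3_coeff]
  have h1 : (∑ i ∈ range (q.natDegree + 1), C (r (q.coeff (p * i + n % p))) * X ^ i).coeff
      (n / p) = if n / p < q.natDegree + 1 then r (q.coeff (p * (n / p) + n % p)) else 0 := by
    rw [finsetSum_coeff]
    simp only [coeff_C_mul_X_pow]
    rw [Finset.sum_ite_eq]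
    simp only [Finset.mem_range]
  rw [h1, Nat.div_add_mod]
  split_ifs with h2
  · rw [hr]
  · rw [zero_pow hp.ne']
    refine coeff_eq_zero_of_natDegree_lt ?_
    have := Nat.div_le_self n p
    omega

theorem van_root (p : ℕ) [Fact p.Prime] [CharP k p] [IsAlgClosed k] (d : ℕ) {ι : Type}
    (f : ι → k[X]) (c : ℕ × ℕ → k[X]) (hne : ∃ x ∈ Tri d, c x ≠ 0)
    (hc : ∀ x ∈ Tri d, c x ≠ 0 → p ∣ x.1 ∧ p ∣ x.2)
    (hv : ∀ i, ev d c (f i) (derivative (f i)) = 0) : Van (d / p) f := by
  have hp : 0 < p := (Fact.out : p.Prime).pos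
  have hdec : ∀ y : ℕ × ℕ, ∃ R : ℕ → k[X], c (p * y.1, p * y.2) =
      ∑ l ∈ range p, X ^ l * (R l) ^ p := fun y => i3_decomp p _
  choose G hG using hdec
  have hTri : ∀ y : ℕ × ℕ, y ∈ Tri (d / p) ↔ (p * y.1, p * y.2) ∈ Tri d := by
    intro y
    simp only [Tri, Finset.mem_filter, Finset.mem_product, Finset.mem_range]
    have h1 : y.1 + y.2 ≤ d / p ↔ p * y.1 + p * y.2 ≤ d := by
      rw [Nat.le_div_iff_mul_le hp, ← Nat.mul_add, mul_comm]
    have h2 : y.1 ≤ p * y.1 := Nat.le_mul_of_pos_left _ hp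
    have h3 : y.2 ≤ p * y.2 := Nat.le_mul_of_pos_left _ hp
    constructor
    · rintro ⟨_, h4⟩
      have h5 := h1.1 h4
      exact ⟨⟨by omega, by omega⟩, h5⟩
    · rintro ⟨_, h4⟩
      have h5 := h1.2 h4
      exact ⟨⟨by omega, by omega⟩, h5⟩
  have hev : ∀ F H : k[X], ev d c F H = ∑ l ∈ range p, X ^ l * (ev (d / p) (fun y => G y l) F H) ^ p := by
    intro F H
    have h1 : ev d c F H = ∑ y ∈ Tri (d / p), c (p * y.1, p * y.2) * F ^ (p * y.1) *
        H ^ (p * y.2) := by
      rw [ev]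
      symm
      refine Finset.sum_of_injOn (fun y : ℕ × ℕ => (p * y.1, p * y.2)) ?_ ?_ ?_ ?_
      · intro y _ y' _ h
        simp only [Prod.mk.injEq] at h
        exact Prod.ext (Nat.eq_of_mul_eq_mul_left hp h.1) (Nat.eq_of_mul_eq_mul_left hp h.2)
      · intro y hy
        exact (hTri y).1 hy
      · intro x hx hx'
        by_cases hcx : c x = 0
        · rw [hcx]; ring
        · exfalso
          obtain ⟨⟨a, ha⟩, ⟨b, hb⟩⟩ := hc x hx hcx
          apply hx'
          refine ⟨(a, b), (hTri (a, b)).2 ?_, ?_⟩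
          · rw [← ha, ← hb]; exact hx
          · simp only
            rw [← ha, ← hb]
      · intro y _
        rfl
    rw [h1]
    have h2 : ∀ l, (ev (d / p) (fun y => G y l) F H) ^ p =
        ∑ y ∈ Tri (d / p), (G y l) ^ p * F ^ (p * y.1) * H ^ (p * y.2) := by
      intro l
      rw [ev, sum_pow_char]
      refine Finset.sum_congr rfl (fun y _ => ?_)
      rw [mul_pow, mul_pow, ← pow_mul, ← pow_mul, mul_comm y.1, mul_comm y.2]
    simp only [h2, Finset.mul_sum]
    rw [Finset.sum_comm]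
    refine Finset.sum_congr rfl (fun y _ => ?_)
    rw [hG y, Finset.sum_mul, Finset.sum_mul]
    refine Finset.sum_congr rfl (fun l _ => ?_)
    ring
  have hzero : ∀ F H : k[X], ev d c F H = 0 → ∀ l < p, ev (d / p) (fun y => G y l) F H = 0 := by
    intro F H h0 l hl
    rw [hev] at h0
    ext i
    have h1 := i3_coeff p (fun l => ev (d / p) (fun y => G y l) F H) (p * i + l)
    rw [h0, coeff_zero] at h1
    have h2 : (p * i + l) % p = l := by
      rw [Nat.mul_add_mod, Nat.mod_eq_of_lt hl]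
    have h3 : (p * i + l) / p = i := by
      rw [Nat.mul_add_div hp, Nat.div_eq_of_lt hl, add_zero]
    rw [h2, h3] at h1
    rw [coeff_zero]
    exact pow_eq_zero_iff hp.ne' |>.1 h1.symm
  obtain ⟨x, hx, hcx⟩ := hne
  obtain ⟨⟨a, ha⟩, ⟨b, hb⟩⟩ := hc x hx hcx
  have hx' : x = (p * a, p * b) := Prod.ext ha hb
  have h1 : ∃ l ∈ range p, G (a, b) l ≠ 0 := by
    by_contra hcon
    push Not at hcon
    apply hcx
    rw [hx', hG (a, b)]
    refine Finset.sum_eq_zero (fun l hl => ?_)
    rw [hcon l hl, zero_pow hp.ne', mul_zero]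
  obtain ⟨l, hl, hGl⟩ := h1
  refine ⟨fun y => G y l, ⟨(a, b), ?_, hGl⟩, fun i => hzero _ _ (hv i) l (Finset.mem_range.1 hl)⟩
  rw [hTri]
  rw [hx'] at hx
  exact hx

end H315
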