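import Pool.Agent.H315R2.Sq.Defs
import Pool.Agent.H315R2.Sq.D1
import Pool.Agent.H315R2.Sq.I1

/-! # I4: transfer of vanishing -/

open Polynomial Finset
open scoped Classical Pointwise

namespace H315

variable {k : Type} [Field k]

private theorem i4_zero (P : k[X]) (N : ℕ) (Z : Finset k) (hP : P.natDegree ≤ N)
    (hZ : N < Z.card) (h : ∀ a ∈ Z, (X - C a) ∣ P) : P = 0 := by
  refine Polynomial.eq_zero_of_natDegree_lt_card_of_eval_eq_zero' P Z ?_ ?_
  · intro a ha
    have := h a ha
    rw [Polynomial.dvd_iff_isRoot] at this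
    exact this
  · omega

/-- the factorisation of a polynomial and its derivative at a root of multiplicity `m`,
nonzero in `k`. -/
private theorem i4_fac (p : ℕ) [Fact p.Prime] [CharP k p] (F : k[X]) (a : k)
    (h2 : 2 ≤ F.rootMultiplicity a) (hp : ¬ p ∣ F.rootMultiplicity a) :
    ∃ h g : k[X], F = (X - C a) ^ (F.rootMultiplicity a) * h ∧
      derivative F = (X - C a) ^ (F.rootMultiplicity a - 1) * g ∧
      ¬ (X - C a) ∣ h ∧ ¬ (X - C a) ∣ g := by
  have hF : F ≠ 0 := by
    rintro rfl
    simp at h2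
  obtain ⟨h, hh, hnd⟩ := Polynomial.exists_eq_pow_rootMultiplicity_mul_and_not_dvd F hF a
  set m := F.rootMultiplicity a with hm
  refine ⟨h, C (m : k) * h + (X - C a) * derivative h, hh, ?_, hnd, ?_⟩
  · conv_lhs => rw [hh]
    rw [derivative_mul, derivative_X_sub_C_pow]
    obtain ⟨n, hn⟩ : ∃ n, m = n + 1 := ⟨m - 1, by omega⟩
    rw [hn]
    simp only [Nat.add_sub_cancel]
    rw [pow_succ]
    simp only [map_natCast]
    ring
  · intro hd
    have hd2 : (X - C a) ∣ C (m : k) * h := by
      have := dvd_sub hd (Dvd.intro (derivative h) rfl : (X - C a) ∣ (X - C a) * derivative h)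
      simpa using this
    have hm0 : (m : k) ≠ 0 := by
      intro h0
      exact hp ((CharP.cast_eq_zero_iff k p m).1 h0)
    have hu : IsUnit (C (m : k)) := by
      rw [Polynomial.isUnit_C]
      exact isUnit_iff_ne_zero.2 hm0
    rcases (Polynomial.prime_X_sub_C a).dvd_or_dvd hd2 with h1 | h1
    · exact (Polynomial.prime_X_sub_C a).not_isUnit (isUnit_of_dvd_unit h1 hu)
    · exact hnd h1

theorem transfer (p : ℕ) [Fact p.Prime] (hp : 3 ≤ p) [CharP k p] (D d h : ℕ) (hd : 1 ≤ d)
    (f : k[X]) {ι : Type} (I : Finset ι) (u : ι → k[X]) (S : ι → Finset k)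
    (hf : f.natDegree ≤ D)
    (hS : ∀ i ∈ I, ∀ a ∈ S i,
      2 ≤ (f - u i).rootMultiplicity a ∧ ¬ p ∣ (f - u i).rootMultiplicity a)
    (hbig : d * D + h < (I.biUnion S).card)
    (c : ℕ × ℕ → k[X]) (hc : ∀ x, (c x).natDegree ≤ h)
    (hv : ∀ i ∈ I, ev d c (u i) (derivative (u i)) = 0) :
    ev d c f (derivative f) = 0 ∧ ev (d - 1) (cY c) f (derivative f) = 0 ∧
      ((∀ x ∈ Tri d, c x ≠ 0 → p ∣ x.2) → ev (d - 1) (cX c) f (derivative f) = 0) := by
  have hf' : (derivative f).natDegree ≤ D :=
    le_trans (natDegree_derivative_le f) (by omega)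
  have hlow : (d - 1) * D + h < (I.biUnion S).card := by
    have : (d - 1) * D ≤ d * D := Nat.mul_le_mul_right _ (by omega)
    omega
  have hprime : ∀ a : k, Prime (X - C a) := fun a => Polynomial.prime_X_sub_C a
  -- part (a)
  have hA : ev d c f (derivative f) = 0 := by
    refine i4_zero _ _ _ (natDegree_ev_le d D h c hc f _ hf hf') hbig ?_
    intro a ha
    obtain ⟨i, hi, hai⟩ := Finset.mem_biUnion.1 ha
    obtain ⟨h2, hpm⟩ := hS i hi a hai
    obtain ⟨w, g, hw, hg, -, -⟩ := i4_fac p (f - u i) a h2 hpm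
    set m := (f - u i).rootMultiplicity a with hm
    have key := ev_taylor (X - C a) m h2 d hd c (u i) (derivative (u i)) (f - u i)
      (derivative (f - u i)) (by rw [hw]; exact Dvd.intro _ rfl) (by rw [hg]; exact Dvd.intro _ rfl)
    rw [hv i hi, derivative_sub, add_sub_cancel, add_sub_cancel, sub_zero, ← derivative_sub] at key
    have e1 : (X - C a) ∣ (X - C a) ^ m := dvd_pow_self _ (by omega)
    have e2 : (X - C a) ∣ (X - C a) ^ (m - 1) := dvd_pow_self _ (by omega)
    have k1 := e1.trans key
    have k2 : (X - C a) ∣ ev (d - 1) (cX c) (u i) (derivative (u i)) * (f - u i) :=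
      Dvd.dvd.mul_left (by rw [hw]; exact Dvd.dvd.mul_right e1 _) _
    have k3 : (X - C a) ∣ ev (d - 1) (cY c) (u i) (derivative (u i)) * (derivative (f - u i)) :=
      Dvd.dvd.mul_left (by rw [hg]; exact Dvd.dvd.mul_right e2 _) _
    have := dvd_add (dvd_add k1 k3) k2
    simpa using this
  refine ⟨hA, ?_, ?_⟩
  · refine i4_zero _ _ _ (natDegree_ev_le (d - 1) D h (cY c) (natDegree_cY_le h c hc) f _ hf hf')
      hlow ?_
    intro a ha
    obtain ⟨i, hi, hai⟩ := Finset.mem_biUnion.1 ha
    obtain ⟨h2, hpm⟩ := hS i hi a hai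
    obtain ⟨w, g, hw, hg, hnw, hng⟩ := i4_fac p (f - u i) a h2 hpm
    set m := (f - u i).rootMultiplicity a with hm
    have key := ev_taylor (X - C a) m h2 d hd c f (derivative f) (-(f - u i))
      (-(derivative (f - u i)))
      (by rw [dvd_neg, hw]; exact Dvd.intro _ rfl) (by rw [dvd_neg, hg]; exact Dvd.intro _ rfl)
    have eu : f + -(f - u i) = u i := by ring
    have eu' : derivative f + -(derivative (f - u i)) = derivative (u i) := by
      rw [derivative_sub]; ring
    rw [eu, eu', hv i hi, hA] at key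
    have k2 : (X - C a) ^ m ∣ ev (d - 1) (cX c) f (derivative f) * (-(f - u i)) :=
      Dvd.dvd.mul_left (by rw [dvd_neg, hw]; exact Dvd.intro _ rfl) _
    have k3 := dvd_add key k2
    have k4 : (X - C a) ^ m ∣ ev (d - 1) (cY c) f (derivative f) * derivative (f - u i) := by
      refine (dvd_iff_dvd_of_dvd_sub ?_).1 k3
      rw [show 0 - 0 - ev (d - 1) (cX c) f (derivative f) * -(f - u i) -
              ev (d - 1) (cY c) f (derivative f) * -(derivative (f - u i)) +
            ev (d - 1) (cX c) f (derivative f) * -(f - u i) -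
          ev (d - 1) (cY c) f (derivative f) * derivative (f - u i) = 0 by ring]
      exact dvd_zero _
    rw [hg, show (X - C a) ^ m = (X - C a) ^ (m - 1) * (X - C a) by
      rw [← pow_succ]; congr 1; omega] at k4
    have k5 : (X - C a) ^ (m - 1) * (X - C a) ∣
        (X - C a) ^ (m - 1) * (ev (d - 1) (cY c) f (derivative f) * g) := by
      convert k4 using 1; ring
    have k6 := (mul_dvd_mul_iff_left (pow_ne_zero (m - 1) (hprime a).ne_zero)).1 k5
    rcases (hprime a).dvd_or_dvd k6 with h1 | h1
    · exact h1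
    · exact absurd h1 hng
  · intro hcp
    refine i4_zero _ _ _ (natDegree_ev_le (d - 1) D h (cX c) (natDegree_cX_le h c hc) f _ hf hf')
      hlow ?_
    intro a ha
    obtain ⟨i, hi, hai⟩ := Finset.mem_biUnion.1 ha
    obtain ⟨h2, hpm⟩ := hS i hi a hai
    obtain ⟨w, g, hw, hg, hnw, hng⟩ := i4_fac p (f - u i) a h2 hpm
    set m := (f - u i).rootMultiplicity a with hm
    have key := ev_taylor2 p hp (X - C a) m h2 d hd c hcp f (derivative f) (-(f - u i))
      (-(derivative (f - u i)))
      (by rw [dvd_neg, hw]; exact Dvd.intro _ rfl) (by rw [dvd_neg, hg]; exact Dvd.intro _ rfl)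
    have eu : f + -(f - u i) = u i := by ring
    have eu' : derivative f + -(derivative (f - u i)) = derivative (u i) := by
      rw [derivative_sub]; ring
    rw [eu, eu', hv i hi, hA] at key
    have k4 : (X - C a) ^ (m + 1) ∣ ev (d - 1) (cX c) f (derivative f) * (f - u i) := by
      convert key using 1; ring
    rw [pow_succ] at k4
    rw [hw] at k4
    have k5 : (X - C a) ^ m * (X - C a) ∣
        (X - C a) ^ m * (ev (d - 1) (cX c) f (derivative f) * w) := by
      convert k4 using 1; ring
    have k6 := (mul_dvd_mul_iff_left (pow_ne_zero m (hprime a).ne_zero)).1 k5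
    rcases (hprime a).dvd_or_dvd k6 with h1 | h1
    · exact h1
    · exact absurd h1 hnw

/-- Bonferroni inequality -/
theorem bonferroni {ι X : Type} [LinearOrder ι] (I : Finset ι) (S : ι → Finset X) :
    ∑ i ∈ I, (S i).card ≤ (I.biUnion S).card +
      ∑ x ∈ (I ×ˢ I).filter (fun x => x.1 < x.2), (S x.1 ∩ S x.2).card := by
  induction I using Finset.induction_on_max with
  | empty => simp
  | insert a s has ih =>
    have hna : a ∉ s := fun h => lt_irrefl _ (has a h)
    rw [Finset.sum_insert hna, Finset.biUnion_insert]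
    have h1 := Finset.card_union_add_card_inter (S a) (s.biUnion S)
    have h2 : (S a ∩ s.biUnion S).card ≤ ∑ i ∈ s, (S i ∩ S a).card := by
      rw [Finset.inter_biUnion]
      refine Finset.card_biUnion_le.trans (Finset.sum_le_sum fun i _ => ?_)
      rw [Finset.inter_comm]
    have h3 : ∑ x ∈ (s ×ˢ s).filter (fun x => x.1 < x.2), (S x.1 ∩ S x.2).card +
        ∑ i ∈ s, (S i ∩ S a).card ≤
        ∑ x ∈ (insert a s ×ˢ insert a s).filter (fun x => x.1 < x.2), (S x.1 ∩ S x.2).card := by
      have e : ∑ i ∈ s, (S i ∩ S a).card =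
          ∑ x ∈ s.image (fun i => (i, a)), (S x.1 ∩ S x.2).card := by
        rw [Finset.sum_image]
        intro i _ j _ hij
        simpa using hij
      rw [e, ← Finset.sum_union]
      · refine Finset.sum_le_sum_of_subset ?_
        intro x hx
        simp only [Finset.mem_union, Finset.mem_filter, Finset.mem_product, Finset.mem_image,
          Finset.mem_insert] at hx ⊢
        rcases hx with ⟨⟨hx1, hx2⟩, hx3⟩ | ⟨i, hi, rfl⟩
        · exact ⟨⟨Or.inr hx1, Or.inr hx2⟩, hx3⟩
        · exact ⟨⟨Or.inr hi, Or.inl rfl⟩, has i hi⟩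
      · rw [Finset.disjoint_left]
        intro x hx hx'
        simp only [Finset.mem_filter, Finset.mem_product, Finset.mem_image] at hx hx'
        obtain ⟨i, hi, rfl⟩ := hx'
        exact hna hx.1.2
    omega

end H315
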