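import Pool.Agent.H315R2.Sq.Defs
import Pool.Agent.H315R2.Sq.I1
import Pool.Agent.H315R2.Sq.I2
import Pool.Agent.H315R2.Sq.I3
import Pool.Agent.H315R2.Sq.I4

/-! # I5: grids with small overlaps in rows and columns -/

open Polynomial Finset
open scoped Classical Pointwise

namespace H315

variable {k : Type} [Field k]

/-- all pairs `x.1 < x.2` -/
def prs (n : ℕ) : Finset (Fin n × Fin n) := univ.filter (fun x => x.1 < x.2)

theorem i5_rm_neg (f g : k[X]) (a : k) :
    (g - f).rootMultiplicity a = (f - g).rootMultiplicity a := by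
  have h : g - f = -(f - g) := by ring
  rw [h, ← count_roots, ← count_roots, roots_neg]

theorem i5_mem_Tri (d : ℕ) (x : ℕ × ℕ) : x ∈ Tri d ↔ x.1 + x.2 ≤ d := by
  unfold Tri
  simp only [mem_filter, mem_product, mem_range]
  omega

theorem i5_card_mono {d e : ℕ} (h : d ≤ e) : (Tri d).card ≤ (Tri e).card := by
  apply Finset.card_le_card
  intro x hx
  rw [i5_mem_Tri] at *
  omega

theorem i5_not_van_zero {ι : Type} [Nonempty ι] (f : ι → k[X]) : ¬ Van 0 f := by
  rintro ⟨c, ⟨x, hx, hcx⟩, hv⟩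
  rw [i5_mem_Tri] at hx
  have hx0 : x = (0, 0) := by
    ext <;> simp <;> omega
  have hT : Tri 0 = {(0, 0)} := by
    ext y
    rw [i5_mem_Tri]
    constructor
    · intro h
      simp only [mem_singleton]
      ext <;> simp <;> omega
    · intro h
      simp only [mem_singleton] at h
      subst h
      simp
  obtain ⟨i⟩ := (inferInstance : Nonempty ι)
  have h := hv i
  unfold ev at h
  rw [hT] at h
  simp at h
  exact hcx (hx0 ▸ h)

theorem i5_core (p : ℕ) [Fact p.Prime] (hp : 3 ≤ p) [CharP k p] [IsAlgClosed k]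
    (D d : ℕ) {ι κ : Type} [Fintype ι] [Fintype κ] (t : ι → k[X]) (u : κ → k[X])
    (S : ι → κ → Finset k)
    (ht : ∀ j, (t j).natDegree ≤ D) (hu : ∀ i, (u i).natDegree ≤ D)
    (hS : ∀ j i, ∀ a ∈ S j i,
      2 ≤ (t j - u i).rootMultiplicity a ∧ ¬ p ∣ (t j - u i).rootMultiplicity a)
    (hd : 1 ≤ d) (hV : Van d u) (hmin : ∀ d' < d, ¬ Van d' t)
    (hbig : ∀ j, d * D + (Tri d).card * (d * D) < (univ.biUnion (S j)).card) : False := by
  obtain ⟨c, hne, hc, hv⟩ := van_height d D u hu hV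
  have htr := fun j => transfer p hp D d ((Tri d).card * (d * D)) hd (t j) univ u (S j) (ht j)
    (fun i _ a ha => hS j i a ha) (hbig j) c hc (fun i _ => hv i)
  have hY : ∀ x ∈ Tri d, c x ≠ 0 → p ∣ x.2 := by
    intro x hx hcx
    rcases x with ⟨a, b⟩
    rcases b with _ | b
    · exact dvd_zero p
    · by_contra hnd
      apply hmin (d - 1) (by omega)
      refine ⟨cY c, ⟨(a, b), ?_, ?_⟩, fun j => (htr j).2.1⟩
      · rw [i5_mem_Tri] at *
        simp only at *
        omega
      · unfold cY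
        simp only
        apply mul_ne_zero _ hcx
        intro h0
        exact hnd ((CharP.cast_eq_zero_iff k[X] p (b + 1)).1 h0)
  have hX : ∀ x ∈ Tri d, c x ≠ 0 → p ∣ x.1 := by
    intro x hx hcx
    rcases x with ⟨a, b⟩
    rcases a with _ | a
    · exact dvd_zero p
    · by_contra hnd
      apply hmin (d - 1) (by omega)
      refine ⟨cX c, ⟨(a, b), ?_, ?_⟩, fun j => (htr j).2.2 hY⟩
      · rw [i5_mem_Tri] at *
        simp only at *
        omega
      · unfold cX
        simp only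
        apply mul_ne_zero _ hcx
        intro h0
        exact hnd ((CharP.cast_eq_zero_iff k[X] p (a + 1)).1 h0)
  have hroot := van_root p d t c hne (fun x hx hcx => ⟨hX x hx hcx, hY x hx hcx⟩)
    (fun j => (htr j).1)
  exact hmin (d / p) (Nat.div_lt_self (by omega) (by omega)) hroot


omit [Field k] in
theorem i5_union {n : ℕ} (I : Finset (Fin n)) (S : Fin n → Finset k) (D : ℕ) (η : ℝ)
    (hS : ∀ j, η * (D : ℝ) ≤ ((S j).card : ℝ))
    (hov : 2 * ∑ x ∈ prs n, (S x.1 ∩ S x.2).card ≤ D) :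
    (I.card : ℝ) * (η * D) - (D : ℝ) / 2 ≤ ((I.biUnion S).card : ℝ) := by
  have h1 := bonferroni I S
  have h2 : ∑ x ∈ (I ×ˢ I).filter (fun x => x.1 < x.2), (S x.1 ∩ S x.2).card
      ≤ ∑ x ∈ prs n, (S x.1 ∩ S x.2).card := by
    apply Finset.sum_le_sum_of_subset
    intro x hx
    rw [mem_filter] at hx
    unfold prs
    rw [mem_filter]
    exact ⟨mem_univ _, hx.2⟩
  have h3 : 2 * ∑ j ∈ I, (S j).card ≤ 2 * (I.biUnion S).card + D := by omega
  have h4 : (2 : ℝ) * ∑ j ∈ I, ((S j).card : ℝ) ≤ 2 * ((I.biUnion S).card : ℝ) + D := by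
    exact_mod_cast h3
  have h5 : (I.card : ℝ) * (η * D) ≤ ∑ j ∈ I, ((S j).card : ℝ) := by
    rw [← nsmul_eq_mul]
    exact Finset.card_nsmul_le_sum I _ _ (fun j _ => hS j)
  linarith

theorem square_grid (p : ℕ) [Fact p.Prime] (hp : 3 ≤ p) [CharP k p] [IsAlgClosed k]
    (η : ℝ) (hη : 0 < η) : ∃ N M : ℕ, 2 ≤ N ∧ 2 ≤ M ∧
    ∀ (D : ℕ), 1 ≤ D → ∀ (t : Fin N → k[X]) (u : Fin M → k[X]) (S : Fin N → Fin M → Finset k),
    (∀ j, (t j).natDegree ≤ D) → (∀ i, (u i).natDegree ≤ D) →
    (∀ j i, η * (D : ℝ) ≤ ((S j i).card : ℝ)) →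
    (∀ j i, ∀ a ∈ S j i,
      2 ≤ (t j - u i).rootMultiplicity a ∧ ¬ p ∣ (t j - u i).rootMultiplicity a) →
    (∀ i, 2 * ∑ x ∈ prs N, (S x.1 i ∩ S x.2 i).card ≤ D) →
    (∀ j, 2 * ∑ x ∈ prs M, (S j x.1 ∩ S j x.2).card ≤ D) → False := by
  obtain ⟨L0, hL0⟩ := exists_nat_ge (5 / η)
  set L : ℕ := L0 + 1 with hLdef
  have hL1 : 1 ≤ L := by omega
  have hLη : 5 ≤ (L : ℝ) * η := by
    have : 5 / η ≤ (L : ℝ) := by
      rw [hLdef]; push_cast; linarith
    rw [div_le_iff₀ hη] at this
    exact this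
  set T : ℕ := (Tri (2 * L)).card with hTdef
  have hT2 : 2 * T = (2 * L + 1) * (2 * L + 2) := card_Tri (2 * L)
  obtain ⟨N0, hN0⟩ := exists_nat_ge ((2 * (L : ℝ) + T * (2 * L) + 2) / η)
  set N : ℕ := N0 + L ^ 2 + 2 with hNdef
  have hNη : 2 * (L : ℝ) + T * (2 * L) + 2 ≤ (N : ℝ) * η := by
    have h1 : (2 * (L : ℝ) + T * (2 * L) + 2) / η ≤ (N : ℝ) := by
      rw [hNdef]; push_cast
      nlinarith [sq_nonneg (L : ℝ)]
    rw [div_le_iff₀ hη] at h1
    exact h1
  refine ⟨N, N, by omega, by omega, ?_⟩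
  intro D hD t u S ht hu hcard hS hrow hcol
  have hDR : (1 : ℝ) ≤ (D : ℝ) := by exact_mod_cast hD
  have hLR : (1 : ℝ) ≤ (L : ℝ) := by exact_mod_cast hL1
  -- Step 1
  have hVan1 : Van (2 * L) u := by
    set I : Finset (Fin N) := univ.filter (fun j : Fin N => j.val < L ^ 2) with hI
    have hIcard : I.card = L ^ 2 := by
      rw [hI]
      have : (univ.filter (fun j : Fin N => j.val < L ^ 2)) =
          (Finset.univ : Finset (Fin (L ^ 2))).map (Fin.castLEEmb (by omega)) := by
        ext j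
        simp only [mem_filter, mem_univ, true_and, mem_map, Fin.castLEEmb_apply]
        constructor
        · intro h
          exact ⟨⟨j.val, h⟩, by ext; simp⟩
        · rintro ⟨a, rfl⟩
          simp
      rw [this, card_map, card_univ, Fintype.card_fin]
    have hsieg := siegel_ev (ι := {j // j ∈ I}) (2 * L) D (2 * L * D)
      (fun j => t j.1) (fun j => ht j.1) (by
        rw [Fintype.card_coe, hIcard]
        change L ^ 2 * (2 * L * D + 2 * L * D + 1) < T * (2 * L * D + 1)
        nlinarith [Nat.zero_le (L * D), Nat.zero_le (L ^ 2)])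
    obtain ⟨c, hne, hc, hv⟩ := hsieg
    refine ⟨c, hne, ?_⟩
    intro i
    have hb := i5_union I (fun j => S j i) D η (fun j => hcard j i) (hrow i)
    have hbig : 2 * L * D + 2 * L * D < (I.biUnion (fun j => S j i)).card := by
      have : ((2 * L * D + 2 * L * D : ℕ) : ℝ) < ((I.biUnion (fun j => S j i)).card : ℝ) := by
        rw [hIcard] at hb
        push_cast at hb ⊢
        have h1 : 5 * ((L : ℝ) * D) ≤ (L : ℝ) ^ 2 * (η * D) := by
          have : (L : ℝ) ^ 2 * (η * D) = (L * η) * (L * D) := by ring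
          rw [this]
          exact mul_le_mul_of_nonneg_right hLη (by positivity)
        nlinarith [mul_le_mul hLR hDR (by norm_num) (by linarith)]
      exact_mod_cast this
    exact (transfer p hp D (2 * L) (2 * L * D) (by omega) (u i) I t (fun j => S j i) (hu i)
      (fun j _ a ha => by
        rw [i5_rm_neg (t j) (u i) a]
        exact hS j i a ha) hbig c hc (fun j hj => hv ⟨j, hj⟩)).1
  -- Step 2
  have hex : ∃ d, Van d t ∨ Van d u := ⟨2 * L, Or.inr hVan1⟩
  set d := Nat.find hex with hd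
  have hspec := Nat.find_spec hex
  rw [← hd] at hspec
  have hdle : d ≤ 2 * L := Nat.find_min' hex (Or.inr hVan1)
  have hmin : ∀ d' < d, ¬ Van d' t ∧ ¬ Van d' u := by
    intro d' hd'
    have := Nat.find_min hex hd'
    tauto
  haveI : Nonempty (Fin N) := ⟨⟨0, by omega⟩⟩
  have hd1 : 1 ≤ d := by
    by_contra h0
    have h00 : d = 0 := by omega
    rw [h00] at hspec
    rcases hspec with h | h
    · exact i5_not_van_zero t h
    · exact i5_not_van_zero u h
  have hbound : d * D + (Tri d).card * (d * D) ≤ 2 * L * D + T * (2 * L * D) := by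
    have h1 : d * D ≤ 2 * L * D := Nat.mul_le_mul_right D hdle
    have h2 : (Tri d).card ≤ T := i5_card_mono hdle
    exact Nat.add_le_add h1 (Nat.mul_le_mul h2 h1)
  have hbigR : ∀ x : ℕ, (N : ℝ) * (η * D) - (D : ℝ) / 2 ≤ (x : ℝ) →
      d * D + (Tri d).card * (d * D) < x := by
    intro x hx
    have h3 : ((2 * L * D + T * (2 * L * D) : ℕ) : ℝ) < (x : ℝ) := by
      push_cast
      have h4 : (2 * (L : ℝ) + T * (2 * L) + 2) * D ≤ (N : ℝ) * η * D :=
        mul_le_mul_of_nonneg_right hNη (by positivity)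
      nlinarith
    have h5 : 2 * L * D + T * (2 * L * D) < x := by exact_mod_cast h3
    omega
  rcases hspec with h | h
  · -- Van d t
    refine i5_core p hp D d u t (fun i j => S j i) hu ht ?_ hd1 h (fun d' hd' => (hmin d' hd').2) ?_
    · intro i j a ha
      rw [i5_rm_neg (t j) (u i) a]
      exact hS j i a ha
    · intro i
      apply hbigR
      have := i5_union univ (fun j => S j i) D η (fun j => hcard j i) (hrow i)
      rw [card_univ, Fintype.card_fin] at this
      exact this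
  · refine i5_core p hp D d t u S ht hu hS hd1 h (fun d' hd' => (hmin d' hd').1) ?_
    intro j
    apply hbigR
    have := i5_union univ (fun i => S j i) D η (fun i => hcard j i) (hcol j)
    rw [card_univ, Fintype.card_fin] at this
    exact this

end H315
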