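import Pool.Agent.H315R2.Sq.Defs
import Pool.Agent.H315R2.Sq.D1
import Pool.Agent.H315R2.Sq.I4
import Pool.Agent.H315R2.Sq.I5

/-! # I6: the Grid Theorem -/

open Polynomial Finset
open scoped Classical Pointwise

namespace H315

variable {k : Type} [Field k]

/-- number of double roots -/
theorem i6_double (f : k[X]) (hf : f ≠ 0) (D : ℕ) (hD : f.natDegree ≤ D) (T : Finset k)
    (hT : ∀ a ∈ T, (X - C a) ^ 2 ∣ f) : 2 * T.card ≤ D := by
  have h1 : ∏ a ∈ T, (X - C a) ^ 2 ∣ f := by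
    apply Finset.prod_dvd_of_coprime
    · intro a _ b _ hab
      have : IsCoprime (X - C a) (X - C b) := by
        apply isCoprime_X_sub_C_of_isUnit_sub
        exact (sub_ne_zero.mpr hab).isUnit
      exact this.pow
    · exact hT
  have h2 := natDegree_le_of_dvd h1 hf
  have h3 : (∏ a ∈ T, (X - C a) ^ 2 : k[X]).natDegree = 2 * T.card := by
    rw [natDegree_prod_of_monic]
    · simp [natDegree_pow, mul_comm]
    · intro a _
      exact (monic_X_sub_C a).pow 2
  omega

theorem i6_rows (p : ℕ) {N : ℕ} (D : ℕ) (t : Fin N → k[X]) (u u' : k[X]) (S S' : Fin N → Finset k)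
    (hu : u.natDegree ≤ D) (hu' : u'.natDegree ≤ D) (hne : u ≠ u')
    (h : ∀ j, ∀ a ∈ S j,
      2 ≤ (t j - u).rootMultiplicity a ∧ ¬ p ∣ (t j - u).rootMultiplicity a)
    (h' : ∀ j, ∀ a ∈ S' j,
      2 ≤ (t j - u').rootMultiplicity a ∧ ¬ p ∣ (t j - u').rootMultiplicity a)
    (hr : 2 * ∑ x ∈ prs N, (S x.1 ∩ S x.2).card ≤ D) :
    ∑ j, (S j ∩ S' j).card ≤ D := by
  have h1 := bonferroni (univ : Finset (Fin N)) (fun j => S j ∩ S' j)
  have h2 : 2 * ((univ : Finset (Fin N)).biUnion (fun j => S j ∩ S' j)).card ≤ D := by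
    apply i6_double (u' - u) (sub_ne_zero.mpr hne.symm) D
    · exact (natDegree_sub_le _ _).trans (max_le hu' hu)
    · intro a ha
      simp only [mem_biUnion, mem_univ, true_and, mem_inter] at ha
      obtain ⟨j, ha1, ha2⟩ := ha
      have e1 : (X - C a) ^ 2 ∣ t j - u :=
        (pow_dvd_pow _ (h j a ha1).1).trans (pow_rootMultiplicity_dvd _ _)
      have e2 : (X - C a) ^ 2 ∣ t j - u' :=
        (pow_dvd_pow _ (h' j a ha2).1).trans (pow_rootMultiplicity_dvd _ _)
      have := dvd_sub e1 e2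
      simpa using this
  have h3 : ∑ x ∈ ((univ : Finset (Fin N)) ×ˢ univ).filter (fun x => x.1 < x.2),
      ((S x.1 ∩ S' x.1) ∩ (S x.2 ∩ S' x.2)).card ≤ ∑ x ∈ prs N, (S x.1 ∩ S x.2).card := by
    unfold prs
    rw [univ_product_univ]
    apply Finset.sum_le_sum
    intro x _
    apply Finset.card_le_card
    intro a ha
    simp only [mem_inter] at ha ⊢
    exact ⟨ha.1.1, ha.2.1⟩
  have h4 := h1.trans (Nat.add_le_add_left h3 _)
  omega

theorem i6_prs (M : ℕ) : 2 * (prs M).card ≤ M ^ 2 := by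
  have h1 : (prs M).card + (prs M).card ≤ ((univ : Finset (Fin M × Fin M))).card := by
    have h2 : ((univ : Finset (Fin M × Fin M)).filter (fun x => x.2 < x.1)).card = (prs M).card := by
      apply Finset.card_bij (fun x _ => (x.2, x.1))
      · intro x hx
        simpa [prs] using hx
      · rintro ⟨a, b⟩ _ ⟨c, d⟩ _ h
        simp only [Prod.mk.injEq] at h ⊢
        exact ⟨h.2, h.1⟩
      · rintro ⟨a, b⟩ h
        exact ⟨(b, a), by simpa [prs] using h, rfl⟩
    nth_rewrite 2 [← h2]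
    rw [← Finset.card_union_of_disjoint]
    · exact Finset.card_le_card (subset_univ _)
    · rw [Finset.disjoint_left]
      rintro ⟨a, b⟩ h3 h4
      simp only [prs, mem_filter, mem_univ, true_and] at h3 h4
      exact absurd h3 (not_lt.mpr h4.le)
  have h3 : ((univ : Finset (Fin M × Fin M))).card = M ^ 2 := by
    simp [sq]
  omega

theorem grid (p : ℕ) [Fact p.Prime] (hp : 3 ≤ p) [CharP k p] [IsAlgClosed k]
    (η : ℝ) (hη : 0 < η) : ∃ N M : ℕ, 2 ≤ N ∧ 2 ≤ M ∧
    ∀ (D : ℕ), 1 ≤ D → ∀ (t : Fin N → k[X]) (u : Fin M → k[X]) (S : Fin N → Fin M → Finset k),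
    (∀ j, (t j).natDegree ≤ D) → (∀ i, (u i).natDegree ≤ D) → Function.Injective u →
    (∀ j i, η * (D : ℝ) ≤ ((S j i).card : ℝ)) →
    (∀ j i, ∀ a ∈ S j i,
      2 ≤ (t j - u i).rootMultiplicity a ∧ ¬ p ∣ (t j - u i).rootMultiplicity a) →
    (∀ i, 2 * ∑ x ∈ prs N, (S x.1 i ∩ S x.2 i).card ≤ D) → False := by
  obtain ⟨N0, M, hN0, hM, H⟩ := square_grid (k := k) p hp η hη
  refine ⟨N0 + M ^ 2, M, by omega, hM, ?_⟩
  intro D hD t u S ht hu hinj hS hrm hrow
  -- column overlaps
  set ovc : Fin (N0 + M ^ 2) → ℕ := fun j => ∑ x ∈ prs M, (S j x.1 ∩ S j x.2).card with hovc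
  have htot : ∑ j, ovc j ≤ (prs M).card * D := by
    simp only [hovc]
    rw [Finset.sum_comm]
    rw [← smul_eq_mul]
    apply Finset.sum_le_card_nsmul
    intro x hx
    have hx' : x.1 < x.2 := by simpa [prs] using hx
    exact i6_rows p D t (u x.1) (u x.2) (fun j => S j x.1) (fun j => S j x.2) (hu _) (hu _)
      (fun h => absurd (hinj h) hx'.ne) (fun j => hrm j x.1) (fun j => hrm j x.2) (hrow x.1)
  set good : Finset (Fin (N0 + M ^ 2)) := univ.filter (fun j => 2 * ovc j ≤ D) with hgood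
  have hbad : (univ.filter (fun j => ¬ 2 * ovc j ≤ D)).card ≤ M ^ 2 := by
    have h1 : (univ.filter (fun j => ¬ 2 * ovc j ≤ D)).card * D ≤ 2 * ∑ j, ovc j := by
      calc (univ.filter (fun j => ¬ 2 * ovc j ≤ D)).card * D
          = ∑ j ∈ univ.filter (fun j => ¬ 2 * ovc j ≤ D), D := by simp
        _ ≤ ∑ j ∈ univ.filter (fun j => ¬ 2 * ovc j ≤ D), 2 * ovc j := by
            apply Finset.sum_le_sum
            intro j hj
            simp only [mem_filter, mem_univ, true_and, not_le] at hj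
            exact hj.le
        _ ≤ ∑ j, 2 * ovc j := Finset.sum_le_sum_of_subset (filter_subset _ _)
        _ = 2 * ∑ j, ovc j := by rw [Finset.mul_sum]
    have h2 : (univ.filter (fun j => ¬ 2 * ovc j ≤ D)).card * D ≤ M ^ 2 * D := by
      calc _ ≤ 2 * ∑ j, ovc j := h1
        _ ≤ 2 * ((prs M).card * D) := by omega
        _ = (2 * (prs M).card) * D := by ring
        _ ≤ M ^ 2 * D := Nat.mul_le_mul_right _ (i6_prs M)
    exact Nat.le_of_mul_le_mul_right h2 (by omega)
  have hgc : N0 ≤ good.card := by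
    have h1 := Finset.card_filter_add_card_filter_not (s := (univ : Finset (Fin (N0 + M ^ 2))))
      (fun j => 2 * ovc j ≤ D)
    have h2 : (univ : Finset (Fin (N0 + M ^ 2))).card = N0 + M ^ 2 := by simp
    rw [h2] at h1
    have h3 : good.card = ((univ : Finset (Fin (N0 + M ^ 2))).filter (fun j => 2 * ovc j ≤ D)).card := rfl
    omega
  obtain ⟨e, he⟩ : ∃ e : Fin N0 ↪o Fin (N0 + M ^ 2), ∀ j, e j ∈ good :=
    ⟨Finset.orderEmbOfCardLe good hgc, fun j => Finset.orderEmbOfCardLe_mem good hgc j⟩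
  refine H D hD (fun j => t (e j)) u (fun j i => S (e j) i) (fun j => ht _) hu
    (fun j i => hS _ _) (fun j i => hrm _ _) ?_ ?_
  · intro i
    refine le_trans ?_ (hrow i)
    apply Nat.mul_le_mul_left
    have hinj2 : Function.Injective (fun x : Fin N0 × Fin N0 => (e x.1, e x.2)) := by
      rintro ⟨a, b⟩ ⟨c, d⟩ h
      simp only [Prod.mk.injEq, EmbeddingLike.apply_eq_iff_eq] at h ⊢
      exact h
    calc ∑ x ∈ prs N0, (S (e x.1) i ∩ S (e x.2) i).card
        = ∑ y ∈ (prs N0).image (fun x : Fin N0 × Fin N0 => (e x.1, e x.2)),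
            (S y.1 i ∩ S y.2 i).card := by
          rw [Finset.sum_image (fun a _ b _ h => hinj2 h)]
      _ ≤ ∑ y ∈ prs (N0 + M ^ 2), (S y.1 i ∩ S y.2 i).card := by
          apply Finset.sum_le_sum_of_subset
          intro y hy
          simp only [mem_image, prs, mem_filter, mem_univ, true_and] at hy ⊢
          obtain ⟨x, hx, rfl⟩ := hy
          exact e.lt_iff_lt.mpr hx
  · intro j
    have := he j
    simp only [hgood, mem_filter, mem_univ, true_and] at this
    exact this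

end H315
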