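import Pool.Agent.H315R2.Sq.Defs
import Pool.Agent.H315R2.Sq.A3
import Pool.Agent.H315R2.Sq.F

/-! # X: few pairs with vanishing Wronskian -/

open Polynomial Finset
open scoped Classical Pointwise

namespace H315

variable {k : Type} [Field k]

theorem x_ratio_sub {G : Type} [AddCommGroup G] (α δ : ℝ) (hα : 0 < α) (hα' : α ≤ 1)
    (hδ : 0 < δ) (A A' B : Finset G) (hA' : A' ⊆ A) (hB : B.Nonempty)
    (h : δ * (A.card : ℝ) ≤ (A'.card : ℝ)) (hne : A.Nonempty) :
    ratio α A' B ≤ ratio α A B / δ := by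
  have ha : (0 : ℝ) < A.card := by exact_mod_cast hne.card_pos
  have ha' : (0 : ℝ) < A'.card := lt_of_lt_of_le (by positivity) h
  have hb : (0 : ℝ) < B.card := by exact_mod_cast hB.card_pos
  have hle : ((A' + B).card : ℝ) ≤ ((A + B).card : ℝ) := by
    exact_mod_cast Finset.card_le_card (Finset.add_subset_add_right hA')
  have hcc : (A'.card : ℝ) ≤ A.card := by exact_mod_cast Finset.card_le_card hA'
  have hδ1 : δ ≤ 1 := by
    by_contra hcon
    push Not at hcon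
    nlinarith
  have hpow : δ * ((A.card : ℝ) * B.card) ^ α ≤ ((A'.card : ℝ) * B.card) ^ α := by
    calc δ * ((A.card : ℝ) * B.card) ^ α ≤ δ ^ α * ((A.card : ℝ) * B.card) ^ α := by
          apply mul_le_mul_of_nonneg_right _ (by positivity)
          calc δ = δ ^ (1 : ℝ) := (Real.rpow_one δ).symm
            _ ≤ δ ^ α := Real.rpow_le_rpow_of_exponent_ge hδ hδ1 hα'
      _ = (δ * ((A.card : ℝ) * B.card)) ^ α := by
          rw [Real.mul_rpow hδ.le (by positivity)]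
      _ ≤ ((A'.card : ℝ) * B.card) ^ α := by
          apply Real.rpow_le_rpow (by positivity) _ hα.le
          rw [← mul_assoc]
          exact mul_le_mul_of_nonneg_right h hb.le
  unfold ratio
  have h1 : (0 : ℝ) < ((A.card : ℝ) * B.card) ^ α := by positivity
  have h2 : (0 : ℝ) < ((A'.card : ℝ) * B.card) ^ α := by positivity
  rw [div_div, div_le_div_iff₀ h2 (by positivity)]
  calc ((A' + B).card : ℝ) * (((A.card : ℝ) * B.card) ^ α * δ)
      ≤ ((A + B).card : ℝ) * (((A.card : ℝ) * B.card) ^ α * δ) :=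
        mul_le_mul_of_nonneg_right hle (by positivity)
    _ ≤ ((A + B).card : ℝ) * (((A'.card : ℝ) * B.card) ^ α) := by
        apply mul_le_mul_of_nonneg_left _ (by positivity)
        linarith [hpow]

theorem x_smul_zero (p : ℕ) [CharP k p] (q : k[X]) : p • q = 0 := by
  rw [nsmul_eq_mul]
  have : ((p : ℕ) : k[X]) = 0 := by
    have h : ((p : ℕ) : k) = 0 := CharP.cast_eq_zero k p
    calc ((p : ℕ) : k[X]) = C ((p : ℕ) : k) := by simp
      _ = 0 := by rw [h, map_zero]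
  rw [this, zero_mul]

/-- the homomorphism `f ↦ W(f,u)`. -/
noncomputable def x_hom (u : k[X]) : k[X] →+ k[X] where
  toFun f := wronskian f u
  map_zero' := wronskian_zero_left u
  map_add' a b := wronskian_add_left a b u

theorem x_hom_apply (u f : k[X]) : x_hom u f = wronskian f u := rfl

theorem x_card_filter {α : Type} (A : Finset α) (p q : α → Prop) (ip : DecidablePred p)
    (iq : DecidablePred q) (h : ∀ a, p a ↔ q a) :
    (@Finset.filter α p ip A).card = (@Finset.filter α q iq A).card := by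
  have e : p = q := funext fun a => propext (h a)
  subst e
  have e' : ip = iq := Subsingleton.elim _ _
  rw [e']

theorem x_frac (u κ : k[X]) (A : Finset k[X]) :
    frac (x_hom u) A κ = ((A.filter (fun g => wronskian g u = κ)).card : ℝ) / (A.card : ℝ) := by
  unfold frac
  congr 2
  exact x_card_filter _ _ _ _ _ (fun _ => Iff.rfl)

/-- alternative 1 is impossible. -/
theorem x_alt1 (p : ℕ) [Fact p.Prime] [CharP k p] [IsAlgClosed k] (α : ℝ)
    (D : ℕ) (A B : Finset k[X]) (h : NF p α D A B) (s₁ : k[X]) (hs₁ : s₁ ∈ A)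
    (hall : ∀ s ∈ A, wronskian s s₁ = 0) : False := by
  have hs10 : s₁ ≠ 0 := (h.sq.1 s₁ hs₁).1
  have hdvd : ∀ a, p ∣ s₁.rootMultiplicity a := by
    intro a
    by_contra hnd
    obtain ⟨s, hs, hse⟩ := h.n1 a
    have hs0 : s ≠ 0 := (h.sq.1 s hs).1
    have e := rootMultiplicity_eq_of_wronskian s s₁ hs0 hs10 (hall s hs) a
    have hne : ((s₁.rootMultiplicity a : ℕ) : k) ≠ 0 := by
      intro h0
      exact hnd ((CharP.cast_eq_zero_iff k p _).1 h0)
    have hne' : s.rootMultiplicity a ≠ 0 := by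
      intro h0
      rw [h0] at e
      exact hne (by rw [← e]; simp)
    have hroot : s.IsRoot a := (rootMultiplicity_pos hs0).1 (Nat.pos_of_ne_zero hne')
    exact hse hroot
  have hd : derivative s₁ = 0 := derivative_eq_zero_of_dvd p s₁ hdvd
  obtain ⟨s, hs, hsd⟩ := h.n2
  have := hall s hs
  unfold wronskian at this
  rw [hd, mul_zero, zero_sub, neg_eq_zero] at this
  rcases mul_eq_zero.1 this with h1 | h1
  · exact hsd h1
  · exact hs10 h1

theorem x_few (p : ℕ) [Fact p.Prime] (hp : 5 ≤ p) [CharP k p] [IsAlgClosed k]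
    (c : ℝ) (hc : 0 < c) :
    ∃ ε₀ r₀ : ℝ, 0 < ε₀ ∧ ε₀ ≤ 1 / 10 ∧ 0 < r₀ ∧ r₀ ≤ 1 ∧ ∀ α : ℝ, 1 / 2 < α → α ≤ 1 / 2 + ε₀ →
    ∀ (D : ℕ) (A B : Finset k[X]), NF p α D A B → ratio α A B ≤ r₀ →
    ∀ s₁ ∈ A, ((A.filter (fun s => wronskian s s₁ = 0)).card : ℝ) < c * (A.card : ℝ) := by
  obtain ⟨ε₁, hε₁, hε₁', H1⟩ := local_p c hc
  obtain ⟨ε₂, r₂, hε₂, hr₂, H2⟩ := pencil_lemma' (k := k) p hp
  refine ⟨min ε₁ ε₂, min 1 (98 / 100 * c * r₂), lt_min hε₁ hε₂,
    (min_le_left _ _).trans hε₁', lt_min one_pos (by positivity), min_le_left _ _, ?_⟩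
  intro α hα hα' D A B hNF hr s₁ hs₁
  by_contra hcon
  push Not at hcon
  have hAne : A.Nonempty := ⟨s₁, hs₁⟩
  have ha : (0 : ℝ) < A.card := by exact_mod_cast hAne.card_pos
  have hfr : c ≤ frac (x_hom s₁) A 0 := by
    rw [x_frac, le_div_iff₀ ha]
    exact hcon
  rcases H1 α hα (hα'.trans (by gcongr; exact min_le_left _ _)) p hp k[X] k[X]
    (x_smul_zero p) (x_hom s₁) A B hNF.red 0 hfr with h | ⟨H, hfin, hcard, hlow, hupp⟩
  · exact x_alt1 p α D A B hNF s₁ hs₁ (fun s hs => h s hs)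
  · -- second alternative
    have hn : (0 : ℝ) < (Nat.card H : ℝ) := by
      have : 0 < Nat.card H := by omega
      exact_mod_cast this
    have hne : ∃ h ∈ H, h ≠ 0 := by
      by_contra hcon2
      push Not at hcon2
      have hbot : H = ⊥ := by
        rw [eq_bot_iff]
        intro x hx
        exact (AddSubgroup.mem_bot).2 (hcon2 x hx)
      rw [hbot] at hcard
      simp at hcard
    obtain ⟨h, hh, hh0⟩ := hne
    have h1 := hlow h hh
    have h2 := hupp 0
    rw [zero_add] at h1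
    have h3 : c * (Nat.card H : ℝ) ≤ 101 / 100 := by
      have := hfr.trans h2
      rwa [le_div_iff₀ hn] at this
    have h4 : 98 / 100 * c ≤ frac (x_hom s₁) A h := by
      refine le_trans ?_ h1
      rw [le_div_iff₀ hn]
      nlinarith
    set A' := A.filter (fun g => wronskian g s₁ = h) with hA'
    have h5 : 98 / 100 * c * (A.card : ℝ) ≤ (A'.card : ℝ) := by
      rw [x_frac, le_div_iff₀ ha] at h4
      exact h4
    have hA'ne : A'.Nonempty := by
      rw [← Finset.card_pos]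
      have : (0 : ℝ) < (A'.card : ℝ) := lt_of_lt_of_le (by positivity) h5
      exact_mod_cast this
    have hε : min ε₁ ε₂ ≤ 1 / 10 := (min_le_left _ _).trans hε₁'
    have h6 := x_ratio_sub α (98 / 100 * c) (by linarith) (by linarith) (by positivity) A A' B
      (Finset.filter_subset _ _) hNF.red.2.1 h5 hAne
    have h7 : ratio α A' B ≤ r₂ := by
      refine h6.trans ?_
      rw [div_le_iff₀ (by positivity)]
      calc ratio α A B ≤ _ := hr
        _ ≤ 98 / 100 * c * r₂ := min_le_right _ _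
        _ = r₂ * (98 / 100 * c) := by ring
    have hsq : SqSet p A' := by
      refine ⟨fun s hs => hNF.sq.1 s (Finset.filter_subset _ _ hs), ?_⟩
      intro s hs
      refine (Finset.card_le_card ?_).trans (hNF.sq.2 s (Finset.filter_subset _ _ hs))
      exact Finset.filter_subset_filter _ (Finset.filter_subset _ _)
    exact H2 α hα (hα'.trans (by gcongr; exact min_le_right _ _)) A' B hA'ne hNF.red.2.1 hsq s₁ h
      hh0 (fun s hs => (Finset.mem_filter.1 hs).2) h7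

theorem few_parallel (p : ℕ) [Fact p.Prime] (hp : 5 ≤ p) [CharP k p] [IsAlgClosed k]
    (c : ℝ) (hc : 0 < c) :
    ∃ ε₀ r₀ : ℝ, 0 < ε₀ ∧ ε₀ ≤ 1 / 10 ∧ 0 < r₀ ∧ r₀ ≤ 1 ∧ ∀ α : ℝ, 1 / 2 < α → α ≤ 1 / 2 + ε₀ →
    ∀ (D : ℕ) (A B : Finset k[X]), NF p α D A B → ratio α A B ≤ r₀ →
    ∀ s₁ ∈ A, ((A.filter (fun s => wronskian s s₁ = 0)).card : ℝ) < c * (A.card : ℝ) :=
  x_few p hp c hc

theorem few_W0 (p : ℕ) [Fact p.Prime] (hp : 5 ≤ p) [CharP k p] [IsAlgClosed k]
    (c : ℝ) (hc : 0 < c) :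
    ∃ ε₀ r₀ : ℝ, 0 < ε₀ ∧ ε₀ ≤ 1 / 10 ∧ 0 < r₀ ∧ r₀ ≤ 1 ∧ ∀ α : ℝ, 1 / 2 < α → α ≤ 1 / 2 + ε₀ →
    ∀ (D : ℕ) (A B : Finset k[X]), NF p α D A B → ratio α A B ≤ r₀ →
    (nW0 A : ℝ) < c * (A.card : ℝ) ^ 2 := by
  obtain ⟨ε₀, r₀, h1, h2, h3, h4, H⟩ := few_parallel (k := k) p hp c hc
  refine ⟨ε₀, r₀, h1, h2, h3, h4, ?_⟩
  intro α hα hα' D A B hNF hr
  have hAne : A.Nonempty := hNF.red.1
  have key : (nW0 A : ℝ) = ∑ s₁ ∈ A, ((A.filter (fun s => wronskian s s₁ = 0)).card : ℝ) := by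
    unfold nW0
    rw [Finset.card_filter, Finset.sum_product_right]
    push_cast
    apply Finset.sum_congr rfl
    intro s₁ _
    rw [Finset.card_filter]
    push_cast
    rfl
  rw [key]
  calc ∑ s₁ ∈ A, ((A.filter (fun s => wronskian s s₁ = 0)).card : ℝ)
      < ∑ s₁ ∈ A, c * (A.card : ℝ) :=
        Finset.sum_lt_sum_of_nonempty hAne (fun s₁ hs₁ => H α hα hα' D A B hNF hr s₁ hs₁)
    _ = c * (A.card : ℝ) ^ 2 := by
        rw [Finset.sum_const, nsmul_eq_mul]; ring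

/-- a large part of `A` on an affine `K^p`-line is impossible -/
theorem no_line (p : ℕ) [Fact p.Prime] (hp : 5 ≤ p) [CharP k p] [IsAlgClosed k] :
    ∃ ε₀ r₀ : ℝ, 0 < ε₀ ∧ ε₀ ≤ 1 / 10 ∧ 0 < r₀ ∧ r₀ ≤ 1 ∧ ∀ α : ℝ, 1 / 2 < α → α ≤ 1 / 2 + ε₀ →
    ∀ (D : ℕ) (A B : Finset k[X]), NF p α D A B → ratio α A B ≤ r₀ →
    ∀ Y ⊆ A, (A.card : ℝ) / 4 ≤ (Y.card : ℝ) →
    (∀ s₁ ∈ Y, ∀ s₂ ∈ Y, ∀ s₃ ∈ Y, wronskian (s₁ - s₂) (s₁ - s₃) = 0) → False := by
  obtain ⟨ε₁, r₁, hε₁, hε₁', hr₁, hr₁', H1⟩ := few_parallel (k := k) p hp 1 one_pos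
  obtain ⟨ε₂, hε₂, hε₂', H2⟩ := local_p (1 / 4) (by norm_num)
  obtain ⟨ε₃, r₃, hε₃, hr₃, H3⟩ := pencil_lemma' (k := k) p hp
  refine ⟨min ε₁ (min ε₂ ε₃), min r₁ (min r₃ (1 / 8)), by positivity,
    (min_le_left _ _).trans hε₁', by positivity, (min_le_left _ _).trans hr₁', ?_⟩
  intro α hα hα' D A B hNF hr Y hY hYc hW
  have e1 : min ε₁ (min ε₂ ε₃) ≤ ε₁ := min_le_left _ _
  have e2 : min ε₁ (min ε₂ ε₃) ≤ ε₂ := (min_le_right _ _).trans (min_le_left _ _)
  have e3 : min ε₁ (min ε₂ ε₃) ≤ ε₃ := (min_le_right _ _).trans (min_le_right _ _)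
  have f1 : min r₁ (min r₃ (1 / 8)) ≤ r₁ := min_le_left _ _
  have f2 : min r₁ (min r₃ (1 / 8)) ≤ r₃ := (min_le_right _ _).trans (min_le_left _ _)
  have f3 : min r₁ (min r₃ (1 / 8)) ≤ 1 / 8 := (min_le_right _ _).trans (min_le_right _ _)
  have hAne : A.Nonempty := hNF.red.1
  have ha : (0 : ℝ) < A.card := by exact_mod_cast hAne.card_pos
  have ha1 : (1 : ℝ) ≤ A.card := by exact_mod_cast hAne.card_pos
  -- `|A| ≥ 8`
  have hbig : (8 : ℝ) ≤ A.card := by
    have h := card_rpow_neg_le_ratio α (by linarith) (by linarith) A B hNF.red.1 hNF.red.2.1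
    have h' : (A.card : ℝ) ^ (-(1 : ℝ)) ≤ (A.card : ℝ) ^ (-α) :=
      Real.rpow_le_rpow_of_exponent_le ha1 (by linarith)
    rw [Real.rpow_neg_one] at h'
    have h'' : ((A.card : ℝ))⁻¹ ≤ 1 / 8 := h'.trans (h.trans (hr.trans f3))
    rw [inv_le_comm₀ ha (by norm_num)] at h''
    have e : ((1 : ℝ) / 8)⁻¹ = 8 := by norm_num
    rw [e] at h''
    exact h''
  have hY2 : 1 < Y.card := by
    have : (2 : ℝ) ≤ (Y.card : ℝ) := by linarith
    exact_mod_cast this
  obtain ⟨s₁, hs₁, s₂, hs₂, hne⟩ := Finset.one_lt_card.1 hY2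
  set u := s₁ - s₂ with hu
  have hu0 : u ≠ 0 := sub_ne_zero.2 hne
  have hWu : ∀ s ∈ Y, wronskian s u = wronskian s₁ u := by
    intro s hs
    have := hW s₁ hs₁ s₂ hs₂ s hs
    rw [← hu] at this
    unfold wronskian at this ⊢
    rw [derivative_sub] at this
    linear_combination this
  have hfr : 1 / 4 ≤ frac (x_hom u) A (wronskian s₁ u) := by
    rw [x_frac, le_div_iff₀ ha]
    have : (Y.card : ℝ) ≤ ((A.filter (fun g => wronskian g u = wronskian s₁ u)).card : ℝ) := by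
      have : Y ⊆ A.filter (fun g => wronskian g u = wronskian s₁ u) := by
        intro s hs
        exact Finset.mem_filter.2 ⟨hY hs, hWu s hs⟩
      exact_mod_cast Finset.card_le_card this
    linarith
  rcases H2 α hα (by linarith) p hp k[X] k[X]
    (x_smul_zero p) (x_hom u) A B hNF.red _ hfr with h | ⟨H, hfin, hcard, hlow, hupp⟩
  · by_cases hκ : wronskian s₁ u = 0
    · have hall : ∀ s ∈ A, wronskian s s₁ = 0 := by
        intro s hs
        have hs1 : wronskian s u = 0 := by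
          have := h s hs
          rw [x_hom_apply] at this
          rw [this, hκ]
        have hj := wronskian_jacobi s s₁ u
        have hus : wronskian u s = 0 := by rw [← wronskian_neg_eq, hs1, neg_zero]
        rw [hκ, hus, zero_mul, zero_mul, add_zero, add_zero] at hj
        rcases mul_eq_zero.1 hj with h1 | h1
        · exact h1
        · exact absurd h1 hu0
      have := H1 α hα (by linarith) D A B hNF (hr.trans f1) s₁ (hY hs₁)
      rw [Finset.filter_true_of_mem hall] at this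
      linarith
    · exact H3 α hα (by linarith) A B hNF.red.1 hNF.red.2.1 hNF.sq u _ hκ
        (fun s hs => h s hs) (hr.trans f2)
  · have h2 := hupp (wronskian s₁ u)
    have h3 : (1 : ℝ) / 4 ≤ (101 / 100) / (Nat.card H : ℝ) := hfr.trans h2
    have h4 : (5 : ℝ) ≤ (Nat.card H : ℝ) := by exact_mod_cast hcard
    rw [le_div_iff₀ (by linarith)] at h3
    linarith

end H315
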