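import Pool.Agent.H315R2.Sq.Defs
import Pool.Agent.H315R2.Sq.E2
import Pool.Agent.H315R2.Sq.X

/-! # J1: the non-tiny case (helper128) -/

open Polynomial Finset
open scoped Classical Pointwise

namespace H315

variable {k : Type} [Field k]

theorem j1_sq_dvd {s : k[X]} (hs : IsSquare s) {a : k} (h : s.eval a = 0) :
    (X - C a) ^ (2 * 1) ∣ s := by
  obtain ⟨t, rfl⟩ := hs
  rw [eval_mul, mul_self_eq_zero] at h
  have : (X - C a) ∣ t := dvd_iff_isRoot.2 h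
  calc (X - C a) ^ (2 * 1) = (X - C a) * (X - C a) := by ring
    _ ∣ t * t := mul_dvd_mul this this

theorem j1_sum_rho (A : Finset k[X]) (Z : Finset k) :
    ∑ l ∈ Z.image (fun a => (a, 1)), rho A l
      = (∑ s ∈ A, ((Z.filter (fun a => (X - C a) ^ (2 * 1) ∣ s)).card : ℝ)) / (A.card : ℝ) := by
  rw [sum_image (fun a _ b _ h => (Prod.mk.inj h).1)]
  simp only [rho]
  rw [← sum_div]
  congr 1
  have h1 : ∀ a ∈ Z, (((A.filter (fun s => (X - C a) ^ (2 * 1) ∣ s)).card : ℕ) : ℝ)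
      = ∑ s ∈ A, if (X - C a) ^ (2 * 1) ∣ s then (1 : ℝ) else 0 := by
    intro a _
    rw [card_filter]; push_cast; rfl
  have h2 : ∀ s ∈ A, (((Z.filter (fun a => (X - C a) ^ (2 * 1) ∣ s)).card : ℕ) : ℝ)
      = ∑ a ∈ Z, if (X - C a) ^ (2 * 1) ∣ s then (1 : ℝ) else 0 := by
    intro s _
    rw [card_filter]; push_cast; rfl
  rw [sum_congr rfl h1, sum_congr rfl h2, sum_comm]

theorem caseN (p : ℕ) [Fact p.Prime] (hp : 5 ≤ p) [CharP k p] [IsAlgClosed k]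
    (η₃ η₁ : ℝ) (h3 : 0 < η₃) (h1 : 0 < η₁) :
    ∃ ε₀ r₀ : ℝ, 0 < ε₀ ∧ ε₀ ≤ 1 / 10 ∧ 0 < r₀ ∧ r₀ ≤ 1 ∧ ∀ α : ℝ, 1 / 2 < α → α ≤ 1 / 2 + ε₀ →
    ∀ (D : ℕ) (A B : Finset k[X]), NF p α D A B → ratio α A B ≤ r₀ →
    η₃ * (D : ℝ) < Rbar p A → 3 / 10 * Rbar p A < RbarT p A η₁ := by
  obtain ⟨ε1, hε1, hε1', H1⟩ := cross_sum (k := k) p hp η₁ h1
  obtain ⟨ε2, r2, hε2, hε2', hr2, hr2', H2⟩ := few_W0 (k := k) p hp (3/10*η₁*η₃) (by positivity)
  refine ⟨min ε1 ε2, r2, lt_min hε1 hε2, (min_le_left _ _).trans hε1', hr2, hr2', ?_⟩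
  intro α hα hα' D A B hNF hr hRbar
  by_contra hcon
  push Not at hcon
  have hAne := hNF.red.1
  have hA0 : (0 : ℝ) < A.card := by exact_mod_cast hAne.card_pos
  have hD0 : (0 : ℝ) < D := by exact_mod_cast hNF.Dpos
  -- the set of roots
  set Z : Finset k := (A.biUnion fun s => s.roots.toFinset).filter
    (fun a => η₁ ≤ rho A (a, 1)) with hZ
  set Λ : Finset (k × ℕ) := Z.image (fun a => (a, 1)) with hΛ
  have hkey : Rbar p A - RbarT p A η₁ ≤ ∑ l ∈ Λ, rho A l := by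
    rw [hΛ, j1_sum_rho, Rbar, RbarT, ← sub_div, ← sum_sub_distrib]
    apply div_le_div_of_nonneg_right _ hA0.le
    apply sum_le_sum
    intro s hs
    have hcard : ((Rt p s).filter (fun a => ¬ rho A (a, 1) < η₁)).card + (RtT p A η₁ s).card
        = (Rt p s).card := by
      rw [RtT, add_comm]; exact card_filter_add_card_filter_not _
    have hsub : (Rt p s).filter (fun a => ¬ rho A (a, 1) < η₁)
        ⊆ Z.filter (fun a => (X - C a) ^ (2 * 1) ∣ s) := by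
      intro a ha
      rw [mem_filter, Rt, mem_filter] at ha
      obtain ⟨⟨ha1, _⟩, ha2⟩ := ha
      rw [mem_filter, hZ, mem_filter, mem_biUnion]
      refine ⟨⟨⟨s, hs, ha1⟩, not_lt.1 ha2⟩, ?_⟩
      have hroot : s.eval a = 0 := by
        rw [Multiset.mem_toFinset, mem_roots'] at ha1
        exact ha1.2
      exact j1_sq_dvd (hNF.sq.1 s hs).2 hroot
    have h5 := card_le_card hsub
    have h6 : (((Rt p s).card : ℕ) : ℝ) = ((Rt p s).filter (fun a => ¬ rho A (a, 1) < η₁)).card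
        + (RtT p A η₁ s).card := by exact_mod_cast hcard.symm
    rw [h6]
    have h7 : ((((Rt p s).filter (fun a => ¬ rho A (a, 1) < η₁)).card : ℕ) : ℝ)
        ≤ (Z.filter (fun a => (X - C a) ^ (2 * 1) ∣ s)).card := by exact_mod_cast h5
    linarith
  have hcs := H1 α hα (hα'.trans (by linarith [min_le_left ε1 ε2])) D A B hNF Λ (by
    intro l hl
    rw [hΛ, mem_image] at hl
    obtain ⟨a, ha, rfl⟩ := hl
    exact ⟨le_rfl, (mem_filter.1 ha).2⟩)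
  have hw := H2 α hα (hα'.trans (by linarith [min_le_right ε1 ε2])) D A B hNF hr
  have hw2 : (nW0 A : ℝ) / (A.card : ℝ) ^ 2 ≤ 3 / 10 * η₁ * η₃ := by
    rw [div_le_iff₀ (by positivity)]
    exact hw.le
  have hw3 : (nW0 A : ℝ) / (A.card : ℝ) ^ 2 * ((D : ℝ) / (2 * η₁)) ≤ 3 / 20 * (η₃ * D) := by
    calc (nW0 A : ℝ) / (A.card : ℝ) ^ 2 * ((D : ℝ) / (2 * η₁))
        ≤ (3 / 10 * η₁ * η₃) * ((D : ℝ) / (2 * η₁)) :=
          mul_le_mul_of_nonneg_right hw2 (by positivity)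
      _ = 3 / 20 * (η₃ * D) := by field_simp; ring
  have hpos : 0 < η₃ * (D : ℝ) := by positivity
  nlinarith [hkey, hcs, hw3, hRbar, hcon]

end H315
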