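import Pool.Agent.H315R2.Sq.Defs
import Pool.Agent.H315R2.Sq.B
import Pool.Agent.H315R2.Sq.E1
import Pool.Agent.H315R2.Sq.I6

/-! # J2: the tiny case -/

open Polynomial Finset
open scoped Classical Pointwise

namespace H315

variable {k : Type} [Field k]

theorem j2_mult (p : ℕ) {s : k[X]} (hs : s ≠ 0) (hsq : IsSquare s) {a : k} (ha : a ∈ Rt p s) :
    2 ≤ s.rootMultiplicity a ∧ ¬ p ∣ s.rootMultiplicity a := by
  unfold Rt at ha
  rw [mem_filter, Multiset.mem_toFinset, mem_roots hs] at ha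
  refine ⟨?_, ha.2⟩
  have h1 : 0 < s.rootMultiplicity a := (rootMultiplicity_pos hs).2 ha.1
  obtain ⟨r, hr⟩ := hsq
  have h2 : s.rootMultiplicity a = r.rootMultiplicity a + r.rootMultiplicity a := by
    have h3 : r * r ≠ 0 := by rw [← hr]; exact hs
    rw [hr]
    exact rootMultiplicity_mul h3
  omega

theorem j2_two_card_Rt (p : ℕ) {s : k[X]} (hs : s ≠ 0) (hsq : IsSquare s) :
    2 * (Rt p s).card ≤ s.natDegree := by
  have h1 : ∑ a ∈ Rt p s, 2 ≤ ∑ a ∈ Rt p s, s.roots.count a := by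
    apply sum_le_sum
    intro a ha
    rw [count_roots]
    exact (j2_mult p hs hsq ha).1
  have h2 : ∑ a ∈ Rt p s, s.roots.count a ≤ ∑ a ∈ s.roots.toFinset, s.roots.count a :=
    sum_le_sum_of_subset (filter_subset _ _)
  rw [Multiset.toFinset_sum_count_eq] at h2
  have h3 := s.card_roots'
  rw [sum_const, smul_eq_mul] at h1
  omega

theorem j2_RtT_card (p : ℕ) (A : Finset k[X]) (η : ℝ) {s : k[X]} (hs : s ≠ 0) (hsq : IsSquare s)
    {D : ℕ} (hD : s.natDegree ≤ D) : ((RtT p A η s).card : ℝ) ≤ (D : ℝ) / 2 := by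
  have h1 : (RtT p A η s).card ≤ (Rt p s).card := card_le_card (filter_subset _ _)
  have h2 := j2_two_card_Rt p hs hsq
  have h3 : 2 * (RtT p A η s).card ≤ D := by omega
  have h4 : (2 : ℝ) * ((RtT p A η s).card : ℝ) ≤ D := by exact_mod_cast h3
  linarith

theorem j2_deg (p : ℕ) (A : Finset k[X]) (hA : ∀ s ∈ A, s ≠ 0 ∧ IsSquare s) (η : ℝ)
    {s : k[X]} {a : k} (ha : a ∈ RtT p A η s) :
    ((A.filter (fun t => a ∈ RtT p A η t)).card : ℝ) ≤ η * A.card := by
  have h1 : rho A (a, 1) < η := (mem_filter.1 ha).2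
  rcases Nat.eq_zero_or_pos A.card with h0 | h0
  · rw [card_eq_zero] at h0
    subst h0
    simp
  have h0' : (0 : ℝ) < A.card := by exact_mod_cast h0
  unfold rho at h1
  rw [div_lt_iff₀ h0'] at h1
  refine le_trans ?_ h1.le
  have h2 : (A.filter (fun t => a ∈ RtT p A η t)).card ≤
      (A.filter (fun s => (X - C a) ^ (2 * 1) ∣ s)).card := by
    apply card_le_card
    intro t ht
    rw [mem_filter] at ht ⊢
    refine ⟨ht.1, ?_⟩
    have h3 : a ∈ Rt p t := (mem_filter.1 ht.2).1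
    have h4 := (j2_mult p (hA t ht.1).1 (hA t ht.1).2 h3).1
    exact (le_rootMultiplicity_iff (hA t ht.1).1).1 h4
  exact_mod_cast h2

theorem j2_pairs (p : ℕ) (A : Finset k[X]) (hA : ∀ s ∈ A, s ≠ 0 ∧ IsSquare s) (D : ℕ)
    (hD : ∀ s ∈ A, s.natDegree ≤ D) (η : ℝ) (hη : 0 ≤ η) :
    ∑ s₁ ∈ A, ∑ s₂ ∈ A, ((RtT p A η s₁ ∩ RtT p A η s₂).card : ℝ) ≤
      η * (A.card : ℝ) ^ 2 * ((D : ℝ) / 2) := by
  have h1 : ∀ s₁ ∈ A, ∑ s₂ ∈ A, ((RtT p A η s₁ ∩ RtT p A η s₂).card : ℝ) ≤
      η * (A.card : ℝ) * ((D : ℝ) / 2) := by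
    intro s₁ hs₁
    have h2 : ∀ s₂ ∈ A, ((RtT p A η s₁ ∩ RtT p A η s₂).card : ℝ) =
        ∑ a ∈ RtT p A η s₁, if a ∈ RtT p A η s₂ then (1 : ℝ) else 0 := by
      intro s₂ _
      rw [← filter_mem_eq_inter, card_filter]
      push_cast
      rfl
    rw [sum_congr rfl h2, sum_comm]
    have h3 : ∀ a ∈ RtT p A η s₁, (∑ s₂ ∈ A, if a ∈ RtT p A η s₂ then (1 : ℝ) else 0) ≤
        η * A.card := by
      intro a ha
      have h4 := j2_deg p A hA η ha
      rw [card_filter] at h4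
      push_cast at h4
      exact h4
    refine (sum_le_sum h3).trans ?_
    rw [sum_const, nsmul_eq_mul]
    have h5 := j2_RtT_card p A η (hA s₁ hs₁).1 (hA s₁ hs₁).2 (hD s₁ hs₁)
    calc ((RtT p A η s₁).card : ℝ) * (η * A.card) ≤ ((D : ℝ) / 2) * (η * A.card) :=
          mul_le_mul_of_nonneg_right h5 (by positivity)
      _ = _ := by ring
  refine (sum_le_sum h1).trans ?_
  rw [sum_const, nsmul_eq_mul]
  apply le_of_eq
  ring

/-- sum over all tuples of a function of two coordinates -/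
theorem j2_sum_pair {G : Type} {N : ℕ} (A : Finset G) (i j : Fin N) (hij : i ≠ j)
    (g : G → G → ℝ) (hg : ∀ a b, 0 ≤ g a b) :
    ∑ s ∈ Fintype.piFinset (fun _ : Fin N => A), g (s i) (s j) ≤
      (A.card : ℝ) ^ (N - 2) * ∑ a ∈ A, ∑ b ∈ A, g a b := by
  have hmaps : ∀ s ∈ Fintype.piFinset (fun _ : Fin N => A), (s i, s j) ∈ A ×ˢ A := by
    intro s hs
    rw [Fintype.mem_piFinset] at hs
    rw [mem_product]
    exact ⟨hs i, hs j⟩
  rw [← sum_fiberwise_of_maps_to hmaps, ← sum_product', mul_sum]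
  apply sum_le_sum
  rintro ⟨a, b⟩ hab
  have h1 : ∀ s ∈ (Fintype.piFinset (fun _ : Fin N => A)).filter (fun s => (s i, s j) = (a, b)),
      g (s i) (s j) = g a b := by
    intro s hs
    rw [mem_filter, Prod.mk.injEq] at hs
    rw [hs.2.1, hs.2.2]
  rw [sum_congr rfl h1, sum_const, nsmul_eq_mul]
  apply mul_le_mul_of_nonneg_right _ (hg a b)
  have h2 : ((Fintype.piFinset (fun _ : Fin N => A)).filter
      (fun s => (s i, s j) = (a, b))).card ≤ A.card ^ (N - 2) := by
    have h3 : (Fintype.piFinset (fun _ : Fin N => A)).filter (fun s => (s i, s j) = (a, b)) ⊆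
        Fintype.piFinset (fun l : Fin N => if l = i ∨ l = j then {(if l = i then a else b)} else A) := by
      intro s hs
      rw [mem_filter, Prod.mk.injEq, Fintype.mem_piFinset] at hs
      obtain ⟨h4, h5, h6⟩ := hs
      rw [Fintype.mem_piFinset]
      intro l
      by_cases hl : l = i
      · subst hl
        simp [h5]
      · by_cases hl2 : l = j
        · subst hl2
          simp [hl, h6]
        · simp [hl, hl2, h4 l]
    refine (card_le_card h3).trans ?_
    rw [Fintype.card_piFinset]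
    have h7 : ∀ l : Fin N, (if l = i ∨ l = j then ({(if l = i then a else b)} : Finset G)
        else A).card = if l = i ∨ l = j then 1 else A.card := by
      intro l
      split_ifs <;> simp
    rw [prod_congr rfl fun l _ => h7 l, prod_ite, prod_const_one, one_mul, prod_const]
    have h8 : (univ.filter (fun l : Fin N => ¬ (l = i ∨ l = j))).card = N - 2 := by
      have h9 : univ.filter (fun l : Fin N => ¬ (l = i ∨ l = j)) = univ \ {i, j} := by
        ext l
        simp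
      rw [h9, card_sdiff_of_subset (subset_univ _), card_pair hij, card_univ, Fintype.card_fin]
    rw [h8]
  exact_mod_cast h2

theorem case_tiny (p : ℕ) [Fact p.Prime] (hp : 5 ≤ p) [CharP k p] [IsAlgClosed k]
    (η₃ : ℝ) (h3 : 0 < η₃) : ∃ η₁ : ℝ, 0 < η₁ ∧
    ∃ ε₀ r₀ : ℝ, 0 < ε₀ ∧ ε₀ ≤ 1 / 10 ∧ 0 < r₀ ∧ r₀ ≤ 1 ∧ ∀ α : ℝ, 1 / 2 < α → α ≤ 1 / 2 + ε₀ →
    ∀ (D : ℕ) (A B : Finset k[X]), NF p α D A B → ratio α A B ≤ r₀ →
    RbarT p A η₁ < 3 / 10 * η₃ * (D : ℝ) := by
  set e : ℝ := min η₃ 1 with he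
  have he0 : 0 < e := lt_min h3 one_pos
  have he1 : e ≤ 1 := min_le_right _ _
  have he3 : e ≤ η₃ := min_le_left _ _
  obtain ⟨N, M, hN, hM, hgrid⟩ := grid (k := k) p (by omega) (e / 10) (by positivity)
  have hNr : (2 : ℝ) ≤ N := by exact_mod_cast hN
  set c : ℝ := (2 / 5 * e) ^ N with hc
  have hc0 : 0 < c := by positivity
  set η₁ : ℝ := c / (2 * (N : ℝ) ^ 2) with hη₁
  have hη₁0 : 0 < η₁ := by positivity
  obtain ⟨r₀, hr0, hr1, hlarge⟩ := card_large (G := k[X]) ⌈((M : ℝ) / (c / 2)) ^ 2⌉₊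
  refine ⟨η₁, hη₁0, 1 / (10 * N), r₀, by positivity, ?_, hr0, hr1, ?_⟩
  · apply one_div_le_one_div_of_le (by norm_num)
    linarith
  intro α hα hα' D A B hNF hr
  by_contra hcon
  push Not at hcon
  obtain ⟨hAne, hBne, -⟩ := hNF.red
  have hA := hNF.sq.1
  have hdeg : ∀ s ∈ A, s.natDegree ≤ D := fun s hs => (hNF.degA s hs).le
  have hD0 : (0 : ℝ) < D := by exact_mod_cast hNF.Dpos
  have hAc : (0 : ℝ) < A.card := by exact_mod_cast hAne.card_pos
  have hα35 : α ≤ 3 / 5 := by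
    have : 1 / (10 * (N : ℝ)) ≤ 1 / 10 := by
      apply one_div_le_one_div_of_le (by norm_num)
      linarith
    linarith
  have hAlarge := hlarge α hα hα35 A B hAne hBne hr
  have hAM : ((M : ℝ) / (c / 2)) ^ 2 ≤ A.card :=
    (Nat.le_ceil _).trans (by exact_mod_cast hAlarge)
  -- rich elements
  set Rich := A.filter (fun s => e / 10 * (D : ℝ) ≤ ((RtT p A η₁ s).card : ℝ)) with hRich
  have hrich : 2 / 5 * e * (A.card : ℝ) ≤ Rich.card := by
    have h1 : 3 / 10 * e * (D : ℝ) * A.card ≤ ∑ s ∈ A, ((RtT p A η₁ s).card : ℝ) := by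
      unfold RbarT at hcon
      rw [le_div_iff₀ hAc] at hcon
      refine le_trans ?_ hcon
      have : 3 / 10 * e * (D : ℝ) ≤ 3 / 10 * η₃ * D := by
        have := mul_le_mul_of_nonneg_right he3 hD0.le
        linarith
      exact mul_le_mul_of_nonneg_right this hAc.le
    have h2 : ∑ s ∈ A, ((RtT p A η₁ s).card : ℝ) ≤
        Rich.card * ((D : ℝ) / 2) + A.card * (e / 10 * D) := by
      rw [← sum_filter_add_sum_filter_not A
        (fun s => e / 10 * (D : ℝ) ≤ ((RtT p A η₁ s).card : ℝ))]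
      apply add_le_add
      · rw [← hRich, ← nsmul_eq_mul, ← sum_const]
        apply sum_le_sum
        intro s hs
        have hsA : s ∈ A := (mem_filter.1 hs).1
        exact j2_RtT_card p A η₁ (hA s hsA).1 (hA s hsA).2 (hdeg s hsA)
      · calc ∑ s ∈ A with ¬ e / 10 * (D : ℝ) ≤ ((RtT p A η₁ s).card : ℝ),
              ((RtT p A η₁ s).card : ℝ)
            ≤ ∑ s ∈ A with ¬ e / 10 * (D : ℝ) ≤ ((RtT p A η₁ s).card : ℝ), e / 10 * (D : ℝ) := by
              apply sum_le_sum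
              intro s hs
              exact (not_le.1 (mem_filter.1 hs).2).le
          _ = ((A.filter (fun s => ¬ e / 10 * (D : ℝ) ≤ ((RtT p A η₁ s).card : ℝ))).card : ℝ) *
              (e / 10 * D) := by rw [sum_const, nsmul_eq_mul]
          _ ≤ A.card * (e / 10 * D) := by
              apply mul_le_mul_of_nonneg_right _ (by positivity)
              exact_mod_cast card_le_card (filter_subset _ _)
    have h4 : (2 / 5 * e * (A.card : ℝ)) * ((D : ℝ) / 2) ≤ Rich.card * ((D : ℝ) / 2) := by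
      linarith
    exact le_of_mul_le_mul_right h4 (by positivity)
  -- tuples
  set P := Fintype.piFinset (fun _ : Fin N => A) with hP
  set PR := Fintype.piFinset (fun _ : Fin N => Rich) with hPR
  set ovl : (Fin N → k[X]) → ℕ := fun s =>
    ∑ x ∈ prs N, (RtT p A η₁ (s x.1) ∩ RtT p A η₁ (s x.2)).card with hovl
  have hPRP : PR ⊆ P := by
    apply Fintype.piFinset_subset
    intro _
    exact filter_subset _ _
  have hPRcard : c * (A.card : ℝ) ^ N ≤ PR.card := by
    rw [hPR, Fintype.card_piFinset]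
    simp only [prod_const, card_univ, Fintype.card_fin]
    push_cast
    rw [hc, ← mul_pow]
    exact pow_le_pow_left₀ (by positivity) hrich N
  have hsumovl : ∑ s ∈ P, (ovl s : ℝ) ≤ (N : ℝ) ^ 2 * ((A.card : ℝ) ^ N * (η₁ * ((D : ℝ) / 2))) := by
    simp only [hovl]
    push_cast
    rw [sum_comm]
    have h1 : ∀ x ∈ prs N, ∑ s ∈ P, ((RtT p A η₁ (s x.1) ∩ RtT p A η₁ (s x.2)).card : ℝ) ≤
        (A.card : ℝ) ^ N * (η₁ * ((D : ℝ) / 2)) := by
      intro x hx
      have hx' : x.1 < x.2 := by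
        unfold prs at hx
        exact (mem_filter.1 hx).2
      have h2 := j2_sum_pair A x.1 x.2 hx'.ne
        (fun a b => ((RtT p A η₁ a ∩ RtT p A η₁ b).card : ℝ)) (fun _ _ => Nat.cast_nonneg _)
      have h3 := j2_pairs p A hA D hdeg η₁ hη₁0.le
      refine h2.trans ?_
      calc (A.card : ℝ) ^ (N - 2) * ∑ a ∈ A, ∑ b ∈ A, ((RtT p A η₁ a ∩ RtT p A η₁ b).card : ℝ)
          ≤ (A.card : ℝ) ^ (N - 2) * (η₁ * (A.card : ℝ) ^ 2 * ((D : ℝ) / 2)) :=
            mul_le_mul_of_nonneg_left h3 (by positivity)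
        _ = (A.card : ℝ) ^ (N - 2 + 2) * (η₁ * ((D : ℝ) / 2)) := by rw [pow_add]; ring
        _ = _ := by rw [Nat.sub_add_cancel hN]
    refine (sum_le_sum h1).trans ?_
    rw [sum_const, nsmul_eq_mul]
    apply mul_le_mul_of_nonneg_right _ (by positivity)
    have h5 : (prs N).card ≤ N ^ 2 := by
      unfold prs
      refine (card_le_card (filter_subset _ _)).trans ?_
      rw [card_univ, Fintype.card_prod, Fintype.card_fin, sq]
    exact_mod_cast h5
  -- the good tuples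
  set S := PR.filter (fun s => 2 * ovl s ≤ D) with hS
  have hScard : c / 2 * (A.card : ℝ) ^ N ≤ S.card := by
    have h1 : ((PR.filter (fun s => ¬ 2 * ovl s ≤ D)).card : ℝ) * ((D : ℝ) / 2) ≤
        ∑ s ∈ P, (ovl s : ℝ) := by
      rw [← nsmul_eq_mul, ← sum_const]
      calc ∑ s ∈ PR.filter (fun s => ¬ 2 * ovl s ≤ D), ((D : ℝ) / 2)
          ≤ ∑ s ∈ PR.filter (fun s => ¬ 2 * ovl s ≤ D), (ovl s : ℝ) := by
            apply sum_le_sum
            intro s hs
            have h2 := (mem_filter.1 hs).2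
            push Not at h2
            have h4 : (D : ℝ) ≤ 2 * (ovl s : ℝ) := by exact_mod_cast h2.le
            linarith
        _ ≤ ∑ s ∈ P, (ovl s : ℝ) :=
            sum_le_sum_of_subset_of_nonneg ((filter_subset _ _).trans hPRP)
              fun s _ _ => Nat.cast_nonneg _
    have h2 : ((PR.filter (fun s => ¬ 2 * ovl s ≤ D)).card : ℝ) ≤ c / 2 * (A.card : ℝ) ^ N := by
      have h4 := h1.trans hsumovl
      have h5 : (N : ℝ) ^ 2 * ((A.card : ℝ) ^ N * (η₁ * ((D : ℝ) / 2))) =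
          (c / 2 * (A.card : ℝ) ^ N) * ((D : ℝ) / 2) := by
        rw [hη₁]
        field_simp
      rw [h5] at h4
      exact le_of_mul_le_mul_right h4 (by positivity)
    have h6 : (PR.card : ℝ) = S.card + (PR.filter (fun s => ¬ 2 * ovl s ≤ D)).card := by
      have := card_filter_add_card_filter_not (s := PR) (fun s => 2 * ovl s ≤ D)
      rw [← hS] at this
      exact_mod_cast this.symm
    linarith
  -- pigeonhole
  have hSA : ∀ s ∈ S, ∀ j, s j ∈ A := by
    intro s hs j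
    have h1 := hPRP (mem_filter.1 hs).1
    rw [hP, Fintype.mem_piFinset] at h1
    exact h1 j
  obtain ⟨T, hT⟩ := pigeonhole N hN α hα hα' A B hAne hBne (hr.trans hr1) S hSA (c / 2)
    (by positivity) hScard
  set BB := B.filter (fun b => (fun j => T j - b) ∈ S) with hBB
  have hBBM : M ≤ BB.card := by
    have h1 : (M : ℝ) ≤ c / 2 * (A.card : ℝ) ^ ((1 : ℝ) / 2) := by
      have h2 : (M : ℝ) / (c / 2) ≤ (A.card : ℝ) ^ ((1 : ℝ) / 2) := by
        rw [← Real.sqrt_eq_rpow]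
        exact Real.le_sqrt_of_sq_le hAM
      rw [div_le_iff₀ (by positivity)] at h2
      linarith
    have hT2 : c / 2 * (A.card : ℝ) ^ ((1 : ℝ) / 2) ≤ (BB.card : ℝ) := by
      rw [hBB]
      convert hT
    have h2 : (M : ℝ) ≤ (BB.card : ℝ) := h1.trans hT2
    exact_mod_cast h2
  obtain ⟨u, huinj, hu⟩ : ∃ u : Fin M → k[X], Function.Injective u ∧ ∀ i, u i ∈ BB := by
    refine ⟨fun i => (BB.equivFin.symm (Fin.castLE hBBM i) : k[X]), ?_, fun i => ?_⟩
    · intro i i' h
      have h1 := Subtype.ext h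
      have h2 := BB.equivFin.symm.injective h1
      exact Fin.castLE_injective hBBM h2
    · exact (BB.equivFin.symm (Fin.castLE hBBM i)).2
  have huB : ∀ i, u i ∈ B := fun i => (mem_filter.1 (hu i)).1
  have huS : ∀ i, (fun j => T j - u i) ∈ S := fun i => (mem_filter.1 (hu i)).2
  have hudeg : ∀ i, (u i).natDegree ≤ D := fun i => hNF.degB _ (huB i)
  have hM0 : 0 < M := by omega
  refine hgrid D hNF.Dpos T u (fun j i => RtT p A η₁ (T j - u i)) ?_ hudeg huinj ?_ ?_ ?_
  · intro j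
    have h1 := hSA _ (huS ⟨0, hM0⟩) j
    have h2 : T j = (T j - u ⟨0, hM0⟩) + u ⟨0, hM0⟩ := by ring
    rw [h2]
    exact (natDegree_add_le _ _).trans (max_le (hdeg _ h1) (hudeg _))
  · intro j i
    have h1 := (mem_filter.1 (huS i)).1
    rw [hPR, Fintype.mem_piFinset] at h1
    exact (mem_filter.1 (h1 j)).2
  · intro j i a ha
    have h1 := hSA _ (huS i) j
    exact j2_mult p (hA _ h1).1 (hA _ h1).2 (mem_filter.1 ha).1
  · intro i
    exact (mem_filter.1 (huS i)).2

end H315
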