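import Pool.Agent.H315R2.Sq.Defs
import Pool.Agent.H315R2.Sq.J1
import Pool.Agent.H315R2.Sq.J2

/-! # J3: `Rbar` is small; overlaps are small (helper128) -/

open Polynomial Finset
open scoped Classical Pointwise

namespace H315

variable {k : Type} [Field k]

theorem rbar_small (p : ℕ) [Fact p.Prime] (hp : 5 ≤ p) [CharP k p] [IsAlgClosed k]
    (η : ℝ) (hη : 0 < η) :
    ∃ ε₀ r₀ : ℝ, 0 < ε₀ ∧ ε₀ ≤ 1 / 10 ∧ 0 < r₀ ∧ r₀ ≤ 1 ∧ ∀ α : ℝ, 1 / 2 < α → α ≤ 1 / 2 + ε₀ →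
    ∀ (D : ℕ) (A B : Finset k[X]), NF p α D A B → ratio α A B ≤ r₀ →
    Rbar p A ≤ η * (D : ℝ) := by
  obtain ⟨η₁, hη₁, ε1, r1, hε1, hε1', hr1, hr1', H1⟩ := case_tiny (k := k) p hp η hη
  obtain ⟨ε2, r2, hε2, hε2', hr2, hr2', H2⟩ := caseN (k := k) p hp η η₁ hη hη₁
  refine ⟨min ε1 ε2, min r1 r2, lt_min hε1 hε2, (min_le_left _ _).trans hε1', lt_min hr1 hr2,
    (min_le_left _ _).trans hr1', ?_⟩
  intro α hα hα' D A B hNF hr
  by_contra hcon
  push Not at hcon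
  have h1 := H1 α hα (hα'.trans (by linarith [min_le_left ε1 ε2])) D A B hNF
    (hr.trans (min_le_left _ _))
  have h2 := H2 α hα (hα'.trans (by linarith [min_le_right ε1 ε2])) D A B hNF
    (hr.trans (min_le_right _ _)) hcon
  linarith

theorem j3_even {s : k[X]} (hs0 : s ≠ 0) (hs : IsSquare s) (a : k) :
    ∃ u, s.rootMultiplicity a = 2 * u := by
  obtain ⟨t, rfl⟩ := hs
  exact ⟨t.rootMultiplicity a, by rw [rootMultiplicity_mul hs0]; ring⟩

theorem j3_ov {s s' : k[X]} (hs0 : s ≠ 0) (hs : IsSquare s) (hs0' : s' ≠ 0) (hs' : IsSquare s')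
    (D : ℕ) (hD : s.natDegree = D) (Z : Finset k) (hZ : s.roots.toFinset ⊆ Z) :
    ov s s' ≤ 2 * ((Z ×ˢ Icc 1 D).filter (fun l : k × ℕ => (X - C l.1) ^ (2 * l.2) ∣ s ∧
      (X - C l.1) ^ (2 * l.2) ∣ s')).card := by
  have h1 : ov s s' = ∑ a ∈ Z, min (s.rootMultiplicity a) (s'.rootMultiplicity a) := by
    rw [ov, ← Multiset.sum_count_eq_card (s := Z)]
    · apply sum_congr rfl
      intro a _
      rw [Multiset.count_inter, count_roots, count_roots]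
    · intro a ha
      exact hZ (Multiset.mem_toFinset.2 (Multiset.mem_inter.1 ha).1)
  rw [h1, card_filter, sum_product, mul_sum]
  apply sum_le_sum
  intro a _
  obtain ⟨u, hu⟩ := j3_even hs0 hs a
  obtain ⟨u', hu'⟩ := j3_even hs0' hs' a
  have hle : 2 * u ≤ D := by
    rw [← hu, ← hD, ← count_roots]
    exact (Multiset.count_le_card _ _).trans (card_roots' s)
  have h2 : Icc 1 (min u u') ⊆ (Icc 1 D).filter (fun m => (X - C a) ^ (2 * m) ∣ s ∧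
      (X - C a) ^ (2 * m) ∣ s') := by
    intro m hm
    rw [mem_Icc] at hm
    rw [mem_filter, mem_Icc]
    refine ⟨⟨hm.1, ?_⟩, ?_, ?_⟩
    · have := hm.2.trans (min_le_left _ _); omega
    · rw [← le_rootMultiplicity_iff hs0, hu]
      have := hm.2.trans (min_le_left _ _); omega
    · rw [← le_rootMultiplicity_iff hs0', hu']
      have := hm.2.trans (min_le_right _ _); omega
  have h3 := card_le_card h2
  rw [Nat.card_Icc, card_filter] at h3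
  have h4 : min (s.rootMultiplicity a) (s'.rootMultiplicity a) = 2 * min u u' := by
    rw [hu, hu']; omega
  rw [h4]
  have h5 : min u u' + 1 - 1 = min u u' := by omega
  rw [h5] at h3
  exact Nat.mul_le_mul_left _ h3

theorem j3_sum (A : Finset k[X]) (L : Finset (k × ℕ)) :
    ∑ x ∈ A ×ˢ A, (L.filter (fun l : k × ℕ => (X - C l.1) ^ (2 * l.2) ∣ x.1 ∧
      (X - C l.1) ^ (2 * l.2) ∣ x.2)).card
      = ∑ l ∈ L, (A.filter (fun s => (X - C l.1) ^ (2 * l.2) ∣ s)).card ^ 2 := by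
  have h1 : ∀ x ∈ A ×ˢ A, (L.filter (fun l : k × ℕ => (X - C l.1) ^ (2 * l.2) ∣ x.1 ∧
      (X - C l.1) ^ (2 * l.2) ∣ x.2)).card = ∑ l ∈ L, if ((X - C l.1) ^ (2 * l.2) ∣ x.1 ∧
      (X - C l.1) ^ (2 * l.2) ∣ x.2) then 1 else 0 := fun x _ => card_filter _ _
  rw [sum_congr rfl h1, sum_comm]
  apply sum_congr rfl
  intro l _
  rw [← card_filter, sq, ← card_product]
  congr 1
  ext x
  simp only [mem_filter, mem_product]
  tauto

theorem ov_small (p : ℕ) [Fact p.Prime] (hp : 5 ≤ p) [CharP k p] [IsAlgClosed k]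
    (η : ℝ) (hη : 0 < η) :
    ∃ ε₀ r₀ : ℝ, 0 < ε₀ ∧ ε₀ ≤ 1 / 10 ∧ 0 < r₀ ∧ r₀ ≤ 1 ∧ ∀ α : ℝ, 1 / 2 < α → α ≤ 1 / 2 + ε₀ →
    ∀ (D : ℕ) (A B : Finset k[X]), NF p α D A B → ratio α A B ≤ r₀ →
    ((∑ x ∈ A ×ˢ A, ov x.1 x.2 : ℕ) : ℝ) ≤ η * (D : ℝ) * (A.card : ℝ) ^ 2 := by
  obtain ⟨ε1, r1, hε1, hε1', hr1, hr1', H1⟩ := rbar_small (k := k) p hp (η / 4) (by positivity)
  obtain ⟨ε2, r2, hε2, hε2', hr2, hr2', H2⟩ := few_W0 (k := k) p hp (η / 4 * (η / 2)) (by positivity)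
  obtain ⟨ε3, hε3, hε3', H3⟩ := cross_sum (k := k) p hp (η / 4) (by positivity)
  obtain ⟨ε4, hε4, hε4', H4⟩ := rho_le (k := k) p hp
  refine ⟨min (min ε1 ε2) (min ε3 ε4), min r1 r2, lt_min (lt_min hε1 hε2) (lt_min hε3 hε4),
    ((min_le_left _ _).trans (min_le_left _ _)).trans hε1', lt_min hr1 hr2,
    (min_le_left _ _).trans hr1', ?_⟩
  intro α hα hα' D A B hNF hr
  have e1 : min (min ε1 ε2) (min ε3 ε4) ≤ ε1 := (min_le_left _ _).trans (min_le_left _ _)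
  have e2 : min (min ε1 ε2) (min ε3 ε4) ≤ ε2 := (min_le_left _ _).trans (min_le_right _ _)
  have e3 : min (min ε1 ε2) (min ε3 ε4) ≤ ε3 := (min_le_right _ _).trans (min_le_left _ _)
  have e4 : min (min ε1 ε2) (min ε3 ε4) ≤ ε4 := (min_le_right _ _).trans (min_le_right _ _)
  have h1 := H1 α hα (by linarith) D A B hNF (hr.trans (min_le_left _ _))
  have h2 := H2 α hα (by linarith) D A B hNF (hr.trans (min_le_right _ _))
  have h4 := H4 α hα (by linarith) D A B hNF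
  have hA0 : (0 : ℝ) < A.card := by exact_mod_cast hNF.red.1.card_pos
  have hD0 : (0 : ℝ) < D := by exact_mod_cast hNF.Dpos
  set Z : Finset k := A.biUnion fun s => s.roots.toFinset with hZ
  set L : Finset (k × ℕ) := Z ×ˢ Icc 1 D with hL
  have hL1 : ∀ l ∈ L, 1 ≤ l.2 := by
    intro l hl
    rw [hL, mem_product, mem_Icc] at hl
    exact hl.2.1
  have hs1 : (∑ x ∈ A ×ˢ A, ov x.1 x.2)
      ≤ 2 * ∑ l ∈ L, (A.filter (fun s => (X - C l.1) ^ (2 * l.2) ∣ s)).card ^ 2 := by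
    rw [← j3_sum, mul_sum]
    apply sum_le_sum
    intro x hx
    rw [mem_product] at hx
    obtain ⟨a1, a2⟩ := hNF.sq.1 x.1 hx.1
    obtain ⟨b1, b2⟩ := hNF.sq.1 x.2 hx.2
    exact j3_ov a1 a2 b1 b2 D (hNF.degA x.1 hx.1) Z
      (subset_biUnion_of_mem (fun s : k[X] => s.roots.toFinset) hx.1)
  have hs2 : ((∑ x ∈ A ×ˢ A, ov x.1 x.2 : ℕ) : ℝ) ≤ 2 * (A.card : ℝ) ^ 2 * ∑ l ∈ L, rho A l ^ 2 := by
    have : ((∑ x ∈ A ×ˢ A, ov x.1 x.2 : ℕ) : ℝ)
        ≤ ((2 * ∑ l ∈ L, (A.filter (fun s => (X - C l.1) ^ (2 * l.2) ∣ s)).card ^ 2 : ℕ) : ℝ) := by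
      exact_mod_cast hs1
    refine this.trans (le_of_eq ?_)
    push_cast
    rw [mul_assoc]
    congr 1
    rw [mul_sum]
    apply sum_congr rfl
    intro l _
    rw [rho]
    field_simp
  -- split
  have hrho0 : ∀ l, 0 ≤ rho A l := fun l => by rw [rho]; positivity
  have hsplit : ∑ l ∈ L, rho A l ^ 2 = ∑ l ∈ L.filter (fun l => η / 4 ≤ rho A l), rho A l ^ 2
      + ∑ l ∈ L.filter (fun l => ¬ η / 4 ≤ rho A l), rho A l ^ 2 :=
    (sum_filter_add_sum_filter_not _ _ _).symm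
  have hb : ∑ l ∈ L.filter (fun l => ¬ η / 4 ≤ rho A l), rho A l ^ 2 ≤ η / 4 * (D / 2) := by
    calc ∑ l ∈ L.filter (fun l => ¬ η / 4 ≤ rho A l), rho A l ^ 2
        ≤ ∑ l ∈ L.filter (fun l => ¬ η / 4 ≤ rho A l), η / 4 * rho A l := by
          apply sum_le_sum
          intro l hl
          have := (mem_filter.1 hl).2
          push Not at this
          rw [sq]
          exact mul_le_mul_of_nonneg_right this.le (hrho0 l)
      _ ≤ ∑ l ∈ L, η / 4 * rho A l :=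
          sum_le_sum_of_subset_of_nonneg (filter_subset _ _)
            (fun l _ _ => mul_nonneg (by positivity) (hrho0 l))
      _ = η / 4 * ∑ l ∈ L, rho A l := (mul_sum _ _ _).symm
      _ ≤ η / 4 * (D / 2) :=
          mul_le_mul_of_nonneg_left (sum_rho_le p α D A B hNF L hL1) (by positivity)
  have hc := H3 α hα (by linarith) D A B hNF (L.filter (fun l => η / 4 ≤ rho A l)) (by
    intro l hl
    exact ⟨hL1 l (mem_filter.1 hl).1, (mem_filter.1 hl).2⟩)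
  have ha : ∑ l ∈ L.filter (fun l => η / 4 ≤ rho A l), rho A l ^ 2
      ≤ 21 / 100 * ∑ l ∈ L.filter (fun l => η / 4 ≤ rho A l), rho A l := by
    rw [mul_sum]
    apply sum_le_sum
    intro l hl
    rw [sq]
    exact mul_le_mul_of_nonneg_right (h4 l (hL1 l (mem_filter.1 hl).1)) (hrho0 l)
  have hw2 : (nW0 A : ℝ) / (A.card : ℝ) ^ 2 ≤ η / 4 * (η / 2) := by
    rw [div_le_iff₀ (by positivity)]
    exact h2.le
  have hw3 : (nW0 A : ℝ) / (A.card : ℝ) ^ 2 * ((D : ℝ) / (2 * (η / 4))) ≤ η / 4 * D := by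
    calc (nW0 A : ℝ) / (A.card : ℝ) ^ 2 * ((D : ℝ) / (2 * (η / 4)))
        ≤ (η / 4 * (η / 2)) * ((D : ℝ) / (2 * (η / 4))) :=
          mul_le_mul_of_nonneg_right hw2 (by positivity)
      _ = η / 4 * D := by field_simp; ring
  have hηD : 0 < η * D := by positivity
  have hfin : ∑ l ∈ L, rho A l ^ 2 ≤ η * D / 2 := by
    rw [hsplit]
    nlinarith
  calc ((∑ x ∈ A ×ˢ A, ov x.1 x.2 : ℕ) : ℝ) ≤ 2 * (A.card : ℝ) ^ 2 * ∑ l ∈ L, rho A l ^ 2 := hs2
    _ ≤ 2 * (A.card : ℝ) ^ 2 * (η * D / 2) := mul_le_mul_of_nonneg_left hfin (by positivity)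
    _ = η * D * (A.card : ℝ) ^ 2 := by ring

end H315
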