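import Pool.Agent.H315R2.Sq.Defs
import Pool.Agent.H315R2.Sq.J3
import Pool.Agent.H315R2.Sq.X

/-! # J4: most 6-tuples are good rows -/

open Polynomial Finset
open scoped Classical Pointwise

namespace H315

variable {k : Type} [Field k]

def GoodRow (p D : ℕ) (s : Fin 6 → k[X]) : Prop :=
  (∀ j l, j ≠ l → wronskian (s j) (s l) ≠ 0) ∧
  ∀ j l m, j ≠ l → j ≠ m → l ≠ m →
    3 * ((Rt p (s j)).card + (Rt p (s l)).card + (Rt p (s m)).card +
      ov (s j) (s l) + ov (s j) (s m) + ov (s l) (s m)) ≤ D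

/-- number of tuples with two prescribed coordinates -/
private theorem j4_card_two {X : Type} [DecidableEq X] (A : Finset X) (j l : Fin 6) (h : j ≠ l)
    (a b : X) (ha : a ∈ A) (hb : b ∈ A) :
    ((Fintype.piFinset (fun _ : Fin 6 => A)).filter (fun s => s j = a ∧ s l = b)).card
      = A.card ^ 4 := by
  have e : (Fintype.piFinset (fun _ : Fin 6 => A)).filter (fun s => s j = a ∧ s l = b)
      = Fintype.piFinset (fun i : Fin 6 => if i = j then {a} else if i = l then {b} else A) := by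
    ext s
    simp only [Finset.mem_filter, Fintype.mem_piFinset]
    constructor
    · rintro ⟨h1, h2, h3⟩ i
      by_cases hi : i = j
      · subst hi; simp [h2]
      · by_cases hi' : i = l
        · subst hi'; simp [hi, h3]
        · simp [hi, hi', h1 i]
    · intro h1
      have hj := h1 j
      have hl := h1 l
      simp only [if_true] at hj
      rw [if_neg (Ne.symm h)] at hl
      simp only [if_true] at hl
      refine ⟨fun i => ?_, Finset.mem_singleton.mp hj, Finset.mem_singleton.mp hl⟩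
      have h2 := h1 i
      by_cases hi : i = j
      · subst hi
        rw [Finset.mem_singleton.mp hj]; exact ha
      · by_cases hi' : i = l
        · subst hi'
          rw [Finset.mem_singleton.mp hl]; exact hb
        · simpa [hi, hi'] using h2
  rw [e, Fintype.card_piFinset]
  have e2 : ∀ i : Fin 6, (if i = j then ({a} : Finset X) else if i = l then {b} else A).card
      = if i = j ∨ i = l then 1 else A.card := by
    intro i
    by_cases hi : i = j
    · simp [hi]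
    · by_cases hi' : i = l
      · subst hi'; simp [hi]
      · simp [hi, hi']
  rw [Finset.prod_congr rfl (fun i _ => e2 i), Finset.prod_ite, Finset.prod_const_one, one_mul,
    Finset.prod_const]
  congr 1
  revert h
  clear e2 e
  revert j l
  decide

private theorem j4_card_one {X : Type} [DecidableEq X] (A : Finset X) (j : Fin 6)
    (a : X) (ha : a ∈ A) :
    ((Fintype.piFinset (fun _ : Fin 6 => A)).filter (fun s => s j = a)).card
      = A.card ^ 5 := by
  have e : (Fintype.piFinset (fun _ : Fin 6 => A)).filter (fun s => s j = a)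
      = Fintype.piFinset (fun i : Fin 6 => if i = j then {a} else A) := by
    ext s
    simp only [Finset.mem_filter, Fintype.mem_piFinset]
    constructor
    · rintro ⟨h1, h2⟩ i
      by_cases hi : i = j
      · subst hi; simp [h2]
      · simp [hi, h1 i]
    · intro h1
      have hj := h1 j
      simp only [if_true] at hj
      refine ⟨fun i => ?_, Finset.mem_singleton.mp hj⟩
      have h2 := h1 i
      by_cases hi : i = j
      · subst hi
        rw [Finset.mem_singleton.mp hj]; exact ha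
      · simpa [hi] using h2
  rw [e, Fintype.card_piFinset]
  have e2 : ∀ i : Fin 6, (if i = j then ({a} : Finset X) else A).card
      = if i = j then 1 else A.card := by
    intro i
    by_cases hi : i = j
    · simp [hi]
    · simp [hi]
  rw [Finset.prod_congr rfl (fun i _ => e2 i), Finset.prod_ite, Finset.prod_const_one, one_mul,
    Finset.prod_const]
  congr 1
  clear e2 e
  revert j
  decide

private theorem j4_sum_two {X : Type} [DecidableEq X] (A : Finset X) (j l : Fin 6) (h : j ≠ l)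
    (F : X → X → ℝ) :
    ∑ s ∈ Fintype.piFinset (fun _ : Fin 6 => A), F (s j) (s l)
      = (A.card : ℝ) ^ 4 * ∑ x ∈ A ×ˢ A, F x.1 x.2 := by
  have hm : ∀ s ∈ Fintype.piFinset (fun _ : Fin 6 => A), (s j, s l) ∈ A ×ˢ A := by
    intro s hs
    rw [Fintype.mem_piFinset] at hs
    exact Finset.mem_product.mpr ⟨hs j, hs l⟩
  rw [← Finset.sum_fiberwise_of_maps_to hm, Finset.mul_sum]
  refine Finset.sum_congr rfl (fun x hx => ?_)
  have hx' := Finset.mem_product.mp hx
  have e : ∀ s ∈ (Fintype.piFinset (fun _ : Fin 6 => A)).filter (fun s => (s j, s l) = x),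
      F (s j) (s l) = F x.1 x.2 := by
    intro s hs
    have := (Finset.mem_filter.mp hs).2
    rw [← this]
  rw [Finset.sum_congr rfl e, Finset.sum_const, nsmul_eq_mul]
  congr 1
  have e3 : (Fintype.piFinset (fun _ : Fin 6 => A)).filter (fun s => (s j, s l) = x)
      = (Fintype.piFinset (fun _ : Fin 6 => A)).filter (fun s => s j = x.1 ∧ s l = x.2) := by
    apply Finset.filter_congr
    intro s _
    rw [Prod.ext_iff]
  rw [e3, j4_card_two A j l h x.1 x.2 hx'.1 hx'.2]
  push_cast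
  rfl

private theorem j4_sum_one {X : Type} [DecidableEq X] (A : Finset X) (j : Fin 6)
    (F : X → ℝ) :
    ∑ s ∈ Fintype.piFinset (fun _ : Fin 6 => A), F (s j)
      = (A.card : ℝ) ^ 5 * ∑ x ∈ A, F x := by
  have hm : ∀ s ∈ Fintype.piFinset (fun _ : Fin 6 => A), s j ∈ A := by
    intro s hs
    rw [Fintype.mem_piFinset] at hs
    exact hs j
  rw [← Finset.sum_fiberwise_of_maps_to hm, Finset.mul_sum]
  refine Finset.sum_congr rfl (fun x hx => ?_)
  have e : ∀ s ∈ (Fintype.piFinset (fun _ : Fin 6 => A)).filter (fun s => s j = x),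
      F (s j) = F x := by
    intro s hs
    have := (Finset.mem_filter.mp hs).2
    rw [← this]
  rw [Finset.sum_congr rfl e, Finset.sum_const, nsmul_eq_mul]
  congr 1
  rw [j4_card_one A j x hx]
  push_cast
  rfl

private def J4Good {X : Type} (D : ℕ) (W : X → X → Prop) (R : X → ℕ) (O : X → X → ℕ)
    (s : Fin 6 → X) : Prop :=
  (∀ j l, j ≠ l → ¬ W (s j) (s l)) ∧
  ∀ j l m, j ≠ l → j ≠ m → l ≠ m →
    3 * (R (s j) + R (s l) + R (s m) + O (s j) (s l) + O (s j) (s m) + O (s l) (s m)) ≤ D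

private theorem j4_pair {X : Type} (A : Finset X) (W : X → X → Prop) (c : ℝ)
    (hW : (((A ×ˢ A).filter (fun x => W x.1 x.2)).card : ℝ) ≤ c * (A.card : ℝ) ^ 2)
    (j l : Fin 6) (hjl : j ≠ l) :
    (((Fintype.piFinset (fun _ : Fin 6 => A)).filter (fun s => W (s j) (s l))).card : ℝ) ≤
      c * (A.card : ℝ) ^ 6 := by
  have h1 : (((Fintype.piFinset (fun _ : Fin 6 => A)).filter (fun s => W (s j) (s l))).card : ℝ)
      = ∑ s ∈ Fintype.piFinset (fun _ : Fin 6 => A), (if W (s j) (s l) then (1 : ℝ) else 0) := by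
    rw [Finset.sum_boole]
  have h2 := j4_sum_two A j l hjl (fun x y => if W x y then (1 : ℝ) else 0)
  have h3 : ∑ x ∈ A ×ˢ A, (if W x.1 x.2 then (1 : ℝ) else 0)
      = (((A ×ˢ A).filter (fun x => W x.1 x.2)).card : ℝ) := by
    rw [Finset.sum_boole]
  rw [h3] at h2
  rw [h1, h2]
  calc (A.card : ℝ) ^ 4 * (((A ×ˢ A).filter (fun x => W x.1 x.2)).card : ℝ)
      ≤ (A.card : ℝ) ^ 4 * (c * (A.card : ℝ) ^ 2) := by
        apply mul_le_mul_of_nonneg_left hW (by positivity)
    _ = c * (A.card : ℝ) ^ 6 := by ring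

private theorem j4_triple {X : Type} (A : Finset X) (R : X → ℕ) (O : X → X → ℕ) (D : ℕ)
    (hD : 0 < D) (η : ℝ)
    (hR : ∑ x ∈ A, (R x : ℝ) ≤ η * D * (A.card : ℝ))
    (hO : ∑ x ∈ A ×ˢ A, (O x.1 x.2 : ℝ) ≤ η * D * (A.card : ℝ) ^ 2)
    (j l m : Fin 6) (hjl : j ≠ l) (hjm : j ≠ m) (hlm : l ≠ m) :
    (((Fintype.piFinset (fun _ : Fin 6 => A)).filter (fun s =>
      ¬ (3 * (R (s j) + R (s l) + R (s m) + O (s j) (s l) + O (s j) (s m) + O (s l) (s m))
        ≤ D))).card : ℝ) ≤ 18 * η * (A.card : ℝ) ^ 6 := by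
  have hD' : 0 < (D : ℝ) := by exact_mod_cast hD
  set P := Fintype.piFinset (fun _ : Fin 6 => A) with hP
  have hR' : ∀ j : Fin 6, ∑ s ∈ P, (R (s j) : ℝ) ≤ η * D * (A.card : ℝ) ^ 6 := by
    intro j
    have h2 := j4_sum_one A j (fun x => (R x : ℝ))
    rw [hP, h2]
    calc (A.card : ℝ) ^ 5 * ∑ x ∈ A, (R x : ℝ)
        ≤ (A.card : ℝ) ^ 5 * (η * D * (A.card : ℝ)) := by
          apply mul_le_mul_of_nonneg_left hR (by positivity)
      _ = _ := by ring
  have hO' : ∀ j l : Fin 6, j ≠ l →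
      ∑ s ∈ P, (O (s j) (s l) : ℝ) ≤ η * D * (A.card : ℝ) ^ 6 := by
    intro j l hjl
    have h2 := j4_sum_two A j l hjl (fun x y => (O x y : ℝ))
    rw [hP, h2]
    calc (A.card : ℝ) ^ 4 * ∑ x ∈ A ×ˢ A, (O x.1 x.2 : ℝ)
        ≤ (A.card : ℝ) ^ 4 * (η * D * (A.card : ℝ) ^ 2) := by
          apply mul_le_mul_of_nonneg_left hO (by positivity)
      _ = _ := by ring
  have h1 : (D : ℝ) * ((P.filter (fun s =>
      ¬ (3 * (R (s j) + R (s l) + R (s m) + O (s j) (s l) + O (s j) (s m) + O (s l) (s m))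
        ≤ D))).card : ℝ)
      ≤ ∑ s ∈ P, 3 * ((R (s j) : ℝ) + (R (s l) : ℝ) + (R (s m) : ℝ) + (O (s j) (s l) : ℝ) +
        (O (s j) (s m) : ℝ) + (O (s l) (s m) : ℝ)) := by
    rw [Finset.card_filter]
    push_cast
    rw [Finset.mul_sum]
    apply Finset.sum_le_sum
    intro s _
    by_cases hs : 3 * (R (s j) + R (s l) + R (s m) + O (s j) (s l) + O (s j) (s m)
        + O (s l) (s m)) ≤ D
    · rw [if_neg (not_not.mpr hs), mul_zero]
      positivity
    · rw [if_pos hs, mul_one]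
      have h0 : (D : ℝ) < ((3 * (R (s j) + R (s l) + R (s m) + O (s j) (s l) + O (s j) (s m)
        + O (s l) (s m)) : ℕ) : ℝ) := by
        exact_mod_cast not_le.mp hs
      push_cast at h0
      linarith
  have h2 : ∑ s ∈ P, 3 * ((R (s j) : ℝ) + (R (s l) : ℝ) + (R (s m) : ℝ) + (O (s j) (s l) : ℝ) +
        (O (s j) (s m) : ℝ) + (O (s l) (s m) : ℝ)) = 3 * (∑ s ∈ P, (R (s j) : ℝ) +
        ∑ s ∈ P, (R (s l) : ℝ) + ∑ s ∈ P, (R (s m) : ℝ) +
        ∑ s ∈ P, (O (s j) (s l) : ℝ) + ∑ s ∈ P, (O (s j) (s m) : ℝ) +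
        ∑ s ∈ P, (O (s l) (s m) : ℝ)) := by
    rw [← Finset.mul_sum]
    simp only [Finset.sum_add_distrib]
  rw [h2] at h1
  have a1 := hR' j
  have a2 := hR' l
  have a3 := hR' m
  have b1 := hO' j l hjl
  have b2 := hO' j m hjm
  have b3 := hO' l m hlm
  have h3 : (D : ℝ) * ((P.filter (fun s =>
      ¬ (3 * (R (s j) + R (s l) + R (s m) + O (s j) (s l) + O (s j) (s m) + O (s l) (s m))
        ≤ D))).card : ℝ) ≤ (D : ℝ) * (18 * η * (A.card : ℝ) ^ 6) := by
    refine h1.trans ?_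
    have e : (D : ℝ) * (18 * η * (A.card : ℝ) ^ 6) = 18 * (η * D * (A.card : ℝ) ^ 6) := by ring
    rw [e]
    linarith
  exact le_of_mul_le_mul_left h3 hD'

private theorem j4_abs {X : Type} (A : Finset X) (W : X → X → Prop) (R : X → ℕ) (O : X → X → ℕ)
    (D : ℕ) (hD : 0 < D) (c η : ℝ) (hc : 0 ≤ c) (hη : 0 ≤ η)
    (hW : (((A ×ˢ A).filter (fun x => W x.1 x.2)).card : ℝ) ≤ c * (A.card : ℝ) ^ 2)
    (hR : ∑ x ∈ A, (R x : ℝ) ≤ η * D * (A.card : ℝ))
    (hO : ∑ x ∈ A ×ˢ A, (O x.1 x.2 : ℝ) ≤ η * D * (A.card : ℝ) ^ 2) :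
    (((Fintype.piFinset (fun _ : Fin 6 => A)).filter (fun s => ¬ J4Good D W R O s)).card : ℝ) ≤
      (36 * c + 216 * (18 * η)) * (A.card : ℝ) ^ 6 := by
  set P := Fintype.piFinset (fun _ : Fin 6 => A) with hP
  set I2 := (univ : Finset (Fin 6 × Fin 6)).filter (fun x => x.1 ≠ x.2) with hI2
  set I3 := (univ : Finset (Fin 6 × Fin 6 × Fin 6)).filter
          (fun x => x.1 ≠ x.2.1 ∧ x.1 ≠ x.2.2 ∧ x.2.1 ≠ x.2.2) with hI3
  have cI2 : I2.card ≤ 36 := by
    refine (Finset.card_filter_le _ _).trans ?_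
    simp
  have cI3 : I3.card ≤ 216 := by
    refine (Finset.card_filter_le _ _).trans ?_
    simp
  have hsub : P.filter (fun s => ¬ J4Good D W R O s) ⊆
      I2.biUnion (fun x => P.filter (fun s => W (s x.1) (s x.2))) ∪
      I3.biUnion (fun x => P.filter (fun s => ¬ (3 * (R (s x.1) + R (s x.2.1) +
        R (s x.2.2) + O (s x.1) (s x.2.1) + O (s x.1) (s x.2.2) +
        O (s x.2.1) (s x.2.2)) ≤ D))) := by
    intro s hs
    rw [Finset.mem_filter] at hs
    obtain ⟨hsP, hs⟩ := hs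
    rw [Finset.mem_union]
    unfold J4Good at hs
    rw [not_and_or] at hs
    rcases hs with hs | hs
    · left
      simp only [not_forall] at hs
      obtain ⟨j, l, hjl, hw⟩ := hs
      rw [Finset.mem_biUnion]
      exact ⟨(j, l), Finset.mem_filter.mpr ⟨Finset.mem_univ _, hjl⟩,
        Finset.mem_filter.mpr ⟨hsP, not_not.mp hw⟩⟩
    · right
      simp only [not_forall] at hs
      obtain ⟨j, l, m, hjl, hjm, hlm, hw⟩ := hs
      rw [Finset.mem_biUnion]
      exact ⟨(j, l, m), Finset.mem_filter.mpr ⟨Finset.mem_univ _, hjl, hjm, hlm⟩,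
        Finset.mem_filter.mpr ⟨hsP, hw⟩⟩
  have hcard := (Finset.card_le_card hsub).trans (Finset.card_union_le _ _)
  have hc1 : ((I2.biUnion (fun x => P.filter (fun s => W (s x.1) (s x.2)))).card : ℝ)
        ≤ 36 * (c * (A.card : ℝ) ^ 6) := by
    refine (Nat.cast_le.mpr Finset.card_biUnion_le).trans ?_
    rw [Nat.cast_sum]
    refine (Finset.sum_le_card_nsmul _ _ (c * (A.card : ℝ) ^ 6) ?_).trans ?_
    · intro x hx
      exact j4_pair A W c hW x.1 x.2 (Finset.mem_filter.mp hx).2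
    · rw [nsmul_eq_mul]
      apply mul_le_mul_of_nonneg_right _ (by positivity)
      exact_mod_cast cI2
  have hc2 : ((I3.biUnion (fun x => P.filter (fun s => ¬ (3 * (R (s x.1) + R (s x.2.1) +
        R (s x.2.2) + O (s x.1) (s x.2.1) + O (s x.1) (s x.2.2) +
        O (s x.2.1) (s x.2.2)) ≤ D)))).card : ℝ)
        ≤ 216 * (18 * η * (A.card : ℝ) ^ 6) := by
    refine (Nat.cast_le.mpr Finset.card_biUnion_le).trans ?_
    rw [Nat.cast_sum]
    refine (Finset.sum_le_card_nsmul _ _ (18 * η * (A.card : ℝ) ^ 6) ?_).trans ?_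
    · intro x hx
      have hx' := (Finset.mem_filter.mp hx).2
      exact j4_triple A R O D hD η hR hO x.1 x.2.1 x.2.2 hx'.1 hx'.2.1 hx'.2.2
    · rw [nsmul_eq_mul]
      apply mul_le_mul_of_nonneg_right _ (by positivity)
      exact_mod_cast cI3
  refine (Nat.cast_le.mpr hcard).trans ?_
  rw [Nat.cast_add]
  refine (add_le_add hc1 hc2).trans (le_of_eq ?_)
  ring

theorem good_rows (p : ℕ) [Fact p.Prime] (hp : 5 ≤ p) [CharP k p] [IsAlgClosed k]
    (θ : ℝ) (hθ : 0 < θ) :
    ∃ ε₀ r₀ : ℝ, 0 < ε₀ ∧ ε₀ ≤ 1 / 10 ∧ 0 < r₀ ∧ r₀ ≤ 1 ∧ ∀ α : ℝ, 1 / 2 < α → α ≤ 1 / 2 + ε₀ →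
    ∀ (D : ℕ) (A B : Finset k[X]), NF p α D A B → ratio α A B ≤ r₀ →
    (((Fintype.piFinset (fun _ : Fin 6 => A)).filter (fun s => ¬ GoodRow p D s)).card : ℝ) ≤
      θ * (A.card : ℝ) ^ 6 := by
  obtain ⟨e1, r1, he1, he1', hr1, hr1', H1⟩ := few_W0 (k := k) p hp (θ / 72) (by positivity)
  obtain ⟨e2, r2, he2, he2', hr2, hr2', H2⟩ := rbar_small (k := k) p hp (θ / 7776) (by positivity)
  obtain ⟨e3, r3, he3, he3', hr3, hr3', H3⟩ := ov_small (k := k) p hp (θ / 7776) (by positivity)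
  refine ⟨min e1 (min e2 e3), min r1 (min r2 r3), lt_min he1 (lt_min he2 he3),
    (min_le_left _ _).trans he1', lt_min hr1 (lt_min hr2 hr3), (min_le_left _ _).trans hr1', ?_⟩
  intro α hα hα' D A B hNF hr
  have m1 : min e1 (min e2 e3) ≤ e1 := min_le_left _ _
  have m2 : min e1 (min e2 e3) ≤ e2 := (min_le_right _ _).trans (min_le_left _ _)
  have m3 : min e1 (min e2 e3) ≤ e3 := (min_le_right _ _).trans (min_le_right _ _)
  have n1 : min r1 (min r2 r3) ≤ r1 := min_le_left _ _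
  have n2 : min r1 (min r2 r3) ≤ r2 := (min_le_right _ _).trans (min_le_left _ _)
  have n3 : min r1 (min r2 r3) ≤ r3 := (min_le_right _ _).trans (min_le_right _ _)
  have G1 := H1 α hα (by linarith) D A B hNF (hr.trans n1)
  have G2 := H2 α hα (by linarith) D A B hNF (hr.trans n2)
  have G3 := H3 α hα (by linarith) D A B hNF (hr.trans n3)
  have hA : 0 < (A.card : ℝ) := by
    have := hNF.red.1
    exact_mod_cast Finset.card_pos.mpr this
  have hR : ∑ x ∈ A, ((Rt p x).card : ℝ) ≤ θ / 7776 * D * (A.card : ℝ) := by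
    have h3 : ∑ x ∈ A, ((Rt p x).card : ℝ) = Rbar p A * (A.card : ℝ) := by
      rw [Rbar, div_mul_cancel₀ _ hA.ne']
    rw [h3]
    exact mul_le_mul_of_nonneg_right G2 hA.le
  have hO : ∑ x ∈ A ×ˢ A, (ov x.1 x.2 : ℝ) ≤ θ / 7776 * D * (A.card : ℝ) ^ 2 := by
    rw [Nat.cast_sum] at G3
    exact G3
  have hW : (((A ×ˢ A).filter (fun x => wronskian x.1 x.2 = 0)).card : ℝ)
      ≤ θ / 72 * (A.card : ℝ) ^ 2 := G1.le
  have main := j4_abs A (fun x y => wronskian x y = 0) (fun x => (Rt p x).card) ov D hNF.Dpos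
    (θ / 72) (θ / 7776) (by positivity) (by positivity) (by convert hW) hR hO
  have e : (36 * (θ / 72) + 216 * (18 * (θ / 7776))) * (A.card : ℝ) ^ 6
      = θ * (A.card : ℝ) ^ 6 := by ring
  rw [e] at main
  exact main

end H315
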