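import Pool.Agent.H315R2.Sq.Defs
import Pool.Agent.H315R2.Sq.B
import Pool.Agent.H315R2.Sq.G
import Pool.Agent.H315R2.Sq.H2
import Pool.Agent.H315R2.Sq.H3
import Pool.Agent.H315R2.Sq.J4

/-! # J5: most good rows lie on conics -/

open Polynomial Finset
open scoped Classical Pointwise

namespace H315

variable {k : Type} [Field k]

/-- the vector of the point `(s,s')` over the field of fractions of `k[x]` -/
noncomputable def kvec (s : k[X]) : Fin 6 → FractionRing k[X] :=
  cvec (algebraMap k[X] (FractionRing k[X]) s) (algebraMap k[X] (FractionRing k[X]) (derivative s))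

private theorem j5_cval {R : Type} [CommRing R] (c : Fin 6 → R) (x y : R) :
    cvec x y ⬝ᵥ c = cval c x y := by
  unfold cvec cval dotProduct
  simp only [Fin.sum_univ_six, Matrix.cons_val]
  ring

private theorem j5_cvec_map {R S : Type} [CommRing R] [CommRing S] (f : R →+* S) (x y : R) :
    (fun i => f (cvec x y i)) = cvec (f x) (f y) := by
  funext i
  unfold cvec
  fin_cases i <;> simp

private theorem j5_cmat_map {R S : Type} [CommRing R] [CommRing S] (f : R →+* S)
    (P Q : Fin 3 → R × R) :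
    f.mapMatrix (cmat P Q) =
      cmat (fun j => (f (P j).1, f (P j).2)) (fun i => (f (Q i).1, f (Q i).2)) := by
  have h : ∀ x y : R, ∀ i, f (cvec x y i) = cvec (f x) (f y) i := fun x y i =>
    congrFun (j5_cvec_map f x y) i
  ext a b
  rw [RingHom.mapMatrix_apply, Matrix.map_apply]
  unfold cmat
  fin_cases a <;> exact h _ _ b

/-- a vector orthogonal to six independent vectors of `K^6` is zero -/
private theorem j5_ortho {K : Type} [Field K] (v : Fin 6 → Fin 6 → K)
    (hv : LinearIndependent K v) (c : Fin 6 → K) (h : ∀ j, v j ⬝ᵥ c = 0) : c = 0 := by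
  have hu : IsUnit (Matrix.of v) := by
    rw [← Matrix.linearIndependent_rows_iff_isUnit]
    exact hv
  have h0 : (Matrix.of v).mulVec c = 0 := by
    funext j
    exact h j
  have hdet : (Matrix.of v).det ≠ 0 := by
    rw [Matrix.isUnit_iff_isUnit_det] at hu
    exact hu.ne_zero
  exact Matrix.eq_zero_of_mulVec_eq_zero hdet h0

private theorem j5_enum {α : Type} (s : Finset α) (P : α → Prop) (inst : DecidablePred P)
    (x : ℝ) (h : x ≤ ((@Finset.filter α P inst s).card : ℝ)) (hx : 7 ≤ x) :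
    ∃ u : Fin 7 → α, Function.Injective u ∧ ∀ i, u i ∈ s ∧ P (u i) := by
  have h7 : 7 ≤ (@Finset.filter α P inst s).card := by exact_mod_cast hx.trans h
  obtain ⟨U, hU, hUc⟩ := exists_subset_card_eq h7
  let e := (U.equivFinOfCardEq hUc).symm
  exact ⟨fun i => (e i : α), fun i i' h => e.injective (Subtype.ext h),
    fun i => mem_filter.1 (hU (e i).2)⟩

/-- the geometric part -/
private theorem j5_core (p : ℕ) [Fact p.Prime] (hp : 5 ≤ p) [CharP k p] [IsAlgClosed k]
    (D : ℕ) (hD : 1 ≤ D) (A B : Finset k[X]) (hA : ∀ s ∈ A, s.natDegree = D)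
    (hB : ∀ b ∈ B, b.natDegree ≤ D) (T : Fin 6 → k[X]) (u : Fin 7 → k[X])
    (hu : Function.Injective u) (huB : ∀ i, u i ∈ B) (hTA : ∀ i j, T j - u i ∈ A)
    (hgood : ∀ i, GoodRow p D (fun j => T j - u i)) :
    ¬ LinearIndependent (FractionRing k[X]) (fun j => kvec (T j - u 0)) := by
  intro hli
  have hinj : Function.Injective (algebraMap k[X] (FractionRing k[X])) :=
    IsFractionRing.injective k[X] (FractionRing k[X])
  set F := algebraMap k[X] (FractionRing k[X]) with hF
  have h2k : (2 : k) ≠ 0 := by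
    intro h
    have h1 : ((2 : ℕ) : k) = 0 := by exact_mod_cast h
    rw [CharP.cast_eq_zero_iff k p 2] at h1
    have := Nat.le_of_dvd (by norm_num) h1
    omega
  have h2 : (2 : FractionRing k[X]) ≠ 0 := by
    have e : (2 : FractionRing k[X]) = F (C (2 : k)) := by
      rw [show (C (2 : k) : k[X]) = 2 from rfl, map_ofNat]
    rw [e]
    intro h
    rw [map_eq_zero_iff F hinj, C_eq_zero] at h
    exact h2k h
  let P : Fin 6 → FractionRing k[X] × FractionRing k[X] := fun j =>
    (F (T j), F (derivative (T j)))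
  let Q : Fin 7 → FractionRing k[X] × FractionRing k[X] := fun i =>
    (F (u i), F (derivative (u i)))
  have hudeg : ∀ i, (u i).natDegree ≤ D := fun i => hB _ (huB i)
  have hTdeg : ∀ j, (T j).natDegree ≤ D := by
    intro j
    have e : T j = (T j - u 0) + u 0 := by ring
    rw [e]
    refine (natDegree_add_le _ _).trans (max_le ?_ (hudeg 0))
    exact (hA _ (hTA 0 j)).le
  have hP : Function.Injective P := by
    intro j l hjl
    by_contra hne
    have h1 : T j = T l := hinj (congrArg Prod.fst hjl)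
    have h3 := (hgood 0).1 j l hne
    simp only [h1] at h3
    exact h3 (wronskian_self_eq_zero _)
  have hQ : Function.Injective Q := fun i i' h => hu (hinj (congrArg Prod.fst h))
  have hdet : ∀ (J : Fin 3 → Fin 6) (I : Fin 3 → Fin 7), Function.Injective J →
      Function.Injective I → (cmat (P ∘ J) (Q ∘ I)).det = 0 := by
    intro J I hJ hI
    have h3 := six_points p D hD (fun j => T (J j)) (fun i => u (I i)) (fun j => hTdeg _)
      (fun i => hudeg _) (fun i j => hA _ (hTA (I i) (J j)))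
      (fun i => (hgood (I i)).2 (J 0) (J 1) (J 2) (fun h => absurd (hJ h) (by decide))
        (fun h => absurd (hJ h) (by decide)) (fun h => absurd (hJ h) (by decide)))
    have h4 := congrArg F h3
    rw [map_zero, RingHom.map_det, j5_cmat_map] at h4
    exact h4
  have hcol : ∀ j l i, j ≠ l →
      ((P j).1 - (Q i).1) * ((P l).2 - (Q i).2) ≠ ((P l).1 - (Q i).1) * ((P j).2 - (Q i).2) := by
    intro j l i hjl h
    have h3 := (hgood i).1 j l hjl
    apply h3
    apply hinj
    unfold wronskian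
    rw [map_zero, map_sub, map_mul, map_mul, derivative_sub, derivative_sub, map_sub, map_sub,
      map_sub, map_sub]
    have h4 : (F (T j) - F (u i)) * (F (derivative (T l)) - F (derivative (u i))) =
      (F (T l) - F (u i)) * (F (derivative (T j)) - F (derivative (u i))) := h
    linear_combination h4
  obtain ⟨c, hc, hcP⟩ := conic_geometry h2 P Q hP hQ hdet hcol
  obtain ⟨c', hc', htr⟩ := conic_translate c hc (Q 0)
  refine hc' (j5_ortho _ hli c' fun j => ?_)
  show kvec (T j - u 0) ⬝ᵥ c' = 0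
  unfold kvec
  rw [j5_cval, htr, derivative_sub, map_sub, map_sub]
  have h5 : F (T j) - F (u 0) + (Q 0).1 = (P j).1 := by
    show F (T j) - F (u 0) + F (u 0) = F (T j)
    ring
  have h6 : F (derivative (T j)) - F (derivative (u 0)) + (Q 0).2 = (P j).2 := by
    show F (derivative (T j)) - F (derivative (u 0)) + F (derivative (u 0)) =
      F (derivative (T j))
    ring
  rw [h5, h6]
  exact hcP j

theorem conic_tuples (p : ℕ) [Fact p.Prime] (hp : 5 ≤ p) [CharP k p] [IsAlgClosed k]
    (θ : ℝ) (hθ : 0 < θ) :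
    ∃ ε₀ r₀ : ℝ, 0 < ε₀ ∧ ε₀ ≤ 1 / 10 ∧ 0 < r₀ ∧ r₀ ≤ 1 ∧ ∀ α : ℝ, 1 / 2 < α → α ≤ 1 / 2 + ε₀ →
    ∀ (D : ℕ) (A B : Finset k[X]), NF p α D A B → ratio α A B ≤ r₀ →
    (((Fintype.piFinset (fun _ : Fin 6 => A)).filter (fun s => GoodRow p D s ∧
      LinearIndependent (FractionRing k[X]) (fun j => kvec (s j)))).card : ℝ) ≤
      θ * (A.card : ℝ) ^ 6 := by
  obtain ⟨r₀, hr₀, hr₀', hcard⟩ := card_large (G := k[X]) (⌈(7 / θ) ^ 2⌉₊)
  refine ⟨1 / 60, r₀, by norm_num, by norm_num, hr₀, hr₀', ?_⟩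
  intro α hα hα' D A B hNF hr
  by_contra hcon
  push Not at hcon
  set S := (Fintype.piFinset (fun _ : Fin 6 => A)).filter (fun s => GoodRow p D s ∧
      LinearIndependent (FractionRing k[X]) (fun j => kvec (s j))) with hS
  have hmemS : ∀ s, s ∈ S ↔ (∀ j, s j ∈ A) ∧ GoodRow p D s ∧
      LinearIndependent (FractionRing k[X]) (fun j => kvec (s j)) := by
    intro s
    rw [hS, mem_filter, Fintype.mem_piFinset]
  clear_value S
  obtain ⟨T, hT⟩ := pigeonhole 6 (by norm_num) α hα (by norm_num at hα' ⊢; exact hα') A B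
    hNF.red.1 hNF.red.2.1 (hr.trans hr₀') S (fun s hs => ((hmemS s).1 hs).1) θ hθ.le hcon.le
  have hbig : (7 / θ) ^ 2 ≤ (A.card : ℝ) := by
    have h1 := hcard α hα (by linarith) A B hNF.red.1 hNF.red.2.1 hr
    calc (7 / θ) ^ 2 ≤ (⌈(7 / θ) ^ 2⌉₊ : ℝ) := Nat.le_ceil _
      _ ≤ (A.card : ℝ) := by exact_mod_cast h1
  have h7 : (7 : ℝ) ≤ θ * (A.card : ℝ) ^ ((1 : ℝ) / 2) := by
    rw [← Real.sqrt_eq_rpow]
    have h1 : 7 / θ ≤ Real.sqrt (A.card : ℝ) := Real.le_sqrt_of_sq_le hbig
    calc (7 : ℝ) = θ * (7 / θ) := by field_simp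
      _ ≤ θ * Real.sqrt (A.card : ℝ) := mul_le_mul_of_nonneg_left h1 hθ.le
  obtain ⟨u, huinj, huS⟩ := j5_enum _ _ _ _ hT h7
  have hA' : ∀ i j, T j - u i ∈ A := fun i => ((hmemS _).1 (huS i).2).1
  have hG' : ∀ i, GoodRow p D (fun j => T j - u i) := fun i => ((hmemS _).1 (huS i).2).2.1
  have hL' : LinearIndependent (FractionRing k[X]) (fun j => kvec (T j - u 0)) :=
    ((hmemS _).1 (huS 0).2).2.2
  exact j5_core p hp D hNF.Dpos A B hNF.degA hNF.degB T u huinj (fun i => (huS i).1) hA' hG' hL'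

end H315
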