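import Pool.Agent.H315R2.Sq.Defs
import Pool.Agent.H315R2.Sq.B
import Pool.Agent.H315R2.Sq.X
import Pool.Agent.H315R2.Sq.H3
import Pool.Agent.H315R2.Sq.J5

/-! # J6: the final contradiction (helper128) -/

open Polynomial Finset
open scoped Classical Pointwise

namespace H315

variable {k : Type} [Field k]

theorem j6_dot {K : Type} [Field K] (c : Fin 6 → K) (x y : K) : c ⬝ᵥ cvec x y = cval c x y := by
  simp [dotProduct, cvec, cval, Fin.sum_univ_six]

/-- many injective triples -/
theorem j6_inj {ι : Type} (Y : Finset ι) :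
    Y.card.descFactorial 3 ≤
      ((Fintype.piFinset (fun _ : Fin 3 => Y)).filter (fun s => Function.Injective s)).card := by
  have h1 : Y.card.descFactorial 3 = Fintype.card (Fin 3 ↪ Y) := by
    rw [Fintype.card_embedding_eq]; simp
  rw [h1, ← card_univ]
  apply card_le_card_of_injOn (fun e : Fin 3 ↪ Y => (fun j => ((e j : Y) : ι)))
  · intro e _
    simp only [coe_filter, Fintype.mem_piFinset, Set.mem_setOf_eq]
    refine ⟨fun j => (e j).2, ?_⟩
    intro i j h
    exact e.injective (Subtype.ext h)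
  · intro e _ e' _ h
    apply DFunLike.ext
    intro j
    exact Subtype.ext (congrFun h j)

/-- points on an affine line have vanishing Wronskians of differences -/
theorem j6_line (l : Fin 3 → FractionRing k[X]) (hl : l 0 ≠ 0 ∨ l 1 ≠ 0) (s₁ s₂ s₃ : k[X])
    (h1 : lval l (algebraMap k[X] (FractionRing k[X]) s₁)
      (algebraMap k[X] (FractionRing k[X]) (derivative s₁)) = 0)
    (h2 : lval l (algebraMap k[X] (FractionRing k[X]) s₂)
      (algebraMap k[X] (FractionRing k[X]) (derivative s₂)) = 0)
    (h3 : lval l (algebraMap k[X] (FractionRing k[X]) s₃)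
      (algebraMap k[X] (FractionRing k[X]) (derivative s₃)) = 0) :
    wronskian (s₁ - s₂) (s₁ - s₃) = 0 := by
  apply IsFractionRing.injective k[X] (FractionRing k[X])
  rw [map_zero, wronskian, derivative_sub, derivative_sub]
  simp only [map_sub, map_mul]
  set x1 := algebraMap k[X] (FractionRing k[X]) s₁
  set x2 := algebraMap k[X] (FractionRing k[X]) s₂
  set x3 := algebraMap k[X] (FractionRing k[X]) s₃
  set y1 := algebraMap k[X] (FractionRing k[X]) (derivative s₁)
  set y2 := algebraMap k[X] (FractionRing k[X]) (derivative s₂)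
  set y3 := algebraMap k[X] (FractionRing k[X]) (derivative s₃)
  simp only [lval] at h1 h2 h3
  rcases hl with hl | hl
  · have : l 0 * ((x1 - x2) * (y1 - y3) - (y1 - y2) * (x1 - x3)) = 0 := by
      linear_combination (y1 - y3) * (h1 - h2) - (y1 - y2) * (h1 - h3)
    exact (mul_eq_zero.1 this).resolve_left hl
  · have : l 1 * ((x1 - x2) * (y1 - y3) - (y1 - y2) * (x1 - x3)) = 0 := by
      linear_combination (x1 - x2) * (h1 - h3) - (x1 - x3) * (h1 - h2)
    exact (mul_eq_zero.1 this).resolve_left hl

theorem no_NF (p : ℕ) [Fact p.Prime] (hp : 5 ≤ p) [CharP k p] [IsAlgClosed k] :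
    ∃ ε₀ r₀ : ℝ, 0 < ε₀ ∧ ε₀ ≤ 1 / 10 ∧ 0 < r₀ ∧ r₀ ≤ 1 ∧ ∀ α : ℝ, 1 / 2 < α → α ≤ 1 / 2 + ε₀ →
    ∀ (D : ℕ) (A B : Finset k[X]), NF p α D A B → ratio α A B ≤ r₀ → False := by
  obtain ⟨ε1, r1, hε1, hε1', hr1, hr1', H1⟩ := good_rows (k := k) p hp (1 / 256) (by norm_num)
  obtain ⟨ε2, r2, hε2, hε2', hr2, hr2', H2⟩ := conic_tuples (k := k) p hp (1 / 256) (by norm_num)
  obtain ⟨ε3, r3, hε3, hε3', hr3, hr3', H3⟩ := no_line (k := k) p hp
  obtain ⟨r4, hr4, hr4', H4⟩ := card_large (G := k[X]) 1000
  refine ⟨min (min ε1 ε2) (min ε3 (1 / 30)), min (min r1 r2) (min r3 r4),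
    lt_min (lt_min hε1 hε2) (lt_min hε3 (by norm_num)),
    ((min_le_left _ _).trans (min_le_left _ _)).trans hε1',
    lt_min (lt_min hr1 hr2) (lt_min hr3 hr4),
    ((min_le_left _ _).trans (min_le_left _ _)).trans hr1', ?_⟩
  intro α hα hα' D A B hNF hr
  have e1 : min (min ε1 ε2) (min ε3 (1 / 30)) ≤ ε1 := (min_le_left _ _).trans (min_le_left _ _)
  have e2 : min (min ε1 ε2) (min ε3 (1 / 30)) ≤ ε2 := (min_le_left _ _).trans (min_le_right _ _)
  have e3 : min (min ε1 ε2) (min ε3 (1 / 30)) ≤ ε3 := (min_le_right _ _).trans (min_le_left _ _)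
  have e4 : min (min ε1 ε2) (min ε3 (1 / 30)) ≤ 1 / 30 := (min_le_right _ _).trans (min_le_right _ _)
  have f1 : ratio α A B ≤ r1 := hr.trans ((min_le_left _ _).trans (min_le_left _ _))
  have f2 : ratio α A B ≤ r2 := hr.trans ((min_le_left _ _).trans (min_le_right _ _))
  have f3 : ratio α A B ≤ r3 := hr.trans ((min_le_right _ _).trans (min_le_left _ _))
  have f4 : ratio α A B ≤ r4 := hr.trans ((min_le_right _ _).trans (min_le_right _ _))
  have hAne := hNF.red.1
  have hBne := hNF.red.2.1
  have hA : 1000 ≤ A.card := H4 α hα (by linarith) A B hAne hBne f4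
  have hA0 : (0 : ℝ) < A.card := by exact_mod_cast hAne.card_pos
  have g1 := H1 α hα (by linarith) D A B hNF f1
  have g2 := H2 α hα (by linarith) D A B hNF f2
  -- few independent tuples
  set PA := Fintype.piFinset (fun _ : Fin 6 => A) with hPA
  have hind : ((PA.filter (fun s => LinearIndependent (FractionRing k[X])
      (fun j => kvec (s j)))).card : ℝ) ≤ 1 / 128 * (A.card : ℝ) ^ 6 := by
    have hsub : PA.filter (fun s => LinearIndependent (FractionRing k[X]) (fun j => kvec (s j)))
        ⊆ (PA.filter (fun s => ¬ GoodRow p D s)) ∪ (PA.filter (fun s => GoodRow p D s ∧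
          LinearIndependent (FractionRing k[X]) (fun j => kvec (s j)))) := by
      intro s hs
      rw [mem_filter] at hs
      rw [mem_union, mem_filter, mem_filter]
      by_cases hg : GoodRow p D s
      · exact Or.inr ⟨hs.1, hg, hs.2⟩
      · exact Or.inl ⟨hs.1, hg⟩
    have := (card_le_card hsub).trans (card_union_le _ _)
    have h5 : ((PA.filter (fun s => LinearIndependent (FractionRing k[X])
        (fun j => kvec (s j)))).card : ℝ) ≤ ((PA.filter (fun s => ¬ GoodRow p D s)).card : ℝ)
        + ((PA.filter (fun s => GoodRow p D s ∧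
          LinearIndependent (FractionRing k[X]) (fun j => kvec (s j)))).card : ℝ) := by
      exact_mod_cast this
    linarith
  have hind2 : 64 * (PA.filter (fun s => LinearIndependent (FractionRing k[X])
      (fun j => kvec (s j)))).card < A.card ^ 6 := by
    have h6 : (0 : ℝ) < (A.card : ℝ) ^ 6 := by positivity
    have h7 : (64 : ℝ) * ((PA.filter (fun s => LinearIndependent (FractionRing k[X])
      (fun j => kvec (s j)))).card : ℝ) < (A.card : ℝ) ^ 6 := by linarith
    exact_mod_cast h7
  obtain ⟨c, hc, hX⟩ := greedy A (fun s : k[X] => kvec s) hind2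
  set Y := A.filter (fun s : k[X] => c ⬝ᵥ kvec s = 0) with hY
  have hX' : A.card ≤ 2 * Y.card := by rw [hY]; convert hX
  have hYc : ∀ s ∈ Y, cval c (algebraMap k[X] (FractionRing k[X]) s)
      (algebraMap k[X] (FractionRing k[X]) (derivative s)) = 0 := by
    intro s hs
    have := (mem_filter.1 hs).2
    rwa [kvec, j6_dot] at this
  set S := (Fintype.piFinset (fun _ : Fin 3 => Y)).filter (fun s => Function.Injective s) with hS
  have hScard : (1 / 16 : ℝ) * (A.card : ℝ) ^ 3 ≤ (S.card : ℝ) := by
    have h8 : Y.card.descFactorial 3 ≤ S.card := by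
      rw [hS]; convert j6_inj Y
    have h9 : Y.card.descFactorial 3 = Y.card * (Y.card - 1) * (Y.card - 2) := by
      simp [Nat.descFactorial]; ring
    rw [h9] at h8
    have hY2 : 500 ≤ Y.card := by omega
    have h10 : ((Y.card * (Y.card - 1) * (Y.card - 2) : ℕ) : ℝ)
        = (Y.card : ℝ) * ((Y.card : ℝ) - 1) * ((Y.card : ℝ) - 2) := by
      rw [Nat.cast_mul, Nat.cast_mul, Nat.cast_sub (by omega), Nat.cast_sub (by omega)]
      norm_num
    have h11 : (Y.card : ℝ) * ((Y.card : ℝ) - 1) * ((Y.card : ℝ) - 2) ≤ (S.card : ℝ) := by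
      rw [← h10]; exact_mod_cast h8
    refine le_trans ?_ h11
    have h12 : (A.card : ℝ) / 2 ≤ (Y.card : ℝ) := by
      have : (A.card : ℝ) ≤ 2 * (Y.card : ℝ) := by exact_mod_cast hX'
      linarith
    have h13 : (1000 : ℝ) ≤ A.card := by exact_mod_cast hA
    have h14 : (A.card : ℝ) / 2 * ((A.card : ℝ) / 2 - 1) * ((A.card : ℝ) / 2 - 2)
        ≤ (Y.card : ℝ) * ((Y.card : ℝ) - 1) * ((Y.card : ℝ) - 2) := by
      apply mul_le_mul _ (by linarith) (by linarith)
      · apply mul_nonneg <;> linarith
      · apply mul_le_mul h12 (by linarith) (by linarith) (by linarith)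
    refine le_trans ?_ h14
    nlinarith [mul_nonneg hA0.le hA0.le, mul_nonneg (mul_nonneg hA0.le hA0.le) hA0.le]
  have hSA : ∀ s ∈ S, ∀ j, s j ∈ A := by
    intro s hs j
    rw [hS, mem_filter, Fintype.mem_piFinset] at hs
    exact (mem_filter.1 (hs.1 j)).1
  obtain ⟨T, hT⟩ := pigeonhole 3 (by norm_num) α hα (by
    have e7 : (1 : ℝ) / (10 * ((3 : ℕ) : ℝ)) = 1 / 30 := by norm_num
    rw [e7]
    linarith) A B hAne hBne (hr.trans (((min_le_left _ _).trans (min_le_left _ _)).trans hr1'))
    S hSA (1 / 16) (by norm_num) hScard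
  -- two elements
  have hsqrt : (16 : ℝ) < (A.card : ℝ) ^ ((1 : ℝ) / 2) := by
    rw [← Real.sqrt_eq_rpow]
    apply Real.lt_sqrt_of_sq_lt
    have h13 : (1000 : ℝ) ≤ A.card := by exact_mod_cast hA
    norm_num; linarith
  have h2 : 1 < (B.filter (fun b => (fun j => T j - b) ∈ S)).card := by
    have hT' : 1 / 16 * (A.card : ℝ) ^ ((1 : ℝ) / 2)
        ≤ ((B.filter (fun b => (fun j => T j - b) ∈ S)).card : ℝ) := by convert hT
    have : (1 : ℝ) < ((B.filter (fun b => (fun j => T j - b) ∈ S)).card : ℝ) := by linarith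
    exact_mod_cast this
  obtain ⟨u1, hu1, u2, hu2, hne⟩ := one_lt_card.1 h2
  have hS1 := (mem_filter.1 hu1).2
  have hS2 := (mem_filter.1 hu2).2
  rw [hS, mem_filter, Fintype.mem_piFinset] at hS1 hS2
  have hinj := IsFractionRing.injective k[X] (FractionRing k[X])
  have h2K : (2 : FractionRing k[X]) ≠ 0 := by
    have h2k : (2 : k) ≠ 0 := by
      have := CharP.cast_eq_zero_iff k p 2
      intro h
      have h' : ((2 : ℕ) : k) = 0 := by exact_mod_cast h
      have := Nat.le_of_dvd (by norm_num) (this.1 h')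
      omega
    have h2p : (2 : k[X]) ≠ 0 := by
      intro h
      apply h2k
      have := congrArg (eval 0) h
      simpa using this
    intro h
    apply h2p
    apply hinj
    rw [map_zero, ← h]
    exact map_ofNat _ 2
  obtain ⟨l, m, hl, hm, hlm⟩ := conic_two_lines h2K c hc
    (algebraMap k[X] (FractionRing k[X]) (u1 - u2),
      algebraMap k[X] (FractionRing k[X]) (derivative (u1 - u2)))
    (by
      intro h
      have h' := (Prod.mk.inj h).1
      have : u1 - u2 = 0 := hinj (by rw [h', map_zero])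
      exact hne (sub_eq_zero.1 this))
    (fun j => (algebraMap k[X] (FractionRing k[X]) (T j - u1),
      algebraMap k[X] (FractionRing k[X]) (derivative (T j - u1))))
    (by
      intro i j h
      have h' := (Prod.mk.inj h).1
      exact hS1.2 (hinj h'))
    (fun j => hYc _ (hS1.1 j))
    (fun j => by
      have := hYc _ (hS2.1 j)
      have e5 : algebraMap k[X] (FractionRing k[X]) (T j - u1)
          + algebraMap k[X] (FractionRing k[X]) (u1 - u2)
          = algebraMap k[X] (FractionRing k[X]) (T j - u2) := by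
        rw [← map_add]; congr 1; ring
      have e6 : algebraMap k[X] (FractionRing k[X]) (derivative (T j - u1))
          + algebraMap k[X] (FractionRing k[X]) (derivative (u1 - u2))
          = algebraMap k[X] (FractionRing k[X]) (derivative (T j - u2)) := by
        rw [← map_add, ← derivative_add]; congr 2; ring
      show cval c (_ + _) (_ + _) = 0
      rw [e5, e6]
      exact this)
  -- one of the lines contains a quarter of `A`
  have key : ∀ l : Fin 3 → FractionRing k[X], (l 0 ≠ 0 ∨ l 1 ≠ 0) →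
      ¬ (A.card : ℝ) / 4 ≤ ((Y.filter (fun s : k[X] =>
        lval l (algebraMap k[X] (FractionRing k[X]) s)
          (algebraMap k[X] (FractionRing k[X]) (derivative s)) = 0)).card : ℝ) := by
    intro l hl hcard
    refine H3 α hα (by linarith) D A B hNF f3 _ ((filter_subset _ _).trans (filter_subset _ _))
      hcard ?_
    intro s₁ h1 s₂ h2 s₃ h3
    exact j6_line l hl s₁ s₂ s₃ (mem_filter.1 h1).2 (mem_filter.1 h2).2 (mem_filter.1 h3).2
  have k1 := key l hl
  have k2 := key m hm
  push Not at k1 k2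
  have hcov : Y ⊆ (Y.filter (fun s : k[X] =>
        lval l (algebraMap k[X] (FractionRing k[X]) s)
          (algebraMap k[X] (FractionRing k[X]) (derivative s)) = 0)) ∪
        (Y.filter (fun s : k[X] =>
        lval m (algebraMap k[X] (FractionRing k[X]) s)
          (algebraMap k[X] (FractionRing k[X]) (derivative s)) = 0)) := by
    intro s hs
    rw [mem_union, mem_filter (s := Y), mem_filter (s := Y)]
    rcases hlm _ _ (hYc s hs) with h | h
    · exact Or.inl ⟨hs, h⟩
    · exact Or.inr ⟨hs, h⟩
  have h15n := (card_le_card hcov).trans (card_union_le _ _)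
  have h15 : (Y.card : ℝ) ≤ ((Y.filter (fun s : k[X] =>
        lval l (algebraMap k[X] (FractionRing k[X]) s)
          (algebraMap k[X] (FractionRing k[X]) (derivative s)) = 0)).card : ℝ) +
        ((Y.filter (fun s : k[X] =>
        lval m (algebraMap k[X] (FractionRing k[X]) s)
          (algebraMap k[X] (FractionRing k[X]) (derivative s)) = 0)).card : ℝ) := by
    exact_mod_cast h15n
  have h16 : (A.card : ℝ) ≤ 2 * (Y.card : ℝ) := by exact_mod_cast hX'
  linarith

end H315
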