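import Pool.Agent.H315R2.Sq.Defs
import Pool.Agent.H315R2.Sq.A1
import Pool.Agent.H315R2.Sq.C3
import Pool.Agent.H315R2.Sq.J6

/-! # K1: growth over an algebraically closed field, and over any field of characteristic `p` -/

open Polynomial Finset
open scoped Classical Pointwise

namespace H315

variable {k : Type} [Field k]

theorem growth (p : ℕ) [Fact p.Prime] (hp : 5 ≤ p) [CharP k p] [IsAlgClosed k] :
    ∃ α c : ℝ, 1 / 2 < α ∧ 0 < c ∧ ∀ A B : Finset k[X], A.Nonempty → B.Nonempty → SqSet p A →
      c * ((A.card : ℝ) * (B.card : ℝ)) ^ α ≤ ((A + B).card : ℝ) := by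
  obtain ⟨ε₀, r₀, hε₀, hε₁, hr₀, hr₁, hno⟩ := no_NF (k := k) p hp
  have hp0 : (0 : ℝ) < p := by exact_mod_cast (by omega : 0 < p)
  set r := min r₀ (1 / (2 * p)) with hr
  have hrpos : 0 < r := lt_min hr₀ (by positivity)
  refine ⟨1 / 2 + ε₀, r, by linarith, hrpos, fun A B hA hB hsq => ?_⟩
  set α : ℝ := 1 / 2 + ε₀ with hα
  have hα1 : 1 / 2 < α := by rw [hα]; linarith
  have hα2 : α ≤ 3 / 5 := by rw [hα]; linarith
  by_contra hlt
  push Not at hlt
  have hApos : (0 : ℝ) < A.card := by exact_mod_cast hA.card_pos
  have hBpos : (0 : ℝ) < B.card := by exact_mod_cast hB.card_pos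
  have hratio : ratio α A B ≤ r := by
    rw [ratio, div_le_iff₀ (by positivity)]
    refine le_trans (le_of_eq ?_) hlt.le
    congr 2
    ext x
    simp only [Finset.mem_add]
  obtain ⟨A', hA', B', hB', hred, hrat⟩ := exists_red α A B hA hB
  have hrp : r < 1 / (p : ℝ) := by
    refine lt_of_le_of_lt (min_le_right _ _) ?_
    apply one_div_lt_one_div_of_lt hp0
    linarith
  obtain ⟨D, A'', B'', hNF, hrat', -⟩ := normal_form p (by omega) (fun A : Finset k[X] => SqSet p A)
    (stable_sq p (by omega)) α r hα1 hα2 hrp A' B' hred (hrat.trans hratio) (hsq.subset hA')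
  exact hno α hα1 le_rfl D A'' B'' hNF (hrat'.trans (min_le_left _ _))

/-- growth for sets of nonzero squares in `F_p[x]` -/
theorem growth_Fp (p : ℕ) [Fact p.Prime] (hp : 5 ≤ p) :
    ∃ α c : ℝ, 1 / 2 < α ∧ 0 < c ∧ ∀ A B : Finset (ZMod p)[X], A.Nonempty → B.Nonempty →
      (∀ s ∈ A, s ≠ 0 ∧ IsSquare s) →
      c * ((A.card : ℝ) * (B.card : ℝ)) ^ α ≤ ((A + B).card : ℝ) := by
  have : CharP (AlgebraicClosure (ZMod p)) p :=
    charP_of_injective_algebraMap (algebraMap (ZMod p) (AlgebraicClosure (ZMod p))).injective p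
  obtain ⟨α, c, hα, hc, hg⟩ := growth (k := AlgebraicClosure (ZMod p)) p hp
  refine ⟨α, c, hα, hc, fun A B hA hB hsq => ?_⟩
  set ι : (ZMod p)[X] →+* (AlgebraicClosure (ZMod p))[X] :=
    mapRingHom (algebraMap (ZMod p) (AlgebraicClosure (ZMod p))) with hι
  have hinj : Function.Injective ι := by
    rw [hι, coe_mapRingHom]
    exact map_injective _ (algebraMap (ZMod p) (AlgebraicClosure (ZMod p))).injective
  have hadd : (A.image ι) + (B.image ι) = (A + B).image ι := by
    rw [Finset.image_add]
  have h := hg (A.image ι) (B.image ι) (hA.image _) (hB.image _) ?_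
  · rw [hadd, Finset.card_image_of_injective _ hinj, Finset.card_image_of_injective _ hinj,
      Finset.card_image_of_injective _ hinj] at h
    exact h
  · constructor
    · intro s hs
      obtain ⟨s', hs', rfl⟩ := Finset.mem_image.1 hs
      refine ⟨?_, ?_⟩
      · intro h0
        apply (hsq s' hs').1
        apply hinj
        rw [h0, map_zero]
      · exact (hsq s' hs').2.map ι
    · intro s hs
      obtain ⟨s', hs', rfl⟩ := Finset.mem_image.1 hs
      have hs0 := (hsq s' hs').1
      have hsub : (A.image ι).filter (fun t => ∃ c : AlgebraicClosure (ZMod p), t = C c * ι s') ⊆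
          (Finset.univ : Finset (ZMod p)).image (fun c => ι (C c * s')) := by
        intro t ht
        rw [Finset.mem_filter] at ht
        obtain ⟨ht1, c, hc⟩ := ht
        obtain ⟨t', ht', rfl⟩ := Finset.mem_image.1 ht1
        rw [Finset.mem_image]
        refine ⟨t'.coeff s'.natDegree / s'.leadingCoeff, Finset.mem_univ _, ?_⟩
        have hl : s'.leadingCoeff ≠ 0 := leadingCoeff_ne_zero.2 hs0
        have h1 := congrArg (fun q => q.coeff s'.natDegree) hc
        simp only [hι, coe_mapRingHom, coeff_map, coeff_C_mul] at h1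
        have h2 : c = algebraMap (ZMod p) (AlgebraicClosure (ZMod p))
            (t'.coeff s'.natDegree / s'.leadingCoeff) := by
          rw [map_div₀]
          rw [eq_div_iff]
          · rw [h1]; rfl
          · intro h0
            apply hl
            apply (algebraMap (ZMod p) (AlgebraicClosure (ZMod p))).injective
            rw [h0, map_zero]
        rw [hc, h2, map_mul]
        congr 1
        simp [hι]
      calc _ ≤ ((Finset.univ : Finset (ZMod p)).image (fun c => ι (C c * s'))).card :=
            Finset.card_le_card hsub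
        _ ≤ (Finset.univ : Finset (ZMod p)).card := Finset.card_image_le
        _ = p := by rw [Finset.card_univ, ZMod.card]

end H315
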