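import Pool.Agent.H315R2.Sq.Defs

/-! # K2: no coset of a nontrivial subgroup of `F_p[x]` consists of squares (`p ≥ 5`) -/

open Polynomial Finset
open scoped Classical Pointwise

namespace H315

/-- an odd power of a polynomial is a square only if the polynomial is -/
theorem k2_isSquare_of_pow {K : Type} [Field K] (f : K[X]) (p : ℕ) (hp : Odd p)
    (h : IsSquare (f ^ p)) : IsSquare f := by
  obtain ⟨m, hm⟩ := hp
  obtain ⟨y, hy⟩ := h
  by_cases hf : f = 0
  · subst hf
    exact ⟨0, by ring⟩
  have h1 : (f ^ m) ^ 2 ∣ y ^ 2 := by
    refine ⟨f, ?_⟩
    rw [pow_two y, ← hy, hm]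
    ring
  have h2 : f ^ m ∣ y := (IsIntegrallyClosed.pow_dvd_pow_iff two_ne_zero).mp h1
  obtain ⟨z, hz⟩ := h2
  refine ⟨z, ?_⟩
  have h3 : (f ^ m) ^ 2 * f = (f ^ m) ^ 2 * (z * z) := by
    calc (f ^ m) ^ 2 * f = f ^ p := by rw [hm]; ring
      _ = y * y := hy
      _ = (f ^ m) ^ 2 * (z * z) := by rw [hz]; ring
  exact mul_left_cancel₀ (pow_ne_zero 2 (pow_ne_zero m hf)) h3

theorem k2_wronskian_shift {K : Type} [Field K] (a h : K[X]) (c : K) :
    wronskian (a + C c * h) h = wronskian a h := by
  simp only [wronskian, derivative_add, derivative_mul, derivative_C]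
  ring

theorem k2_dvd_wronskian {K : Type} [Field K] (y h : K[X]) : y ∣ wronskian (y * y) h := by
  simp only [wronskian, derivative_mul]
  exact ⟨y * derivative h - 2 * derivative y * h, by ring⟩

/-- the main induction -/
theorem k2_aux (p : ℕ) [Fact p.Prime] (hp : 5 ≤ p) (n : ℕ) :
    ∀ (a h : (ZMod p)[X]), h ≠ 0 → a.natDegree + h.natDegree = n →
      ¬ ∀ j : ZMod p, IsSquare (a + C j * h) := by
  induction n using Nat.strong_induction_on with
  | _ n ih =>
  intro a h hh hn hall
  have hpodd : Odd p := (Fact.out : p.Prime).odd_of_ne_two (by omega)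
  choose y hy using hall
  by_cases hco : IsCoprime a h
  · -- coprime case
    by_cases hW : wronskian a h = 0
    · -- both derivatives vanish
      obtain ⟨ha', hh'⟩ := hco.wronskian_eq_zero_iff.mp hW
      by_cases hD : a.natDegree + h.natDegree = 0
      · -- constants
        have ha0 : a.natDegree = 0 := by omega
        have hh0 : h.natDegree = 0 := by omega
        obtain ⟨α, hα⟩ := Polynomial.natDegree_eq_zero.mp ha0
        obtain ⟨β, hβ⟩ := Polynomial.natDegree_eq_zero.mp hh0
        have hβ0 : β ≠ 0 := by
          rintro rfl
          apply hh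
          rw [← hβ, C_0]
        obtain ⟨ν, hν⟩ := FiniteField.exists_nonsquare (F := ZMod p)
          (by rw [ZMod.ringChar_zmod_n]; omega)
        apply hν
        have h1 := hy ((ν - α) / β)
        refine ⟨(y ((ν - α) / β)).eval 0, ?_⟩
        rw [← eval_mul, ← h1, ← hα, ← hβ]
        simp only [eval_add, eval_mul, eval_C]
        field_simp
        ring
      · -- pass to p-th roots
        have hp0 : p ≠ 0 := by omega
        have ea : expand (ZMod p) p (contract p a) = a := expand_contract p ha' hp0
        have eh : expand (ZMod p) p (contract p h) = h := expand_contract p hh' hp0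
        have hda : a.natDegree = (contract p a).natDegree * p := by
          conv_lhs => rw [← ea]
          exact natDegree_expand p _
        have hdh : h.natDegree = (contract p h).natDegree * p := by
          conv_lhs => rw [← eh]
          exact natDegree_expand p _
        have hlt : (contract p a).natDegree + (contract p h).natDegree < n := by
          rw [hda, hdh] at hn hD
          rw [← hn]
          have h1 : 0 < (contract p a).natDegree + (contract p h).natDegree := by
            by_contra hcon
            have h2 : (contract p a).natDegree = 0 := by omega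
            have h3 : (contract p h).natDegree = 0 := by omega
            rw [h2, h3] at hD
            omega
          nlinarith
        apply ih _ hlt (contract p a) (contract p h) _ rfl
        · intro j
          apply k2_isSquare_of_pow _ p hpodd
          rw [← ZMod.expand_card, map_add, map_mul, expand_C, ea, eh]
          exact ⟨y j, hy j⟩
        · intro h0
          apply hh
          rw [← eh, h0, map_zero]
    · -- Wronskian nonzero
      exfalso
      have hdvd : ∀ j, y j ∣ wronskian a h := by
        intro j
        rw [← k2_wronskian_shift a h j, hy j]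
        exact k2_dvd_wronskian _ _
      have hcop : ∀ i j : ZMod p, i ≠ j → IsCoprime (y i) (y j) := by
        intro i j hij
        have h1 : IsCoprime (a + C i * h) h := by
          rw [IsCoprime.add_mul_right_left_iff]
          exact hco
        have h2 : IsCoprime (a + C i * h) (a + C j * h) := by
          have hu : IsUnit (C (j - i)) := by
            rw [Polynomial.isUnit_C]
            exact (sub_ne_zero.mpr (Ne.symm hij)).isUnit
          have h3 : IsCoprime (a + C i * h) (C (j - i) * h) :=
            (isCoprime_mul_unit_left_right hu _ _).mpr h1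
          have h4 : a + C j * h = C (j - i) * h + 1 * (a + C i * h) := by
            rw [C_sub]; ring
          rw [h4]
          exact IsCoprime.add_mul_right_right_iff.mpr h3
        rw [hy i, hy j] at h2
        exact (h2.of_mul_left_left).of_mul_right_left
      set D := max a.natDegree h.natDegree with hDdef
      have hWdeg : (wronskian a h).natDegree < a.natDegree + h.natDegree :=
        natDegree_wronskian_lt_add hW
      have hD1 : 1 ≤ D := by
        by_contra hcon
        have h1 : a.natDegree ≤ D := le_max_left _ _
        have h2 : h.natDegree ≤ D := le_max_right _ _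
        omega
      set T : Finset (ZMod p) := univ.filter (fun j => (a + C j * h).natDegree = D) with hT
      have hTc : (univ.filter (fun j : ZMod p => ¬ (a + C j * h).natDegree = D)).card ≤ 1 := by
        rw [Finset.card_le_one]
        intro i hi j hj
        rw [Finset.mem_filter] at hi hj
        by_contra hij
        have hle : ∀ l : ZMod p, (a + C l * h).natDegree ≤ D := by
          intro l
          apply (natDegree_add_le _ _).trans
          apply max_le_max le_rfl
          exact natDegree_C_mul_le _ _
        have hi' : (a + C i * h).natDegree < D := lt_of_le_of_ne (hle i) hi.2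
        have hj' : (a + C j * h).natDegree < D := lt_of_le_of_ne (hle j) hj.2
        have hne : i - j ≠ 0 := sub_ne_zero.mpr hij
        have h1 : h.natDegree < D := by
          have e1 : C (i - j) * h = (a + C i * h) - (a + C j * h) := by rw [C_sub]; ring
          have e2 : (C (i - j) * h).natDegree = h.natDegree := natDegree_C_mul hne
          rw [← e2, e1]
          exact (natDegree_sub_le _ _).trans_lt (max_lt hi' hj')
        have h2 : a.natDegree < D := by
          have e1 : a = (a + C i * h) - C i * h := by ring
          rw [e1]
          apply (natDegree_sub_le _ _).trans_lt (max_lt hi' _)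
          exact (natDegree_C_mul_le _ _).trans_lt h1
        have : D < D := by
          conv_lhs => rw [hDdef]
          exact max_lt h2 h1
        omega
      have hTcard : 4 ≤ T.card := by
        have h1 := Finset.card_filter_add_card_filter_not (s := (univ : Finset (ZMod p)))
          (fun j => (a + C j * h).natDegree = D)
        rw [Finset.card_univ, ZMod.card] at h1
        rw [hT]
        omega
      have hprod : ∏ j ∈ T, y j ∣ wronskian a h := by
        apply Finset.prod_dvd_of_coprime
        · intro i _ j _ hij
          exact hcop i j hij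
        · intro i _
          exact hdvd i
      have hyne : ∀ j ∈ T, y j ≠ 0 := by
        intro j hj h0
        rw [hT, Finset.mem_filter] at hj
        have h1 := hy j
        rw [h0, mul_zero] at h1
        rw [h1, natDegree_zero] at hj
        omega
      have hdeg := natDegree_le_of_dvd hprod hW
      rw [natDegree_prod _ _ hyne] at hdeg
      have h2y : ∀ j ∈ T, 2 * (y j).natDegree = D := by
        intro j hj
        have h0 := hyne j hj
        rw [hT, Finset.mem_filter] at hj
        rw [← hj.2, hy j, natDegree_mul h0 h0]
        ring
      have h3 : 2 * ∑ j ∈ T, (y j).natDegree = T.card * D := by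
        rw [Finset.mul_sum, Finset.sum_congr rfl h2y, Finset.sum_const, smul_eq_mul]
      have h4 : a.natDegree ≤ D := le_max_left _ _
      have h5 : h.natDegree ≤ D := le_max_right _ _
      have h6 : 4 * D ≤ T.card * D := Nat.mul_le_mul_right D hTcard
      omega
  · -- common prime factor
    have hex : ∃ π : (ZMod p)[X], Prime π ∧ π ∣ a ∧ π ∣ h := by
      by_contra hcon
      apply hco
      apply isCoprime_of_prime_dvd
      · rintro ⟨_, h0⟩
        exact hh h0
      · intro z hz hza hzh
        exact hcon ⟨z, hz, hza, hzh⟩
    obtain ⟨π, hπ, hπa, hπh⟩ := hex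
    have hπy : ∀ j, π ∣ y j := by
      intro j
      have h1 : π ∣ y j * y j := by
        rw [← hy j]
        exact dvd_add hπa (hπh.mul_left _)
      rcases hπ.dvd_or_dvd h1 with h | h <;> exact h
    have hsq : ∀ j, π * π ∣ a + C j * h := by
      intro j
      rw [hy j]
      exact mul_dvd_mul (hπy j) (hπy j)
    have h0 : π * π ∣ a := by
      have := hsq 0
      rwa [C_0, zero_mul, add_zero] at this
    have h1 : π * π ∣ h := by
      have := hsq 1
      rw [C_1, one_mul] at this
      exact (dvd_add_right h0).mp this
    obtain ⟨a1, ha1⟩ := h0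
    obtain ⟨h1', hh1⟩ := h1
    have hππ : π * π ≠ 0 := mul_ne_zero hπ.ne_zero hπ.ne_zero
    have hh1ne : h1' ≠ 0 := by
      rintro rfl
      apply hh
      rw [hh1, mul_zero]
    have hdeg : 1 ≤ π.natDegree := by
      rw [Nat.one_le_iff_ne_zero]
      intro hcon
      apply hπ.not_unit
      rw [natDegree_eq_zero] at hcon
      obtain ⟨c, hc⟩ := hcon
      rw [← hc, isUnit_C]
      apply IsUnit.mk0
      rintro rfl
      apply hπ.ne_zero
      rw [← hc, C_0]
    have hda : a1.natDegree ≤ a.natDegree := by
      by_cases ha : a1 = 0
      · rw [ha, natDegree_zero]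
        exact Nat.zero_le _
      · rw [ha1, natDegree_mul hππ ha]
        omega
    have hdh : h1'.natDegree < h.natDegree := by
      rw [hh1, natDegree_mul hππ hh1ne, natDegree_mul hπ.ne_zero hπ.ne_zero]
      omega
    apply ih (a1.natDegree + h1'.natDegree) (by omega) a1 h1' hh1ne rfl
    intro j
    obtain ⟨z, hz⟩ := hπy j
    refine ⟨z, ?_⟩
    apply mul_left_cancel₀ hππ
    calc π * π * (a1 + C j * h1') = a + C j * h := by rw [ha1, hh1]; ring
      _ = y j * y j := hy j
      _ = π * π * (z * z) := by rw [hz]; ring

theorem no_coset (p : ℕ) [Fact p.Prime] (hp : 5 ≤ p) (a h : (ZMod p)[X]) (hh : h ≠ 0) :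
    ∃ j : ZMod p, ¬ IsSquare (a + C j * h) := by
  by_contra hcon
  push Not at hcon
  exact k2_aux p hp _ a h hh rfl hcon

theorem add_self_card (p : ℕ) [Fact p.Prime] (hp : 5 ≤ p) (A : Finset (ZMod p)[X])
    (hA : ∀ f ∈ A, IsSquare f) (h2 : 2 ≤ A.card) : A.card + 1 ≤ (A + A).card := by
  have hne : A.Nonempty := Finset.card_pos.mp (by omega)
  obtain ⟨a0, ha0⟩ := hne
  have hsub : A.image (fun x => a0 + x) ⊆ A + A := by
    intro x hx
    rw [Finset.mem_image] at hx
    obtain ⟨y, hy, rfl⟩ := hx
    exact Finset.add_mem_add ha0 hy
  have hcard : (A.image (fun x => a0 + x)).card = A.card :=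
    Finset.card_image_of_injective _ (add_right_injective a0)
  by_contra hcon
  have hle : (A + A).card ≤ (A.image (fun x => a0 + x)).card := by rw [hcard]; omega
  have heq := Finset.eq_of_subset_of_card_le hsub hle
  have hclosed : ∀ u ∈ A, ∀ v ∈ A, u + v - a0 ∈ A := by
    intro u hu v hv
    have h1 : u + v ∈ A.image (fun x => a0 + x) := by
      rw [heq]; exact Finset.add_mem_add hu hv
    rw [Finset.mem_image] at h1
    obtain ⟨w, hw, hwe⟩ := h1
    have : u + v - a0 = w := by rw [← hwe]; ring
    rw [this]
    exact hw
  obtain ⟨b, hb, hba⟩ := Finset.exists_mem_ne (by omega : 1 < A.card) a0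
  have hmem : ∀ n : ℕ, a0 + n • (b - a0) ∈ A := by
    intro n
    induction n with
    | zero => rw [zero_smul, add_zero]; exact ha0
    | succ n ih =>
      have h1 := hclosed _ ih _ hb
      have h2 : a0 + n • (b - a0) + b - a0 = a0 + (n + 1) • (b - a0) := by
        rw [add_smul, one_smul]; ring
      rw [h2] at h1
      exact h1
  obtain ⟨j, hj⟩ := no_coset p hp a0 (b - a0) (sub_ne_zero.mpr hba)
  apply hj
  have h1 := hA _ (hmem j.val)
  have h2 : a0 + j.val • (b - a0) = a0 + C j * (b - a0) := by
    rw [nsmul_eq_mul]
    congr 2
    rw [← map_natCast C j.val, ZMod.natCast_zmod_val]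
  rw [h2] at h1
  exact h1

end H315
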