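import Pool.Agent.H315R2.Sq.Defs
import Pool.Agent.H315R2.Sq.K1
import Pool.Agent.H315R2.Sq.K2

/-! # K3: the final theorem -/

open Polynomial Finset
open scoped Classical Pointwise

namespace H315

/-- For large `n` the constant is absorbed. -/
theorem k3_absorb (c δ : ℝ) (hc : 0 < c) (hδ : 0 < δ) : ∃ n₀ : ℕ, 2 ≤ n₀ ∧ ∀ n : ℕ, n₀ ≤ n →
    (n : ℝ) ^ (1 + δ / 2) ≤ c * ((n : ℝ) - 1) ^ (1 + δ) := by
  obtain ⟨M, hM⟩ : ∃ M : ℝ, 1 ≤ M ∧ ∀ x : ℝ, M ≤ x → 2 ^ (1 + δ) / c ≤ x ^ (δ / 2) := by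
    have := (tendsto_rpow_atTop (half_pos hδ)).eventually_ge_atTop (2 ^ (1 + δ) / c)
    obtain ⟨M, hM⟩ := Filter.eventually_atTop.1 this
    exact ⟨max M 1, le_max_right _ _, fun x hx => hM x (le_trans (le_max_left _ _) hx)⟩
  refine ⟨max 2 ⌈M⌉₊, le_max_left _ _, fun n hn => ?_⟩
  have hn2 : (2 : ℝ) ≤ n := by exact_mod_cast le_trans (le_max_left _ _) hn
  have hnM : M ≤ n := le_trans (Nat.le_ceil M) (by exact_mod_cast le_trans (le_max_right _ _) hn)
  have h1 := hM.2 n hnM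
  have hpos : (0 : ℝ) < n := by linarith
  have h2 : (n : ℝ) / 2 ≤ n - 1 := by linarith
  have h3 : ((n : ℝ) / 2) ^ (1 + δ) ≤ ((n : ℝ) - 1) ^ (1 + δ) :=
    Real.rpow_le_rpow (by positivity) h2 (by linarith)
  have h4 : ((n : ℝ) / 2) ^ (1 + δ) = (n : ℝ) ^ (1 + δ) / 2 ^ (1 + δ) :=
    Real.div_rpow hpos.le (by norm_num) _
  have h5 : (n : ℝ) ^ (1 + δ) = (n : ℝ) ^ (1 + δ / 2) * (n : ℝ) ^ (δ / 2) := by
    rw [← Real.rpow_add hpos]; congr 1; ring
  have h6 : 0 < (2 : ℝ) ^ (1 + δ) := by positivity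
  have h7 : 0 < (n : ℝ) ^ (1 + δ / 2) := by positivity
  calc (n : ℝ) ^ (1 + δ / 2) = c * ((n : ℝ) ^ (1 + δ / 2) * (2 ^ (1 + δ) / c) / 2 ^ (1 + δ)) := by
        field_simp
    _ ≤ c * ((n : ℝ) ^ (1 + δ / 2) * (n : ℝ) ^ (δ / 2) / 2 ^ (1 + δ)) := by
        gcongr
    _ = c * ((n : ℝ) / 2) ^ (1 + δ) := by rw [h4, h5]
    _ ≤ c * ((n : ℝ) - 1) ^ (1 + δ) := by gcongr

/-- For small sets, strict growth by one is enough. -/
theorem k3_small (n₀ : ℕ) (hn₀ : 2 ≤ n₀) : ∃ ε : ℝ, 0 < ε ∧ ∀ n : ℕ, 1 ≤ n → n ≤ n₀ →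
    (n : ℝ) ^ (1 + ε) ≤ (n : ℝ) + 1 := by
  have hn0 : (1 : ℝ) < n₀ := by exact_mod_cast hn₀
  have hlog : 0 < Real.log n₀ := Real.log_pos hn0
  have hlog2 : 0 < Real.log (1 + 1 / n₀) := Real.log_pos (by
    have : (0 : ℝ) < 1 / n₀ := by positivity
    linarith)
  refine ⟨Real.log (1 + 1 / n₀) / Real.log n₀, by positivity, fun n h1 h2 => ?_⟩
  have hn1 : (1 : ℝ) ≤ n := by exact_mod_cast h1
  have hnn : (n : ℝ) ≤ n₀ := by exact_mod_cast h2
  have hpos : (0 : ℝ) < n := by linarith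
  set ε := Real.log (1 + 1 / n₀) / Real.log n₀ with hε
  have hε0 : 0 < ε := by positivity
  have h3 : (n : ℝ) ^ ε ≤ 1 + 1 / n₀ := by
    calc (n : ℝ) ^ ε ≤ (n₀ : ℝ) ^ ε := Real.rpow_le_rpow hpos.le hnn hε0.le
      _ = Real.exp (Real.log n₀ * ε) := by rw [Real.rpow_def_of_pos (by linarith)]
      _ = Real.exp (Real.log (1 + 1 / n₀)) := by
          congr 1; rw [hε]; field_simp
      _ = 1 + 1 / n₀ := Real.exp_log (by positivity)
  calc (n : ℝ) ^ (1 + ε) = n * (n : ℝ) ^ ε := by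
        rw [Real.rpow_add hpos, Real.rpow_one]
    _ ≤ n * (1 + 1 / n₀) := by gcongr
    _ = n + n / n₀ := by ring
    _ ≤ n + 1 := by
        have : (n : ℝ) / n₀ ≤ 1 := by
          rw [div_le_one (by linarith)]; exact hnn
        linarith

theorem q1_of_five_le (p : ℕ) [Fact p.Prime] (hp : 5 ≤ p) :
    ∃ ε : ℝ, 0 < ε ∧ ∀ A : Finset (ZMod p)[X], (∀ f ∈ A, IsSquare f) →
      (A.card : ℝ) ^ (1 + ε) ≤ ((A + A).card : ℝ) := by
  obtain ⟨α, c, hα, hc, hgrow⟩ := growth_Fp p hp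
  set δ : ℝ := 2 * α - 1 with hδdef
  have hδ : 0 < δ := by rw [hδdef]; linarith
  obtain ⟨n₀, hn₀2, hn₀⟩ := k3_absorb c δ hc hδ
  obtain ⟨ε₁, hε₁, hsmall⟩ := k3_small n₀ hn₀2
  refine ⟨min (δ / 2) ε₁, lt_min (by linarith) hε₁, fun A hA => ?_⟩
  set ε := min (δ / 2) ε₁ with hε
  have hε0 : 0 < ε := lt_min (by linarith) hε₁
  rcases Nat.lt_or_ge A.card 2 with hlt | h2
  · -- card 0 or 1
    rcases Finset.eq_empty_or_nonempty A with h0 | h0
    · subst h0
      simp only [Finset.card_empty, Nat.cast_zero]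
      rw [Real.zero_rpow (by linarith)]
      exact Nat.cast_nonneg _
    · have h1 : A.card = 1 := by
        have := h0.card_pos
        omega
      rw [h1]
      simp only [Nat.cast_one, Real.one_rpow]
      have : 0 < (A + A).card := (h0.add h0).card_pos
      exact_mod_cast this
  · have h2' : (1 : ℝ) ≤ A.card := by exact_mod_cast (by omega : 1 ≤ A.card)
    rcases le_total A.card n₀ with hle | hge
    · -- small sets
      have h3 := add_self_card p hp A hA h2
      have h4 := hsmall A.card (by omega) hle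
      calc (A.card : ℝ) ^ (1 + ε) ≤ (A.card : ℝ) ^ (1 + ε₁) :=
            Real.rpow_le_rpow_of_exponent_le h2' (by
              have := min_le_right (δ / 2) ε₁; rw [← hε] at this; linarith)
        _ ≤ (A.card : ℝ) + 1 := h4
        _ ≤ ((A + A).card : ℝ) := by exact_mod_cast h3
    · -- large sets
      set A' := A.erase 0 with hA'
      have hsub : A' ⊆ A := Finset.erase_subset _ _
      have hcard : A.card ≤ A'.card + 1 := by
        by_cases h0 : (0 : (ZMod p)[X]) ∈ A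
        · rw [hA', Finset.card_erase_of_mem h0]; omega
        · rw [hA', Finset.erase_eq_of_notMem h0]; omega
      have hne : A'.Nonempty := by
        rw [← Finset.card_pos]; omega
      have hsq : ∀ s ∈ A', s ≠ 0 ∧ IsSquare s := fun s hs =>
        ⟨Finset.ne_of_mem_erase hs, hA s (hsub hs)⟩
      have hg := hgrow A' A' hne hne hsq
      have h5 := hn₀ A.card hge
      have h6 : ((A.card : ℝ) - 1) ≤ A'.card := by
        have : (A.card : ℝ) ≤ A'.card + 1 := by exact_mod_cast hcard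
        linarith
      have h7 : ((A'.card : ℝ) * (A'.card : ℝ)) ^ α = (A'.card : ℝ) ^ (1 + δ) := by
        rw [← sq, ← Real.rpow_natCast, ← Real.rpow_mul (by positivity)]
        congr 1
        rw [hδdef]; push_cast; ring
      have h8 : (A' + A').card ≤ (A + A).card := Finset.card_le_card (Finset.add_subset_add hsub hsub)
      calc (A.card : ℝ) ^ (1 + ε) ≤ (A.card : ℝ) ^ (1 + δ / 2) :=
            Real.rpow_le_rpow_of_exponent_le h2' (by
              have := min_le_left (δ / 2) ε₁; rw [← hε] at this; linarith)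
        _ ≤ c * ((A.card : ℝ) - 1) ^ (1 + δ) := h5
        _ ≤ c * (A'.card : ℝ) ^ (1 + δ) := by
            have : ((A.card : ℝ) - 1) ^ (1 + δ) ≤ (A'.card : ℝ) ^ (1 + δ) :=
              Real.rpow_le_rpow (by linarith) h6 (by linarith)
            exact mul_le_mul_of_nonneg_left this hc.le
        _ = c * ((A'.card : ℝ) * (A'.card : ℝ)) ^ α := by rw [h7]
        _ ≤ ((A' + A').card : ℝ) := hg
        _ ≤ ((A + A).card : ℝ) := by exact_mod_cast h8

theorem q1_three_false :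
    ∃ A : Finset (ZMod 3)[X], (∀ f ∈ A, IsSquare f) ∧ A.card = 3 ∧ (A + A).card = 3 := by
  have h3 : (3 : (ZMod 3)[X]) = 0 := by
    have : ((3 : ℕ) : (ZMod 3)[X]) = 0 := CharP.cast_eq_zero _ 3
    exact_mod_cast this
  set s : (ZMod 3)[X] := (X ^ 2 + 1) ^ 2 with hs
  set h : (ZMod 3)[X] := X ^ 3 - X with hh
  have e1 : (X ^ 2 + X + 2) ^ 2 = s - h := by
    rw [hs, hh]
    linear_combination (X ^ 3 + X ^ 2 + X + 1) * h3
  have e2 : (2 * X ^ 2 + X + 1) ^ 2 = s + h := by
    rw [hs, hh]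
    linear_combination (X ^ 4 + X ^ 3 + X ^ 2 + X) * h3
  have hh0 : h ≠ 0 := by
    intro h0
    have := congrArg (fun q => q.coeff 3) h0
    simp [hh, coeff_X_pow, coeff_X] at this
  have h2h : s + h ≠ s - h := by
    intro h'
    have : (2 : (ZMod 3)[X]) * h = 0 := by linear_combination h'
    have h4 : h = 0 := by linear_combination (-1 : (ZMod 3)[X]) * this + h * h3
    exact hh0 h4
  have ha : s ≠ s - h := by
    intro h'; apply hh0; linear_combination h'
  have hb : s ≠ s + h := by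
    intro h'; apply hh0; linear_combination -h'
  refine ⟨{s, s + h, s - h}, ?_, ?_, ?_⟩
  · intro f hf
    simp only [Finset.mem_insert, Finset.mem_singleton] at hf
    rcases hf with rfl | rfl | rfl
    · exact ⟨X ^ 2 + 1, by rw [hs]; ring⟩
    · exact ⟨2 * X ^ 2 + X + 1, by rw [← e2]; ring⟩
    · exact ⟨X ^ 2 + X + 2, by rw [← e1]; ring⟩
  · rw [Finset.card_insert_of_notMem, Finset.card_insert_of_notMem, Finset.card_singleton]
    · simp only [Finset.mem_singleton]; exact h2h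
    · simp only [Finset.mem_insert, Finset.mem_singleton, not_or]; exact ⟨hb, ha⟩
  · have hset : ({s, s + h, s - h} : Finset (ZMod 3)[X]) + {s, s + h, s - h} =
        ({s, s + h, s - h} : Finset (ZMod 3)[X]).image (fun x => x + s) := by
      ext y
      simp only [Finset.mem_add, Finset.mem_image, Finset.mem_insert, Finset.mem_singleton]
      constructor
      · rintro ⟨a, ha, b, hb, rfl⟩
        rcases ha with rfl | rfl | rfl <;> rcases hb with rfl | rfl | rfl
        · exact ⟨s, Or.inl rfl, rfl⟩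
        · exact ⟨s + h, Or.inr (Or.inl rfl), by ring⟩
        · exact ⟨s - h, Or.inr (Or.inr rfl), by ring⟩
        · exact ⟨s + h, Or.inr (Or.inl rfl), by ring⟩
        · exact ⟨s - h, Or.inr (Or.inr rfl), by linear_combination -h * h3⟩
        · exact ⟨s, Or.inl rfl, by ring⟩
        · exact ⟨s - h, Or.inr (Or.inr rfl), by ring⟩
        · exact ⟨s, Or.inl rfl, by ring⟩
        · exact ⟨s + h, Or.inr (Or.inl rfl), by linear_combination h * h3⟩
      · rintro ⟨a, ha, rfl⟩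
        exact ⟨a, ha, s, Or.inl rfl, rfl⟩
    rw [hset, Finset.card_image_of_injective _ (add_left_injective s)]
    rw [Finset.card_insert_of_notMem, Finset.card_insert_of_notMem, Finset.card_singleton]
    · simp only [Finset.mem_singleton]; exact h2h
    · simp only [Finset.mem_insert, Finset.mem_singleton, not_or]; exact ⟨hb, ha⟩

end H315
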